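import Pool.Agent.PET.PDefs
/-!
# CDefs : definitions for the cycle moments and the constants
-/
set_option autoImplicit false
open scoped BigOperators Classical
open Filter MeasureTheory
noncomputable section
namespace Pool.Agent.PET

/-- eigenvalues of `Ad / 3` -/
def plam : Fin 10 → ℝ := ![1, 1/3, 1/3, 1/3, 1/3, 1/3, -2/3, -2/3, -2/3, -2/3]

/-- adjacency on pairs -/
def A2 (x y : Fin 10 × Fin 10) : Prop := padj x.1 y.1 ∧ padj x.2 y.2

/-- limit of the normalised first moment -/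
def K1c : ℝ := ∏ i : Fin 10, if i = 0 then 1 else 1 / Real.sqrt (1 - 2 * plam i)

/-- limit of the normalised second moment -/
def K2c : ℝ := ∏ p : Fin 10 × Fin 10, if p = (0, 0) then 1 else 1 / Real.sqrt (1 - 2 * (plam p.1 * plam p.2))

/-- upper bound for the weight of the configurations containing `e` given pairs -/
def H2 (w : ∀ t, (HE (2 * t) → HE (2 * t)) → ℝ) : Prop :=
  ∀ e : ℕ, ∃ C : ℝ, ∀ᶠ t : ℕ in atTop, ∀ a b : Fin e → HE (2 * t), Function.Injective (Sum.elim a b) →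
    ∑ f ∈ (PMs (HE (2 * t))).filter (fun f => ∀ i, f (a i) = b i), w t f ≤ C / (t : ℝ) ^ e

/-- the cycles of the tuple are pairwise vertex-disjoint (and each has distinct vertices) -/
def VDisj {r n : ℕ} {l : Fin r → ℕ} (T : ∀ i, Cyc (l i) n) : Prop :=
  Function.Injective (fun p : (Σ i : Fin r, Fin (l i)) => (T p.1 p.2).1)

/-- asymptotics of the weight of the configurations containing given vertex-disjoint cycles -/
def H1 (w : ∀ t, (HE (2 * t) → HE (2 * t)) → ℝ) (K : ℝ) (τ : ℕ → ℝ) : Prop :=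
  ∀ (r : ℕ) (l : Fin r → ℕ), (∀ i, 1 ≤ l i) → ∀ ε : ℝ, 0 < ε → ∀ᶠ t : ℕ in atTop,
    ∀ T : ∀ i, Cyc (l i) (2 * t), (∀ i, IsCyc (T i)) → VDisj T →
      |(6 * t : ℝ) ^ (∑ i, l i) *
          (∑ f ∈ (PMs (HE (2 * t))).filter (fun f => ∀ i, Real' f (T i)), w t f) - K * ∏ i, τ (l i)| ≤ ε

/-- tuples of pairwise distinct canonical cycles with lengths `l`, present in `f` -/
def Tup {r n : ℕ} (l : Fin r → ℕ) (f : HE n → HE n) : Finset (∀ i, Cyc (l i) n) :=
  Finset.univ.filter (fun T => (∀ i, Canon (T i) ∧ Real' f (T i)) ∧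
    ∀ i j, i ≠ j → (⟨l i, T i⟩ : Σ s, Cyc s n) ≠ ⟨l j, T j⟩)

/-- half-edges used by a cycle -/
def used {j n : ℕ} (c : Cyc j n) : Finset (HE n) :=
  Finset.univ.image (fun t => ((c t).1, (c t).2.1)) ∪ Finset.univ.image (fun t => ((c t).1, (c t).2.2))

/-- vertices visited by a tuple of cycles -/
def verts {r n : ℕ} {l : Fin r → ℕ} (T : ∀ i, Cyc (l i) n) : Finset (Fin n) :=
  Finset.univ.image (fun p : (Σ i : Fin r, Fin (l i)) => (T p.1 p.2).1)

/-- type vectors on the remaining `m` vertices such that the total (with the `u` marked vertices coloured by `c`) is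
`δ`-near uniform -/
def Nc (δ : ℝ) (u : ℕ) (c : Fin u → Fin 10) (m : ℕ) : Set (Fin m → Fin 10) :=
  {x | ∀ a, |((cntX x a + cntX c a : ℕ) : ℝ) / ((m + u : ℕ) : ℝ) - 1 / 10| ≤ δ}

/-- Gaussian integral with `d` leftover half-edges of colours `cc` -/
def Jint (S : Spec (Fin 10) (Fin 10)) (δ : ℝ) (u : ℕ) (c : Fin u → Fin 10) {d : ℕ} (cc : Fin d → Fin 10)
    (m : ℕ) : ℂ :=
  ∫ k, (∏ i, S.G k (cc i)) * S.F (Nc δ u c m) k ∂(gam (Fin 10))

/-- no loops and no double edges -/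
def Simp {n : ℕ} (f : HE n → HE n) : Prop :=
  ∀ h, (f h).1 ≠ h.1 ∧ ∀ h', h'.1 = h.1 → h' ≠ h → (f h').1 ≠ (f h).1

/-- no cycles of length `< g` -/
def NoShort (g : ℕ) {n : ℕ} (f : HE n → HE n) : Prop := ∀ j, 1 ≤ j → j < g → XC j f = 0

/-- there is no balanced homomorphism -/
def NoZ (δ : ℝ) {n : ℕ} (f : HE n → HE n) : Prop := Zf δ f = 0

/-- simple graph underlying a configuration -/
def Gr {n : ℕ} (f : HE n → HE n) : SimpleGraph (Fin n) where
  Adj u v := u ≠ v ∧ ((∃ i j, f (u, i) = (v, j)) ∨ (∃ i j, f (v, i) = (u, j)))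
  symm := ⟨fun _ _ h => ⟨h.1.symm, h.2.symm⟩⟩
  loopless := ⟨fun _ h => h.1 rfl⟩

/-- no homomorphism to the Petersen graph -/
def NoHom {V : Type} (G : SimpleGraph V) : Prop := ¬ Nonempty (G →g petersen)

/-- cubic graphs -/
def IsCubic {V : Type} (G : SimpleGraph V) : Prop := ∀ v, (G.neighborSet v).ncard = 3

end Pool.Agent.PET
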