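import Pool.Agent.PET.CDefs
/-!
# CanCnt : number of canonical cycles

`#{c : Cyc j n | Canon c} = 3·6^{j-1} · #{injective v : Fin j → Fin n with v 0 minimal}` (at the root the pair (in,out) with `in < out`: 3 choices,
at the others `in ≠ out`: 6 choices) and the number of injective sequences with minimal root is `n(n-1)…(n-j+1)/j`
(rotate the minimum to position 0: (injective sequence) ↦ (its rotation with minimal root, shift) is a bijection onto
(minimal-rooted sequences) × Fin j; or: choose the smallest element `v0` and an injective sequence in the larger ones,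
`∑_{v0} (n-1-v0)_{j-1} = (n)_j/j`, hockey stick).  Divide by `n^j`: limit `3·6^{j-1}/j = 6^j/(2j)`.
-/
set_option autoImplicit false
open scoped BigOperators Classical
open Filter MeasureTheory
noncomputable section
namespace Pool.Agent.PET

/-- injective sequences with minimal root -/
def CanCnt_V (m n : ℕ) (s : Fin (m + 1)) : Finset (Fin (m + 1) ↪ Fin n) :=
  Finset.univ.filter (fun v => ∀ t, v s ≤ v t)

theorem CanCnt_swap (m n : ℕ) (s : Fin (m + 1)) : (CanCnt_V m n s).card = (CanCnt_V m n 0).card := by
  apply Finset.card_nbij' (fun v => (Equiv.swap 0 s).toEmbedding.trans v)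
    (fun v => (Equiv.swap 0 s).toEmbedding.trans v)
  · intro v hv
    simp only [CanCnt_V, Finset.coe_filter, Finset.mem_univ, true_and, Set.mem_setOf_eq] at hv ⊢
    intro t
    simp only [Function.Embedding.trans_apply, Equiv.coe_toEmbedding, Equiv.swap_apply_left]
    exact hv _
  · intro v hv
    simp only [CanCnt_V, Finset.coe_filter, Finset.mem_univ, true_and, Set.mem_setOf_eq] at hv ⊢
    intro t
    simp only [Function.Embedding.trans_apply, Equiv.coe_toEmbedding, Equiv.swap_apply_right]
    exact hv _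
  · intro v _
    ext t
    simp
  · intro v _
    ext t
    simp

theorem CanCnt_inj (m n : ℕ) : n.descFactorial (m + 1) = (m + 1) * (CanCnt_V m n 0).card := by
  have h1 : Fintype.card (Fin (m + 1) ↪ Fin n) = n.descFactorial (m + 1) := by
    rw [Fintype.card_embedding_eq]; simp
  rw [← h1]
  have h2 : (Finset.univ : Finset (Fin (m + 1) ↪ Fin n)) = Finset.univ.biUnion (CanCnt_V m n) := by
    ext v
    simp only [Finset.mem_univ, Finset.mem_biUnion, CanCnt_V, Finset.mem_filter, true_and, true_iff]
    obtain ⟨s, _, hs⟩ := Finset.exists_min_image Finset.univ v ⟨0, Finset.mem_univ _⟩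
    exact ⟨s, fun t => hs t (Finset.mem_univ _)⟩
  rw [← Finset.card_univ, h2, Finset.card_biUnion]
  · rw [Finset.sum_congr rfl (fun s _ => CanCnt_swap m n s)]
    simp
  · intro s _ t _ hst
    rw [Function.onFun, Finset.disjoint_left]
    intro v hv hv'
    simp only [CanCnt_V, Finset.mem_filter, Finset.mem_univ, true_and] at hv hv'
    exact hst (v.injective (le_antisymm (hv t) (hv' s)))

theorem CanCnt_P (m : ℕ) : (Finset.univ.filter (fun p : Fin (m + 1) → Fin 3 × Fin 3 =>
    (∀ t, (p t).1 ≠ (p t).2) ∧ (p 0).1 < (p 0).2)).card = 3 * 6 ^ m := by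
  have h : (Finset.univ.filter (fun p : Fin (m + 1) → Fin 3 × Fin 3 =>
      (∀ t, (p t).1 ≠ (p t).2) ∧ (p 0).1 < (p 0).2)) =
      Fintype.piFinset (fun t : Fin (m + 1) => if t = 0 then
        (Finset.univ.filter (fun q : Fin 3 × Fin 3 => q.1 < q.2)) else
        (Finset.univ.filter (fun q : Fin 3 × Fin 3 => q.1 ≠ q.2))) := by
    ext p
    simp only [Finset.mem_filter, Finset.mem_univ, true_and, Fintype.mem_piFinset]
    constructor
    · rintro ⟨h1, h2⟩ t
      by_cases ht : t = 0
      · subst ht; simpa using h2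
      · simpa [ht] using h1 t
    · intro h
      have h0 : (p 0).1 < (p 0).2 := by simpa using h 0
      refine ⟨fun t => ?_, h0⟩
      by_cases ht : t = 0
      · subst ht; exact ne_of_lt h0
      · simpa [ht] using h t
  rw [h, Fintype.card_piFinset, Fin.prod_univ_succ]
  have e1 : (Finset.univ.filter (fun q : Fin 3 × Fin 3 => q.1 < q.2)).card = 3 := by
    rw [Finset.filter_congr_decidable]; decide
  have e2 : (Finset.univ.filter (fun q : Fin 3 × Fin 3 => q.1 ≠ q.2)).card = 6 := by
    rw [Finset.filter_congr_decidable]; decide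
  simp only [if_true, e1]
  congr 1
  rw [Finset.prod_congr rfl (g := fun _ => 6)]
  · simp
  · intro i _
    rw [if_neg (Fin.succ_ne_zero i), e2]

theorem CanCnt_card (m n : ℕ) : (Finset.univ.filter (fun c : Cyc (m + 1) n => Canon c)).card =
    (CanCnt_V m n 0).card * (3 * 6 ^ m) := by
  rw [← CanCnt_P, ← Finset.card_product]
  refine Finset.card_bij' (fun c hc => (⟨fun t => (c t).1, ((Finset.mem_filter.1 hc).2.1.1)⟩, fun t => (c t).2))
    (fun q _ => fun t => (q.1 t, q.2 t)) ?_ ?_ ?_ ?_
  · intro c hc
    have hc' := (Finset.mem_filter.1 hc).2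
    simp only [Finset.mem_product, CanCnt_V, Finset.mem_filter, Finset.mem_univ, true_and,
      Function.Embedding.coeFn_mk]
    exact ⟨fun t => hc'.2.1 0 t rfl, hc'.1.2, hc'.2.2 0 rfl⟩
  · intro q hq
    simp only [Finset.mem_product, CanCnt_V, Finset.mem_filter, Finset.mem_univ, true_and] at hq ⊢
    obtain ⟨h1, h2, h3⟩ := hq
    refine ⟨⟨q.1.injective, h2⟩, ?_, ?_⟩
    · intro s t hs
      have : s = 0 := Fin.ext hs
      subst this
      exact h1 t
    · intro s hs
      have : s = 0 := Fin.ext hs
      subst this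
      exact h3
  · intro c hc
    rfl
  · intro q hq
    rfl

theorem CanCnt_desc (k : ℕ) :
    Tendsto (fun n : ℕ => ((n.descFactorial k : ℕ) : ℝ) / (n : ℝ) ^ k) atTop (nhds 1) := by
  induction k with
  | zero => simp
  | succ k ih =>
    have h1 : Tendsto (fun n : ℕ => ((n : ℝ) - k) / n) atTop (nhds 1) := by
      have h2 : Tendsto (fun n : ℕ => 1 - (k : ℝ) / n) atTop (nhds (1 - 0)) :=
        tendsto_const_nhds.sub (tendsto_const_div_atTop_nhds_zero_nat _)
      rw [sub_zero] at h2
      refine h2.congr' ?_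
      filter_upwards [eventually_gt_atTop 0] with n hn
      have : (n : ℝ) ≠ 0 := by positivity
      field_simp
    have h3 := h1.mul ih
    rw [one_mul] at h3
    refine h3.congr' ?_
    filter_upwards [eventually_gt_atTop k] with n hn
    rw [Nat.descFactorial_succ, Nat.cast_mul, Nat.cast_sub hn.le, pow_succ]
    have : (n : ℝ) ≠ 0 := by
      have : 0 < n := by omega
      positivity
    field_simp

theorem can_count (j : ℕ) (hj : 1 ≤ j) :
    Tendsto (fun n : ℕ => ((Finset.univ.filter (fun c : Cyc j n => Canon c)).card : ℝ) / (n : ℝ) ^ j) atTop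
      (nhds (6 ^ j / (2 * j))) := by
  obtain ⟨m, rfl⟩ : ∃ m, j = m + 1 := ⟨j - 1, by omega⟩
  have h := (CanCnt_desc (m + 1)).mul_const ((6 : ℝ) ^ (m + 1) / (2 * ((m + 1 : ℕ) : ℝ)))
  rw [one_mul] at h
  refine h.congr (fun n => ?_)
  rw [CanCnt_card, CanCnt_inj]
  have : ((m : ℝ) + 1) ≠ 0 := by positivity
  push_cast
  by_cases hn : (n : ℝ) = 0
  · simp [hn]
  · field_simp
    ring

end Pool.Agent.PET
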