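import Pool.Agent.PET.Walks
/-!
# ClosedW : colourings of a tuple of disjoint cycles

`L = ∑ l i`, `e : (Σ i, Fin (l i)) ≃ Fin L` any equivalence.  A map `c : Fin L → Fin 10` such that for every `i` the restriction `s ↦ c (e ⟨i,s⟩)` is a closed walk: by currying
(`(Σ i, Fin (l i)) → Fin 10 ≃ ∀ i, Fin (l i) → Fin 10`) their number is `∏_i #closed walks of length l i = ∏_i 3^{l i} tau (l i)` (`walks`, `Fintype.card_piFinset` or `Finset.card_pi`).
-/
set_option autoImplicit false
open scoped BigOperators Classical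
open Filter MeasureTheory
noncomputable section
namespace Pool.Agent.PET

theorem closedW (r : ℕ) (l : Fin r → ℕ) (hl : ∀ i, 1 ≤ l i) (e : (Σ i : Fin r, Fin (l i)) ≃ Fin (∑ i, l i)) :
    ((Finset.univ.filter (fun c : Fin (∑ i, l i) → Fin 10 =>
      ∀ i s, padj (c (e ⟨i, s⟩)) (c (e ⟨i, nxt s⟩)))).card : ℝ) = ∏ i, (3 ^ (l i) * tau (l i)) := by
  have h1 : (Finset.univ.filter (fun c : Fin (∑ i, l i) → Fin 10 =>
      ∀ i s, padj (c (e ⟨i, s⟩)) (c (e ⟨i, nxt s⟩)))).card
      = (Fintype.piFinset (fun i : Fin r => Finset.univ.filter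
          (fun c : Fin (l i) → Fin 10 => ∀ t, padj (c t) (c (nxt t))))).card := by
    refine Finset.card_bij (fun (c : Fin (∑ i, l i) → Fin 10) _ => fun i s => c (e ⟨i, s⟩)) ?_ ?_ ?_
    · intro c hc
      rw [Finset.mem_filter] at hc
      rw [Fintype.mem_piFinset]
      intro i
      rw [Finset.mem_filter]
      exact ⟨Finset.mem_univ _, fun t => hc.2 i t⟩
    · intro c _ c' _ h
      funext x
      have h2 := congrFun (congrFun h (e.symm x).1) (e.symm x).2
      have h3 : (⟨(e.symm x).1, (e.symm x).2⟩ : Σ i : Fin r, Fin (l i)) = e.symm x := rfl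
      simp only [h3, Equiv.apply_symm_apply] at h2
      exact h2
    · intro d hd
      rw [Fintype.mem_piFinset] at hd
      let D : (Σ i : Fin r, Fin (l i)) → Fin 10 := fun y => d y.1 y.2
      have hD : ∀ y, D (e.symm (e y)) = D y := fun y => by rw [Equiv.symm_apply_apply]
      refine ⟨fun x => D (e.symm x), ?_, ?_⟩
      · rw [Finset.mem_filter]
        refine ⟨Finset.mem_univ _, ?_⟩
        intro i s
        have h3 := (Finset.mem_filter.1 (hd i)).2 s
        show padj (D (e.symm (e ⟨i, s⟩))) (D (e.symm (e ⟨i, nxt s⟩)))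
        rw [hD, hD]
        exact h3
      · funext i s
        exact hD ⟨i, s⟩
  rw [h1, Fintype.card_piFinset, Nat.cast_prod]
  exact Finset.prod_congr rfl (fun i _ => walks (l i) (hl i))

end Pool.Agent.PET
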