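import Pool.Agent.PET.GIn
/-!
# Comp : robust version by compactness

Suppose not: for every `j` there is `π_j ≥ 0`, `∑ π_j = 1`, margins within `1/(j+1)` of `1/10`, some entry at distance `≥ δ` from
`1/100` (the condition `> δ` implies `≥ δ`, closed), and `quad > 1 - 1/(j+1)`.  The set of probability matrices is compact; a subsequence
converges to `π` with exact margins `1/10`, some entry at distance `≥ δ`, and (continuity of `t ↦ t^{2/3}` on `[0,∞)`) `quad ≥ 1` for
`F = (100 π)^{2/3}`.  By `gin` with `D = 100 π`: `1 ≤ 1 - (1/50)(1-m)`, so `m ≥ 1`, but `t^{2/3} ≤ 1 + (2/3)(t-1)` with equality only at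
`t = 1`, so `m ≤ 1` with equality iff `D ≡ 1`: contradiction.
(`c` can be taken in `(0,1)`.)
-/
set_option autoImplicit false
open scoped BigOperators
noncomputable section
namespace Pool.Agent.PET

/-- the closed sets of near-counterexamples -/
def Comp_K (δ : ℝ) (j : ℕ) : Set (Fin 10 → Fin 10 → ℝ) :=
  {π | (∀ a b, 0 ≤ π a b) ∧ ∑ a, ∑ b, π a b = 1 ∧ (∀ a, |∑ b, π a b - 1 / 10| ≤ 1 / ((j : ℝ) + 2)) ∧
    (∀ b, |∑ a, π a b - 1 / 10| ≤ 1 / ((j : ℝ) + 2)) ∧ (∃ a b, δ ≤ |π a b - 1 / 100|) ∧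
    1 - 1 / ((j : ℝ) + 2) ≤ quad (fun a b => (100 * π a b) ^ (2 / 3 : ℝ))}

theorem Comp_rpow_le (t : ℝ) (ht : 0 ≤ t) : t ^ (2 / 3 : ℝ) ≤ 1 + (2 / 3) * (t - 1) := by
  have := rpow_one_add_le_one_add_mul_self (s := t - 1) (p := 2 / 3) (by linarith) (by norm_num)
    (by norm_num)
  simpa using this

theorem Comp_rpow_lt (t : ℝ) (ht : 0 ≤ t) (h1 : t ≠ 1) : t ^ (2 / 3 : ℝ) < 1 + (2 / 3) * (t - 1) := by
  have := rpow_one_add_lt_one_add_mul_self (s := t - 1) (p := 2 / 3) (by linarith)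
    (by intro h; apply h1; linarith) (by norm_num) (by norm_num)
  simpa using this

theorem Comp_cont : Continuous (fun π : Fin 10 → Fin 10 → ℝ =>
    quad (fun a b => (100 * π a b) ^ (2 / 3 : ℝ))) := by
  unfold quad
  have h1 : ∀ a b : Fin 10, Continuous (fun π : Fin 10 → Fin 10 → ℝ => (100 * π a b) ^ (2 / 3 : ℝ)) := by
    intro a b
    refine Continuous.rpow_const ?_ ?_
    · exact continuous_const.mul ((continuous_apply b).comp (continuous_apply a))
    · intro x; right; norm_num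
  refine Continuous.div_const ?_ _
  refine continuous_finsetSum _ fun a _ => continuous_finsetSum _ fun b _ =>
    continuous_finsetSum _ fun a' _ => continuous_finsetSum _ fun b' _ => ?_
  exact (h1 a b).mul (h1 a' b')

theorem Comp_closed (δ : ℝ) (j : ℕ) : IsClosed (Comp_K δ j) := by
  have hc : ∀ a b : Fin 10, Continuous (fun π : Fin 10 → Fin 10 → ℝ => π a b) := fun a b =>
    (continuous_apply b).comp (continuous_apply a)
  have e : Comp_K δ j = {π | ∀ a b, 0 ≤ π a b} ∩ ({π | ∑ a, ∑ b, π a b = 1} ∩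
      ({π | ∀ a, |∑ b, π a b - 1 / 10| ≤ 1 / ((j : ℝ) + 2)} ∩
      ({π | ∀ b, |∑ a, π a b - 1 / 10| ≤ 1 / ((j : ℝ) + 2)} ∩ ({π | ∃ a b, δ ≤ |π a b - 1 / 100|} ∩
      {π | 1 - 1 / ((j : ℝ) + 2) ≤ quad (fun a b => (100 * π a b) ^ (2 / 3 : ℝ))})))) := by
    ext π; rfl
  rw [e]
  refine IsClosed.inter ?_ (IsClosed.inter ?_ (IsClosed.inter ?_ (IsClosed.inter ?_ (IsClosed.inter ?_ ?_))))
  · simp only [Set.ofPred_forall]
    exact isClosed_iInter fun a => isClosed_iInter fun b => isClosed_le continuous_const (hc a b)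
  · exact isClosed_eq (continuous_finsetSum _ fun a _ => continuous_finsetSum _ fun b _ => hc a b)
      continuous_const
  · simp only [Set.ofPred_forall]
    exact isClosed_iInter fun a => isClosed_le
      (((continuous_finsetSum _ fun b _ => hc a b).sub continuous_const).abs) continuous_const
  · simp only [Set.ofPred_forall]
    exact isClosed_iInter fun b => isClosed_le
      (((continuous_finsetSum _ fun a _ => hc a b).sub continuous_const).abs) continuous_const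
  · simp only [Set.ofPred_exists]
    exact isClosed_iUnion_of_finite fun a => isClosed_iUnion_of_finite fun b =>
      isClosed_le continuous_const ((hc a b).sub continuous_const).abs
  · exact isClosed_le continuous_const Comp_cont

theorem Comp_compact (δ : ℝ) (j : ℕ) : IsCompact (Comp_K δ j) := by
  refine IsCompact.of_isClosed_subset (isCompact_Icc (a := (fun _ _ => (0 : ℝ))) (b := fun _ _ => (1 : ℝ)))
    (Comp_closed δ j) ?_
  rintro π ⟨h0, h1, -⟩
  refine ⟨fun a b => h0 a b, fun a b => ?_⟩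
  calc π a b ≤ ∑ b', π a b' := Finset.single_le_sum (fun b' _ => h0 a b') (Finset.mem_univ b)
    _ ≤ ∑ a', ∑ b', π a' b' :=
      Finset.single_le_sum (f := fun a' => ∑ b', π a' b')
        (fun a' _ => Finset.sum_nonneg fun b' _ => h0 a' b') (Finset.mem_univ a)
    _ = 1 := h1

theorem Comp_mono (δ : ℝ) (j : ℕ) : Comp_K δ (j + 1) ⊆ Comp_K δ j := by
  have hj : 1 / (((j + 1 : ℕ) : ℝ) + 2) ≤ 1 / ((j : ℝ) + 2) := by
    apply one_div_le_one_div_of_le
    · positivity
    · push_cast; linarith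
  rintro π ⟨h0, h1, h2, h3, h4, h5⟩
  exact ⟨h0, h1, fun a => (h2 a).trans hj, fun b => (h3 b).trans hj, h4, by linarith⟩

theorem Comp_small (x : ℝ) (hx : 0 ≤ x) (h : ∀ j : ℕ, x ≤ 1 / ((j : ℝ) + 2)) : x = 0 := by
  by_contra hne
  have hpos : 0 < x := lt_of_le_of_ne hx (Ne.symm hne)
  obtain ⟨n, hn⟩ := exists_nat_gt (1 / x)
  have h1 := h n
  have h2 : x * ((n : ℝ) + 2) ≤ 1 := by
    rw [le_div_iff₀ (by positivity)] at h1
    exact h1
  have h3 : 1 < n * x := by
    rw [div_lt_iff₀ hpos] at hn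
    exact hn
  nlinarith

theorem Comp_limit (δ : ℝ) (hδ : 0 < δ) : ¬ (⋂ j, Comp_K δ j).Nonempty := by
  rintro ⟨π, hπ⟩
  rw [Set.mem_iInter] at hπ
  obtain ⟨h0, h1, -, -, ⟨a0, b0, hab⟩, -⟩ := hπ 0
  have hr : ∀ a, ∑ b, π a b = 1 / 10 := by
    intro a
    have := Comp_small (|∑ b, π a b - 1 / 10|) (abs_nonneg _) (fun j => (hπ j).2.2.1 a)
    rw [abs_eq_zero] at this
    linarith
  have hcl : ∀ b, ∑ a, π a b = 1 / 10 := by
    intro b
    have := Comp_small (|∑ a, π a b - 1 / 10|) (abs_nonneg _) (fun j => (hπ j).2.2.2.1 b)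
    rw [abs_eq_zero] at this
    linarith
  have hq : 1 ≤ quad (fun a b => (100 * π a b) ^ (2 / 3 : ℝ)) := by
    by_contra hlt
    push Not at hlt
    have := Comp_small (1 - quad (fun a b => (100 * π a b) ^ (2 / 3 : ℝ))) (by linarith)
      (fun j => by have := (hπ j).2.2.2.2.2; linarith)
    linarith
  have hg := gin (fun a b => 100 * π a b) (fun a b => mul_nonneg (by norm_num) (h0 a b))
    (fun a => by rw [← Finset.mul_sum, hr a]; norm_num)
    (fun b => by rw [← Finset.mul_sum, hcl b]; norm_num)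
  have hm : (100 : ℝ) ≤ ∑ a, ∑ b, (100 * π a b) ^ (2 / 3 : ℝ) := by linarith
  have hlt : ∑ a, ∑ b, (100 * π a b) ^ (2 / 3 : ℝ) < ∑ a : Fin 10, ∑ b : Fin 10,
      (1 + (2 / 3) * (100 * π a b - 1)) := by
    refine Finset.sum_lt_sum (fun a _ => Finset.sum_le_sum fun b _ =>
      Comp_rpow_le _ (mul_nonneg (by norm_num) (h0 a b))) ⟨a0, Finset.mem_univ _, ?_⟩
    refine Finset.sum_lt_sum (fun b _ => Comp_rpow_le _ (mul_nonneg (by norm_num) (h0 a0 b)))
      ⟨b0, Finset.mem_univ _, ?_⟩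
    refine Comp_rpow_lt _ (mul_nonneg (by norm_num) (h0 a0 b0)) ?_
    intro h
    have : π a0 b0 - 1 / 100 = 0 := by linarith
    rw [this, abs_zero] at hab
    linarith
  have heq : ∑ a : Fin 10, ∑ b : Fin 10, (1 + (2 / 3) * (100 * π a b - 1)) = 100 := by
    have : ∀ a : Fin 10, ∑ b : Fin 10, (1 + (2 / 3) * (100 * π a b - 1)) = 10 := by
      intro a
      have h2 : ∀ b : Fin 10, (1 + (2 / 3) * (100 * π a b - 1)) = 1 / 3 + (200 / 3) * π a b := by
        intro b; ring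
      rw [Finset.sum_congr rfl fun b _ => h2 b, Finset.sum_add_distrib, ← Finset.mul_sum, hr a]
      simp
      norm_num
    rw [Finset.sum_congr rfl fun a _ => this a]
    simp
    norm_num
  linarith

theorem comp (δ : ℝ) (hδ : 0 < δ) :
    ∃ δ' : ℝ, 0 < δ' ∧ ∃ c : ℝ, 0 < c ∧ c < 1 ∧ ∀ π : Fin 10 → Fin 10 → ℝ, (∀ a b, 0 ≤ π a b) →
      ∑ a, ∑ b, π a b = 1 → (∀ a, |∑ b, π a b - 1 / 10| ≤ δ') → (∀ b, |∑ a, π a b - 1 / 10| ≤ δ') →
      (∃ a b, δ < |π a b - 1 / 100|) →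
      quad (fun a b => (100 * π a b) ^ (2 / 3 : ℝ)) ≤ 1 - c := by
  have hex : ∃ j, ¬ (Comp_K δ j).Nonempty := by
    by_contra hall
    push Not at hall
    exact Comp_limit δ hδ (IsCompact.nonempty_iInter_of_sequence_nonempty_isCompact_isClosed
      (Comp_K δ) (Comp_mono δ) hall (Comp_compact δ 0) (Comp_closed δ))
  obtain ⟨j, hj⟩ := hex
  have hp : (0 : ℝ) < (j : ℝ) + 2 := by positivity
  refine ⟨1 / ((j : ℝ) + 2), by positivity, 1 / ((j : ℝ) + 2), by positivity, ?_, ?_⟩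
  · rw [div_lt_one hp]; linarith [(Nat.cast_nonneg j : (0 : ℝ) ≤ j)]
  · intro π h0 h1 h2 h3 h4
    by_contra hlt
    push Not at hlt
    obtain ⟨a, b, hab⟩ := h4
    exact hj ⟨π, h0, h1, h2, h3, ⟨a, b, hab.le⟩, hlt.le⟩

end Pool.Agent.PET
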