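import Pool.Agent.PET.PoiSum
/-!
# Cond : small subgraph conditioning (abstract)

(`poiSum` gives all the product series below.)

Write `p_k(x) = ∏_{j≤k} e^{-a_j} a_j^{x_j}/x_j!`, `ω_k(x) = ∏_{j≤k} (1+δ_j)^{x_j} e^{-a_j δ_j}` (`x ∈ ℕ^k`), so the limit in `hWx` is
`K p_k(x) ω_k(x)`.  Absolutely convergent sums (products of exponential series):
`∑_x p_k ω_k² = ∏_{j≤k} e^{a_j δ_j²} =: C_k`, and `C_k ↑ C := exp(∑' a_j δ_j²)`.
For a finite set `Φ ⊆ ℕ^k`: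
`∑_{x∈Φ} ∑_ω [X=x] P (W - K ω_k(x))² ≤ ∑ P W² - 2K∑_{Φ} ω_k(x) ∑_ω[X=x]PW + K²∑_Φ ω_k(x)² ∑_ω [X=x]P`, whose limsup is
`≤ K² (C - ∑_Φ p_k ω_k²)`.  So for `η > 0`, limsup of `P(W = 0, X ∈ Φ, ω_k(X) ≥ η)` is `≤ (C - ∑_Φ p_kω_k²)/η²` (`K > 0`).
Lower tail: for `x` with `x_j = 0` for `1 ≤ j < g` and `k ≥ g`: `ω_k(x) > 0` and
`∑_{x : x_j = 0 (j<g), ω_k(x) < η} p_k(x) ≤ η ∑_{x : x_j=0 (j<g)} p_k(x)/ω_k(x) = η ∏_{j<g} e^{-a_j + a_jδ_j} ∏_{g≤j≤k} e^{a_jδ_j²/(1+δ_j)} ≤ η M`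
with `M` independent of `k` (`hsum'`).
`P(X ∉ Φ)` → `1 - ∑_Φ p_k`.
Choose `η` with `η M ≤ ε/4`, then `k ≥ g` with `(C - C_k)/η² ≤ ε/8`, then `Φ` finite with `∑_Φ p_k ≥ 1 - ε/8` and
`(C_k - ∑_Φ p_kω_k²)/η² ≤ ε/8`, then `t` large.
-/
set_option autoImplicit false
open scoped BigOperators Classical
open Filter MeasureTheory
noncomputable section
namespace Pool.Agent.PET

theorem Cond_fin {Ω : Type} [Fintype Ω] (P W : Ω → ℝ) (hP0 : ∀ ω, 0 ≤ P ω)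
    (hP1 : ∑ ω, P ω = 1) (k : ℕ) (y : Ω → (Fin k → ℕ)) (Φ : Finset (Fin k → ℕ))
    (om : (Fin k → ℕ) → ℝ) (η K : ℝ) (hη : 0 < η) (hK : 0 < K) (Z : Ω → Prop)
    (zs : (Fin k → ℕ) → Prop) (hZ : ∀ ω, Z ω → zs (y ω)) :
    ∑ ω, (if Z ω ∧ W ω = 0 then P ω else 0) ≤
      (1 - ∑ x ∈ Φ, ∑ ω, (if y ω = x then P ω else 0)) +
      ∑ x ∈ Φ.filter (fun x => zs x ∧ om x < η), ∑ ω, (if y ω = x then P ω else 0) +
      (∑ ω, P ω * W ω ^ 2 - 2 * K * ∑ x ∈ Φ, om x * ∑ ω, (if y ω = x then P ω * W ω else 0) +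
        K ^ 2 * ∑ x ∈ Φ, om x ^ 2 * ∑ ω, (if y ω = x then P ω else 0)) / (K ^ 2 * η ^ 2) := by
  have hKη : 0 < K ^ 2 * η ^ 2 := by positivity
  have e1 : (1 - ∑ x ∈ Φ, ∑ ω, (if y ω = x then P ω else 0)) +
      ∑ x ∈ Φ.filter (fun x => zs x ∧ om x < η), ∑ ω, (if y ω = x then P ω else 0) +
      (∑ ω, P ω * W ω ^ 2 - 2 * K * ∑ x ∈ Φ, om x * ∑ ω, (if y ω = x then P ω * W ω else 0) +
        K ^ 2 * ∑ x ∈ Φ, om x ^ 2 * ∑ ω, (if y ω = x then P ω else 0)) / (K ^ 2 * η ^ 2) =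
      ∑ ω, ((P ω - ∑ x ∈ Φ, (if y ω = x then P ω else 0)) +
        ∑ x ∈ Φ.filter (fun x => zs x ∧ om x < η), (if y ω = x then P ω else 0) +
        (P ω * W ω ^ 2 - 2 * K * ∑ x ∈ Φ, om x * (if y ω = x then P ω * W ω else 0) +
          K ^ 2 * ∑ x ∈ Φ, om x ^ 2 * (if y ω = x then P ω else 0)) / (K ^ 2 * η ^ 2)) := by
    rw [Finset.sum_add_distrib, Finset.sum_add_distrib, Finset.sum_sub_distrib, hP1,
      ← Finset.sum_div, Finset.sum_add_distrib, Finset.sum_sub_distrib,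
      ← Finset.mul_sum, ← Finset.mul_sum, Finset.sum_comm (s := Finset.univ) (t := Φ),
      Finset.sum_comm (s := Finset.univ) (t := Φ.filter (fun x => zs x ∧ om x < η)),
      Finset.sum_comm (s := Finset.univ) (t := Φ), Finset.sum_comm (s := Finset.univ) (t := Φ)]
    simp only [← Finset.mul_sum]
  rw [e1]
  refine Finset.sum_le_sum (fun ω _ => ?_)
  have e2 : ∀ (Ψ : Finset (Fin k → ℕ)) (c : (Fin k → ℕ) → ℝ) (d : ℝ),
      ∑ x ∈ Ψ, c x * (if y ω = x then d else 0) = if y ω ∈ Ψ then c (y ω) * d else 0 := by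
    intro Ψ c d
    have e3 : ∀ x ∈ Ψ, c x * (if y ω = x then d else 0) = if y ω = x then c x * d else 0 := by
      intro x _
      split_ifs
      · rfl
      · rw [mul_zero]
    rw [Finset.sum_congr rfl e3, Finset.sum_ite_eq]
  have e3 : ∀ (Ψ : Finset (Fin k → ℕ)) (d : ℝ),
      ∑ x ∈ Ψ, (if y ω = x then d else 0) = if y ω ∈ Ψ then d else 0 := by
    intro Ψ d
    rw [Finset.sum_ite_eq]
  rw [e2, e2, e3, e3]
  have hP := hP0 ω
  by_cases hy : y ω ∈ Φ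
  · rw [if_pos hy, if_pos hy, if_pos hy]
    have e4 : P ω * W ω ^ 2 - 2 * K * (om (y ω) * (P ω * W ω)) + K ^ 2 * (om (y ω) ^ 2 * P ω) =
        P ω * (W ω - K * om (y ω)) ^ 2 := by ring
    rw [e4, sub_self, zero_add]
    have h5 : 0 ≤ P ω * (W ω - K * om (y ω)) ^ 2 / (K ^ 2 * η ^ 2) := by positivity
    by_cases hZW : Z ω ∧ W ω = 0
    · rw [if_pos hZW]
      by_cases hom : om (y ω) < η
      · have hm : y ω ∈ Φ.filter (fun x => zs x ∧ om x < η) := by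
          rw [Finset.mem_filter]
          exact ⟨hy, hZ ω hZW.1, hom⟩
        rw [if_pos hm]
        linarith
      · have h6 : 0 ≤ (if y ω ∈ Φ.filter (fun x => zs x ∧ om x < η) then P ω else 0) := by
          split_ifs
          · exact hP
          · exact le_rfl
        have h7 : P ω ≤ P ω * (W ω - K * om (y ω)) ^ 2 / (K ^ 2 * η ^ 2) := by
          rw [le_div_iff₀ hKη, hZW.2]
          have h8 : K ^ 2 * η ^ 2 ≤ (0 - K * om (y ω)) ^ 2 := by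
            have h9 : η ≤ om (y ω) := not_lt.mp hom
            have h10 : (0 - K * om (y ω)) ^ 2 = K ^ 2 * om (y ω) ^ 2 := by ring
            rw [h10]
            gcongr
          gcongr
        linarith
    · rw [if_neg hZW]
      have h6 : 0 ≤ (if y ω ∈ Φ.filter (fun x => zs x ∧ om x < η) then P ω else 0) := by
        split_ifs
        · exact hP
        · exact le_rfl
      linarith
  · have hm : y ω ∉ Φ.filter (fun x => zs x ∧ om x < η) := by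
      intro h
      exact hy (Finset.mem_filter.mp h).1
    rw [if_neg hy, if_neg hy, if_neg hy, if_neg hm]
    have h5 : 0 ≤ (P ω * W ω ^ 2 - 2 * K * 0 + K ^ 2 * 0) / (K ^ 2 * η ^ 2) := by
      rw [mul_zero, mul_zero, sub_zero, add_zero]
      positivity
    have h6 : (if Z ω ∧ W ω = 0 then P ω else 0) ≤ P ω := by
      split_ifs
      · exact le_rfl
      · exact hP
    linarith

/-- Poisson weights -/
def Cond_p (a : ℕ → ℝ) (k : ℕ) (x : Fin k → ℕ) : ℝ :=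
  ∏ j : Fin k, (Real.exp (-a (j.1 + 1)) * a (j.1 + 1) ^ x j / (Nat.factorial (x j) : ℝ))

/-- density -/
def Cond_om (a δ : ℕ → ℝ) (k : ℕ) (x : Fin k → ℕ) : ℝ :=
  ∏ j : Fin k, (Real.exp (-(a (j.1 + 1) * δ (j.1 + 1))) * (1 + δ (j.1 + 1)) ^ x j)

theorem Cond_gen (k : ℕ) (c b : Fin k → ℝ) :
    HasSum (fun x : Fin k → ℕ => ∏ j, (Real.exp (c j) * (b j ^ x j / (Nat.factorial (x j) : ℝ))))
      (∏ j, Real.exp (c j + b j)) := by
  have h1 := (poiSum k b).mul_left (∏ j, Real.exp (c j))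
  have h2 : (∏ j, Real.exp (c j + b j)) = (∏ j, Real.exp (c j)) * ∏ j, Real.exp (b j) := by
    rw [← Finset.prod_mul_distrib]
    exact Finset.prod_congr rfl (fun j _ => Real.exp_add _ _)
  rw [h2]
  refine h1.congr_fun ?_
  intro x
  rw [Finset.prod_mul_distrib]

theorem Cond_prod_exp (f : ℕ → ℝ) (k : ℕ) :
    ∏ j : Fin k, Real.exp (f (j.1 + 1)) = Real.exp (∑ i ∈ Finset.range k, f (i + 1)) := by
  rw [← Real.exp_sum, Fin.sum_univ_eq_sum_range (fun i => f (i + 1)) k]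

theorem Cond_sum_p (a : ℕ → ℝ) (k : ℕ) : HasSum (Cond_p a k) 1 := by
  have h1 := Cond_gen k (fun j => -a (j.1 + 1)) (fun j => a (j.1 + 1))
  have h2 : (∏ j : Fin k, Real.exp (-a (j.1 + 1) + a (j.1 + 1))) = 1 := by
    refine Finset.prod_eq_one (fun j _ => ?_)
    rw [neg_add_cancel, Real.exp_zero]
  rw [h2] at h1
  refine h1.congr_fun ?_
  intro x
  unfold Cond_p
  refine Finset.prod_congr rfl (fun j _ => ?_)
  ring

theorem Cond_sum_pom (a δ : ℕ → ℝ) (k : ℕ) :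
    HasSum (fun x => Cond_p a k x * Cond_om a δ k x ^ 2)
      (Real.exp (∑ i ∈ Finset.range k, a (i + 1) * δ (i + 1) ^ 2)) := by
  have h1 := Cond_gen k (fun j => -a (j.1 + 1) - 2 * (a (j.1 + 1) * δ (j.1 + 1)))
    (fun j => a (j.1 + 1) * (1 + δ (j.1 + 1)) ^ 2)
  have h2 : (∏ j : Fin k, Real.exp (-a (j.1 + 1) - 2 * (a (j.1 + 1) * δ (j.1 + 1)) +
      a (j.1 + 1) * (1 + δ (j.1 + 1)) ^ 2)) =
      Real.exp (∑ i ∈ Finset.range k, a (i + 1) * δ (i + 1) ^ 2) := by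
    rw [← Cond_prod_exp (fun i => a i * δ i ^ 2)]
    refine Finset.prod_congr rfl (fun j _ => ?_)
    congr 1
    ring
  rw [h2] at h1
  refine h1.congr_fun ?_
  intro x
  unfold Cond_p Cond_om
  rw [← Finset.prod_pow, ← Finset.prod_mul_distrib]
  refine Finset.prod_congr rfl (fun j _ => ?_)
  have e1 : Real.exp (-a (j.1 + 1) - 2 * (a (j.1 + 1) * δ (j.1 + 1))) =
      Real.exp (-a (j.1 + 1)) * Real.exp (-(a (j.1 + 1) * δ (j.1 + 1))) ^ 2 := by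
    rw [← Real.exp_nat_mul, ← Real.exp_add]
    congr 1
    push_cast
    ring
  rw [e1, mul_pow, mul_pow, ← pow_mul, ← pow_mul, mul_comm 2 (x j)]
  ring

theorem Cond_lim (a δ : ℕ → ℝ) (K : ℝ) (k : ℕ) (x : Fin k → ℕ) :
    K * ∏ j : Fin k, (Real.exp (-(a (j.1 + 1) * (1 + δ (j.1 + 1))))
        * (a (j.1 + 1) * (1 + δ (j.1 + 1))) ^ x j / (Nat.factorial (x j) : ℝ)) =
      K * (Cond_p a k x * Cond_om a δ k x) := by
  congr 1
  unfold Cond_p Cond_om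
  rw [← Finset.prod_mul_distrib]
  refine Finset.prod_congr rfl (fun j _ => ?_)
  have e1 : Real.exp (-(a (j.1 + 1) * (1 + δ (j.1 + 1)))) =
      Real.exp (-a (j.1 + 1)) * Real.exp (-(a (j.1 + 1) * δ (j.1 + 1))) := by
    rw [← Real.exp_add]
    congr 1
    ring
  rw [e1, mul_pow]
  ring

/-- the starting coordinates vanish -/
def Cond_zs (g k : ℕ) (x : Fin k → ℕ) : Prop := ∀ j : Fin k, j.1 + 1 < g → x j = 0

theorem Cond_low (a δ : ℕ → ℝ) (ha : ∀ j, 1 ≤ j → 0 < a j) (g : ℕ)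
    (hδg : ∀ j, g ≤ j → -1 < δ j)
    (hsum' : Summable (fun i : ℕ => a (i + g) * δ (i + g) ^ 2 / (1 + δ (i + g)))) :
    ∃ M : ℝ, 0 ≤ M ∧ ∀ (k : ℕ) (η : ℝ), 0 < η → ∀ Ψ : Finset (Fin k → ℕ),
      (∀ x ∈ Ψ, Cond_zs g k x ∧ Cond_om a δ k x < η) → ∑ x ∈ Ψ, Cond_p a k x ≤ η * M := by
  obtain ⟨f, hf⟩ : ∃ f : ℕ → ℝ, f = fun m => if g ≤ m then a m * δ m ^ 2 / (1 + δ m) else 0 :=
    ⟨_, rfl⟩
  obtain ⟨f1, hf1⟩ : ∃ f1 : ℕ → ℝ, f1 = fun i => if i + 1 < g then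
    |-a (i + 1) + a (i + 1) * δ (i + 1)| else 0 := ⟨_, rfl⟩
  have hfs : Summable f := by
    rw [← summable_nat_add_iff g]
    refine hsum'.congr (fun i => ?_)
    rw [hf]
    show _ = if g ≤ i + g then a (i + g) * δ (i + g) ^ 2 / (1 + δ (i + g)) else 0
    rw [if_pos (by omega)]
  have hfs1 : Summable (fun i => f (i + 1)) := (summable_nat_add_iff 1).mpr hfs
  have hf1s : Summable f1 := by
    refine summable_of_ne_finset_zero (s := Finset.range g) (fun i hi => ?_)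
    rw [hf1]
    show (if i + 1 < g then |-a (i + 1) + a (i + 1) * δ (i + 1)| else 0) = 0
    rw [if_neg]
    intro h
    exact hi (Finset.mem_range.mpr (by omega))
  have hf0 : ∀ i, 0 ≤ f (i + 1) := by
    intro i
    rw [hf]
    show 0 ≤ if g ≤ i + 1 then a (i + 1) * δ (i + 1) ^ 2 / (1 + δ (i + 1)) else 0
    split_ifs with h
    · have h1 := ha (i + 1) (by omega)
      have h2 := hδg (i + 1) h
      have h3 : 0 < 1 + δ (i + 1) := by linarith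
      positivity
    · exact le_rfl
  have hf10 : ∀ i, 0 ≤ f1 i := by
    intro i
    rw [hf1]
    show 0 ≤ if i + 1 < g then |-a (i + 1) + a (i + 1) * δ (i + 1)| else 0
    split_ifs
    · exact abs_nonneg _
    · exact le_rfl
  refine ⟨Real.exp ((∑' i, f1 i) + ∑' i, f (i + 1)), (Real.exp_pos _).le, ?_⟩
  intro k η hη Ψ hΨ
  obtain ⟨b, hb⟩ : ∃ b : ℕ → ℝ, b = fun m => if m < g then 0 else a m / (1 + δ m) := ⟨_, rfl⟩
  have h1 := Cond_gen k (fun j => -a (j.1 + 1) + a (j.1 + 1) * δ (j.1 + 1)) (fun j => b (j.1 + 1))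
  have hb0 : ∀ j : Fin k, 0 ≤ b (j.1 + 1) := by
    intro j
    rw [hb]
    show 0 ≤ if j.1 + 1 < g then 0 else a (j.1 + 1) / (1 + δ (j.1 + 1))
    split_ifs with h
    · exact le_rfl
    · have h1 := ha (j.1 + 1) (by omega)
      have h2 := hδg (j.1 + 1) (by omega)
      have h3 : 0 < 1 + δ (j.1 + 1) := by linarith
      positivity
  have hq0 : ∀ x : Fin k → ℕ, 0 ≤ ∏ j : Fin k, (Real.exp (-a (j.1 + 1) + a (j.1 + 1) * δ (j.1 + 1)) *
      (b (j.1 + 1) ^ x j / (Nat.factorial (x j) : ℝ))) := by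
    intro x
    refine Finset.prod_nonneg (fun j _ => ?_)
    have := hb0 j
    positivity
  have h2 : ∀ x ∈ Ψ, Cond_p a k x ≤ η *
      ∏ j : Fin k, (Real.exp (-a (j.1 + 1) + a (j.1 + 1) * δ (j.1 + 1)) *
      (b (j.1 + 1) ^ x j / (Nat.factorial (x j) : ℝ))) := by
    intro x hx
    obtain ⟨hz, hom⟩ := hΨ x hx
    have e1 : Cond_p a k x = Cond_om a δ k x *
        ∏ j : Fin k, (Real.exp (-a (j.1 + 1) + a (j.1 + 1) * δ (j.1 + 1)) *
        (b (j.1 + 1) ^ x j / (Nat.factorial (x j) : ℝ))) := by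
      unfold Cond_p Cond_om
      rw [← Finset.prod_mul_distrib]
      refine Finset.prod_congr rfl (fun j _ => ?_)
      have e2 : Real.exp (-a (j.1 + 1)) = Real.exp (-(a (j.1 + 1) * δ (j.1 + 1))) *
          Real.exp (-a (j.1 + 1) + a (j.1 + 1) * δ (j.1 + 1)) := by
        rw [← Real.exp_add]
        congr 1
        ring
      rw [e2]
      by_cases hj : j.1 + 1 < g
      · rw [hz j hj]
        simp
      · have hbj : b (j.1 + 1) = a (j.1 + 1) / (1 + δ (j.1 + 1)) := by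
          rw [hb]
          show (if j.1 + 1 < g then 0 else a (j.1 + 1) / (1 + δ (j.1 + 1))) = _
          rw [if_neg hj]
        have h2 := hδg (j.1 + 1) (by omega)
        have h3 : 1 + δ (j.1 + 1) ≠ 0 := by linarith
        have e3 : a (j.1 + 1) ^ x j = (1 + δ (j.1 + 1)) ^ x j * b (j.1 + 1) ^ x j := by
          rw [hbj, ← mul_pow]
          congr 1
          field_simp
        rw [e3]
        ring
    rw [e1]
    exact mul_le_mul_of_nonneg_right hom.le (hq0 x)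
  refine le_trans (Finset.sum_le_sum h2) ?_
  rw [← Finset.mul_sum]
  refine mul_le_mul_of_nonneg_left ?_ hη.le
  refine le_trans (sum_le_hasSum Ψ (fun x _ => hq0 x) h1) ?_
  have e4 : (∏ j : Fin k, Real.exp (-a (j.1 + 1) + a (j.1 + 1) * δ (j.1 + 1) + b (j.1 + 1))) =
      Real.exp (∑ i ∈ Finset.range k,
        (-a (i + 1) + a (i + 1) * δ (i + 1) + b (i + 1))) :=
    Cond_prod_exp (fun m => -a m + a m * δ m + b m) k
  rw [e4, Real.exp_le_exp]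
  have e5 : ∀ i ∈ Finset.range k, -a (i + 1) + a (i + 1) * δ (i + 1) + b (i + 1) ≤
      f1 i + f (i + 1) := by
    intro i _
    rw [hb, hf, hf1]
    show -a (i + 1) + a (i + 1) * δ (i + 1) +
      (if i + 1 < g then 0 else a (i + 1) / (1 + δ (i + 1))) ≤
      (if i + 1 < g then |-a (i + 1) + a (i + 1) * δ (i + 1)| else 0) +
      (if g ≤ i + 1 then a (i + 1) * δ (i + 1) ^ 2 / (1 + δ (i + 1)) else 0)
    by_cases hi : i + 1 < g
    · rw [if_pos hi, if_pos hi, if_neg (by omega)]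
      have := le_abs_self (-a (i + 1) + a (i + 1) * δ (i + 1))
      linarith
    · rw [if_neg hi, if_neg hi, if_pos (by omega)]
      have h2 := hδg (i + 1) (by omega)
      have h3 : 1 + δ (i + 1) ≠ 0 := by linarith
      refine le_of_eq ?_
      field_simp
      ring
  refine le_trans (Finset.sum_le_sum e5) ?_
  rw [Finset.sum_add_distrib]
  exact add_le_add (hf1s.sum_le_tsum _ (fun i _ => hf10 i))
    (hfs1.sum_le_tsum _ (fun i _ => hf0 i))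

theorem cond (Ω : ℕ → Type) [∀ t, Fintype (Ω t)] (P W : ∀ t, Ω t → ℝ) (X : ∀ t, Ω t → ℕ → ℕ)
    (hP0 : ∀ t ω, 0 ≤ P t ω) (hP1 : ∀ᶠ t in atTop, ∑ ω, P t ω = 1) (hW : ∀ t ω, 0 ≤ W t ω)
    (a δ : ℕ → ℝ) (ha : ∀ j, 1 ≤ j → 0 < a j) (hδ : ∀ j, 1 ≤ j → -1 ≤ δ j) (K : ℝ) (hK : 0 < K)
    (hPx : ∀ (k : ℕ) (x : Fin k → ℕ), Tendsto
      (fun t => ∑ ω, if (∀ j : Fin k, X t ω (j.1 + 1) = x j) then P t ω else 0) atTop
      (nhds (∏ j : Fin k, (Real.exp (-a (j.1 + 1)) * a (j.1 + 1) ^ x j / (Nat.factorial (x j) : ℝ)))))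
    (hWx : ∀ (k : ℕ) (x : Fin k → ℕ), Tendsto
      (fun t => ∑ ω, if (∀ j : Fin k, X t ω (j.1 + 1) = x j) then P t ω * W t ω else 0) atTop
      (nhds (K * ∏ j : Fin k, (Real.exp (-(a (j.1 + 1) * (1 + δ (j.1 + 1))))
        * (a (j.1 + 1) * (1 + δ (j.1 + 1))) ^ x j / (Nat.factorial (x j) : ℝ)))))
    (hsum : Summable (fun j : ℕ => a (j + 1) * δ (j + 1) ^ 2))
    (hS : ∀ ε : ℝ, 0 < ε → ∀ᶠ t in atTop,
      ∑ ω, P t ω * W t ω ^ 2 ≤ K ^ 2 * Real.exp (∑' j : ℕ, a (j + 1) * δ (j + 1) ^ 2) + ε)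
    (g : ℕ) (hg : 1 ≤ g) (hδg : ∀ j, g ≤ j → -1 < δ j)
    (hsum' : Summable (fun i : ℕ => a (i + g) * δ (i + g) ^ 2 / (1 + δ (i + g))))
    (ε : ℝ) (hε : 0 < ε) :
    ∀ᶠ t in atTop, ∑ ω, (if (∀ j, 1 ≤ j → j < g → X t ω j = 0) ∧ W t ω = 0 then P t ω else 0) ≤ ε := by
  obtain ⟨M, hM0, hM⟩ := Cond_low a δ ha g hδg hsum'
  obtain ⟨η, hηd⟩ : ∃ η : ℝ, η = ε / (4 * (M + 1)) := ⟨_, rfl⟩
  have hη : 0 < η := by rw [hηd]; positivity
  have hηM : η * M ≤ ε / 4 := by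
    rw [hηd, div_mul_eq_mul_div, div_le_iff₀ (by positivity)]
    nlinarith
  obtain ⟨C, hC⟩ : ∃ C : ℝ, C = Real.exp (∑' j : ℕ, a (j + 1) * δ (j + 1) ^ 2) := ⟨_, rfl⟩
  have hCk : Tendsto (fun k : ℕ => Real.exp (∑ i ∈ Finset.range k, a (i + 1) * δ (i + 1) ^ 2))
      atTop (nhds C) := by
    rw [hC]
    exact (Real.continuous_exp.tendsto _).comp hsum.hasSum.tendsto_sum_nat
  obtain ⟨k, hk⟩ : ∃ k : ℕ, C - η ^ 2 * ε / 8 <
      Real.exp (∑ i ∈ Finset.range k, a (i + 1) * δ (i + 1) ^ 2) := by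
    have h1 := hCk.eventually_const_lt (show C - η ^ 2 * ε / 8 < C by
      have : 0 < η ^ 2 * ε / 8 := by positivity
      linarith)
    exact h1.exists
  obtain ⟨Φ, hΦ1, hΦ2⟩ : ∃ Φ : Finset (Fin k → ℕ), 1 - ε / 8 < ∑ x ∈ Φ, Cond_p a k x ∧
      Real.exp (∑ i ∈ Finset.range k, a (i + 1) * δ (i + 1) ^ 2) - η ^ 2 * ε / 8 <
        ∑ x ∈ Φ, Cond_p a k x * Cond_om a δ k x ^ 2 := by
    have h1 := (show Tendsto (fun Φ : Finset (Fin k → ℕ) => ∑ x ∈ Φ, Cond_p a k x) atTop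
      (nhds 1) from Cond_sum_p a k).eventually_const_lt
      (show 1 - ε / 8 < 1 by linarith)
    have h2 := (show Tendsto (fun Φ : Finset (Fin k → ℕ) =>
      ∑ x ∈ Φ, Cond_p a k x * Cond_om a δ k x ^ 2) atTop
      (nhds (Real.exp (∑ i ∈ Finset.range k, a (i + 1) * δ (i + 1) ^ 2))) from
        Cond_sum_pom a δ k).eventually_const_lt
      (show Real.exp (∑ i ∈ Finset.range k, a (i + 1) * δ (i + 1) ^ 2) - η ^ 2 * ε / 8 <
        Real.exp (∑ i ∈ Finset.range k, a (i + 1) * δ (i + 1) ^ 2) by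
        have : 0 < η ^ 2 * ε / 8 := by positivity
        linarith)
    exact (h1.and h2).exists
  obtain ⟨Φ', hΦ'⟩ : ∃ Φ' : Finset (Fin k → ℕ), Φ' = Φ.filter
    (fun x => Cond_zs g k x ∧ Cond_om a δ k x < η) := ⟨_, rfl⟩
  have hΦ'M : ∑ x ∈ Φ', Cond_p a k x ≤ η * M := by
    refine hM k η hη Φ' (fun x hx => ?_)
    rw [hΦ'] at hx
    exact (Finset.mem_filter.mp hx).2
  -- probabilities
  obtain ⟨Pr, hPr⟩ : ∃ Pr : ℕ → (Fin k → ℕ) → ℝ, Pr = fun t x =>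
    ∑ ω, if (fun j : Fin k => X t ω (j.1 + 1)) = x then P t ω else 0 := ⟨_, rfl⟩
  obtain ⟨EW, hEW⟩ : ∃ EW : ℕ → (Fin k → ℕ) → ℝ, EW = fun t x =>
    ∑ ω, if (fun j : Fin k => X t ω (j.1 + 1)) = x then P t ω * W t ω else 0 := ⟨_, rfl⟩
  have hPrt : ∀ x, Tendsto (fun t => Pr t x) atTop (nhds (Cond_p a k x)) := by
    intro x
    have h1 := hPx k x
    refine h1.congr (fun t => ?_)
    rw [hPr]
    refine Finset.sum_congr rfl (fun ω _ => ?_)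
    simp only [funext_iff]
  have hEWt : ∀ x, Tendsto (fun t => EW t x) atTop
      (nhds (K * (Cond_p a k x * Cond_om a δ k x))) := by
    intro x
    have h1 := hWx k x
    rw [Cond_lim] at h1
    refine h1.congr (fun t => ?_)
    rw [hEW]
    refine Finset.sum_congr rfl (fun ω _ => ?_)
    simp only [funext_iff]
  have t1 : Tendsto (fun t => ∑ x ∈ Φ, Pr t x) atTop (nhds (∑ x ∈ Φ, Cond_p a k x)) :=
    tendsto_finsetSum _ (fun x _ => hPrt x)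
  have t2 : Tendsto (fun t => ∑ x ∈ Φ', Pr t x) atTop (nhds (∑ x ∈ Φ', Cond_p a k x)) :=
    tendsto_finsetSum _ (fun x _ => hPrt x)
  have t3 : Tendsto (fun t => ∑ x ∈ Φ, Cond_om a δ k x * EW t x) atTop
      (nhds (∑ x ∈ Φ, Cond_om a δ k x * (K * (Cond_p a k x * Cond_om a δ k x)))) :=
    tendsto_finsetSum _ (fun x _ => (hEWt x).const_mul _)
  have t4 : Tendsto (fun t => ∑ x ∈ Φ, Cond_om a δ k x ^ 2 * Pr t x) atTop
      (nhds (∑ x ∈ Φ, Cond_om a δ k x ^ 2 * Cond_p a k x)) :=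
    tendsto_finsetSum _ (fun x _ => (hPrt x).const_mul _)
  obtain ⟨ε₁, hε₁⟩ : ∃ ε₁ : ℝ, ε₁ = K ^ 2 * η ^ 2 * ε / 8 := ⟨_, rfl⟩
  have hε₁0 : 0 < ε₁ := by rw [hε₁]; positivity
  have t5 : Tendsto (fun t => (1 - ∑ x ∈ Φ, Pr t x) + ∑ x ∈ Φ', Pr t x +
      ((K ^ 2 * C + ε₁) - 2 * K * ∑ x ∈ Φ, Cond_om a δ k x * EW t x +
        K ^ 2 * ∑ x ∈ Φ, Cond_om a δ k x ^ 2 * Pr t x) / (K ^ 2 * η ^ 2)) atTop
      (nhds ((1 - ∑ x ∈ Φ, Cond_p a k x) + ∑ x ∈ Φ', Cond_p a k x +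
      ((K ^ 2 * C + ε₁) - 2 * K * ∑ x ∈ Φ, Cond_om a δ k x *
        (K * (Cond_p a k x * Cond_om a δ k x)) +
        K ^ 2 * ∑ x ∈ Φ, Cond_om a δ k x ^ 2 * Cond_p a k x) / (K ^ 2 * η ^ 2))) :=
    ((tendsto_const_nhds.sub t1).add t2).add
      (((tendsto_const_nhds.sub (t3.const_mul _)).add (t4.const_mul _)).div_const _)
  have hL : (1 - ∑ x ∈ Φ, Cond_p a k x) + ∑ x ∈ Φ', Cond_p a k x +
      ((K ^ 2 * C + ε₁) - 2 * K * ∑ x ∈ Φ, Cond_om a δ k x *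
        (K * (Cond_p a k x * Cond_om a δ k x)) +
        K ^ 2 * ∑ x ∈ Φ, Cond_om a δ k x ^ 2 * Cond_p a k x) / (K ^ 2 * η ^ 2) < ε := by
    have e1 : ∑ x ∈ Φ, Cond_om a δ k x * (K * (Cond_p a k x * Cond_om a δ k x)) =
        K * ∑ x ∈ Φ, Cond_p a k x * Cond_om a δ k x ^ 2 := by
      rw [Finset.mul_sum]
      refine Finset.sum_congr rfl (fun x _ => ?_)
      ring
    have e2 : ∑ x ∈ Φ, Cond_om a δ k x ^ 2 * Cond_p a k x =
        ∑ x ∈ Φ, Cond_p a k x * Cond_om a δ k x ^ 2 := by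
      refine Finset.sum_congr rfl (fun x _ => ?_)
      ring
    rw [e1, e2]
    obtain ⟨Q, hQ⟩ : ∃ Q : ℝ, Q = ∑ x ∈ Φ, Cond_p a k x * Cond_om a δ k x ^ 2 := ⟨_, rfl⟩
    rw [← hQ]
    rw [← hQ] at hΦ2
    have e3 : ((K ^ 2 * C + ε₁) - 2 * K * (K * Q) + K ^ 2 * Q) / (K ^ 2 * η ^ 2) =
        (C - Q) / η ^ 2 + ε / 8 := by
      rw [hε₁]
      field_simp
      ring
    rw [e3]
    have e4 : (C - Q) / η ^ 2 ≤ ε / 4 := by
      rw [div_le_iff₀ (by positivity)]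
      nlinarith
    linarith
  filter_upwards [hP1, hS ε₁ hε₁0, t5.eventually_lt_const hL] with t h1 h2 h3
  have h4 := Cond_fin (P t) (W t) (hP0 t) h1 k (fun ω j => X t ω (j.1 + 1)) Φ
    (Cond_om a δ k) η K hη hK (fun ω => ∀ j, 1 ≤ j → j < g → X t ω j = 0) (Cond_zs g k)
    (fun ω hω j hj => hω (j.1 + 1) (by omega) hj)
  refine le_trans h4 (le_trans ?_ h3.le)
  rw [hΦ', hPr, hEW]
  have h5 : (∑ ω, P t ω * W t ω ^ 2 - 2 * K * ∑ x ∈ Φ, Cond_om a δ k x *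
      ∑ ω, (if (fun j : Fin k => X t ω (j.1 + 1)) = x then P t ω * W t ω else 0) +
        K ^ 2 * ∑ x ∈ Φ, Cond_om a δ k x ^ 2 *
      ∑ ω, (if (fun j : Fin k => X t ω (j.1 + 1)) = x then P t ω else 0)) / (K ^ 2 * η ^ 2) ≤
      ((K ^ 2 * C + ε₁) - 2 * K * ∑ x ∈ Φ, Cond_om a δ k x *
      ∑ ω, (if (fun j : Fin k => X t ω (j.1 + 1)) = x then P t ω * W t ω else 0) +
        K ^ 2 * ∑ x ∈ Φ, Cond_om a δ k x ^ 2 *
      ∑ ω, (if (fun j : Fin k => X t ω (j.1 + 1)) = x then P t ω else 0)) / (K ^ 2 * η ^ 2) := by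
    rw [hC]
    gcongr
  linarith

end Pool.Agent.PET
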