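import Pool.Agent.PET.Walks
/-!
# Const : the constants
-/
set_option autoImplicit false
open scoped BigOperators Classical
open Filter MeasureTheory
noncomputable section
namespace Pool.Agent.PET

theorem Const_term (j : ℕ) : aa (j + 1) * (tau (j + 1) - 1) ^ 2 =
    (25 / 2) * ((2 / 9 : ℝ) ^ (j + 1) / ((j : ℝ) + 1)) + 20 * ((-4 / 9 : ℝ) ^ (j + 1) / ((j : ℝ) + 1))
      + 8 * ((8 / 9 : ℝ) ^ (j + 1) / ((j : ℝ) + 1)) := by
  have hj : ((j : ℝ) + 1) ≠ 0 := by positivity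
  have e1 : (2 / 9 : ℝ) ^ (j + 1) = 2 ^ (j + 1) * ((1 / 3) ^ (j + 1)) ^ 2 := by
    rw [← pow_mul, mul_comm (j + 1) 2, pow_mul, ← mul_pow]; norm_num
  have e2 : (-4 / 9 : ℝ) ^ (j + 1) = 2 ^ (j + 1) * ((1 / 3) ^ (j + 1) * (-2 / 3) ^ (j + 1)) := by
    rw [← mul_pow, ← mul_pow]; norm_num
  have e3 : (8 / 9 : ℝ) ^ (j + 1) = 2 ^ (j + 1) * ((-2 / 3) ^ (j + 1)) ^ 2 := by
    rw [← pow_mul, mul_comm (j + 1) 2, pow_mul, ← mul_pow]; norm_num
  have e4 : (5 : ℝ) / 3 ^ (j + 1) = 5 * (1 / 3) ^ (j + 1) := by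
    rw [one_div, inv_pow]; ring
  unfold aa tau
  rw [e1, e2, e3, e4]
  push_cast
  field_simp
  ring

theorem Const_hasSum : HasSum (fun j : ℕ => aa (j + 1) * (tau (j + 1) - 1) ^ 2)
    ((25 / 2) * (-Real.log (1 - 2 / 9)) + 20 * (-Real.log (1 - (-4 / 9))) + 8 * (-Real.log (1 - 8 / 9))) := by
  have h1 := (Real.hasSum_pow_div_log_of_abs_lt_one (x := (2 / 9 : ℝ)) (by rw [abs_lt]; constructor <;> norm_num)).mul_left (25 / 2 : ℝ)
  have h2 := (Real.hasSum_pow_div_log_of_abs_lt_one (x := (-4 / 9 : ℝ)) (by rw [abs_lt]; constructor <;> norm_num)).mul_left (20 : ℝ)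
  have h3 := (Real.hasSum_pow_div_log_of_abs_lt_one (x := (8 / 9 : ℝ)) (by rw [abs_lt]; constructor <;> norm_num)).mul_left (8 : ℝ)
  have h := (h1.add h2).add h3
  simpa only [Const_term] using h

theorem K1c_pos : 0 < K1c := by
  unfold K1c
  refine Finset.prod_pos ?_
  intro i _
  split_ifs with h
  · exact one_pos
  · have : 0 < 1 - 2 * plam i := by
      fin_cases i <;> first | (exact absurd rfl h) | (simp [plam]; norm_num)
    positivity

theorem summable1 : Summable (fun j : ℕ => aa (j + 1) * (tau (j + 1) - 1) ^ 2) := Const_hasSum.summable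

theorem Const_tau_ge (j : ℕ) (hj : 4 ≤ j) : (1 / 4 : ℝ) ≤ tau j := by
  unfold tau
  have h5 : (0 : ℝ) ≤ 5 / 3 ^ j := by positivity
  rcases Nat.even_or_odd j with he | ho
  · have : (0 : ℝ) ≤ (-2 / 3) ^ j := he.pow_nonneg _
    linarith
  · have h6 : 5 ≤ j := by
      rcases Nat.lt_or_ge 4 j with h | h
      · omega
      · have : j = 4 := by omega
        subst this
        exact absurd ho (by decide)
    have h7 : (-2 / 3 : ℝ) ^ j = -(2 / 3) ^ j := by
      rw [neg_div, ho.neg_pow]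
    have h8 : (2 / 3 : ℝ) ^ j ≤ (2 / 3) ^ 5 := pow_le_pow_of_le_one (by norm_num) (by norm_num) h6
    rw [h7]
    have h9 : (2 / 3 : ℝ) ^ 5 ≤ 3 / 16 := by norm_num
    linarith

theorem summable2 (g : ℕ) (hg : 4 ≤ g) :
    Summable (fun i : ℕ => aa (i + g) * (tau (i + g) - 1) ^ 2 / (1 + (tau (i + g) - 1))) := by
  have h1 : Summable (fun i : ℕ => aa (i + g) * (tau (i + g) - 1) ^ 2) := by
    obtain ⟨k, rfl⟩ : ∃ k, g = k + 1 := ⟨g - 1, by omega⟩
    have := (summable_nat_add_iff k).2 summable1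
    exact this
  refine Summable.of_nonneg_of_le ?_ ?_ (h1.mul_left 4)
  · intro i
    have h2 := Const_tau_ge (i + g) (by omega)
    have h3 : 0 ≤ aa (i + g) := by unfold aa; positivity
    have h4 : 0 ≤ 1 + (tau (i + g) - 1) := by linarith
    positivity
  · intro i
    have h2 := Const_tau_ge (i + g) (by omega)
    have h3 : 0 ≤ aa (i + g) := by unfold aa; positivity
    have h4 : 0 < 1 + (tau (i + g) - 1) := by linarith
    rw [div_le_iff₀ h4]
    have h5 : 0 ≤ aa (i + g) * (tau (i + g) - 1) ^ 2 := by positivity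
    nlinarith

theorem Const_exp (a c : ℝ) (ha : 0 < a) (N : ℕ) (hc : c * 2 = N) :
    Real.exp (c * (-Real.log a)) = (1 / Real.sqrt a) ^ N := by
  have h1 : 1 / Real.sqrt a = Real.exp (-(Real.log a / 2)) := by
    rw [Real.exp_neg, Real.exp_half, Real.exp_log ha, one_div]
  rw [h1, ← Real.exp_nat_mul, ← hc]
  congr 1
  ring

theorem Const_p0 : plam 0 = 1 := rfl
theorem Const_pA (i : Fin 5) : plam ⟨i.1 + 1, by omega⟩ = 1 / 3 := by
  fin_cases i <;> rfl
theorem Const_pB (i : Fin 4) : plam ⟨i.1 + 6, by omega⟩ = -2 / 3 := by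
  fin_cases i <;> rfl

theorem Const_prod (F : Fin 10 → ℝ) : ∏ i, F i = F 0 * (F 1 * F 2 * F 3 * F 4 * F 5) * (F 6 * F 7 * F 8 * F 9) := by
  simp only [Fin.prod_univ_succ, Finset.univ_eq_empty, Finset.prod_empty]
  simp only [show (Fin.succ 0 : Fin 10) = 1 from rfl, show (Fin.succ (Fin.succ 0) : Fin 10) = 2 from rfl]
  rw [show (Fin.succ (Fin.succ (Fin.succ 0)) : Fin 10) = 3 from rfl,
    show (Fin.succ (Fin.succ (Fin.succ (Fin.succ 0))) : Fin 10) = 4 from rfl,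
    show (Fin.succ (Fin.succ (Fin.succ (Fin.succ (Fin.succ 0)))) : Fin 10) = 5 from rfl,
    show (Fin.succ (Fin.succ (Fin.succ (Fin.succ (Fin.succ (Fin.succ 0))))) : Fin 10) = 6 from rfl,
    show (Fin.succ (Fin.succ (Fin.succ (Fin.succ (Fin.succ (Fin.succ (Fin.succ 0)))))) : Fin 10) = 7 from rfl,
    show (Fin.succ (Fin.succ (Fin.succ (Fin.succ (Fin.succ (Fin.succ (Fin.succ (Fin.succ 0))))))) : Fin 10) = 8 from rfl,
    show (Fin.succ (Fin.succ (Fin.succ (Fin.succ (Fin.succ (Fin.succ (Fin.succ (Fin.succ (Fin.succ 0)))))))) : Fin 10) = 9 from rfl]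
  ring

theorem Const_plam1 : plam 1 = 1 / 3 := rfl
theorem Const_plam2 : plam 2 = 1 / 3 := rfl
theorem Const_plam3 : plam 3 = 1 / 3 := rfl
theorem Const_plam4 : plam 4 = 1 / 3 := rfl
theorem Const_plam5 : plam 5 = 1 / 3 := rfl
theorem Const_plam6 : plam 6 = -2 / 3 := rfl
theorem Const_plam7 : plam 7 = -2 / 3 := rfl
theorem Const_plam8 : plam 8 = -2 / 3 := rfl
theorem Const_plam9 : plam 9 = -2 / 3 := rfl

theorem Const_K1 (s : ℝ → ℝ) : (∏ i : Fin 10, if i = 0 then 1 else s (plam i)) = s (1 / 3) ^ 5 * s (-2 / 3) ^ 4 := by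
  rw [Const_prod]
  rw [if_pos rfl, if_neg (by decide), if_neg (by decide), if_neg (by decide), if_neg (by decide), if_neg (by decide),
    if_neg (by decide), if_neg (by decide), if_neg (by decide), if_neg (by decide),
    Const_plam1, Const_plam2, Const_plam3, Const_plam4, Const_plam5, Const_plam6, Const_plam7, Const_plam8, Const_plam9]
  ring

theorem Const_row (s : ℝ → ℝ) (x : ℝ) : (∏ i : Fin 10, s (x * plam i)) =
    s x * s (x * (1 / 3)) ^ 5 * s (x * (-2 / 3)) ^ 4 := by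
  rw [Const_prod, Const_p0, Const_plam1, Const_plam2, Const_plam3, Const_plam4, Const_plam5, Const_plam6, Const_plam7,
    Const_plam8, Const_plam9, mul_one]
  ring

theorem Const_K2 (s : ℝ → ℝ) : (∏ p : Fin 10 × Fin 10, if p = (0, 0) then 1 else s (plam p.1 * plam p.2)) =
    (s (1 / 3) ^ 5 * s (-2 / 3) ^ 4) ^ 2 * (s (1 / 9) ^ 25 * s (-2 / 9) ^ 40 * s (4 / 9) ^ 16) := by
  rw [Fintype.prod_prod_type, Const_prod]
  have h0 : (∏ y : Fin 10, if ((0 : Fin 10), y) = ((0 : Fin 10), (0 : Fin 10)) then (1 : ℝ) else s (plam 0 * plam y)) =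
      s (1 / 3) ^ 5 * s (-2 / 3) ^ 4 := by
    rw [← Const_K1]
    refine Finset.prod_congr rfl ?_
    intro y _
    rw [Const_p0, one_mul]
    by_cases hy : y = 0
    · rw [if_pos hy, if_pos (by rw [hy])]
    · rw [if_neg hy, if_neg (by intro h; exact hy (Prod.ext_iff.1 h).2)]
  have hr : ∀ i : Fin 10, i ≠ 0 →
      (∏ y : Fin 10, if (i, y) = ((0 : Fin 10), (0 : Fin 10)) then (1 : ℝ) else s (plam i * plam y)) =
      s (plam i) * s (plam i * (1 / 3)) ^ 5 * s (plam i * (-2 / 3)) ^ 4 := by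
    intro i hi
    rw [← Const_row]
    refine Finset.prod_congr rfl ?_
    intro y _
    rw [if_neg (by intro h; exact hi (Prod.ext_iff.1 h).1)]
  rw [h0, hr 1 (by decide), hr 2 (by decide), hr 3 (by decide), hr 4 (by decide), hr 5 (by decide), hr 6 (by decide),
    hr 7 (by decide), hr 8 (by decide), hr 9 (by decide),
    Const_plam1, Const_plam2, Const_plam3, Const_plam4, Const_plam5, Const_plam6, Const_plam7, Const_plam8, Const_plam9,
    show (1 / 3 : ℝ) * (1 / 3) = 1 / 9 by norm_num, show (1 / 3 : ℝ) * (-2 / 3) = -2 / 9 by norm_num,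
    show (-2 / 3 : ℝ) * (1 / 3) = -2 / 9 by norm_num, show (-2 / 3 : ℝ) * (-2 / 3) = 4 / 9 by norm_num]
  ring

theorem K2c_eq : K2c = K1c ^ 2 * Real.exp (∑' j : ℕ, aa (j + 1) * (tau (j + 1) - 1) ^ 2) := by
  rw [Const_hasSum.tsum_eq, Real.exp_add, Real.exp_add,
    Const_exp (1 - 2 / 9) (25 / 2) (by norm_num) 25 (by norm_num),
    Const_exp (1 - (-4 / 9)) 20 (by norm_num) 40 (by norm_num),
    Const_exp (1 - 8 / 9) 8 (by norm_num) 16 (by norm_num)]
  unfold K1c K2c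
  rw [Const_K2 (fun x => 1 / Real.sqrt (1 - 2 * x)), Const_K1 (fun x => 1 / Real.sqrt (1 - 2 * x))]
  rw [show (1 - 2 * (1 / 9) : ℝ) = 1 - 2 / 9 by norm_num, show (1 - 2 * (-2 / 9) : ℝ) = 1 - (-4 / 9) by norm_num,
    show (1 - 2 * (4 / 9) : ℝ) = 1 - 8 / 9 by norm_num]

end Pool.Agent.PET
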