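import Pool.Agent.PET.CDefs
/-!
# CubS : a simple configuration gives a cubic graph

If `f` is a perfect matching with `Simp f`, then `i ↦ (f (v,i)).1` is injective on `Fin 3` (no double edges) and its image is the neighbourhood of `v` in `Gr f` (no loops; in the definition of
`Gr` the second alternative `f (u,i) = (v,j)` is `f (v,j) = (u,i)`).  So `neighborSet v` has exactly three elements.
-/
set_option autoImplicit false
open scoped BigOperators Classical
open Filter MeasureTheory
noncomputable section
namespace Pool.Agent.PET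

theorem nbr_of_simp {n : ℕ} (f : HE n → HE n) (hf : IsPM f) (hs : Simp f) (v : Fin n) :
    (Gr f).neighborSet v = Set.range (fun i : Fin 3 => (f (v, i)).1) ∧
      Function.Injective (fun i : Fin 3 => (f (v, i)).1) := by
  refine ⟨?_, ?_⟩
  · ext u
    constructor
    · rintro ⟨-, ⟨i, j, h⟩ | ⟨i, j, h⟩⟩
      · exact ⟨i, congrArg Prod.fst h⟩
      · refine ⟨j, ?_⟩
        show (f (v, j)).1 = u
        rw [← h, hf.1]
    · rintro ⟨i, rfl⟩
      exact ⟨(hs (v, i)).1.symm, Or.inl ⟨i, (f (v, i)).2, rfl⟩⟩
  · intro i j hij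
    by_contra hne
    have h1 : ((v, j) : HE n) ≠ (v, i) := fun h => hne (congrArg Prod.snd h).symm
    exact (hs (v, i)).2 (v, j) rfl h1 hij.symm

theorem cubic_of_simp {n : ℕ} (f : HE n → HE n) (hf : IsPM f) (hs : Simp f) : IsCubic (Gr f) := by
  intro v
  obtain ⟨h1, h2⟩ := nbr_of_simp f hf hs v
  rw [h1, ← Set.image_univ, Set.ncard_image_of_injective _ h2, Set.ncard_univ]
  simp

end Pool.Agent.PET
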