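import Pool.Agent.PET.K5m
/-!
# Cubic : the cubic inequality

Let `b² = Av β²`, `c² = Av γ²` (`b, c ≥ 0`).  From `K5m`:
`Av β³ ≤ √5 b³` (`β_x³ ≤ √5 b β_x²`), `3 Av β²γ ≤ 6 b² c`, `3 Av βγ² ≤ 3√(5/3) b c²`, `Av γ³ ≤ c³/√6`.
With `v = (3/2) b + c/6`, `v (3(b²+c²) + v²) = (63/8) b³ + (13/8) b²c + (37/8) b c² + (109/216) c³`.
So we need, for `b, c ≥ 0`,
`(63/8 - √5) b³ - (35/8) b² c + (37/8 - 3√(5/3)) b c² + (109/216 - 1/√6) c³ ≥ 0`.
Numerically `5.6389 b³ - 4.375 b²c + 0.7520 b c² + 0.0964 c³`; with `b = 1`, `c = t` the minimum over `t ≥ 0` is `≈ 0.66` at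
`t ≈ 2.08`.  (Use rational bounds `√5 ≤ 2.2361`, `3√(5/3) ≤ 3.8730`, `1/√6 ≤ 0.40825`; e.g. the polynomial
`p(t) = 5.63 - 4.375 t + 0.751 t² + 0.096 t³` is `≥ p(t0) + p'(t0)(t-t0) + (0.751+0.096(t+2t0))(t-t0)²`, `t0 = 2.08`.)
-/
set_option autoImplicit false
open scoped BigOperators
noncomputable section
namespace Pool.Agent.PET

theorem poly_ineq (b c : ℝ) (hb : 0 ≤ b) (hc : 0 ≤ c) :
    Real.sqrt 5 * b ^ 3 + 6 * b ^ 2 * c + 3 * Real.sqrt (5 / 3) * b * c ^ 2 + (1 / Real.sqrt 6) * c ^ 3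
      ≤ ((3 / 2) * b + c / 6) * (3 * (b ^ 2 + c ^ 2) + ((3 / 2) * b + c / 6) ^ 2) := by
  have h5 : Real.sqrt 5 ≤ 2.2361 := by
    rw [Real.sqrt_le_left (by norm_num)]
    norm_num
  have h53 : Real.sqrt (5 / 3) ≤ 1.2910 := by
    rw [Real.sqrt_le_left (by norm_num)]
    norm_num
  have h6 : 1 / Real.sqrt 6 ≤ 0.40825 := by
    have h6' : (1 : ℝ) / 0.40825 ≤ Real.sqrt 6 := by
      apply Real.le_sqrt_of_sq_le
      norm_num
    rw [div_le_iff₀ (by norm_num)] at h6'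
    rw [div_le_iff₀ (by positivity)]
    linarith
  have e1 : Real.sqrt 5 * b ^ 3 ≤ 2.2361 * b ^ 3 :=
    mul_le_mul_of_nonneg_right h5 (by positivity)
  have e2 : Real.sqrt (5 / 3) * (b * c ^ 2) ≤ 1.2910 * (b * c ^ 2) :=
    mul_le_mul_of_nonneg_right h53 (by positivity)
  have e3 : (1 / Real.sqrt 6) * c ^ 3 ≤ 0.40825 * c ^ 3 :=
    mul_le_mul_of_nonneg_right h6 (by positivity)
  have f1 : 0 ≤ b * (c - 2.08 * b) ^ 2 := mul_nonneg hb (sq_nonneg _)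
  have f2 : 0 ≤ c * (c - 2.08 * b) ^ 2 := mul_nonneg hc (sq_nonneg _)
  have f3 : 0 ≤ b ^ 3 := by positivity
  have f4 : 0 ≤ b ^ 2 * c := by positivity
  have f5 : 0 ≤ b * c ^ 2 := by positivity
  have f6 : 0 ≤ c ^ 3 := by positivity
  nlinarith [e1, e2, e3, f1, f2, f3, f4, f5, f6]

theorem cubic (β γ : Fin 10 → ℝ) (hβ : Ad β = β) (hγ : Ad γ = fun x => -2 * γ x)
    (b c : ℝ) (hb : 0 ≤ b) (hc : 0 ≤ c) (hb2 : b ^ 2 = Av (fun x => β x ^ 2))
    (hc2 : c ^ 2 = Av (fun x => γ x ^ 2)) :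
    Av (fun x => (β x + γ x) ^ 3)
      ≤ ((3 / 2) * b + c / 6) * (3 * (b ^ 2 + c ^ 2) + ((3 / 2) * b + c / 6) ^ 2) := by
  refine le_trans ?_ (poly_ineq b c hb hc)
  have hexp : Av (fun x => (β x + γ x) ^ 3) = Av (fun x => β x ^ 3) +
      3 * Av (fun x => γ x * β x ^ 2) + 3 * Av (fun x => β x * γ x ^ 2) +
      Av (fun x => γ x ^ 3) := by
    simp only [Av]
    rw [mul_div_assoc', mul_div_assoc', Finset.mul_sum, Finset.mul_sum, ← add_div, ← add_div,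
      ← add_div, ← Finset.sum_add_distrib, ← Finset.sum_add_distrib, ← Finset.sum_add_distrib]
    congr 1
    apply Finset.sum_congr rfl
    intro x _
    ring
  have t1 : Av (fun x => β x ^ 3) ≤ Real.sqrt 5 * b ^ 3 := by
    have h : ∀ x, β x ^ 3 ≤ (Real.sqrt 5 * b) * β x ^ 2 := by
      intro x
      have h1 : β x ≤ Real.sqrt 5 * b := by
        refine (le_abs_self _).trans (abs_le_of_sq_le_sq ?_ (by positivity))
        rw [mul_pow, Real.sq_sqrt (by norm_num), hb2]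
        exact m1 β hβ x
      calc β x ^ 3 = β x * β x ^ 2 := by ring
        _ ≤ _ := mul_le_mul_of_nonneg_right h1 (sq_nonneg _)
    have h2 : ∑ x, β x ^ 3 ≤ (Real.sqrt 5 * b) * ∑ x, β x ^ 2 := by
      rw [Finset.mul_sum]
      exact Finset.sum_le_sum fun x _ => h x
    have h3 : ∑ x, β x ^ 2 = 10 * b ^ 2 := by rw [hb2, Av]; ring
    rw [h3] at h2
    rw [Av, div_le_iff₀ (by norm_num)]
    linarith
  have t2 : 3 * Av (fun x => γ x * β x ^ 2) ≤ 6 * b ^ 2 * c := by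
    have h : ∀ x, γ x * β x ^ 2 ≤ (2 * c) * β x ^ 2 := by
      intro x
      have h1 : γ x ≤ 2 * c := by
        refine (le_abs_self _).trans (abs_le_of_sq_le_sq ?_ (by positivity))
        rw [mul_pow, hc2]
        have := m2 γ hγ x
        linarith
      exact mul_le_mul_of_nonneg_right h1 (sq_nonneg _)
    have h2 : ∑ x, γ x * β x ^ 2 ≤ (2 * c) * ∑ x, β x ^ 2 := by
      rw [Finset.mul_sum]
      exact Finset.sum_le_sum fun x _ => h x
    have h3 : ∑ x, β x ^ 2 = 10 * b ^ 2 := by rw [hb2, Av]; ring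
    rw [h3] at h2
    have : Av (fun x => γ x * β x ^ 2) ≤ 2 * c * b ^ 2 := by
      rw [Av, div_le_iff₀ (by norm_num)]
      linarith
    linarith
  have t3 : Av (fun x => β x * γ x ^ 2) ≤ Real.sqrt (5 / 3) * b * c ^ 2 := by
    refine (le_abs_self _).trans (abs_le_of_sq_le_sq ?_ (by positivity))
    rw [mul_pow, mul_pow, Real.sq_sqrt (by norm_num), hb2]
    have := m3 β γ hβ hγ
    rw [← hc2] at this
    exact this
  have t4 : Av (fun x => γ x ^ 3) ≤ (1 / Real.sqrt 6) * c ^ 3 := by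
    refine (le_abs_self _).trans (abs_le_of_sq_le_sq ?_ (by positivity))
    rw [mul_pow, div_pow, Real.sq_sqrt (by norm_num), one_pow]
    have := m4 γ hγ
    rw [← hc2] at this
    calc _ ≤ _ := this
      _ = _ := by ring
  rw [hexp]
  linarith

end Pool.Agent.PET
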