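import Pool.Agent.PET.Poi1
/-!
# Poi : joint factorial moments determine the joint Poisson limit

Induction on `k` with `poisson_one`.  `k = 0` is the hypothesis for `m = 0`.  Step: for a fixed multi-index `m'` of the first `k` coordinates apply `poisson_one` to the
measure `w' ω = w ω ∏_{j<k} (X_j).descFactorial (m'_j)` and the last variable (`K' = K ∏ b_j^{m'_j}`): so
`∑ w 1[X_k = x_k] ∏_{j<k} (X_j)_{m'_j} → (K e^{-b_k} b_k^{x_k}/x_k!) ∏_{j<k} b_j^{m'_j}`, then apply the induction hypothesis to the measure `w 1[X_k = x_k]`.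
-/
set_option autoImplicit false
open scoped BigOperators Classical
open Filter MeasureTheory
noncomputable section
namespace Pool.Agent.PET

theorem Poi_aux (Ω : ℕ → Type) [∀ t, Fintype (Ω t)] (k : ℕ) :
    ∀ (w : ∀ t, Ω t → ℝ) (_ : ∀ t ω, 0 ≤ w t ω) (X : ∀ t, Ω t → Fin k → ℕ) (K : ℝ) (b : Fin k → ℝ)
    (_ : ∀ m : Fin k → ℕ, Tendsto (fun t => ∑ ω, w t ω * ∏ j, ((X t ω j).descFactorial (m j) : ℝ)) atTop
      (nhds (K * ∏ j, b j ^ m j)))
    (x : Fin k → ℕ),
    Tendsto (fun t => ∑ ω, if (∀ j, X t ω j = x j) then w t ω else 0) atTop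
      (nhds (K * ∏ j, (Real.exp (-b j) * b j ^ x j / (Nat.factorial (x j) : ℝ)))) := by
  induction k with
  | zero =>
    intro w hw X K b h x
    have h0 := h (fun _ => 0)
    simpa using h0
  | succ k ih =>
    intro w hw X K b h x
    have key := ih (fun t ω => if X t ω 0 = x 0 then w t ω else 0)
      (by
        intro t ω
        by_cases hx : X t ω 0 = x 0
        · simp only [if_pos hx]; exact hw t ω
        · simp only [if_neg hx]; exact le_rfl)
      (fun t ω j => X t ω j.succ)
      (K * (Real.exp (-b 0) * b 0 ^ x 0 / (Nat.factorial (x 0) : ℝ)))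
      (fun j => b j.succ) ?_ (fun j => x j.succ)
    · convert key using 2
      · refine Finset.sum_congr rfl ?_
        intro ω _
        by_cases hx : X _ ω 0 = x 0
        · simp only [Fin.forall_fin_succ, hx, true_and, if_true]
        · have hne : ¬ (∀ j : Fin (k + 1), X _ ω j = x j) := fun hh => hx (hh 0)
          rw [if_neg hne]
          simp only [if_neg hx, ite_self]
      · rw [Fin.prod_univ_succ]
        ring
    · intro m'
      have h1 := poisson_one Ω (fun t ω => w t ω * ∏ j : Fin k, ((X t ω j.succ).descFactorial (m' j) : ℝ))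
        (by
          intro t ω
          exact mul_nonneg (hw t ω) (Finset.prod_nonneg fun j _ => Nat.cast_nonneg _))
        (fun t ω => X t ω 0) (K * ∏ j : Fin k, b j.succ ^ m' j) (b 0)
        (by
          intro m0
          have h2 := h (Fin.cons m0 m')
          simp only [Fin.prod_univ_succ, Fin.cons_zero, Fin.cons_succ] at h2
          convert h2 using 2
          · refine Finset.sum_congr rfl ?_
            intro ω _
            ring
          · ring)
        (x 0)
      convert h1 using 2
      · refine Finset.sum_congr rfl ?_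
        intro ω _
        by_cases hx : X _ ω 0 = x 0
        · simp only [if_pos hx]
        · simp only [if_neg hx, zero_mul]
      · ring

theorem poisson_limit (Ω : ℕ → Type) [∀ t, Fintype (Ω t)] (w : ∀ t, Ω t → ℝ)
    (hw : ∀ t ω, 0 ≤ w t ω) (k : ℕ) (X : ∀ t, Ω t → Fin k → ℕ) (K : ℝ) (b : Fin k → ℝ)
    (h : ∀ m : Fin k → ℕ, Tendsto (fun t => ∑ ω, w t ω * ∏ j, ((X t ω j).descFactorial (m j) : ℝ)) atTop
      (nhds (K * ∏ j, b j ^ m j)))
    (x : Fin k → ℕ) :
    Tendsto (fun t => ∑ ω, if (∀ j, X t ω j = x j) then w t ω else 0) atTop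
      (nhds (K * ∏ j, (Real.exp (-b j) * b j ^ x j / (Nat.factorial (x j) : ℝ)))) :=
  Poi_aux Ω k w hw X K b h x

end Pool.Agent.PET
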