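import Pool.Agent.PET.CDefs
/-!
# TupFall : tuples of distinct cycles = products of falling factorials

Given `m : Fin k → ℕ` let `l` list `j+1` exactly `m j` times (`r = ∑ m j`), e.g. `Fin r ≃ Σ j, Fin (m j)` and `l (j,s) = j+1`.
A tuple in `Tup l f` is, for each `j`, an injective map `Fin (m j) → {canonical (j+1)-cycles of f}` (cycles of different lengths are
automatically different), so `|Tup l f| = ∏_j (XC (j+1) f)(XC (j+1) f - 1)…` (`Fintype.card_embedding_eq`, `Nat.descFactorial`).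
-/
set_option autoImplicit false
open scoped BigOperators Classical
open Filter MeasureTheory
noncomputable section
namespace Pool.Agent.PET

theorem TupFall_card (k : ℕ) (m : Fin k → ℕ) (r : ℕ) (e : Fin r ≃ Σ j : Fin k, Fin (m j))
    (n : ℕ) (f : HE n → HE n) :
    (Tup (fun i => (e i).1.1 + 1) f).card =
      ∏ j : Fin k, (XC (j.1 + 1) f).descFactorial (m j) := by
  let S : Fin k → Type := fun j => {c : Cyc (j.1 + 1) n // Canon c ∧ Real' f c}
  have hS : ∀ j, Fintype.card (S j) = XC (j.1 + 1) f := by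
    intro j
    show Fintype.card {c : Cyc (j.1 + 1) n // Canon c ∧ Real' f c} = _
    rw [Fintype.card_subtype]
    rfl
  let Φ : (∀ j, Fin (m j) ↪ S j) → (∀ i : Fin r, Cyc ((e i).1.1 + 1) n) :=
    fun F i => (F (e i).1 (e i).2).1
  have hinj : Function.Injective Φ := by
    intro F F' h
    have h1 : ∀ p : (Σ j : Fin k, Fin (m j)), (F p.1 p.2).1 = (F' p.1 p.2).1 := by
      rw [e.surjective.forall]
      intro i
      exact congrFun h i
    funext j
    apply DFunLike.ext
    intro s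
    exact Subtype.ext (h1 ⟨j, s⟩)
  have himg : Tup (fun i => (e i).1.1 + 1) f = Finset.univ.image Φ := by
    ext T
    simp only [Tup, Finset.mem_filter, Finset.mem_univ, true_and, Finset.mem_image]
    constructor
    · rintro ⟨hT1, hT2⟩
      let P : (Σ j : Fin k, Fin (m j)) → Type := fun p => Cyc (p.1.1 + 1) n
      let T' : ∀ p, P p := Equiv.piCongrLeft P e T
      have hT' : ∀ i, T' (e i) = T i := fun i => Equiv.piCongrLeft_apply_apply P e T i
      have h1 : ∀ p : (Σ j : Fin k, Fin (m j)), Canon (n := n) (j := p.1.1 + 1) (T' p) ∧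
          Real' (n := n) (j := p.1.1 + 1) f (T' p) := by
        rw [e.surjective.forall]
        intro i
        rw [hT' i]
        exact hT1 i
      have h2 : ∀ p q : (Σ j : Fin k, Fin (m j)), p ≠ q →
          (⟨p.1.1 + 1, T' p⟩ : Σ s, Cyc s n) ≠ ⟨q.1.1 + 1, T' q⟩ := by
        rw [e.surjective.forall]
        intro i
        rw [e.surjective.forall]
        intro i' hii
        rw [hT' i, hT' i']
        exact hT2 i i' (fun h => hii (by rw [h]))
      refine ⟨fun j => ⟨fun s => ⟨T' ⟨j, s⟩, h1 ⟨j, s⟩⟩, ?_⟩, ?_⟩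
      · intro s s' hss
        by_contra hne
        have h3 : (⟨j, s⟩ : Σ j : Fin k, Fin (m j)) ≠ ⟨j, s'⟩ := by
          intro h4
          apply hne
          simpa using h4
        apply h2 _ _ h3
        have h5 : T' ⟨j, s⟩ = T' ⟨j, s'⟩ := congrArg Subtype.val hss
        show (⟨j.1 + 1, T' ⟨j, s⟩⟩ : Σ s, Cyc s n) = ⟨j.1 + 1, T' ⟨j, s'⟩⟩
        rw [h5]
      · funext i
        exact hT' i
    · rintro ⟨F, rfl⟩
      refine ⟨fun i => (F (e i).1 (e i).2).2, ?_⟩
      have h2 : ∀ p q : (Σ j : Fin k, Fin (m j)), p ≠ q →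
          (⟨p.1.1 + 1, (F p.1 p.2).1⟩ : Σ s, Cyc s n) ≠ ⟨q.1.1 + 1, (F q.1 q.2).1⟩ := by
        rintro ⟨j, s⟩ ⟨j', s'⟩ hne heq
        have h3 : j.1 + 1 = j'.1 + 1 := congrArg Sigma.fst heq
        have h4 : j = j' := Fin.ext (by omega)
        subst h4
        have h5 : (F j s).1 = (F j s').1 := by simpa using heq
        have h6 : s = s' := (F j).injective (Subtype.ext h5)
        exact hne (by rw [h6])
      intro i j hij
      exact h2 (e i) (e j) (fun h => hij (e.injective h))
  rw [himg, Finset.card_image_of_injective _ hinj, Finset.card_univ, Fintype.card_pi]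
  refine Finset.prod_congr rfl (fun j _ => ?_)
  rw [Fintype.card_embedding_eq, hS, Fintype.card_fin]

theorem tup_fall (k : ℕ) (m : Fin k → ℕ) : ∃ (r : ℕ) (l : Fin r → ℕ), (∀ i, 1 ≤ l i) ∧
    (∀ g : ℕ → ℝ, ∏ i, g (l i) = ∏ j : Fin k, g (j.1 + 1) ^ m j) ∧
    ∀ (n : ℕ) (f : HE n → HE n),
      ((Tup l f).card : ℝ) = ∏ j : Fin k, ((XC (j.1 + 1) f).descFactorial (m j) : ℝ) := by
  let e : Fin (Fintype.card (Σ j : Fin k, Fin (m j))) ≃ Σ j : Fin k, Fin (m j) :=
    (Fintype.equivFin _).symm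
  refine ⟨_, fun i => (e i).1.1 + 1, fun i => Nat.succ_pos _, ?_, ?_⟩
  · intro g
    rw [Equiv.prod_comp e (fun p : (Σ j : Fin k, Fin (m j)) => g (p.1.1 + 1)), Fintype.prod_sigma]
    refine Finset.prod_congr rfl (fun j _ => ?_)
    simp
  · intro n f
    rw [TupFall_card k m _ e n f, Nat.cast_prod]

end Pool.Agent.PET
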