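import Pool.Agent.PET.FacMom
import Pool.Agent.PET.TupFall
import Pool.Agent.PET.Poi
/-!
# CycPoi : joint Poisson limit of the cycle counts under a weight satisfying H1, H2

`poisson_limit` with `Ω t = HE (2t) → HE (2t)`, weights `if f ∈ PMs then w t f else 0`, `X_j = XC (j+1)`, `b_j = aa(j+1) τ(j+1)`;
the hypothesis is `facMom` for the tuple `l` of `tup_fall`.
-/
set_option autoImplicit false
open scoped BigOperators Classical
open Filter MeasureTheory
noncomputable section
namespace Pool.Agent.PET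

theorem cycPoi (w : ∀ t, (HE (2 * t) → HE (2 * t)) → ℝ) (hw : ∀ t f, 0 ≤ w t f) (K : ℝ) (τ : ℕ → ℝ)
    (h1 : H1 w K τ) (h2 : H2 w) (k : ℕ) (x : Fin k → ℕ) :
    Tendsto (fun t : ℕ => ∑ f ∈ PMs (HE (2 * t)), if (∀ j : Fin k, XC (j.1 + 1) f = x j) then w t f else 0) atTop
      (nhds (K * ∏ j : Fin k, (Real.exp (-(aa (j.1 + 1) * τ (j.1 + 1)))
        * (aa (j.1 + 1) * τ (j.1 + 1)) ^ x j / (Nat.factorial (x j) : ℝ)))) := by
  have key := poisson_limit (fun t => HE (2 * t) → HE (2 * t))
    (fun t f => if f ∈ PMs (HE (2 * t)) then w t f else 0)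
    (fun t f => by
      split_ifs
      · exact hw t f
      · exact le_rfl) k (fun t f j => XC (j.1 + 1) f) K
    (fun j => aa (j.1 + 1) * τ (j.1 + 1)) ?_ x
  · refine key.congr (fun t => ?_)
    rw [← Finset.sum_subset (Finset.subset_univ (PMs (HE (2 * t))))]
    · refine Finset.sum_congr rfl (fun f hf => ?_)
      rw [if_pos hf]
    · intro f _ hf
      rw [if_neg hf]
      simp
  · intro m
    obtain ⟨r, l, hl, hg, hc⟩ := tup_fall k m
    have h3 := facMom w hw K τ h1 h2 r l hl
    rw [hg (fun j => aa j * τ j)] at h3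
    refine h3.congr (fun t => ?_)
    rw [← Finset.sum_subset (Finset.subset_univ (PMs (HE (2 * t))))]
    · refine Finset.sum_congr rfl (fun f hf => ?_)
      rw [if_pos hf, hc (2 * t) f]
    · intro f _ hf
      rw [if_neg hf, zero_mul]

end Pool.Agent.PET
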