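import Pool.Agent.PET.Defs
/-!
# DFac : asymptotics of `(2t-1)!!`

`dfac (2t) = (2t-1)!! = (2t)! / (2^t t!)`; Stirling (`Stirling.tendsto_stirlingSeq_sqrt_pi`:
`n! / (√(2n) (n/e)^n) → √π`) gives `(2t-1)!! / ((2t)^t e^{-t}) → √2`.

`dfac (2t) = (2t-1) dfac(2t-2)`, hence `dfac (2t - 2e) / dfac (2t) = ∏_{i<e} 1/(2t-1-2i)` (`e ≤ t`), which gives the other two.
-/
set_option autoImplicit false
open scoped BigOperators Classical
open Filter MeasureTheory
noncomputable section
namespace Pool.Agent.PET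

theorem dfac_pos (q : ℕ) : 0 < dfac q := by
  unfold dfac
  exact_mod_cast Nat.doubleFactorial_pos _

theorem dfac_succ (t : ℕ) : dfac (2 * (t + 1)) = (2 * t + 1) * dfac (2 * t) := by
  unfold dfac
  rcases t with _ | t
  · simp
  · have h : 2 * (t + 1 + 1) - 1 = (2 * (t + 1) - 1) + 2 := by omega
    rw [h, Nat.doubleFactorial_add_two]
    have h2 : ((2 * (t + 1) - 1 + 2 : ℕ) : ℝ) = 2 * ((t + 1 : ℕ) : ℝ) + 1 := by
      have : 2 * (t + 1) - 1 + 2 = 2 * (t + 1) + 1 := by omega
      rw [this]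
      push_cast
      ring
    rw [Nat.cast_mul, h2]

private theorem DFac_closed (t : ℕ) :
    dfac (2 * t) * (2 ^ t * (t.factorial : ℝ)) = ((2 * t).factorial : ℝ) := by
  induction t with
  | zero => simp [dfac]
  | succ t ih =>
    rw [dfac_succ, Nat.factorial_succ, show 2 * (t + 1) = 2 * t + 1 + 1 by ring,
      Nat.factorial_succ, Nat.factorial_succ]
    push_cast
    rw [← ih]
    ring

private theorem DFac_eq {t : ℕ} (ht : t ≠ 0) :
    dfac (2 * t) / ((2 * t : ℝ) ^ t * Real.exp (-(t : ℝ))) =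
      Real.sqrt 2 * (Stirling.stirlingSeq (2 * t) / Stirling.stirlingSeq t) := by
  have htp : (0 : ℝ) < t := by exact_mod_cast Nat.pos_of_ne_zero ht
  have h := DFac_closed t
  have hf : (0 : ℝ) < (t.factorial : ℝ) := by exact_mod_cast Nat.factorial_pos t
  have hd : dfac (2 * t) = ((2 * t).factorial : ℝ) / (2 ^ t * (t.factorial : ℝ)) := by
    rw [eq_div_iff (by positivity)]
    exact h
  unfold Stirling.stirlingSeq
  rw [hd]
  have e1 : Real.sqrt (2 * ((2 * t : ℕ) : ℝ)) = Real.sqrt 2 * Real.sqrt (2 * t) := by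
    rw [← Real.sqrt_mul (by norm_num)]
    congr 1
    push_cast
    ring
  have e2 : (((2 * t : ℕ) : ℝ) / Real.exp 1) ^ (2 * t) =
      2 ^ t * ((t : ℝ) / Real.exp 1) ^ t * ((2 * t : ℝ) ^ t * Real.exp (-(t : ℝ))) := by
    have e3 : Real.exp (-(t : ℝ)) = (Real.exp 1)⁻¹ ^ t := by
      rw [← Real.exp_neg, ← Real.exp_nat_mul]
      congr 1
      ring
    rw [e3, pow_mul]
    push_cast
    rw [← mul_pow, ← mul_pow, ← mul_pow]
    congr 1
    field_simp
  rw [e1, e2]
  have s2 : (0 : ℝ) < Real.sqrt 2 := by positivity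
  have s2t : (0 : ℝ) < Real.sqrt (2 * t) := by positivity
  have he : (0 : ℝ) < Real.exp (-(t : ℝ)) := Real.exp_pos _
  have he1 : (0 : ℝ) < Real.exp 1 := Real.exp_pos _
  have hpt : (0 : ℝ) < (t / Real.exp 1) ^ t := by positivity
  have h2t : (0 : ℝ) < (2 * t : ℝ) ^ t := by positivity
  generalize Real.sqrt 2 = A at *
  generalize Real.sqrt (2 * (t:ℝ)) = B at *
  generalize Real.exp (-(t:ℝ)) = E at *
  generalize (t / Real.exp 1) ^ t = D at *
  generalize (2 * t : ℝ) ^ t = P at *
  field_simp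

theorem dfac_asymp :
    Tendsto (fun t : ℕ => dfac (2 * t) / ((2 * t : ℝ) ^ t * Real.exp (-(t : ℝ)))) atTop
      (nhds (Real.sqrt 2)) := by
  have h1 := Stirling.tendsto_stirlingSeq_sqrt_pi
  have h2 : Tendsto (fun t : ℕ => Stirling.stirlingSeq (2 * t)) atTop
      (nhds (Real.sqrt Real.pi)) :=
    h1.comp (tendsto_id.const_mul_atTop' (by norm_num : (0 : ℕ) < 2))
  have hpi : Real.sqrt Real.pi ≠ 0 := (Real.sqrt_pos.2 Real.pi_pos).ne'
  have h3 : Tendsto (fun t : ℕ => Real.sqrt 2 *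
      (Stirling.stirlingSeq (2 * t) / Stirling.stirlingSeq t)) atTop (nhds (Real.sqrt 2)) := by
    have := (h2.div h1 hpi).const_mul (Real.sqrt 2)
    rw [div_self hpi, mul_one] at this
    exact this
  refine h3.congr' ?_
  filter_upwards [eventually_ne_atTop 0] with t ht
  exact (DFac_eq ht).symm

theorem dfac_ratio (e : ℕ) :
    Tendsto (fun t : ℕ => (6 * t : ℝ) ^ e * dfac (6 * t - 2 * e) / dfac (6 * t)) atTop (nhds 1) := by
  induction e with
  | zero =>
    refine tendsto_const_nhds.congr' ?_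
    filter_upwards with t
    simp [(dfac_pos (6 * t)).ne']
  | succ e ih =>
    have hlim : Tendsto (fun t : ℕ => (6 * t : ℝ) / (6 * t - (2 * e + 1))) atTop (nhds 1) := by
      have h0 : Tendsto (fun t : ℕ => ((2 * e + 1 : ℝ) / 6) / (t : ℝ)) atTop (nhds 0) :=
        tendsto_const_div_atTop_nhds_zero_nat _
      have h1 : Tendsto (fun t : ℕ => (1 : ℝ) / (1 - ((2 * e + 1 : ℝ) / 6) / (t : ℝ))) atTop
          (nhds (1 / (1 - 0))) :=
        tendsto_const_nhds.div (tendsto_const_nhds.sub h0) (by norm_num)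
      rw [sub_zero, div_one] at h1
      refine h1.congr' ?_
      filter_upwards [eventually_gt_atTop (2 * e + 1)] with t ht
      have ht0 : (0 : ℝ) < t := by
        have : 0 < t := by omega
        exact_mod_cast this
      have ht1 : (2 * e + 1 : ℝ) < t := by exact_mod_cast ht
      have h2 : (6 * t - (2 * e + 1) : ℝ) ≠ 0 := by
        have : (0 : ℝ) < 6 * t - (2 * e + 1) := by linarith
        exact this.ne'
      have h3 : (1 - ((2 * e + 1 : ℝ) / 6) / (t : ℝ)) = (6 * t - (2 * e + 1)) / (6 * t) := by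
        field_simp
      rw [h3, one_div_div]
    have := ih.mul hlim
    rw [mul_one] at this
    refine this.congr' ?_
    filter_upwards [eventually_gt_atTop (2 * e + 2)] with t ht
    have hs := dfac_succ (3 * t - e - 1)
    have a1 : 2 * (3 * t - e - 1 + 1) = 6 * t - 2 * e := by omega
    have a2 : 2 * (3 * t - e - 1) = 6 * t - 2 * (e + 1) := by omega
    have a3 : (2 * ((3 * t - e - 1 : ℕ) : ℝ) + 1) = 6 * t - (2 * e + 1) := by
      have : ((3 * t - e - 1 : ℕ) : ℝ) = 3 * t - e - 1 := by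
        rw [Nat.cast_sub (by omega), Nat.cast_sub (by omega)]
        push_cast
        ring
      rw [this]
      ring
    rw [a1, a2, a3] at hs
    rw [hs]
    have ht1 : (2 * e + 2 : ℝ) < t := by exact_mod_cast ht
    have h2 : (6 * t - (2 * e + 1) : ℝ) ≠ 0 := by
      have h0 : (0 : ℝ) ≤ e := Nat.cast_nonneg e
      have : (0 : ℝ) < 6 * t - (2 * e + 1) := by linarith
      exact this.ne'
    have h3 := (dfac_pos (6 * t)).ne'
    rw [pow_succ]
    field_simp

end Pool.Agent.PET
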