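import Mathlib

set_option autoImplicit false

open scoped BigOperators Classical
open Filter MeasureTheory

noncomputable section

namespace Pool.Agent.PET

/-! ### Perfect matchings -/

/-- fixed point free involutions = perfect matchings -/
def IsPM {H : Type} (f : H → H) : Prop := (∀ h, f (f h) = h) ∧ ∀ h, f h ≠ h

/-- the finite set of all perfect matchings of `H` -/
def PMs (H : Type) [Fintype H] : Finset (H → H) := Finset.univ.filter IsPM

theorem mem_PMs {H : Type} [Fintype H] (f : H → H) : f ∈ PMs H ↔ IsPM f := by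
  simp [PMs]

/-- the typing `x` of the points is compatible with the matching `f` -/
def Compat {H X : Type} (A : X → X → Prop) (x : H → X) (f : H → H) : Prop :=
  ∀ h, A (x h) (x (f h))

/-- number of perfect matchings compatible with the typing `x` -/
def cnt {H X : Type} [Fintype H] (A : X → X → Prop) (x : H → X) : ℕ :=
  ((PMs H).filter (Compat A x)).card

/-- number of perfect matchings of a set of (even) size `q` : `(q-1)!!` -/
def dfac (q : ℕ) : ℝ := ((q - 1).doubleFactorial : ℝ)

/-- half-edges of the configuration model -/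
abbrev HE (n : ℕ) : Type := Fin n × Fin 3

/-! ### Gaussian representation -/

/-- standard Gaussian measure on `I → ℝ` -/
def gam (I : Type) [Fintype I] : Measure (I → ℝ) :=
  Measure.pi (fun _ => ProbabilityTheory.gaussianReal 0 1)

/-- A symmetric 0/1 matrix on `X` together with its spectral decomposition
`A = rho * ∑ lam_i phi_i phi_i^T` -/
structure Spec (X I : Type) [Fintype X] [Fintype I] where
  A : X → X → Prop
  i0 : I
  phi : I → X → ℝ
  lam : I → ℝ
  rho : ℝ
  rho_pos : 0 < rho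
  phi0 : ∀ x, phi i0 x = 1
  orth : ∀ i j, ∑ x, phi i x * phi j x = if i = j then (Fintype.card X : ℝ) else 0
  lam0 : lam i0 = 1
  labs : ∀ i, i ≠ i0 → |lam i| ≤ 2 / 3
  lle : ∀ i, i ≠ i0 → lam i ≤ 4 / 9
  hA : ∀ x y, (if A x y then (1 : ℝ) else 0) = rho * ∑ i, lam i * phi i x * phi i y

variable {X I : Type} [Fintype X] [Fintype I]

/-- complex square root of `lam i` -/
def Spec.s (S : Spec X I) (i : I) : ℂ :=
  if 0 ≤ S.lam i then ((Real.sqrt (S.lam i) : ℝ) : ℂ)
  else Complex.I * ((Real.sqrt (-S.lam i) : ℝ) : ℂ)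

/-- the Gaussian field -/
def Spec.G (S : Spec X I) (k : I → ℝ) (x : X) : ℂ :=
  ∑ i, S.s i * (S.phi i x : ℂ) * (k i : ℂ)

/-- `∏_{i ≠ i0} (1 - 2 lam_i)^(-1/2)` -/
def Spec.K (S : Spec X I) : ℝ :=
  ∏ i, if i = S.i0 then 1 else 1 / Real.sqrt (1 - 2 * S.lam i)

/-- the number of indices of type `a` -/
def cntX {m : ℕ} {Y : Type} (x : Fin m → Y) (a : Y) : ℕ :=
  (Finset.univ.filter (fun v => x v = a)).card

/-- all type frequencies are within `δ` of uniform -/
def Near {m : ℕ} {Y : Type} [Fintype Y] (δ : ℝ) (x : Fin m → Y) : Prop :=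
  ∀ a, |(cntX x a : ℝ) / m - 1 / (Fintype.card Y : ℝ)| ≤ δ

/-- the restricted sum of products of cubes -/
def Spec.F (S : Spec X I) {m : ℕ} (N : Set (Fin m → X)) (k : I → ℝ) : ℂ :=
  ∑ x ∈ Finset.univ.filter (fun x : Fin m → X => x ∈ N), ∏ v, (S.G k (x v)) ^ 3

/-- shift of the `i0` coordinate by `√q` -/
def Spec.kk (S : Spec X I) (q : ℝ) (u : I → ℝ) : I → ℝ :=
  fun i => if i = S.i0 then u i + Real.sqrt q else u i

/-- sum of the squares of the other coordinates -/
def Spec.rr (S : Spec X I) (k : I → ℝ) : ℝ := ∑ i ∈ Finset.univ.erase S.i0, k i ^ 2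

/-! ### The Petersen graph on `Fin 10` -/

/-- the ten 2-subsets of a 5-set -/
def pv : Fin 10 → Fin 5 × Fin 5 :=
  ![(0, 1), (0, 2), (0, 3), (0, 4), (1, 2), (1, 3), (1, 4), (2, 3), (2, 4), (3, 4)]

/-- adjacency (disjointness) -/
def padj (x y : Fin 10) : Prop :=
  (pv x).1 ≠ (pv y).1 ∧ (pv x).1 ≠ (pv y).2 ∧ (pv x).2 ≠ (pv y).1 ∧ (pv x).2 ≠ (pv y).2

instance padjDec (x y : Fin 10) : Decidable (padj x y) := by unfold padj; infer_instance

/-- the Petersen graph of the problem -/
abbrev PetersenV : Type := {s : Finset (Fin 5) // s.card = 2}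

abbrev petersen : SimpleGraph PetersenV :=
  SimpleGraph.fromRel (fun s t : PetersenV => Disjoint s.1 t.1)

/-! ### Cycles in a configuration -/

/-- a rooted oriented `j`-cycle: `t ↦ (vertex, incoming half-edge, outgoing half-edge)` -/
abbrev Cyc (j n : ℕ) : Type := Fin j → Fin n × Fin 3 × Fin 3

/-- cyclic successor -/
def nxt {j : ℕ} (t : Fin j) : Fin j := ⟨(t.1 + 1) % j, Nat.mod_lt _ (Nat.lt_of_le_of_lt (Nat.zero_le _) t.2)⟩

/-- distinct vertices, incoming and outgoing half-edges differ -/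
def IsCyc {j n : ℕ} (c : Cyc j n) : Prop :=
  Function.Injective (fun t => (c t).1) ∧ ∀ t, (c t).2.1 ≠ (c t).2.2

/-- the cycle is present in the configuration `f` -/
def Real' {j n : ℕ} (f : HE n → HE n) (c : Cyc j n) : Prop :=
  ∀ t, f ((c t).1, (c t).2.2) = ((c (nxt t)).1, (c (nxt t)).2.1)

/-- canonical representative: the root is the smallest vertex, and the orientation is such that the
incoming half-edge at the root is smaller than the outgoing one -/
def Canon {j n : ℕ} (c : Cyc j n) : Prop :=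
  IsCyc c ∧ (∀ s t : Fin j, s.1 = 0 → (c s).1 ≤ (c t).1) ∧
    ∀ s : Fin j, s.1 = 0 → (c s).2.1 < (c s).2.2

/-- number of `j`-cycles of the configuration `f` -/
def XC (j : ℕ) {n : ℕ} (f : HE n → HE n) : ℕ :=
  (Finset.univ.filter (fun c : Cyc j n => Canon c ∧ Real' f c)).card

/-- `a_j = 2^j / (2j)` -/
def aa (j : ℕ) : ℝ := 2 ^ j / (2 * j)

/-- `tau_j = tr (A/3)^j` for the Petersen graph -/
def tau (j : ℕ) : ℝ := 1 + 5 / 3 ^ j + 4 * (-2 / 3) ^ j

/-! ### Number of balanced colourings -/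

/-- number of homomorphisms (as compatible vertex typings) with balanced colour classes -/
def Zf (δ : ℝ) {n : ℕ} (f : HE n → HE n) : ℕ :=
  (Finset.univ.filter (fun σ : Fin n → Fin 10 =>
    Near δ σ ∧ Compat padj (fun h : HE n => σ h.1) f)).card

/-- the exponential order of the first moment, `n = 2t` -/
def B (t : ℕ) : ℝ := (27 / 10 : ℝ) ^ t

/-- uniform weight -/
def wP (t : ℕ) (_f : HE (2 * t) → HE (2 * t)) : ℝ := 1 / dfac (6 * t)

/-- `Z`-weighted -/
def wZ (δ : ℝ) (t : ℕ) (f : HE (2 * t) → HE (2 * t)) : ℝ := Zf δ f / (B t * dfac (6 * t))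

end Pool.Agent.PET
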