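import Pool.Agent.PET.GSq
/-!
# GMB : geometric mean bound for nearly uniform type vectors

Let `x : Fin m → X` be `δ`-near uniform.  Weighted AM-GM (`Real.geom_mean_le_arith_mean` or
`Real.inner_le...`): `(∏_v ‖G(x v)‖²)^{1/m} ≤ (1/m) ∑_v ‖G(x v)‖² = ∑_a (cntX x a / m) ‖G a‖² ≤ (1/N + δ) ∑_a ‖G a‖²
= (1 + N δ) ∑_i |lam_i| k_i² ≤ (1 + Nδ)(k_{i0}² + (2/3) rr k)` (`sum_normsq`, `|lam_i| ≤ 2/3` for `i ≠ i0`).
Raise to the power `3m/2`.

`F_le_all`: `‖F N k‖ ≤ ∑_x ∏_v ‖G(x v)‖³ = (∑_x ‖G x‖³)^m` (`Finset.prod_univ_sum`/`Finset.sum_pow'`, `Fintype.piFinset`).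
`F_le_near`: at most `N^m` terms, each bounded by `gmb`.
-/
set_option autoImplicit false
open scoped BigOperators Classical
open Filter MeasureTheory
noncomputable section
namespace Pool.Agent.PET

variable {X I : Type} [Fintype X] [Fintype I]

theorem GMB_mean (S : Spec X I) [Nonempty X] (δ : ℝ) {m : ℕ} (hm : 0 < m) (x : Fin m → X)
    (hx : Near δ x) (hδ : 0 ≤ δ) (k : I → ℝ) :
    ∑ v, (1 / (m : ℝ)) * ‖S.G k (x v)‖ ^ 2 ≤
      (1 + (Fintype.card X : ℝ) * δ) * ((k S.i0) ^ 2 + (2 / 3) * S.rr k) := by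
  have hm0 : (0 : ℝ) < m := by exact_mod_cast hm
  have hN0 : (0 : ℝ) < Fintype.card X := by exact_mod_cast Fintype.card_pos
  have h1 : ∑ v, (1 / (m : ℝ)) * ‖S.G k (x v)‖ ^ 2 =
      ∑ a, ((cntX x a : ℝ) / m) * ‖S.G k a‖ ^ 2 := by
    have h2 : ∀ a, ((cntX x a : ℝ) / m) * ‖S.G k a‖ ^ 2 =
        ∑ v ∈ Finset.univ.filter (fun v => x v = a), (1 / (m : ℝ)) * ‖S.G k (x v)‖ ^ 2 := by
      intro a
      rw [Finset.sum_congr rfl (g := fun _ => (1 / (m : ℝ)) * ‖S.G k a‖ ^ 2)]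
      · rw [Finset.sum_const, nsmul_eq_mul, cntX]
        ring
      · intro v hv
        rw [Finset.mem_filter] at hv
        rw [hv.2]
    rw [← Finset.sum_fiberwise Finset.univ x (fun v => (1 / (m : ℝ)) * ‖S.G k (x v)‖ ^ 2)]
    refine Finset.sum_congr rfl fun a _ => ?_
    rw [h2]
  rw [h1]
  have h3 : ∑ a, ((cntX x a : ℝ) / m) * ‖S.G k a‖ ^ 2 ≤
      ∑ a, (1 / (Fintype.card X : ℝ) + δ) * ‖S.G k a‖ ^ 2 := by
    refine Finset.sum_le_sum fun a _ => ?_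
    apply mul_le_mul_of_nonneg_right _ (by positivity)
    have := (abs_le.1 (hx a)).2
    linarith
  refine h3.trans ?_
  rw [← Finset.mul_sum, sum_normsq, ← mul_assoc]
  have h4 : (1 / (Fintype.card X : ℝ) + δ) * (Fintype.card X : ℝ) =
      1 + (Fintype.card X : ℝ) * δ := by
    field_simp
  rw [h4]
  apply mul_le_mul_of_nonneg_left _ (by positivity)
  rw [← Finset.add_sum_erase _ _ (Finset.mem_univ S.i0), S.lam0, abs_one, one_mul]
  apply add_le_add le_rfl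
  unfold Spec.rr
  rw [Finset.mul_sum]
  refine Finset.sum_le_sum fun i hi => ?_
  exact mul_le_mul_of_nonneg_right (S.labs i (Finset.ne_of_mem_erase hi)) (sq_nonneg _)

theorem gmb (S : Spec X I) [Nonempty X] (δ : ℝ) (hδ : 0 ≤ δ) {m : ℕ} (hm : 0 < m) (x : Fin m → X)
    (hx : Near δ x) (k : I → ℝ) :
    ∏ v, ‖S.G k (x v)‖ ^ 3 ≤
      ((1 + (Fintype.card X : ℝ) * δ) * ((k S.i0) ^ 2 + (2 / 3) * S.rr k)) ^ ((3 * m : ℝ) / 2) := by
  have hm0 : (0 : ℝ) < m := by exact_mod_cast hm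
  have h1 : ∀ v, ‖S.G k (x v)‖ ^ 3 =
      ((‖S.G k (x v)‖ ^ 2) ^ (1 / (m : ℝ))) ^ ((3 * m : ℝ) / 2) := by
    intro v
    rw [← Real.rpow_mul (by positivity)]
    have h2 : 1 / (m : ℝ) * (3 * m / 2) = 3 / 2 := by field_simp
    rw [h2, ← Real.rpow_natCast (‖S.G k (x v)‖) 2, ← Real.rpow_mul (norm_nonneg _),
      ← Real.rpow_natCast]
    norm_num
  have h2 : ∏ v, ‖S.G k (x v)‖ ^ 3 =
      (∏ v, (‖S.G k (x v)‖ ^ 2) ^ (1 / (m : ℝ))) ^ ((3 * m : ℝ) / 2) := by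
    rw [← Real.finsetProd_rpow _ _ (fun v _ => by positivity)]
    exact Finset.prod_congr rfl fun v _ => h1 v
  rw [h2]
  apply Real.rpow_le_rpow (Finset.prod_nonneg fun v _ => by positivity) _ (by positivity)
  refine le_trans ?_ (GMB_mean S δ hm x hx hδ k)
  apply Real.geom_mean_le_arith_mean_weighted
  · intro v _
    positivity
  · rw [Finset.sum_const, Finset.card_univ, Fintype.card_fin, nsmul_eq_mul]
    field_simp
  · intro v _
    positivity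

theorem F_le_all (S : Spec X I) {m : ℕ} (N : Set (Fin m → X)) (k : I → ℝ) :
    ‖S.F N k‖ ≤ (∑ x, ‖S.G k x‖ ^ 3) ^ m := by
  unfold Spec.F
  refine (norm_sum_le _ _).trans ?_
  have h1 : (∑ a, ‖S.G k a‖ ^ 3) ^ m = ∑ x : Fin m → X, ∏ v, ‖S.G k (x v)‖ ^ 3 := by
    have h2 := Finset.prod_univ_sum (fun _ : Fin m => (Finset.univ : Finset X))
      (fun _ a => ‖S.G k a‖ ^ 3)
    rw [Finset.prod_const, Finset.card_univ, Fintype.card_fin, Fintype.piFinset_univ] at h2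
    exact h2
  rw [h1]
  refine le_trans (Finset.sum_le_sum fun x _ => ?_)
    (Finset.sum_le_sum_of_subset_of_nonneg (Finset.filter_subset _ _)
      fun x _ _ => Finset.prod_nonneg fun v _ => by positivity)
  rw [norm_prod]
  exact le_of_eq (Finset.prod_congr rfl fun v _ => norm_pow _ _)

theorem F_le_near (S : Spec X I) [Nonempty X] (δ : ℝ) (hδ : 0 ≤ δ) {m : ℕ} (hm : 0 < m)
    (N : Set (Fin m → X)) (hN : ∀ x ∈ N, Near δ x) (k : I → ℝ) :
    ‖S.F N k‖ ≤ (Fintype.card X : ℝ) ^ m *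
      ((1 + (Fintype.card X : ℝ) * δ) * ((k S.i0) ^ 2 + (2 / 3) * S.rr k)) ^ ((3 * m : ℝ) / 2) := by
  unfold Spec.F
  refine (norm_sum_le _ _).trans ?_
  have hrr : 0 ≤ S.rr k := Finset.sum_nonneg fun i _ => sq_nonneg _
  have hB : 0 ≤ ((1 + (Fintype.card X : ℝ) * δ) *
      ((k S.i0) ^ 2 + (2 / 3) * S.rr k)) ^ ((3 * m : ℝ) / 2) := by
    apply Real.rpow_nonneg
    positivity
  have h1 : ∀ x ∈ Finset.univ.filter (fun x : Fin m → X => x ∈ N),
      ‖∏ v, (S.G k (x v)) ^ 3‖ ≤ ((1 + (Fintype.card X : ℝ) * δ) *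
      ((k S.i0) ^ 2 + (2 / 3) * S.rr k)) ^ ((3 * m : ℝ) / 2) := by
    intro x hx
    rw [Finset.mem_filter] at hx
    rw [norm_prod]
    refine le_trans (le_of_eq (Finset.prod_congr rfl fun v _ => norm_pow _ _)) ?_
    exact gmb S δ hδ hm x (hN x hx.2) k
  refine (Finset.sum_le_card_nsmul _ _ _ h1).trans ?_
  rw [nsmul_eq_mul]
  apply mul_le_mul_of_nonneg_right _ hB
  have h2 : (Finset.univ.filter (fun x : Fin m → X => x ∈ N)).card ≤ Fintype.card X ^ m := by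
    refine (Finset.card_le_univ _).trans (le_of_eq ?_)
    rw [Fintype.card_fun, Fintype.card_fin]
  exact_mod_cast h2

end Pool.Agent.PET
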