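import Pool.Agent.PET.NearB
import Pool.Agent.PET.GMB
/-!
# Dom : the dominating function

Notation: `q = 3m + d` (real), `N = card X`, `k0 = k i0 > 0`, `r² = rr k`, so `∑ k_i² = k0² + r²`.

`oned`: for `Q, q > 0`: `Q^q e^{-Q²/2} ≤ q^{q/2} e^{-q/2} e^{-(Q-√q)²/2}`.  With `t = Q/√q` this is
`q (log t - (t²-1)/2) ≤ -q (t-1)²/2`, which follows from `log t ≤ t - 1`.

Choose `ε = 1/100` (say), then `η ≤ 1` from `nearB` (any smaller `η` also works) with `(29/60) η² ≤ ε²/32`.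
`|∏_{i<d} G(cc i)| ≤ (C √(k0²+r²))^d`.

(1) Cone `r ≤ η k0`.  `‖F‖ ≤ (∑‖G‖³)^m ≤ N^m k0^{3m} exp((29/20) m r²/k0²)` and `√(k0²+r²) ≤ 2 k0`, so the quantity is
`≤ C' N^m k0^q e^{-k0²/2} exp((29/20) m r²/k0² - r²/2)`, and `oned` applies with `Q = k0`.
 (1a) `k0² ≥ (1-ε) q`: `(29/20) m/k0² ≤ (29/60)/(1-ε) ≤ 59/120`, total exponent `≤ -(k0-√q)²/2 - r²/120`.
 (1b) `k0² < (1-ε) q`: `(29/20) m r²/k0² ≤ (29/60) η² q ≤ (ε²/32) q` and `(k0-√q)²/2 ≥ (1-√(1-ε))² q/2 ≥ (ε²/8) q`, so the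
   exponent is `≤ -(k0-√q)²/4 - (ε²/16) q + (ε²/32) q ≤ -(k0-√q)²/4 - (ε²/32) q`, and `q ≥ k0² ≥ r²`.
(2) Outside the cone, `r > η k0`.  `F_le_near`, with `Q² = k0² + (2/3) r²`: `√(k0²+r²) ≤ 2Q`, `k0² + r² = Q² + r²/3`:
`≤ C' N^m (1+Nδ)^{3m/2} Q^q e^{-Q²/2} e^{-r²/6} ≤ C' N^m (1+Nδ)^{3m/2} q^{q/2}e^{-q/2} e^{-E}`, `E = (Q-√q)²/2 + r²/6`.
 Since `k0 < r/η`, `Q² ≤ (1/η²+2/3) r²`, i.e. `r² ≥ c3 Q²`; hence `E ≥ (Q-√q)²/2 + (c3/6) Q² ≥ c4 q`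
 (`Q ≥ √q/2` or `Q < √q/2`).  `(1+Nδ)^{3m/2} ≤ exp(N δ q/2) ≤ exp(c4 q/4)` if `N δ ≤ c4/2`.  So the exponent is
 `≤ -E/2 - c4 q/4 ≤ -E/2`, and `(k0-√q)² ≤ 2 (Q-√q)² + 2 r²` (`0 ≤ Q - k0 ≤ r`), so `E/2 ≥ c((k0-√q)² + r²)`.
-/
set_option autoImplicit false
open scoped BigOperators Classical
open Filter MeasureTheory
noncomputable section
namespace Pool.Agent.PET

variable {X I : Type} [Fintype X] [Fintype I]

theorem oned (Q q : ℝ) (hQ : 0 < Q) (hq : 0 < q) :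
    Q ^ q * Real.exp (-Q ^ 2 / 2)
      ≤ q ^ (q / 2) * Real.exp (-q / 2) * Real.exp (-(Q - Real.sqrt q) ^ 2 / 2) := by
  rw [Real.rpow_def_of_pos hQ, Real.rpow_def_of_pos hq, ← Real.exp_add, ← Real.exp_add,
    ← Real.exp_add]
  apply Real.exp_le_exp.mpr
  have hs : 0 < Real.sqrt q := Real.sqrt_pos.mpr hq
  have hsq : Real.sqrt q ^ 2 = q := Real.sq_sqrt hq.le
  have h1 : Real.log (Q / Real.sqrt q) ≤ Q / Real.sqrt q - 1 :=
    Real.log_le_sub_one_of_pos (by positivity)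
  rw [Real.log_div hQ.ne' hs.ne', Real.log_sqrt hq.le] at h1
  have h3 := mul_le_mul_of_nonneg_left h1 hq.le
  have h4 : q * (Q / Real.sqrt q) = Q * Real.sqrt q := by
    rw [mul_div_assoc', div_eq_iff hs.ne']
    linear_combination (-Q) * hsq
  have h5 : q * (Q / Real.sqrt q - 1) = Q * Real.sqrt q - q := by
    rw [mul_sub, h4, mul_one]
  rw [h5] at h3
  nlinarith

/-- the exponent in the cone -/
theorem Dom_exp1 {k0 r2 m q η : ℝ} (hk : 0 < k0) (hr : 0 ≤ r2) (hm : 0 < m) (hq : 3 * m ≤ q)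
    (hη : η ^ 2 ≤ 1 / 250000) (h : r2 ≤ η ^ 2 * k0 ^ 2) :
    -(k0 - Real.sqrt q) ^ 2 / 2 + (m * ((29 / 20) * (r2 / k0 ^ 2)) - r2 / 2) ≤
      -(1 / 120) * ((k0 - Real.sqrt q) ^ 2 + r2) := by
  have hq0 : 0 < q := by linarith
  have hs : 0 < Real.sqrt q := Real.sqrt_pos.mpr hq0
  have hsq : Real.sqrt q ^ 2 = q := Real.sq_sqrt hq0.le
  have hk2 : 0 < k0 ^ 2 := by positivity
  have hD : 0 ≤ (k0 - Real.sqrt q) ^ 2 := sq_nonneg _
  rcases le_or_gt ((99 / 100) * q) (k0 ^ 2) with h1 | h1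
  · have h2 : m * ((29 / 20) * (r2 / k0 ^ 2)) ≤ (59 / 120) * r2 := by
      have e : m * ((29 / 20) * (r2 / k0 ^ 2)) = ((29 / 20) * m * r2) / k0 ^ 2 := by ring
      rw [e, div_le_iff₀ hk2]
      have h3 : (29 / 20) * m ≤ (59 / 120) * k0 ^ 2 := by nlinarith
      nlinarith [mul_le_mul_of_nonneg_left h3 hr]
    nlinarith
  · have h2 : r2 / k0 ^ 2 ≤ 1 / 250000 := by
      rw [div_le_iff₀ hk2]
      nlinarith
    have h3 : 0 ≤ r2 / k0 ^ 2 := by positivity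
    have h4 : m * ((29 / 20) * (r2 / k0 ^ 2)) ≤ (q / 3) * ((29 / 20) * (1 / 250000)) := by
      apply mul_le_mul (by linarith) (by linarith) (by positivity) (by positivity)
    -- (k0 - √q)² ≥ q / 40000
    have h5 : k0 ≤ (199 / 200) * Real.sqrt q := by
      by_contra hc
      push Not at hc
      have h50 : ((199 / 200) * Real.sqrt q) ^ 2 < k0 ^ 2 :=
        pow_lt_pow_left₀ hc (by positivity) (by norm_num)
      nlinarith
    have h6 : (1 / 200) * Real.sqrt q ≤ Real.sqrt q - k0 := by linarith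
    have h7 : ((1 / 200) * Real.sqrt q) ^ 2 ≤ (Real.sqrt q - k0) ^ 2 :=
      pow_le_pow_left₀ (by positivity) h6 2
    have h8 : (1 / 40000) * q ≤ (k0 - Real.sqrt q) ^ 2 := by nlinarith
    nlinarith

/-- the exponent outside the cone -/
theorem Dom_exp2 {k0 r2 Q q η Nd : ℝ} (hk : 0 < k0) (hr : 0 ≤ r2) (hq : 0 < q)
    (hη0 : 0 < η) (hη : η ^ 2 ≤ 1 / 250000) (h : η ^ 2 * k0 ^ 2 < r2) (hQ : 0 < Q)
    (hQ2 : Q ^ 2 = k0 ^ 2 + (2 / 3) * r2) (hNd : Nd ≤ η ^ 2 / 48) :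
    -(Q - Real.sqrt q) ^ 2 / 2 + (Nd * (q / 2) - r2 / 6) ≤
      -(1 / 120) * ((k0 - Real.sqrt q) ^ 2 + r2) := by
  have hs : 0 < Real.sqrt q := Real.sqrt_pos.mpr hq
  have hsq : Real.sqrt q ^ 2 = q := Real.sq_sqrt hq.le
  set s := Real.sqrt q with hsdef
  have hη2 : 0 < η ^ 2 := by positivity
  -- r2 ≥ (η²/2) Q²
  have h1 : η ^ 2 / 2 * Q ^ 2 ≤ r2 := by
    rw [hQ2]
    nlinarith
  -- E ≥ η²/48 q
  have h2 : η ^ 2 / 48 * q ≤ (Q - s) ^ 2 / 2 + r2 / 6 := by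
    rcases le_or_gt (s / 2) Q with h3 | h3
    · have h4 : s ^ 2 / 4 ≤ Q ^ 2 := by nlinarith
      have h5 : η ^ 2 / 12 * (s ^ 2 / 4) ≤ η ^ 2 / 12 * Q ^ 2 :=
        mul_le_mul_of_nonneg_left h4 (by positivity)
      nlinarith [sq_nonneg (Q - s)]
    · have h4 : (s / 2) ^ 2 ≤ (s - Q) ^ 2 := pow_le_pow_left₀ (by positivity) (by linarith) 2
      nlinarith
  have h3 : Nd * (q / 2) ≤ η ^ 2 / 48 * (q / 2) := mul_le_mul_of_nonneg_right hNd (by positivity)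
  have h4 : k0 ≤ Q := by
    by_contra hc
    push Not at hc
    nlinarith
  have h5 : (Q - k0) ^ 2 ≤ (2 / 3) * r2 := by nlinarith
  have h6 : (k0 - s) ^ 2 ≤ 2 * (Q - s) ^ 2 + 2 * (Q - k0) ^ 2 := by
    nlinarith [sq_nonneg ((Q - s) + (Q - k0))]
  nlinarith [sq_nonneg (Q - s)]

theorem Dom_prod (S : Spec X I) {C0 : ℝ} (hC0 : 0 < C0)
    (hG : ∀ (k : I → ℝ) (x : X), ‖S.G k x‖ ≤ C0 * Real.sqrt (∑ i, k i ^ 2)) {d : ℕ}
    (cc : Fin d → X) (k : I → ℝ) {R : ℝ} (hR : 0 ≤ R) (h : ∑ i, k i ^ 2 ≤ 4 * R ^ 2) :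
    ‖∏ i, S.G k (cc i)‖ ≤ (2 * C0) ^ d * R ^ d := by
  have h1 : Real.sqrt (∑ i, k i ^ 2) ≤ 2 * R := by
    rw [Real.sqrt_le_left (by positivity)]
    nlinarith
  have h2 : ∀ i ∈ (Finset.univ : Finset (Fin d)), ‖S.G k (cc i)‖ ≤ 2 * C0 * R := by
    intro i _
    calc ‖S.G k (cc i)‖ ≤ C0 * Real.sqrt (∑ i, k i ^ 2) := hG k _
      _ ≤ C0 * (2 * R) := mul_le_mul_of_nonneg_left h1 hC0.le
      _ = 2 * C0 * R := by ring
  rw [norm_prod]
  calc ∏ i, ‖S.G k (cc i)‖ ≤ ∏ _i : Fin d, (2 * C0 * R) :=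
        Finset.prod_le_prod (fun i _ => norm_nonneg _) h2
    _ = (2 * C0) ^ d * R ^ d := by
        rw [Finset.prod_const, Finset.card_univ, Fintype.card_fin, mul_pow]

/-- combination of the bounds -/
theorem Dom_comb {P Fn ex Cd Nm Q q L E T : ℝ} {m d : ℕ} (hq : q = ((3 * m + d : ℕ) : ℝ))
    (hq0 : 0 < q) (hQ : 0 < Q) (_hP0 : 0 ≤ P) (hF0 : 0 ≤ Fn) (hCd : 0 ≤ Cd) (hNm : 0 ≤ Nm)
    (hP : P ≤ Cd * Q ^ d) (hF : Fn ≤ Nm * (Q ^ (3 * m) * Real.exp L))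
    (hex : ex = Real.exp (-Q ^ 2 / 2) * Real.exp (-E))
    (hT : -(Q - Real.sqrt q) ^ 2 / 2 + (L - E) ≤ T) :
    P * Fn * ex ≤ Cd * Nm * (q ^ (q / 2) * Real.exp (-q / 2)) * Real.exp T := by
  have hex0 : 0 ≤ ex := by rw [hex]; positivity
  have e1 : Q ^ d * Q ^ (3 * m) = Q ^ q := by
    rw [hq, Real.rpow_natCast, ← pow_add, add_comm]
  calc P * Fn * ex ≤ (Cd * Q ^ d) * (Nm * (Q ^ (3 * m) * Real.exp L)) * ex := by
        apply mul_le_mul_of_nonneg_right _ hex0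
        exact mul_le_mul hP hF hF0 (by positivity)
    _ = Cd * Nm * ((Q ^ d * Q ^ (3 * m)) * Real.exp (-Q ^ 2 / 2)) *
          (Real.exp L * Real.exp (-E)) := by
        rw [hex]; ring
    _ = Cd * Nm * (Q ^ q * Real.exp (-Q ^ 2 / 2)) * Real.exp (L - E) := by
        rw [e1, ← Real.exp_add]; ring_nf
    _ ≤ Cd * Nm * (q ^ (q / 2) * Real.exp (-q / 2) * Real.exp (-(Q - Real.sqrt q) ^ 2 / 2)) *
          Real.exp (L - E) := by
        apply mul_le_mul_of_nonneg_right _ (Real.exp_pos _).le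
        exact mul_le_mul_of_nonneg_left (oned Q q hQ hq0) (by positivity)
    _ = Cd * Nm * (q ^ (q / 2) * Real.exp (-q / 2)) *
          Real.exp (-(Q - Real.sqrt q) ^ 2 / 2 + (L - E)) := by
        rw [Real.exp_add (-(Q - Real.sqrt q) ^ 2 / 2) (L - E)]; ring
    _ ≤ Cd * Nm * (q ^ (q / 2) * Real.exp (-q / 2)) * Real.exp T := by
        apply mul_le_mul_of_nonneg_left (Real.exp_le_exp.mpr hT) (by positivity)

theorem dom (S : Spec X I) [Nonempty X] :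
    ∃ δ₀ : ℝ, 0 < δ₀ ∧ ∃ c : ℝ, 0 < c ∧ ∀ d : ℕ, ∃ C : ℝ, ∀ m : ℕ, 0 < m →
      ∀ (cc : Fin d → X) (N : Set (Fin m → X)), (∀ x ∈ N, Near δ₀ x) →
      ∀ k : I → ℝ, 0 < k S.i0 →
        ‖(∏ i, S.G k (cc i)) * S.F N k‖ * Real.exp (-(∑ i, k i ^ 2) / 2)
          ≤ C * (Fintype.card X : ℝ) ^ m *
            (((3 * m + d : ℕ) : ℝ) ^ (((3 * m + d : ℕ) : ℝ) / 2) * Real.exp (-((3 * m + d : ℕ) : ℝ) / 2))
            * Real.exp (-c * ((k S.i0 - Real.sqrt ((3 * m + d : ℕ) : ℝ)) ^ 2 + S.rr k)) := by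
  obtain ⟨C0, hC0, hG⟩ := norm_G_le S
  obtain ⟨η0, hη0, hnear⟩ := nearB S
  set η := min η0 (1 / 500) with hη
  have hηpos : 0 < η := lt_min hη0 (by norm_num)
  have hη1 : η ≤ η0 := min_le_left _ _
  have hη2 : η ≤ 1 / 500 := min_le_right _ _
  have hηsq : η ^ 2 ≤ 1 / 250000 := by nlinarith
  have hX : (0 : ℝ) < (Fintype.card X : ℝ) := by exact_mod_cast Fintype.card_pos
  set Nx : ℝ := (Fintype.card X : ℝ) with hNx
  refine ⟨η ^ 2 / 48 / Nx, by positivity, 1 / 120, by norm_num, fun d => ⟨(2 * C0) ^ d, ?_⟩⟩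
  intro m hm cc N hN k hk
  set k0 := k S.i0 with hk0
  set r2 := S.rr k with hr2
  have hr : 0 ≤ r2 := Finset.sum_nonneg (fun i _ => sq_nonneg _)
  have hsum : ∑ i, k i ^ 2 = k0 ^ 2 + r2 := sum_sq_split S k
  set q : ℝ := ((3 * m + d : ℕ) : ℝ) with hq
  have hmR : (0 : ℝ) < (m : ℝ) := by exact_mod_cast hm
  have hq3 : 3 * (m : ℝ) ≤ q := by
    rw [hq]
    push_cast
    have : (0 : ℝ) ≤ (d : ℝ) := Nat.cast_nonneg d
    linarith
  have hq0 : 0 < q := by linarith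
  have hNd : Nx * (η ^ 2 / 48 / Nx) = η ^ 2 / 48 := by
    field_simp
  rw [norm_mul, hsum]
  rcases le_or_gt r2 (η ^ 2 * k0 ^ 2) with hc | hc
  · -- the cone
    have hc' : r2 ≤ η0 ^ 2 * k0 ^ 2 := by
      refine hc.trans (mul_le_mul_of_nonneg_right ?_ (sq_nonneg _))
      exact pow_le_pow_left₀ hηpos.le hη1 2
    have hP : ‖∏ i, S.G k (cc i)‖ ≤ (2 * C0) ^ d * k0 ^ d := by
      apply Dom_prod S hC0 hG cc k hk.le
      rw [hsum]
      nlinarith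
    have hF : ‖S.F N k‖ ≤ Nx ^ m * (k0 ^ (3 * m) *
        Real.exp (m * ((29 / 20) * (r2 / k0 ^ 2)))) := by
      calc ‖S.F N k‖ ≤ (∑ x, ‖S.G k x‖ ^ 3) ^ m := F_le_all S N k
        _ ≤ (Nx * k0 ^ 3 * Real.exp ((29 / 20) * (r2 / k0 ^ 2))) ^ m := by
            apply pow_le_pow_left₀ (Finset.sum_nonneg (fun x _ => by positivity))
            exact hnear k hk hc'
        _ = Nx ^ m * (k0 ^ (3 * m) * Real.exp (m * ((29 / 20) * (r2 / k0 ^ 2)))) := by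
            rw [mul_pow, mul_pow, ← pow_mul, ← Real.exp_nat_mul, mul_assoc]
    refine Dom_comb (L := m * ((29 / 20) * (r2 / k0 ^ 2))) (E := r2 / 2) hq hq0 hk
      (norm_nonneg _) (norm_nonneg _) (by positivity) (by positivity) hP hF ?_ ?_
    · rw [← Real.exp_add]
      congr 1
      ring
    · exact Dom_exp1 hk hr hmR hq3 hηsq hc
  · -- outside the cone
    have hδ0 : 0 ≤ η ^ 2 / 48 / Nx := by positivity
    set Q := Real.sqrt (k0 ^ 2 + (2 / 3) * r2) with hQdef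
    have hQ2 : Q ^ 2 = k0 ^ 2 + (2 / 3) * r2 := Real.sq_sqrt (by positivity)
    have hQ : 0 < Q := Real.sqrt_pos.mpr (by positivity)
    have hP : ‖∏ i, S.G k (cc i)‖ ≤ (2 * C0) ^ d * Q ^ d := by
      apply Dom_prod S hC0 hG cc k hQ.le
      rw [hsum, hQ2]
      nlinarith
    have hF : ‖S.F N k‖ ≤ Nx ^ m * (Q ^ (3 * m) * Real.exp (η ^ 2 / 48 * (q / 2))) := by
      refine (F_le_near S _ hδ0 hm N hN k).trans ?_
      apply mul_le_mul_of_nonneg_left _ (by positivity)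
      rw [← hNx, hNd, ← hk0, ← hr2, ← hQ2, Real.mul_rpow (by positivity) (by positivity), mul_comm]
      apply mul_le_mul
      · rw [← Real.rpow_natCast Q 2, ← Real.rpow_mul hQ.le, ← Real.rpow_natCast Q (3 * m)]
        apply le_of_eq
        congr 1
        push_cast
        ring
      · have h1 : 1 + η ^ 2 / 48 ≤ Real.exp (η ^ 2 / 48) := by
          have := Real.add_one_le_exp (η ^ 2 / 48)
          linarith
        calc (1 + η ^ 2 / 48) ^ ((3 * m : ℝ) / 2) ≤ (Real.exp (η ^ 2 / 48)) ^ ((3 * m : ℝ) / 2) :=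
              Real.rpow_le_rpow (by positivity) h1 (by positivity)
          _ = Real.exp (η ^ 2 / 48 * ((3 * m : ℝ) / 2)) := by rw [← Real.exp_mul]
          _ ≤ Real.exp (η ^ 2 / 48 * (q / 2)) := by
              apply Real.exp_le_exp.mpr
              apply mul_le_mul_of_nonneg_left _ (by positivity)
              linarith
      · positivity
      · positivity
    refine Dom_comb (L := η ^ 2 / 48 * (q / 2)) (E := r2 / 6) hq hq0 hQ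
      (norm_nonneg _) (norm_nonneg _) (by positivity) (by positivity) hP hF ?_ ?_
    · rw [← Real.exp_add, hQ2]
      congr 1
      ring
    · exact Dom_exp2 hk hr hq0 hηpos hηsq hc hQ hQ2 le_rfl

end Pool.Agent.PET
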