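import Pool.Agent.PET.H12P
/-!
# Exc1 : two different cycles sharing a vertex use all three half-edges at some vertex

`f` a perfect matching, `c`, `c'` canonical cycles (lengths `j, j'`) present in `f`, with a common vertex.  Suppose no vertex has all its three
half-edges in `used c ∪ used c'`.  At a vertex of `c` the cycle `c` uses exactly two half-edges (`in ≠ out`, vertices distinct), so at a common vertex both
cycles use the same two half-edges.  Follow the `out` half-edge `h` of `c` at a common vertex `v = (c t).1`: `f h` is the incoming half-edge of `c` at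
`(c (nxt t)).1`.  `h` is used by `c'` at `v` (as `out` or as `in`), so `f h` is used by `c'` (for an `in` half-edge: `f` of it is the `out` half-edge of the
predecessor, `f` is an involution and `nxt` is bijective): `(c (nxt t)).1` is a vertex of `c'`.  By induction all vertices of `c` are vertices of `c'`; by
symmetry the vertex sets coincide, and the used half-edges too.  The roots (smallest vertices) coincide: `(c 0).1 = (c' 0).1`; the used pair at the root is
the same and `in < out` for both, so `c 0 = c' 0`; then `f (root, out)` gives the next vertex and incoming half-edge, and the outgoing one is the other used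
half-edge: `c s = c' s` for all `s` as long as both are defined, and the first return to the root gives `j = j'`.  So `⟨j,c⟩ = ⟨j',c'⟩`.
-/
set_option autoImplicit false
open scoped BigOperators Classical
open Filter MeasureTheory
noncomputable section
namespace Pool.Agent.PET

private theorem Exc1_pair : ∀ a b c d : Fin 3, a ≠ b → c ≠ d →
    (¬ ∀ i : Fin 3, i = a ∨ i = b ∨ i = c ∨ i = d) → (c = a ∧ d = b) ∨ (c = b ∧ d = a) := by
  decide

private theorem Exc1_or {n j j' : ℕ} (c : Cyc j n) (c' : Cyc j' n) (hc : IsCyc c) (hc' : IsCyc c')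
    (hno : ¬ ∃ v : Fin n, ∀ i : Fin 3, (v, i) ∈ used c ∪ used c') {t : Fin j} {t' : Fin j'}
    (h : (c t).1 = (c' t').1) :
    ((c' t').2.1 = (c t).2.1 ∧ (c' t').2.2 = (c t).2.2) ∨
      ((c' t').2.1 = (c t).2.2 ∧ (c' t').2.2 = (c t).2.1) := by
  apply Exc1_pair _ _ _ _ (hc.2 t) (hc'.2 t')
  intro hall
  apply hno
  refine ⟨(c t).1, fun i => ?_⟩
  rw [Finset.mem_union]
  unfold used
  simp only [Finset.mem_union, Finset.mem_image, Finset.mem_univ, true_and]
  rcases hall i with hi | hi | hi | hi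
  · left; left; exact ⟨t, by rw [hi]⟩
  · left; right; exact ⟨t, by rw [hi]⟩
  · right; left; exact ⟨t', by rw [hi, h]⟩
  · right; right; exact ⟨t', by rw [hi, h]⟩

private theorem Exc1_prev {n j : ℕ} (f : HE n → HE n) (hf : IsPM f) (c : Cyc j n) (hr : Real' f c)
    (t : Fin j) : ∃ s, nxt s = t ∧ f ((c t).1, (c t).2.1) = ((c s).1, (c s).2.2) := by
  obtain ⟨s, hs⟩ := (nxt_bij j).2 t
  refine ⟨s, hs, ?_⟩
  have h := hr s
  rw [hs] at h
  rw [← h]
  exact hf.1 _

private theorem Exc1_step {n j j' : ℕ} (f : HE n → HE n) (hf : IsPM f)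
    (c : Cyc j n) (c' : Cyc j' n) (hc : IsCyc c) (hc' : IsCyc c') (hr : Real' f c) (hr' : Real' f c')
    (hno : ¬ ∃ v : Fin n, ∀ i : Fin 3, (v, i) ∈ used c ∪ used c') {t : Fin j} {t' : Fin j'}
    (h : (c t).1 = (c' t').1) : ∃ s', (c (nxt t)).1 = (c' s').1 := by
  rcases Exc1_or c c' hc hc' hno h with ⟨h1, h2⟩ | ⟨h1, h2⟩
  · refine ⟨nxt t', ?_⟩
    have e1 := hr t
    have e2 := hr' t'
    rw [h2, ← h, e1] at e2
    exact (Prod.ext_iff.1 e2).1
  · obtain ⟨s', _, hs'⟩ := Exc1_prev f hf c' hr' t'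
    refine ⟨s', ?_⟩
    have e1 := hr t
    rw [h1, ← h, e1] at hs'
    exact (Prod.ext_iff.1 hs').1

private theorem Exc1_all {n j j' : ℕ} (f : HE n → HE n) (hf : IsPM f)
    (c : Cyc j n) (c' : Cyc j' n) (hc : IsCyc c) (hc' : IsCyc c') (hr : Real' f c) (hr' : Real' f c')
    (hno : ¬ ∃ v : Fin n, ∀ i : Fin 3, (v, i) ∈ used c ∪ used c') (t0 : Fin j) (t0' : Fin j')
    (h : (c t0).1 = (c' t0').1) (t : Fin j) : ∃ s', (c t).1 = (c' s').1 := by
  have hj : 0 < j := Nat.lt_of_le_of_lt (Nat.zero_le _) t0.2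
  have key : ∀ m : ℕ, ∃ s', (c ⟨(t0.1 + m) % j, Nat.mod_lt _ hj⟩).1 = (c' s').1 := by
    intro m
    induction m with
    | zero =>
      refine ⟨t0', ?_⟩
      rw [← h]
      congr 2
      apply Fin.ext
      exact Nat.mod_eq_of_lt t0.2
    | succ m ih =>
      obtain ⟨s', hs'⟩ := ih
      obtain ⟨s'', hs''⟩ := Exc1_step f hf c c' hc hc' hr hr' hno hs'
      refine ⟨s'', ?_⟩
      rw [← hs'']
      congr 2
      apply Fin.ext
      simp only [nxt]
      rw [← Nat.add_assoc, Nat.mod_add_mod]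
  obtain ⟨s', hs'⟩ := key (t.1 + (j - t0.1))
  refine ⟨s', ?_⟩
  rw [← hs']
  congr 2
  apply Fin.ext
  have h1 := t0.2
  have h2 : t0.1 + (t.1 + (j - t0.1)) = t.1 + j := by omega
  simp only [h2, Nat.add_mod_right]
  exact (Nat.mod_eq_of_lt t.2).symm

theorem exc1 {n j j' : ℕ} (hj : 1 ≤ j) (hj' : 1 ≤ j') (f : HE n → HE n) (hf : IsPM f)
    (c : Cyc j n) (c' : Cyc j' n) (hc : Canon c) (hc' : Canon c') (hr : Real' f c) (hr' : Real' f c')
    (hsh : ∃ t t', (c t).1 = (c' t').1) (hne : (⟨j, c⟩ : Σ s, Cyc s n) ≠ ⟨j', c'⟩) :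
    ∃ v : Fin n, ∀ i : Fin 3, (v, i) ∈ used c ∪ used c' := by
  by_contra hno
  apply hne
  obtain ⟨t0, t0', h0⟩ := hsh
  have hno' : ¬ ∃ v : Fin n, ∀ i : Fin 3, (v, i) ∈ used c' ∪ used c := by
    rw [Finset.union_comm]; exact hno
  have r0 : (⟨0, hj⟩ : Fin j).1 = 0 := rfl
  have r0' : (⟨0, hj'⟩ : Fin j').1 = 0 := rfl
  obtain ⟨s1, hs1⟩ := Exc1_all f hf c c' hc.1 hc'.1 hr hr' hno t0 t0' h0 ⟨0, hj⟩
  obtain ⟨s2, hs2⟩ := Exc1_all f hf c' c hc'.1 hc.1 hr' hr hno' t0' t0 h0.symm ⟨0, hj'⟩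
  have hroot : (c ⟨0, hj⟩).1 = (c' ⟨0, hj'⟩).1 := by
    apply le_antisymm
    · rw [hs2]; exact hc.2.1 ⟨0, hj⟩ s2 rfl
    · rw [hs1]; exact hc'.2.1 ⟨0, hj'⟩ s1 rfl
  have hb : c ⟨0, hj⟩ = c' ⟨0, hj'⟩ := by
    have l1 := hc.2.2 ⟨0, hj⟩ rfl
    have l2 := hc'.2.2 ⟨0, hj'⟩ rfl
    rcases Exc1_or c c' hc.1 hc'.1 hno hroot with ⟨h1, h2⟩ | ⟨h1, h2⟩
    · exact Prod.ext hroot (Prod.ext h1.symm h2.symm)
    · rw [h1, h2] at l2
      exact absurd l1 (lt_asymm l2)
  have step : ∀ (t : Fin j) (t' : Fin j'), c t = c' t' → c (nxt t) = c' (nxt t') := by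
    intro t t' h
    have e1 := hr t
    have e2 := hr' t'
    rw [← h, e1] at e2
    have v1 : (c (nxt t)).1 = (c' (nxt t')).1 := (Prod.ext_iff.1 e2).1
    have v2 : (c (nxt t)).2.1 = (c' (nxt t')).2.1 := (Prod.ext_iff.1 e2).2
    rcases Exc1_or c c' hc.1 hc'.1 hno v1 with ⟨h1, h2⟩ | ⟨h1, h2⟩
    · exact Prod.ext v1 (Prod.ext h1.symm h2.symm)
    · exfalso
      apply hc.1.2 (nxt t)
      rw [v2, h1]
  have hjpos : 0 < j := hj
  have hjpos' : 0 < j' := hj'
  have key : ∀ m : ℕ, c ⟨m % j, Nat.mod_lt _ hjpos⟩ = c' ⟨m % j', Nat.mod_lt _ hjpos'⟩ := by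
    intro m
    induction m with
    | zero =>
      have a1 : (⟨0 % j, Nat.mod_lt _ hjpos⟩ : Fin j) = ⟨0, hj⟩ := Fin.ext (Nat.zero_mod _)
      have a2 : (⟨0 % j', Nat.mod_lt _ hjpos'⟩ : Fin j') = ⟨0, hj'⟩ := Fin.ext (Nat.zero_mod _)
      rw [a1, a2]; exact hb
    | succ m ih =>
      have h := step _ _ ih
      have a1 : nxt (⟨m % j, Nat.mod_lt _ hjpos⟩ : Fin j) = ⟨(m + 1) % j, Nat.mod_lt _ hjpos⟩ := by
        apply Fin.ext; simp only [nxt]; rw [Nat.mod_add_mod]
      have a2 : nxt (⟨m % j', Nat.mod_lt _ hjpos'⟩ : Fin j') = ⟨(m + 1) % j', Nat.mod_lt _ hjpos'⟩ := by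
        apply Fin.ext; simp only [nxt]; rw [Nat.mod_add_mod]
      rw [a1, a2] at h
      exact h
  have hjj : j = j' := by
    rcases lt_trichotomy j j' with h | h | h
    · exfalso
      have k1 := key j
      have a1 : (⟨j % j, Nat.mod_lt _ hjpos⟩ : Fin j) = ⟨0, hj⟩ := Fin.ext (Nat.mod_self _)
      have a2 : (⟨j % j', Nat.mod_lt _ hjpos'⟩ : Fin j') = ⟨j, h⟩ := Fin.ext (Nat.mod_eq_of_lt h)
      rw [a1, a2, hb] at k1
      have := hc'.1.1 (congrArg Prod.fst k1)
      have := congrArg Fin.val this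
      simp at this
      omega
    · exact h
    · exfalso
      have k1 := key j'
      have a1 : (⟨j' % j, Nat.mod_lt _ hjpos⟩ : Fin j) = ⟨j', h⟩ := Fin.ext (Nat.mod_eq_of_lt h)
      have a2 : (⟨j' % j', Nat.mod_lt _ hjpos'⟩ : Fin j') = ⟨0, hj'⟩ := Fin.ext (Nat.mod_self _)
      rw [a1, a2, ← hb] at k1
      have := hc.1.1 (congrArg Prod.fst k1)
      have := congrArg Fin.val this
      simp at this
      omega
  subst hjj
  have : c = c' := by
    funext t
    have k := key t.1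
    have a1 : (⟨t.1 % j, Nat.mod_lt _ hjpos⟩ : Fin j) = t := Fin.ext (Nat.mod_eq_of_lt t.2)
    rw [a1] at k
    exact k
  rw [this]

/-- the half-edges used by a cycle of `f` are closed under `f`, and each pair is a constraint -/
theorem used_closed {n j : ℕ} (f : HE n → HE n) (hf : IsPM f) (c : Cyc j n) (hr : Real' f c) (h : HE n)
    (hh : h ∈ used c) : f h ∈ used c ∧ ((∀ g : HE n → HE n, IsPM g → Real' g c → g h = f h)) := by
  unfold used at hh ⊢
  simp only [Finset.mem_union, Finset.mem_image, Finset.mem_univ, true_and] at hh ⊢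
  rcases hh with ⟨t, rfl⟩ | ⟨t, rfl⟩
  · obtain ⟨s, hs, hs'⟩ := Exc1_prev f hf c hr t
    rw [hs']
    refine ⟨Or.inr ⟨s, rfl⟩, fun g hg hrg => ?_⟩
    have h1 := hrg s
    rw [hs] at h1
    rw [← h1]
    exact hg.1 _
  · rw [hr t]
    refine ⟨Or.inl ⟨nxt t, rfl⟩, fun g hg hrg => hrg t⟩

end Pool.Agent.PET
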