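import Pool.Agent.PET.Exc1
/-!
# Excess : overlapping cycles have more edges than vertices

Let `T ∈ Tup l f` (pairwise distinct canonical cycles of `f`), `f` a perfect matching, and `¬ VDisj T`.
Used half-edges: `U = ⋃_i used (T i)`; `f` maps `U` to `U` without fixed points (`used_closed`), so `|U|` is even and `U` is the union of `|U|/2` pairs
`{h, f h}`; by `used_closed` every perfect matching `g` containing all the cycles agrees with `f` on `U`.  Every vertex of `verts T` has at least two used
half-edges (`in ≠ out`).  `¬ VDisj T` gives `(i,s) ≠ (i',s')` with the same vertex; as each `T i` has distinct vertices, `i ≠ i'`; by `exc1` (the cycles are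
different as elements of the sigma type) some vertex has three used half-edges.  So `|U| ≥ 2 |verts T| + 1`, hence `|U| ≥ 2(|verts T| + 1)`: choose `|verts T| + 1` pairs
(a set of representatives of the pairs, e.g. `{h ∈ U | h < f h}` for a linear order, has `|U|/2` elements).
-/
set_option autoImplicit false
open scoped BigOperators Classical
open Filter MeasureTheory
noncomputable section
namespace Pool.Agent.PET

/-- an injective numbering of the half-edges -/
def Excess_code {n : ℕ} (h : HE n) : ℕ := 3 * h.1.1 + h.2.1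

theorem Excess_code_inj {n : ℕ} : Function.Injective (Excess_code (n := n)) := by
  rintro ⟨a, i⟩ ⟨b, j⟩ h
  simp only [Excess_code] at h
  have hi := i.2
  have hj := j.2
  have h1 : a.1 = b.1 := by omega
  have h2 : i.1 = j.1 := by omega
  rw [Prod.mk.injEq]
  exact ⟨Fin.ext h1, Fin.ext h2⟩

/-- a closed set under an involution without fixed points has twice as many elements as representatives -/
theorem Excess_half {n : ℕ} (f : HE n → HE n) (hf : IsPM f) (U : Finset (HE n)) (hU : ∀ h ∈ U, f h ∈ U) :
    U.card = 2 * (U.filter (fun h => Excess_code h < Excess_code (f h))).card := by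
  have hinj : Function.Injective f := fun x y hxy => by
    rw [← hf.1 x, ← hf.1 y, hxy]
  have e : U = U.filter (fun h => Excess_code h < Excess_code (f h)) ∪
      (U.filter (fun h => Excess_code h < Excess_code (f h))).image f := by
    ext h
    simp only [Finset.mem_union, Finset.mem_filter, Finset.mem_image]
    constructor
    · intro hh
      rcases lt_trichotomy (Excess_code h) (Excess_code (f h)) with hlt | heq | hgt
      · exact Or.inl ⟨hh, hlt⟩
      · exact absurd (Excess_code_inj heq).symm (hf.2 h)
      · right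
        exact ⟨f h, ⟨hU h hh, by rw [hf.1 h]; exact hgt⟩, hf.1 h⟩
    · rintro (⟨hh, -⟩ | ⟨h', ⟨hh', -⟩, rfl⟩)
      · exact hh
      · exact hU h' hh'
  have hd : Disjoint (U.filter (fun h => Excess_code h < Excess_code (f h)))
      ((U.filter (fun h => Excess_code h < Excess_code (f h))).image f) := by
    rw [Finset.disjoint_left]
    intro h hh hh'
    obtain ⟨h', hh2, rfl⟩ := Finset.mem_image.1 hh'
    have h1 := (Finset.mem_filter.1 hh).2
    have h2 := (Finset.mem_filter.1 hh2).2
    rw [hf.1 h'] at h1
    omega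
  have hc : U.card = (U.filter (fun h => Excess_code h < Excess_code (f h)) ∪
      (U.filter (fun h => Excess_code h < Excess_code (f h))).image f).card := congrArg Finset.card e
  rw [Finset.card_union_of_disjoint hd, Finset.card_image_of_injective _ hinj] at hc
  rw [hc, two_mul]

theorem Excess_used_vert {n j : ℕ} (c : Cyc j n) (v : Fin n) (i : Fin 3) (h : (v, i) ∈ used c) :
    ∃ t, (c t).1 = v := by
  unfold used at h
  rw [Finset.mem_union, Finset.mem_image, Finset.mem_image] at h
  rcases h with ⟨t, -, ht⟩ | ⟨t, -, ht⟩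
  · exact ⟨t, (Prod.ext_iff.1 ht).1⟩
  · exact ⟨t, (Prod.ext_iff.1 ht).1⟩

theorem excess {r n : ℕ} {l : Fin r → ℕ} (hl : ∀ i, 1 ≤ l i) (f : HE n → HE n) (hf : IsPM f)
    (T : ∀ i, Cyc (l i) n) (hT : T ∈ Tup l f) (hnd : ¬ VDisj T) :
    ∃ a b : Fin ((verts T).card + 1) → HE n, Function.Injective (Sum.elim a b) ∧
      ∀ g : HE n → HE n, IsPM g → (∀ i, Real' g (T i)) → ∀ s, g (a s) = b s := by
  have hinj : Function.Injective f := fun x y hxy => by
    rw [← hf.1 x, ← hf.1 y, hxy]
  rw [Tup, Finset.mem_filter] at hT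
  obtain ⟨-, hT1, hT2⟩ := hT
  -- the two overlapping cycles
  obtain ⟨i, i', s, s', hii, hv⟩ : ∃ i i' : Fin r, ∃ (s : Fin (l i)) (s' : Fin (l i')), i ≠ i' ∧
      (T i s).1 = (T i' s').1 := by
    unfold VDisj Function.Injective at hnd
    push Not at hnd
    obtain ⟨⟨i, s⟩, ⟨i', s'⟩, h1, h2⟩ := hnd
    refine ⟨i, i', s, s', ?_, h1⟩
    rintro rfl
    apply h2
    have h3 : s = s' := (hT1 i).1.1.1 h1
    rw [h3]
  obtain ⟨v0, hv0⟩ := exc1 (hl i) (hl i') f hf (T i) (T i') (hT1 i).1 (hT1 i').1 (hT1 i).2 (hT1 i').2
    ⟨s, s', hv⟩ (hT2 i i' hii)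
  set U : Finset (HE n) := Finset.univ.biUnion (fun i => used (T i)) with hUdef
  have hmemU : ∀ h : HE n, h ∈ U ↔ ∃ i, h ∈ used (T i) := by
    intro h
    simp [hUdef]
  have hUcl : ∀ h ∈ U, f h ∈ U := by
    intro h hh
    obtain ⟨i, hi⟩ := (hmemU h).1 hh
    exact (hmemU _).2 ⟨i, (used_closed f hf (T i) (hT1 i).2 h hi).1⟩
  have hUf : ∀ h ∈ U, ∀ g : HE n → HE n, IsPM g → (∀ i, Real' g (T i)) → g h = f h := by
    intro h hh g hg hgr
    obtain ⟨i, hi⟩ := (hmemU h).1 hh
    exact (used_closed f hf (T i) (hT1 i).2 h hi).2 g hg (hgr i)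
  have hv0U : ∀ k : Fin 3, (v0, k) ∈ U := by
    intro k
    rcases Finset.mem_union.1 (hv0 k) with h | h
    · exact (hmemU _).2 ⟨i, h⟩
    · exact (hmemU _).2 ⟨i', h⟩
  have hv0V : v0 ∈ verts T := by
    obtain ⟨i, hi⟩ := (hmemU _).1 (hv0U 0)
    obtain ⟨t, ht⟩ := Excess_used_vert (T i) v0 0 hi
    exact Finset.mem_image.2 ⟨⟨i, t⟩, Finset.mem_univ _, ht⟩
  -- fibres
  have hfib : ∀ v ∈ verts T, (if v = v0 then 3 else 2) ≤ (U.filter (fun h => h.1 = v)).card := by
    intro v hvV
    by_cases hvv : v = v0
    · rw [if_pos hvv]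
      subst hvv
      have hsub : (Finset.univ : Finset (Fin 3)).image (fun k => ((v, k) : HE n)) ⊆
          U.filter (fun h => h.1 = v) := by
        intro h hh
        obtain ⟨k, -, rfl⟩ := Finset.mem_image.1 hh
        exact Finset.mem_filter.2 ⟨hv0U k, rfl⟩
      have := Finset.card_le_card hsub
      rw [Finset.card_image_of_injective _ (fun a b hab => (Prod.ext_iff.1 hab).2)] at this
      simpa using this
    · rw [if_neg hvv]
      obtain ⟨⟨i, t⟩, -, ht⟩ := Finset.mem_image.1 hvV
      simp only at ht
      have hne := (hT1 i).1.1.2 t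
      have hsub : ({(v, (T i t).2.1), (v, (T i t).2.2)} : Finset (HE n)) ⊆
          U.filter (fun h => h.1 = v) := by
        intro h hh
        rw [Finset.mem_insert, Finset.mem_singleton] at hh
        rcases hh with rfl | rfl
        · refine Finset.mem_filter.2 ⟨(hmemU _).2 ⟨i, ?_⟩, rfl⟩
          unfold used
          rw [Finset.mem_union]; left
          exact Finset.mem_image.2 ⟨t, Finset.mem_univ _, by rw [← ht]⟩
        · refine Finset.mem_filter.2 ⟨(hmemU _).2 ⟨i, ?_⟩, rfl⟩
          unfold used
          rw [Finset.mem_union]; right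
          exact Finset.mem_image.2 ⟨t, Finset.mem_univ _, by rw [← ht]⟩
      have := Finset.card_le_card hsub
      rw [Finset.card_pair (by intro h; exact hne (Prod.ext_iff.1 h).2)] at this
      exact this
  have hcardU : 2 * (verts T).card + 1 ≤ U.card := by
    have h1 : ∑ v ∈ verts T, (if v = v0 then 3 else 2) = 2 * (verts T).card + 1 := by
      have : ∀ v ∈ verts T, (if v = v0 then 3 else 2) = 2 + (if v = v0 then 1 else 0) := by
        intro v _
        by_cases h : v = v0 <;> simp [h]
      rw [Finset.sum_congr rfl this, Finset.sum_add_distrib, Finset.sum_ite_eq' (verts T) v0,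
        if_pos hv0V]
      simp [mul_comm]
    have h2 : ∑ v ∈ verts T, (U.filter (fun h => h.1 = v)).card ≤ U.card := by
      rw [← Finset.card_biUnion]
      · apply Finset.card_le_card
        intro h hh
        obtain ⟨v, -, hv⟩ := Finset.mem_biUnion.1 hh
        exact (Finset.mem_filter.1 hv).1
      · intro v _ w _ hvw
        rw [Function.onFun, Finset.disjoint_left]
        intro h hh hh'
        exact hvw ((Finset.mem_filter.1 hh).2.symm.trans (Finset.mem_filter.1 hh').2)
    rw [← h1]
    exact (Finset.sum_le_sum hfib).trans h2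
  have hhalf := Excess_half f hf U hUcl
  set R := U.filter (fun h => Excess_code h < Excess_code (f h)) with hR
  have hRc : (verts T).card + 1 ≤ R.card := by omega
  obtain ⟨R', hR', hcard⟩ := Finset.exists_subset_card_eq hRc
  let e := (R'.equivFinOfCardEq hcard).symm
  have haR : ∀ s, ((e s : HE n)) ∈ R := fun s => hR' (e s).2
  have hainj : Function.Injective (fun s => (e s : HE n)) := fun x y hxy =>
    e.injective (Subtype.ext hxy)
  have hab : ∀ s t, (e s : HE n) ≠ f (e t : HE n) := by
    intro s t h
    have h1 := (Finset.mem_filter.1 (haR s)).2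
    have h2 := (Finset.mem_filter.1 (haR t)).2
    rw [h, hf.1] at h1
    omega
  refine ⟨fun s => (e s : HE n), fun s => f (e s : HE n), ?_, ?_⟩
  · rintro (x | x) (y | y) hxy
    · simp only [Sum.elim_inl] at hxy
      rw [hainj hxy]
    · simp only [Sum.elim_inl, Sum.elim_inr] at hxy
      exact absurd hxy (hab x y)
    · simp only [Sum.elim_inl, Sum.elim_inr] at hxy
      exact absurd hxy.symm (hab y x)
    · simp only [Sum.elim_inr] at hxy
      rw [hainj (hinj hxy)]
  · intro g hg hgr s
    exact hUf _ (Finset.mem_filter.1 (haR s)).1 g hg hgr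

end Pool.Agent.PET
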