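import Pool.Agent.PET.Defs

/-!
# Ext : perfect matchings containing prescribed pairs

Let `a i, b i` (`i < e`) be `2e` distinct points of `H`.  The perfect matchings `f` of `H` with
`f (a i) = b i` for all `i` correspond bijectively to the perfect matchings `g` of the remaining set
`R = {h // h ∉ range a ∧ h ∉ range b}`:
given `f`, note `f (b i) = a i`, so `f` maps `R` to `R`; restrict.  Given `g`, extend by `a i ↔ b i`
(well defined because `Sum.elim a b` is injective).
`Compat A x f` holds iff `A (x (a i)) (x (b i))` for all `i` (and the reverse pairs, by symmetry of `A`) and the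
restriction is compatible with `x|_R`.

`cnt_equiv` : transport along an equivalence `e : H ≃ H'` (the map `f ↦ e ∘ f ∘ e.symm`).
`cnt_empty` : on an empty type there is exactly one (empty) perfect matching.
-/

set_option autoImplicit false
open scoped BigOperators Classical
open Filter MeasureTheory
noncomputable section
namespace Pool.Agent.PET

theorem Ext_le {H H' X : Type} [Fintype H] [Fintype H'] (A : X → X → Prop) (e : H ≃ H')
    (x : H' → X) : cnt A (fun h => x (e h)) ≤ cnt A x := by
  unfold cnt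
  refine Finset.card_le_card_of_injOn (fun f h' => e (f (e.symm h'))) ?_ ?_
  · intro f hf
    simp only [Finset.coe_filter, Set.mem_ofPred_eq, mem_PMs] at hf ⊢
    obtain ⟨⟨h1, h2⟩, h3⟩ := hf
    refine ⟨⟨fun h => by simp [h1], fun h hh => h2 (e.symm h) ?_⟩, fun h => ?_⟩
    · have hh' : e (f (e.symm h)) = h := hh
      rw [← e.symm_apply_apply (f (e.symm h)), hh']
    · have := h3 (e.symm h)
      simpa using this
  · intro f _ g _ hfg
    funext h
    have := congrFun hfg (e h)
    simpa using this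

theorem cnt_equiv {H H' X : Type} [Fintype H] [Fintype H'] (A : X → X → Prop) (e : H ≃ H')
    (x : H' → X) : cnt A (fun h => x (e h)) = cnt A x := by
  refine le_antisymm (Ext_le A e x) ?_
  have := Ext_le A e.symm (fun h => x (e h))
  simpa using this

theorem cnt_empty {H X : Type} [Fintype H] [IsEmpty H] (A : X → X → Prop) (x : H → X) :
    cnt A x = 1 := by
  unfold cnt
  rw [Finset.card_eq_one]
  refine ⟨fun h => h, ?_⟩
  ext f
  simp only [Finset.mem_filter, mem_PMs, Finset.mem_singleton]
  constructor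
  · intro _
    exact Subsingleton.elim _ _
  · intro _
    exact ⟨⟨fun h => isEmptyElim h, fun h => isEmptyElim h⟩, fun h => isEmptyElim h⟩

section
variable {H : Type} {e : ℕ} (a b : Fin e → H)

/-- the extension of a matching of the rest -/
def Ext_E (g : {h : H // h ∉ Set.range a ∧ h ∉ Set.range b} →
    {h : H // h ∉ Set.range a ∧ h ∉ Set.range b}) (h : H) : H :=
  if h1 : h ∈ Set.range a then b h1.choose else
    if h2 : h ∈ Set.range b then a h2.choose else (g ⟨h, h1, h2⟩).1

variable {a b} (hinj : Function.Injective (Sum.elim a b))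

include hinj

theorem Ext_aa {i j : Fin e} (h : a i = a j) : i = j := by
  have : Sum.elim a b (Sum.inl i) = Sum.elim a b (Sum.inl j) := h
  exact Sum.inl_injective (hinj this)

theorem Ext_bb {i j : Fin e} (h : b i = b j) : i = j := by
  have : Sum.elim a b (Sum.inr i) = Sum.elim a b (Sum.inr j) := h
  exact Sum.inr_injective (hinj this)

theorem Ext_ab (i j : Fin e) : a i ≠ b j := by
  intro h
  have : Sum.elim a b (Sum.inl i) = Sum.elim a b (Sum.inr j) := h
  exact Sum.inl_ne_inr (hinj this)

theorem Ext_E_a (g : {h : H // h ∉ Set.range a ∧ h ∉ Set.range b} →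
    {h : H // h ∉ Set.range a ∧ h ∉ Set.range b}) (i : Fin e) : Ext_E a b g (a i) = b i := by
  have h1 : a i ∈ Set.range a := ⟨i, rfl⟩
  unfold Ext_E
  rw [dif_pos h1]
  exact congrArg b (Ext_aa hinj h1.choose_spec)

theorem Ext_E_b (g : {h : H // h ∉ Set.range a ∧ h ∉ Set.range b} →
    {h : H // h ∉ Set.range a ∧ h ∉ Set.range b}) (i : Fin e) : Ext_E a b g (b i) = a i := by
  have h1 : b i ∉ Set.range a := by
    rintro ⟨j, hj⟩
    exact Ext_ab hinj j i hj
  have h2 : b i ∈ Set.range b := ⟨i, rfl⟩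
  unfold Ext_E
  rw [dif_neg h1, dif_pos h2]
  exact congrArg a (Ext_bb hinj h2.choose_spec)

omit hinj in
theorem Ext_E_r (g : {h : H // h ∉ Set.range a ∧ h ∉ Set.range b} →
    {h : H // h ∉ Set.range a ∧ h ∉ Set.range b})
    (h : {h : H // h ∉ Set.range a ∧ h ∉ Set.range b}) : Ext_E a b g h.1 = (g h).1 := by
  unfold Ext_E
  rw [dif_neg h.2.1, dif_neg h.2.2]

omit hinj in
theorem Ext_cases (h : H) : (∃ i, h = a i) ∨ (∃ i, h = b i) ∨
    ∃ r : {h : H // h ∉ Set.range a ∧ h ∉ Set.range b}, h = r.1 := by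
  by_cases h1 : h ∈ Set.range a
  · obtain ⟨i, rfl⟩ := h1
    exact Or.inl ⟨i, rfl⟩
  · by_cases h2 : h ∈ Set.range b
    · obtain ⟨i, rfl⟩ := h2
      exact Or.inr (Or.inl ⟨i, rfl⟩)
    · exact Or.inr (Or.inr ⟨⟨h, h1, h2⟩, rfl⟩)

end

theorem cnt_ext {H X : Type} [Fintype H] (A : X → X → Prop) (hA : ∀ u v, A u v → A v u)
    (x : H → X) {e : ℕ} (a b : Fin e → H) (hinj : Function.Injective (Sum.elim a b)) :
    ((PMs H).filter (fun f => Compat A x f ∧ ∀ i, f (a i) = b i)).card
      = if (∀ i, A (x (a i)) (x (b i))) then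
          cnt A (fun h : {h : H // h ∉ Set.range a ∧ h ∉ Set.range b} => x h.1) else 0 := by
  by_cases hall : ∀ i, A (x (a i)) (x (b i))
  · rw [if_pos hall]
    unfold cnt
    symm
    refine Finset.card_bij (fun g _ => Ext_E a b g) ?_ ?_ ?_
    · intro g hg
      simp only [Finset.mem_filter, mem_PMs] at hg ⊢
      obtain ⟨⟨h1, h2⟩, h3⟩ := hg
      refine ⟨⟨fun h => ?_, fun h => ?_⟩, fun h => ?_, fun i => Ext_E_a hinj g i⟩
      · rcases Ext_cases (a := a) (b := b) h with ⟨i, rfl⟩ | ⟨i, rfl⟩ | ⟨r, rfl⟩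
        · rw [Ext_E_a hinj, Ext_E_b hinj]
        · rw [Ext_E_b hinj, Ext_E_a hinj]
        · rw [Ext_E_r, Ext_E_r, h1]
      · rcases Ext_cases (a := a) (b := b) h with ⟨i, rfl⟩ | ⟨i, rfl⟩ | ⟨r, rfl⟩
        · rw [Ext_E_a hinj]
          exact (Ext_ab hinj i i).symm
        · rw [Ext_E_b hinj]
          exact Ext_ab hinj i i
        · rw [Ext_E_r]
          intro h
          exact h2 r (Subtype.ext h)
      · rcases Ext_cases (a := a) (b := b) h with ⟨i, rfl⟩ | ⟨i, rfl⟩ | ⟨r, rfl⟩
        · rw [Ext_E_a hinj]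
          exact hall i
        · rw [Ext_E_b hinj]
          exact hA _ _ (hall i)
        · rw [Ext_E_r]
          exact h3 r
    · intro g _ g' _ hgg
      funext r
      have := congrFun hgg r.1
      rw [Ext_E_r, Ext_E_r] at this
      exact Subtype.ext this
    · intro f hf
      simp only [Finset.mem_filter, mem_PMs] at hf
      obtain ⟨⟨h1, h2⟩, h3, h4⟩ := hf
      have h5 : ∀ i, f (b i) = a i := fun i => by rw [← h4 i, h1]
      have hr : ∀ r : {h : H // h ∉ Set.range a ∧ h ∉ Set.range b},
          f r.1 ∉ Set.range a ∧ f r.1 ∉ Set.range b := by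
        intro r
        constructor
        · rintro ⟨i, hi⟩
          apply r.2.2
          exact ⟨i, by rw [← h4 i, hi, h1]⟩
        · rintro ⟨i, hi⟩
          apply r.2.1
          exact ⟨i, by rw [← h5 i, hi, h1]⟩
      refine ⟨fun r => ⟨f r.1, hr r⟩, ?_, ?_⟩
      · simp only [Finset.mem_filter, mem_PMs]
        refine ⟨⟨fun r => Subtype.ext (h1 r.1), fun r hh => h2 r.1 (congrArg Subtype.val hh)⟩,
          fun r => h3 r.1⟩
      · funext h
        rcases Ext_cases (a := a) (b := b) h with ⟨i, rfl⟩ | ⟨i, rfl⟩ | ⟨r, rfl⟩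
        · rw [Ext_E_a hinj, h4]
        · rw [Ext_E_b hinj, h5]
        · rw [Ext_E_r]
  · rw [if_neg hall, Finset.card_eq_zero, Finset.filter_eq_empty_iff]
    rintro f _ ⟨h3, h4⟩
    apply hall
    intro i
    rw [← h4 i]
    exact h3 (a i)

end Pool.Agent.PET
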