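import Pool.Agent.PET.CDefs
/-!
# OvCnt : number of tuples of cycles with few vertices

A tuple `T` is determined by the vertex map `(Σ i, Fin (l i)) → Fin n`, whose image has `u` elements, and the `9^L` choices of half-edges
(`L = ∑ l i`).  Number of maps from an `L`-element set to `Fin n` with image of size `u`: choose the image (`≤ n^u` ordered enumerations) and then a map into
it: at most `n^u u^L ≤ n^u L^L` (`u ≤ L`, otherwise there is none).
-/
set_option autoImplicit false
open scoped BigOperators Classical
open Filter MeasureTheory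
noncomputable section
namespace Pool.Agent.PET

theorem verts_le {r n : ℕ} {l : Fin r → ℕ} (T : ∀ i, Cyc (l i) n) : (verts T).card ≤ ∑ i, l i := by
  unfold verts
  refine Finset.card_image_le.trans ?_
  simp

theorem verts_lt {r n : ℕ} {l : Fin r → ℕ} (T : ∀ i, Cyc (l i) n) (h : ¬ VDisj T) :
    (verts T).card + 1 ≤ ∑ i, l i := by
  have hne : (verts T).card ≠ ∑ i, l i := by
    intro heq
    apply h
    unfold verts at heq
    have : (Finset.univ.image (fun p : (Σ i : Fin r, Fin (l i)) => (T p.1 p.2).1)).card
        = (Finset.univ : Finset (Σ i : Fin r, Fin (l i))).card := by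
      rw [heq]; simp
    have hi := Finset.card_image_iff.1 this
    intro p q hpq
    exact hi (by simp) (by simp) hpq
  have := verts_le T
  omega

/-- maps with small image -/
theorem OvCnt_maps (L n u : ℕ) (P : Type) [Fintype P] [DecidableEq P] (hP : Fintype.card P = L) :
    ((Finset.univ.filter (fun g : P → Fin n => (Finset.univ.image g).card = u)).card) ≤ L ^ L * n ^ u := by
  by_cases huL : u ≤ L
  · have hsub : (Finset.univ.filter (fun g : P → Fin n => (Finset.univ.image g).card = u)) ⊆
        (Finset.univ : Finset ((P → Fin u) × (Fin u → Fin n))).image (fun q => fun p => q.2 (q.1 p)) := by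
      intro g hg
      rw [Finset.mem_filter] at hg
      obtain ⟨_, hg⟩ := hg
      rw [Finset.mem_image]
      let e : Fin u ≃ (Finset.univ.image g) := (Finset.equivFinOfCardEq hg).symm
      refine ⟨(fun p => e.symm ⟨g p, Finset.mem_image_of_mem g (Finset.mem_univ p)⟩, fun i => (e i).1), Finset.mem_univ _, ?_⟩
      funext p
      simp
    refine (Finset.card_le_card hsub).trans (Finset.card_image_le.trans ?_)
    rw [Finset.card_univ, Fintype.card_prod, Fintype.card_fun, Fintype.card_fun, Fintype.card_fin, Fintype.card_fin, hP]
    exact Nat.mul_le_mul_right _ (Nat.pow_le_pow_left huL L)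
  · have : (Finset.univ.filter (fun g : P → Fin n => (Finset.univ.image g).card = u)) = ∅ := by
      rw [Finset.filter_eq_empty_iff]
      intro g _ hg
      have h1 : (Finset.univ.image g).card ≤ L := Finset.card_image_le.trans (by simp [hP])
      omega
    rw [this]
    simp

theorem ov_count (r : ℕ) (l : Fin r → ℕ) : ∃ C : ℝ, 0 < C ∧ ∀ n u : ℕ,
    ((Finset.univ.filter (fun T : (∀ i, Cyc (l i) n) => (verts T).card = u)).card : ℝ) ≤ C * (n : ℝ) ^ u := by
  set L := ∑ i, l i with hL
  have hcardP : Fintype.card (Σ i : Fin r, Fin (l i)) = L := by simp [hL]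
  refine ⟨((9 ^ L * L ^ L : ℕ) : ℝ), ?_, ?_⟩
  · have : 0 < 9 ^ L * L ^ L := by
      rcases Nat.eq_zero_or_pos L with h | h
      · rw [h]; norm_num
      · positivity
    exact_mod_cast this
  · intro n u
    let P := (Σ i : Fin r, Fin (l i))
    have hinj : ((Finset.univ.filter (fun T : (∀ i, Cyc (l i) n) => (verts T).card = u)).card) ≤
        ((Finset.univ.filter (fun g : P → Fin n => (Finset.univ.image g).card = u)) ×ˢ
          (Finset.univ : Finset (P → Fin 3 × Fin 3))).card := by
      refine Finset.card_le_card_of_injOn
        (fun T => (fun p : P => (T p.1 p.2).1, fun p : P => (T p.1 p.2).2)) ?_ ?_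
      · intro T hT
        simp only [Finset.coe_filter, Finset.mem_univ, true_and, Set.mem_setOf_eq] at hT
        simp only [Finset.coe_product, Finset.coe_filter, Finset.mem_univ, true_and, Finset.coe_univ,
          Set.mem_prod, Set.mem_setOf_eq, Set.mem_univ, and_true]
        rw [← hT]
        rfl
      · intro T _ T' _ h
        simp only [Prod.mk.injEq] at h
        funext i s
        have h1 := congrFun h.1 ⟨i, s⟩
        have h2 := congrFun h.2 ⟨i, s⟩
        simp only at h1 h2
        exact Prod.ext h1 h2
    have h2 := OvCnt_maps L n u P hcardP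
    rw [Finset.card_product] at hinj
    have h3 : (Finset.univ : Finset (P → Fin 3 × Fin 3)).card = 9 ^ L := by
      rw [Finset.card_univ, Fintype.card_fun, Fintype.card_prod, Fintype.card_fin, hcardP]
    rw [h3] at hinj
    have h4 : ((Finset.univ.filter (fun T : (∀ i, Cyc (l i) n) => (verts T).card = u)).card) ≤
        (9 ^ L * L ^ L) * n ^ u := by
      calc _ ≤ _ := hinj
        _ ≤ (L ^ L * n ^ u) * 9 ^ L := by
            refine Nat.mul_le_mul_right _ ?_
            exact h2
        _ = _ := by ring
    calc ((Finset.univ.filter (fun T : (∀ i, Cyc (l i) n) => (verts T).card = u)).card : ℝ)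
        ≤ (((9 ^ L * L ^ L) * n ^ u : ℕ) : ℝ) := by exact_mod_cast h4
      _ = _ := by push_cast; ring

end Pool.Agent.PET
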