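import Pool.Agent.PET.Excess
import Pool.Agent.PET.CanCnt
import Pool.Agent.PET.OvCnt
/-!
# FacMom : factorial moments of the cycle counts

`n = 2t`, `L = ∑ l i`.  `∑_f w f |Tup l f| = ∑_T ∑_{f ∈ PMs, all Real' f (T i)} w f`, `T` ranging over tuples of canonical, pairwise
distinct cycles.
* `VDisj T`: then distinctness is automatic (`l i ≥ 1`).  By H1 each inner sum is `(K ∏ τ(l i) + o(1))/(6t)^L` uniformly.  The number of
  tuples of canonical cycles is `∏ |Can_{l i}| ~ ∏ n^{l i} 6^{l i}/(2 l i)` (`can_count`), those which are not `VDisj` have `|verts T| ≤ L - 1`, so there are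
  `O(n^{L-1})` of them (`ov_count`; note `|verts T| ≤ L` with equality iff `VDisj`).  Contribution → `K ∏ τ(l i) 6^{l i}/(2 l i) 3^{-l i} = K ∏ aa(l i) τ(l i)`
  (`n^L/(6t)^L = 3^{-L}`).
* `¬ VDisj T` and the inner sum is not empty (some `f ∈ PMs` with `T ∈ Tup l f`): `excess` and H2 with `e = |verts T| + 1` bound the inner sum by
  `C/t^{|verts T|+1}` (`hw`: nonnegative weights); `ov_count`: total `≤ ∑_{u ≤ L} C' n^u C/t^{u+1} → 0`.
-/
set_option autoImplicit false
open scoped BigOperators Classical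
open Filter MeasureTheory
noncomputable section
namespace Pool.Agent.PET

/-- canonical and pairwise distinct -/
private def CT {r n : ℕ} {l : Fin r → ℕ} (T : ∀ i, Cyc (l i) n) : Prop :=
  (∀ i, Canon (T i)) ∧ ∀ i j, i ≠ j → (⟨l i, T i⟩ : Σ s, Cyc s n) ≠ ⟨l j, T j⟩

private theorem mem_Tup' {r n : ℕ} {l : Fin r → ℕ} (f : HE n → HE n) (T : ∀ i, Cyc (l i) n) :
    T ∈ Tup l f ↔ CT T ∧ ∀ i, Real' f (T i) := by
  unfold Tup CT
  simp only [Finset.mem_filter, Finset.mem_univ, true_and]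
  constructor
  · rintro ⟨h1, h2⟩
    exact ⟨⟨fun i => (h1 i).1, h2⟩, fun i => (h1 i).2⟩
  · rintro ⟨⟨h1, h2⟩, h3⟩
    exact ⟨fun i => ⟨h1 i, h3 i⟩, h2⟩

private theorem fm_swap {r n : ℕ} (l : Fin r → ℕ) (P : Finset (HE n → HE n)) (w : (HE n → HE n) → ℝ) :
    ∑ f ∈ P, w f * ((Tup l f).card : ℝ) =
      ∑ T ∈ Finset.univ.filter (fun T : (∀ i, Cyc (l i) n) => CT T),
        ∑ f ∈ P.filter (fun f => ∀ i, Real' f (T i)), w f := by
  have h1 : ∀ f, w f * ((Tup l f).card : ℝ) =
      ∑ T ∈ Finset.univ.filter (fun T : (∀ i, Cyc (l i) n) => CT T),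
        (if ∀ i, Real' f (T i) then w f else 0) := by
    intro f
    rw [← Finset.sum_filter, Finset.sum_const, nsmul_eq_mul, mul_comm]
    congr 2
    congr 1
    ext T
    rw [mem_Tup', Finset.mem_filter, Finset.mem_filter]
    simp only [Finset.mem_univ, true_and]
  rw [Finset.sum_congr rfl (fun f _ => h1 f), Finset.sum_comm]
  refine Finset.sum_congr rfl (fun T _ => ?_)
  rw [Finset.sum_filter]

private theorem fm_disj {r n : ℕ} {l : Fin r → ℕ} (hl : ∀ i, 1 ≤ l i) (T : ∀ i, Cyc (l i) n)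
    (hc : ∀ i, Canon (T i)) (hd : VDisj T) : CT T := by
  refine ⟨hc, fun i j hij h => hij ?_⟩
  have key : ∀ (a b : ℕ) (ha : 1 ≤ a) (hb : 1 ≤ b) (c : Cyc a n) (c' : Cyc b n),
      (⟨a, c⟩ : Σ s, Cyc s n) = ⟨b, c'⟩ → (c ⟨0, ha⟩).1 = (c' ⟨0, hb⟩).1 := by
    intro a b ha hb c c' h
    obtain ⟨h1, h2⟩ := Sigma.mk.inj_iff.1 h
    subst h1
    rw [eq_of_heq h2]
  have h0 := key _ _ (hl i) (hl j) _ _ h
  have := hd (a₁ := ⟨i, ⟨0, hl i⟩⟩) (a₂ := ⟨j, ⟨0, hl j⟩⟩) h0
  exact (Sigma.mk.inj_iff.1 this).1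

private theorem fm_split {r n : ℕ} {l : Fin r → ℕ} (hl : ∀ i, 1 ≤ l i) (g : (∀ i, Cyc (l i) n) → ℝ) :
    ∑ T ∈ Finset.univ.filter (fun T : (∀ i, Cyc (l i) n) => CT T), g T =
      ∑ T ∈ Finset.univ.filter (fun T : (∀ i, Cyc (l i) n) => (∀ i, Canon (T i)) ∧ VDisj T), g T +
      ∑ T ∈ Finset.univ.filter (fun T : (∀ i, Cyc (l i) n) => CT T ∧ ¬ VDisj T), g T := by
  rw [← Finset.sum_filter_add_sum_filter_not
    (Finset.univ.filter (fun T : (∀ i, Cyc (l i) n) => CT T)) (fun T => VDisj T) g]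
  rw [Finset.filter_filter, Finset.filter_filter]
  congr 2
  ext T
  simp only [Finset.mem_filter, Finset.mem_univ, true_and]
  exact ⟨fun h => ⟨h.1.1, h.2⟩, fun h => ⟨fm_disj hl T h.1 h.2, h.2⟩⟩

/-- number of tuples of canonical cycles -/
private theorem fm_pi {r n : ℕ} (l : Fin r → ℕ) :
    ((Finset.univ.filter (fun T : (∀ i, Cyc (l i) n) => ∀ i, Canon (T i))).card : ℝ) =
      ∏ i, ((Finset.univ.filter (fun c : Cyc (l i) n => Canon c)).card : ℝ) := by
  have : (Finset.univ.filter (fun T : (∀ i, Cyc (l i) n) => ∀ i, Canon (T i))) =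
      Fintype.piFinset (fun i => Finset.univ.filter (fun c : Cyc (l i) n => Canon c)) := by
    ext T
    simp only [Finset.mem_filter, Finset.mem_univ, true_and, Fintype.mem_piFinset]
  rw [this, Fintype.card_piFinset]
  push_cast
  rfl

/-- sum over tuples which are not disjoint -/
private theorem fm_nd {r n : ℕ} (l : Fin r → ℕ) (g : ℕ → ℝ) (hg : ∀ u, 0 ≤ g u) (C : ℝ)
    (hC : ∀ u : ℕ, ((Finset.univ.filter (fun T : (∀ i, Cyc (l i) n) => (verts T).card = u)).card : ℝ) ≤ C * (n : ℝ) ^ u)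
    (Q : (∀ i, Cyc (l i) n) → Prop) (hQ : ∀ T, Q T → ¬ VDisj T) :
    ∑ T ∈ Finset.univ.filter (fun T : (∀ i, Cyc (l i) n) => Q T), g (verts T).card ≤
      ∑ u ∈ Finset.range (∑ i, l i), C * (n : ℝ) ^ u * g u := by
  have hmap : ∀ T ∈ Finset.univ.filter (fun T : (∀ i, Cyc (l i) n) => Q T),
      (verts T).card ∈ Finset.range (∑ i, l i) := by
    intro T hT
    rw [Finset.mem_range]
    have := verts_lt T (hQ T (Finset.mem_filter.1 hT).2)
    omega
  rw [← Finset.sum_fiberwise_of_maps_to hmap]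
  refine Finset.sum_le_sum (fun u _ => ?_)
  have h1 : ∑ T ∈ (Finset.univ.filter (fun T : (∀ i, Cyc (l i) n) => Q T)).filter (fun T => (verts T).card = u),
      g (verts T).card =
      ((Finset.univ.filter (fun T : (∀ i, Cyc (l i) n) => Q T)).filter (fun T => (verts T).card = u)).card * g u := by
    rw [← nsmul_eq_mul, ← Finset.sum_const]
    refine Finset.sum_congr rfl (fun T hT => ?_)
    rw [(Finset.mem_filter.1 hT).2]
  rw [h1]
  refine mul_le_mul_of_nonneg_right (le_trans ?_ (hC u)) (hg u)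
  rw [Nat.cast_le]
  apply Finset.card_le_card
  intro T hT
  rw [Finset.mem_filter] at hT ⊢
  exact ⟨Finset.mem_univ _, hT.2⟩

/-- number of disjoint tuples of canonical cycles -/
private theorem fm_cnt (r : ℕ) (l : Fin r → ℕ) (hl : ∀ i, 1 ≤ l i) :
    Tendsto (fun n : ℕ => ((Finset.univ.filter (fun T : (∀ i, Cyc (l i) n) =>
      (∀ i, Canon (T i)) ∧ VDisj T)).card : ℝ) / (n : ℝ) ^ (∑ i, l i)) atTop
      (nhds (∏ i, (6 ^ (l i) / (2 * (l i : ℝ))))) := by
  obtain ⟨C, hC0, hC⟩ := ov_count r l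
  have h1 : Tendsto (fun n : ℕ => ((Finset.univ.filter (fun T : (∀ i, Cyc (l i) n) =>
      (∀ i, Canon (T i)))).card : ℝ) / (n : ℝ) ^ (∑ i, l i)) atTop
      (nhds (∏ i, (6 ^ (l i) / (2 * (l i : ℝ))))) := by
    have := tendsto_finsetProd (Finset.univ : Finset (Fin r)) (fun i _ => can_count (l i) (hl i))
    refine this.congr (fun n => ?_)
    rw [fm_pi, Finset.prod_div_distrib, Finset.prod_pow_eq_pow_sum]
  have h2 : Tendsto (fun n : ℕ => ((Finset.univ.filter (fun T : (∀ i, Cyc (l i) n) =>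
      (∀ i, Canon (T i)) ∧ ¬ VDisj T)).card : ℝ) / (n : ℝ) ^ (∑ i, l i)) atTop (nhds 0) := by
    have hz : Tendsto (fun n : ℕ => ((∑ i, l i : ℕ) : ℝ) * C / (n : ℝ)) atTop (nhds 0) :=
      tendsto_const_div_atTop_nhds_zero_nat _
    refine squeeze_zero' (Eventually.of_forall (fun n => by positivity)) ?_ hz
    filter_upwards [eventually_ge_atTop 1] with n hn
    have hn' : (0 : ℝ) < n := by exact_mod_cast hn
    have hn1 : (1 : ℝ) ≤ n := by exact_mod_cast hn
    have hb : ((Finset.univ.filter (fun T : (∀ i, Cyc (l i) n) =>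
        (∀ i, Canon (T i)) ∧ ¬ VDisj T)).card : ℝ) ≤
        ∑ u ∈ Finset.range (∑ i, l i), C * (n : ℝ) ^ u * 1 := by
      have hb' := fm_nd l (fun _ => (1 : ℝ)) (fun _ => zero_le_one) C (hC n)
        (fun T => (∀ i, Canon (T i)) ∧ ¬ VDisj T) (fun T h => h.2)
      rw [Finset.sum_const, nsmul_eq_mul, mul_one] at hb'
      refine le_of_eq_of_le ?_ hb'
      congr!
    rcases Nat.eq_zero_or_pos (∑ i, l i) with hL | hL
    · rw [hL] at hb ⊢
      simp only [Finset.range_zero, Finset.sum_empty] at hb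
      simp only [pow_zero, div_one, CharP.cast_eq_zero, zero_mul, zero_div]
      exact hb
    · have hb2 : ∑ u ∈ Finset.range (∑ i, l i), C * (n : ℝ) ^ u * 1 ≤
          ((∑ i, l i : ℕ) : ℝ) * (C * (n : ℝ) ^ ((∑ i, l i) - 1)) := by
        have : ∑ u ∈ Finset.range (∑ i, l i), C * (n : ℝ) ^ u * 1 ≤
            ∑ u ∈ Finset.range (∑ i, l i), C * (n : ℝ) ^ ((∑ i, l i) - 1) := by
          refine Finset.sum_le_sum (fun u hu => ?_)
          rw [mul_one]
          refine mul_le_mul_of_nonneg_left ?_ hC0.le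
          refine pow_le_pow_right₀ hn1 ?_
          have := Finset.mem_range.1 hu
          omega
        rw [Finset.sum_const, Finset.card_range, nsmul_eq_mul] at this
        exact this
      rw [div_le_div_iff₀ (by positivity) hn']
      have hp : (n : ℝ) ^ (∑ i, l i) = (n : ℝ) ^ ((∑ i, l i) - 1) * n := by
        rw [← pow_succ]
        congr 1
        omega
      have hfin : (((∑ i, l i : ℕ) : ℝ) * (C * (n : ℝ) ^ ((∑ i, l i) - 1))) * n =
          ((∑ i, l i : ℕ) : ℝ) * C * (n : ℝ) ^ (∑ i, l i) := by rw [hp]; ring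
      rw [← hfin]
      exact mul_le_mul_of_nonneg_right (hb.trans hb2) hn'.le
  have h3 := h1.sub h2
  rw [sub_zero] at h3
  refine h3.congr (fun n => ?_)
  rw [← sub_div]
  congr 1
  rw [sub_eq_iff_eq_add]
  have := Finset.card_filter_add_card_filter_not
    (s := (Finset.univ.filter (fun T : (∀ i, Cyc (l i) n) => ∀ i, Canon (T i)))) (fun T => VDisj T)
  rw [Finset.filter_filter, Finset.filter_filter] at this
  exact_mod_cast this.symm

private theorem fm_aa {r : ℕ} (l : Fin r → ℕ) (hl : ∀ i, 1 ≤ l i) :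
    (∏ i, ((6 : ℝ) ^ (l i) / (2 * (l i : ℝ)))) / 3 ^ (∑ i, l i) = ∏ i, aa (l i) := by
  rw [← Finset.prod_pow_eq_pow_sum, ← Finset.prod_div_distrib]
  refine Finset.prod_congr rfl (fun i _ => ?_)
  unfold aa
  have h : (6 : ℝ) ^ (l i) = 2 ^ (l i) * 3 ^ (l i) := by
    rw [← mul_pow]; norm_num
  have hp : (3 : ℝ) ^ (l i) ≠ 0 := by positivity
  have hli : (l i : ℝ) ≠ 0 := by
    have := hl i
    positivity
  rw [h]
  field_simp

theorem facMom (w : ∀ t, (HE (2 * t) → HE (2 * t)) → ℝ) (hw : ∀ t f, 0 ≤ w t f) (K : ℝ) (τ : ℕ → ℝ)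
    (h1 : H1 w K τ) (h2 : H2 w) (r : ℕ) (l : Fin r → ℕ) (hl : ∀ i, 1 ≤ l i) :
    Tendsto (fun t : ℕ => ∑ f ∈ PMs (HE (2 * t)), w t f * ((Tup l f).card : ℝ)) atTop
      (nhds (K * ∏ i, (aa (l i) * τ (l i)))) := by
  have hrw : ∀ t : ℕ, ∑ f ∈ PMs (HE (2 * t)), w t f * ((Tup l f).card : ℝ) =
      ∑ T ∈ Finset.univ.filter (fun T : (∀ i, Cyc (l i) (2 * t)) => (∀ i, Canon (T i)) ∧ VDisj T),
        ∑ f ∈ (PMs (HE (2 * t))).filter (fun f => ∀ i, Real' f (T i)), w t f +
      ∑ T ∈ Finset.univ.filter (fun T : (∀ i, Cyc (l i) (2 * t)) => CT T ∧ ¬ VDisj T),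
        ∑ f ∈ (PMs (HE (2 * t))).filter (fun f => ∀ i, Real' f (T i)), w t f := by
    intro t
    rw [fm_swap, fm_split hl]
  have hmain : Tendsto (fun t : ℕ =>
      ∑ T ∈ Finset.univ.filter (fun T : (∀ i, Cyc (l i) (2 * t)) => (∀ i, Canon (T i)) ∧ VDisj T),
        ∑ f ∈ (PMs (HE (2 * t))).filter (fun f => ∀ i, Real' f (T i)), w t f) atTop
      (nhds (K * ∏ i, (aa (l i) * τ (l i)))) := by
    set L : ℕ := ∑ i, l i with hLdef
    set q : ℕ → ℝ := fun t => ((Finset.univ.filter (fun T : (∀ i, Cyc (l i) (2 * t)) =>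
      (∀ i, Canon (T i)) ∧ VDisj T)).card : ℝ) / (6 * t : ℝ) ^ L with hq
    have hqlim : Tendsto q atTop (nhds (∏ i, aa (l i))) := by
      have hc := fm_cnt r l hl
      have h2t : Tendsto (fun t : ℕ => 2 * t) atTop atTop :=
        tendsto_atTop_mono (fun t => by simp only [id]; omega) tendsto_id
      have := (hc.comp h2t).div_const ((3 : ℝ) ^ L)
      rw [fm_aa l hl] at this
      refine this.congr (fun t => ?_)
      simp only [Function.comp, hq]
      rw [div_div, ← mul_pow]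
      congr 2
      push_cast
      ring
    have hdiff : Tendsto (fun t : ℕ =>
        ∑ T ∈ Finset.univ.filter (fun T : (∀ i, Cyc (l i) (2 * t)) => (∀ i, Canon (T i)) ∧ VDisj T),
          ∑ f ∈ (PMs (HE (2 * t))).filter (fun f => ∀ i, Real' f (T i)), w t f
          - q t * (K * ∏ i, τ (l i))) atTop (nhds 0) := by
      rw [Metric.tendsto_nhds]
      intro δ hδ
      set A : ℝ := ∏ i, aa (l i) with hA
      have hA0 : 0 ≤ A := Finset.prod_nonneg (fun i _ => by unfold aa; positivity)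
      have hε : 0 < δ / (2 * (A + 1)) := by positivity
      have hqb : ∀ᶠ t in atTop, q t < A + 1 := hqlim.eventually_lt_const (by linarith)
      filter_upwards [h1 r l hl _ hε, hqb, eventually_ge_atTop 1] with t ht hqt htp
      have htp' : (0 : ℝ) < t := by exact_mod_cast htp
      have h6 : (0 : ℝ) < (6 * t : ℝ) ^ L := by positivity
      rw [Real.dist_eq, sub_zero]
      have heq : ∑ T ∈ Finset.univ.filter (fun T : (∀ i, Cyc (l i) (2 * t)) => (∀ i, Canon (T i)) ∧ VDisj T),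
          ∑ f ∈ (PMs (HE (2 * t))).filter (fun f => ∀ i, Real' f (T i)), w t f
          - q t * (K * ∏ i, τ (l i)) =
          (∑ T ∈ Finset.univ.filter (fun T : (∀ i, Cyc (l i) (2 * t)) => (∀ i, Canon (T i)) ∧ VDisj T),
            ((6 * t : ℝ) ^ L * (∑ f ∈ (PMs (HE (2 * t))).filter (fun f => ∀ i, Real' f (T i)), w t f)
              - K * ∏ i, τ (l i))) / (6 * t : ℝ) ^ L := by
        rw [Finset.sum_sub_distrib, Finset.sum_const, nsmul_eq_mul, ← Finset.mul_sum, sub_div,
          mul_div_cancel_left₀ _ h6.ne']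
        simp only [hq]
        ring
      rw [heq, abs_div, abs_of_pos h6]
      have hsum : |∑ T ∈ Finset.univ.filter (fun T : (∀ i, Cyc (l i) (2 * t)) => (∀ i, Canon (T i)) ∧ VDisj T),
            ((6 * t : ℝ) ^ L * (∑ f ∈ (PMs (HE (2 * t))).filter (fun f => ∀ i, Real' f (T i)), w t f)
              - K * ∏ i, τ (l i))| ≤
          ((Finset.univ.filter (fun T : (∀ i, Cyc (l i) (2 * t)) =>
            (∀ i, Canon (T i)) ∧ VDisj T)).card : ℝ) * (δ / (2 * (A + 1))) := by
        refine (Finset.abs_sum_le_sum_abs _ _).trans ?_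
        rw [← nsmul_eq_mul]
        refine Finset.sum_le_card_nsmul _ _ _ (fun T hT => ?_)
        have hT' := (Finset.mem_filter.1 hT).2
        exact ht T (fun i => (hT'.1 i).1) hT'.2
      calc _ ≤ (((Finset.univ.filter (fun T : (∀ i, Cyc (l i) (2 * t)) =>
            (∀ i, Canon (T i)) ∧ VDisj T)).card : ℝ) * (δ / (2 * (A + 1)))) / (6 * t : ℝ) ^ L :=
            div_le_div_of_nonneg_right hsum h6.le
        _ = q t * (δ / (2 * (A + 1))) := by simp only [hq]; ring
        _ ≤ (A + 1) * (δ / (2 * (A + 1))) := mul_le_mul_of_nonneg_right hqt.le hε.le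
        _ = δ / 2 := by field_simp
        _ < δ := by linarith
    have := hdiff.add (hqlim.mul_const (K * ∏ i, τ (l i)))
    rw [zero_add] at this
    have hprod : K * ∏ i, (aa (l i) * τ (l i)) = (∏ i, aa (l i)) * (K * ∏ i, τ (l i)) := by
      rw [Finset.prod_mul_distrib]; ring
    rw [hprod]
    refine this.congr (fun t => ?_)
    ring
  have hrest : Tendsto (fun t : ℕ =>
      ∑ T ∈ Finset.univ.filter (fun T : (∀ i, Cyc (l i) (2 * t)) => CT T ∧ ¬ VDisj T),
        ∑ f ∈ (PMs (HE (2 * t))).filter (fun f => ∀ i, Real' f (T i)), w t f) atTop (nhds 0) := by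
    obtain ⟨C, hC0, hC⟩ := ov_count r l
    choose D hD using h2
    set L : ℕ := ∑ i, l i with hLdef
    set B0 : ℝ := ∑ e ∈ Finset.range (L + 1), |D e| with hB0
    have hB00 : 0 ≤ B0 := Finset.sum_nonneg (fun _ _ => abs_nonneg _)
    have hDB : ∀ e, e ≤ L → D e ≤ B0 := by
      intro e he
      refine (le_abs_self _).trans ?_
      exact Finset.single_le_sum (f := fun e => |D e|) (fun _ _ => abs_nonneg _)
        (Finset.mem_range.2 (by omega))
    have hall : ∀ᶠ t : ℕ in atTop, ∀ e ∈ Finset.range (L + 1), ∀ a b : Fin e → HE (2 * t),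
        Function.Injective (Sum.elim a b) →
        ∑ f ∈ (PMs (HE (2 * t))).filter (fun f => ∀ i, f (a i) = b i), w t f ≤ D e / (t : ℝ) ^ e := by
      rw [Finset.eventually_all]
      intro e _
      exact hD e
    have hz : Tendsto (fun t : ℕ => (∑ u ∈ Finset.range L, C * 2 ^ u * B0) / (t : ℝ)) atTop (nhds 0) :=
      tendsto_const_div_atTop_nhds_zero_nat _
    refine squeeze_zero' (Eventually.of_forall (fun t => ?_)) ?_ hz
    · exact Finset.sum_nonneg (fun T _ => Finset.sum_nonneg (fun f _ => hw t f))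
    filter_upwards [hall, eventually_ge_atTop 1] with t ht htp
    have htp' : (0 : ℝ) < t := by exact_mod_cast htp
    have hT : ∀ T ∈ Finset.univ.filter (fun T : (∀ i, Cyc (l i) (2 * t)) => CT T ∧ ¬ VDisj T),
        ∑ f ∈ (PMs (HE (2 * t))).filter (fun f => ∀ i, Real' f (T i)), w t f ≤
          (fun u : ℕ => B0 / (t : ℝ) ^ (u + 1)) (verts T).card := by
      intro T hT
      have hT' := (Finset.mem_filter.1 hT).2
      rcases Finset.eq_empty_or_nonempty ((PMs (HE (2 * t))).filter (fun f => ∀ i, Real' f (T i))) with he | ⟨f, hf⟩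
      · rw [he, Finset.sum_empty]
        positivity
      · rw [Finset.mem_filter] at hf
        have hf1 := (mem_PMs f).1 hf.1
        obtain ⟨a, b, hab, hg⟩ := excess hl f hf1 T ((mem_Tup' f T).2 ⟨hT'.1, hf.2⟩) hT'.2
        have hlt := verts_lt T hT'.2
        have hb := ht ((verts T).card + 1) (Finset.mem_range.2 (by omega)) a b hab
        refine le_trans ?_ (hb.trans ?_)
        · refine Finset.sum_le_sum_of_subset_of_nonneg ?_ (fun g _ _ => hw t g)
          intro g hg'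
          rw [Finset.mem_filter] at hg' ⊢
          exact ⟨hg'.1, hg g ((mem_PMs g).1 hg'.1) hg'.2⟩
        · exact div_le_div_of_nonneg_right (hDB _ hlt) (by positivity)
    refine (Finset.sum_le_sum hT).trans ?_
    have hlast := fm_nd l (fun u : ℕ => B0 / (t : ℝ) ^ (u + 1)) (fun u => by positivity) C (hC (2 * t))
      (fun T => CT T ∧ ¬ VDisj T) (fun T h => h.2)
    refine (le_of_eq_of_le (by congr!) hlast).trans ?_
    rw [Finset.sum_div]
    refine le_of_eq (Finset.sum_congr rfl (fun u _ => ?_))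
    push_cast
    rw [mul_pow, pow_succ]
    field_simp
  have := hmain.add hrest
  rw [add_zero] at this
  exact this.congr (fun t => (hrw t).symm)

end Pool.Agent.PET
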