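import Pool.Agent.PET.HafB
import Pool.Agent.PET.CDefs
/-!
# FarD : contribution of one overlap matrix

`X = Fin 10 × Fin 10`, `n = 2t ≥ 1`, `D = cntX x`, `π = D/n`.  `card_counts`: there are `multinomial(D)` functions `x` with counts `D`.  `hafB` with `z = π^{2/3}` (real powers, `≥ 0`) and
`mode` (with `n = 2t`, `|X| = 100`):
`multinomial(D) cnt A2 x ≤ (6t+1)^{100} multinomial(3D) ∏ π^{2D} cnt A2 x ≤ (6t+1)^{100} dfac(6t) (∑_{A2} z_x z_y)^{3t}`
(`∏ z_a^{3 D_a} = ∏ π_a^{2 D_a}`).  `∑_{x,y} [A2 x y] z_x z_y = 900 · 100^{-4/3} · quad (fun a b => (100 π_{ab})^{2/3})` (`z = 100^{-2/3} (100π)^{2/3}`), and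
`(900 · 100^{-4/3})^{3t} = (900³/100⁴)^t = 7.29^t = (B t)²`.
-/
set_option autoImplicit false
open scoped BigOperators Classical
open Filter MeasureTheory
noncomputable section
namespace Pool.Agent.PET

/-- the sum over adjacent pairs in terms of `quad` -/
theorem FarD_quad (F : Fin 10 → Fin 10 → ℝ) :
    (∑ p : Fin 10 × Fin 10, ∑ q : Fin 10 × Fin 10, if A2 p q then F p.1 p.2 * F q.1 q.2 else 0) =
      900 * quad F := by
  unfold quad
  have h1 : ∀ a b : Fin 10, (∑ q : Fin 10 × Fin 10, if A2 (a, b) q then F a b * F q.1 q.2 else 0) =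
      ∑ a' ∈ Finset.univ.filter (fun a' => padj a a'),
        ∑ b' ∈ Finset.univ.filter (fun b' => padj b b'), F a b * F a' b' := by
    intro a b
    rw [Fintype.sum_prod_type, Finset.sum_filter]
    refine Finset.sum_congr rfl fun a' _ => ?_
    by_cases h : padj a a'
    · rw [if_pos h, Finset.sum_filter]
      refine Finset.sum_congr rfl fun b' _ => ?_
      by_cases h' : padj b b'
      · have h3 : A2 (a, b) (a', b') := ⟨h, h'⟩
        rw [if_pos h', if_pos h3]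
      · have h3 : ¬ A2 (a, b) (a', b') := fun h4 => h' h4.2
        rw [if_neg h', if_neg h3]
    · rw [if_neg h]
      refine Finset.sum_eq_zero fun b' _ => ?_
      have h3 : ¬ A2 (a, b) (a', b') := fun h4 => h h4.1
      rw [if_neg h3]
  rw [Fintype.sum_prod_type]
  simp only [h1]
  ring

theorem farD (t : ℕ) (ht : 0 < t) (D : Fin 10 × Fin 10 → ℕ) (hD : ∑ p, D p = 2 * t) :
    (∑ x ∈ Finset.univ.filter (fun x : Fin (2 * t) → Fin 10 × Fin 10 => ∀ p, cntX x p = D p),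
      (cnt A2 (fun h : HE (2 * t) => x h.1) : ℝ))
      ≤ (6 * t + 1 : ℝ) ^ 100 * dfac (6 * t) * (B t) ^ 2
        * (quad (fun a b => (100 * ((D (a, b) : ℝ) / (2 * t))) ^ (2 / 3 : ℝ))) ^ (3 * t) := by
  have htR : (0:ℝ) < t := by exact_mod_cast ht
  obtain ⟨w, hw⟩ : ∃ w : Fin 10 × Fin 10 → ℝ, w = fun p => (D p : ℝ) / (2 * t) := ⟨_, rfl⟩
  obtain ⟨z, hz⟩ : ∃ z : Fin 10 × Fin 10 → ℝ, z = fun p => (w p) ^ (2 / 3 : ℝ) := ⟨_, rfl⟩
  obtain ⟨F, hF⟩ : ∃ F : Fin 10 → Fin 10 → ℝ,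
    F = fun a b => (100 * ((D (a, b) : ℝ) / (2 * t))) ^ (2 / 3 : ℝ) := ⟨_, rfl⟩
  rw [← hF]
  have hw0 : ∀ p, 0 ≤ w p := by
    intro p; rw [hw]; exact div_nonneg (Nat.cast_nonneg _) (by linarith)
  have hz0 : ∀ p, 0 ≤ z p := by intro p; rw [hz]; exact Real.rpow_nonneg (hw0 p) _
  have hz3 : ∀ p, z p ^ (3 * D p) = w p ^ (2 * D p) := by
    intro p
    have h3 : z p ^ 3 = w p ^ 2 := by
      rw [hz]
      simp only
      rw [← Real.rpow_natCast, ← Real.rpow_mul (hw0 p)]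
      rw [show (2 / 3 : ℝ) * ((3:ℕ) : ℝ) = ((2:ℕ) : ℝ) by norm_num, Real.rpow_natCast]
    rw [pow_mul, pow_mul, h3]
  obtain ⟨M, hM⟩ : ∃ M : ℝ, M = (Nat.multinomial Finset.univ D : ℝ) := ⟨_, rfl⟩
  obtain ⟨Q, hQ⟩ : ∃ Q : ℝ, Q = (Nat.multinomial Finset.univ (fun x => 3 * D x) : ℝ)
      * ∏ x, w x ^ (2 * D x) := ⟨_, rfl⟩
  obtain ⟨R, hR⟩ : ∃ R : ℝ, R = dfac (6 * t) * (∑ a, ∑ b, if A2 a b then z a * z b else 0) ^ (3 * t) :=
    ⟨_, rfl⟩
  have hmode : M ≤ (6 * t + 1 : ℝ) ^ 100 * Q := by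
    have h1 := mode D (2 * t) (by omega) hD
    rw [hM, hQ, hw]
    have h2 : Fintype.card (Fin 10 × Fin 10) = 100 := by simp
    rw [h2] at h1
    push_cast at h1
    rw [show (3 * (2 * (t:ℝ)) + 1) = 6 * t + 1 by ring] at h1
    rw [← mul_assoc]
    exact h1
  have hM1 : 1 ≤ M := by
    rw [hM]
    exact_mod_cast Nat.multinomial_pos _ _
  have hQ0 : 0 < Q := by
    by_contra h
    push Not at h
    have : (6 * t + 1 : ℝ) ^ 100 * Q ≤ 0 := mul_nonpos_of_nonneg_of_nonpos (by positivity) h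
    linarith
  have hsymm : ∀ u v, A2 u v → A2 v u := by
    intro u v h
    unfold A2 padj at h ⊢
    obtain ⟨⟨h1, h2, h3, h4⟩, h5, h6, h7, h8⟩ := h
    exact ⟨⟨h1.symm, h3.symm, h2.symm, h4.symm⟩, h5.symm, h7.symm, h6.symm, h8.symm⟩
  have hhaf : ∀ x ∈ Finset.univ.filter
      (fun x : Fin (2 * t) → Fin 10 × Fin 10 => ∀ p, cntX x p = D p),
      (cnt A2 (fun h : HE (2 * t) => x h.1) : ℝ) * Q ≤ R := by
    intro x hx
    rw [Finset.mem_filter] at hx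
    have h1 := hafB A2 hsymm t x z hz0
    have h2 : (fun a => 3 * cntX x a) = fun a => 3 * D a := by funext a; rw [hx.2 a]
    rw [h2] at h1
    have h3 : ∏ a, z a ^ (3 * cntX x a) = ∏ a, w a ^ (2 * D a) :=
      Finset.prod_congr rfl fun a _ => by rw [hx.2 a, hz3 a]
    rw [h3] at h1
    rw [hQ, hR, ← mul_assoc]
    exact h1
  have hsumR : (∑ x ∈ Finset.univ.filter
      (fun x : Fin (2 * t) → Fin 10 × Fin 10 => ∀ p, cntX x p = D p),
      (cnt A2 (fun h : HE (2 * t) => x h.1) : ℝ)) * Q ≤ (6 * t + 1 : ℝ) ^ 100 * R * Q := by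
    have hR0 : 0 ≤ R := by
      rw [hR]
      refine mul_nonneg (by unfold dfac; exact Nat.cast_nonneg _) (pow_nonneg ?_ _)
      refine Finset.sum_nonneg fun a _ => Finset.sum_nonneg fun b _ => ?_
      split_ifs
      · exact mul_nonneg (hz0 a) (hz0 b)
      · exact le_rfl
    calc _ = ∑ x ∈ Finset.univ.filter
          (fun x : Fin (2 * t) → Fin 10 × Fin 10 => ∀ p, cntX x p = D p),
          (cnt A2 (fun h : HE (2 * t) => x h.1) : ℝ) * Q := by rw [Finset.sum_mul]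
      _ ≤ ∑ x ∈ Finset.univ.filter
          (fun x : Fin (2 * t) → Fin 10 × Fin 10 => ∀ p, cntX x p = D p), R :=
          Finset.sum_le_sum hhaf
      _ = M * R := by
          rw [Finset.sum_const, nsmul_eq_mul, card_counts D hD, hM]
      _ ≤ ((6 * t + 1 : ℝ) ^ 100 * Q) * R := mul_le_mul_of_nonneg_right hmode hR0
      _ = _ := by ring
  have hfin := le_of_mul_le_mul_right hsumR hQ0
  refine hfin.trans (le_of_eq ?_)
  have hzF : ∀ p : Fin 10 × Fin 10, z p = (100:ℝ) ^ (-(2 / 3) : ℝ) * F p.1 p.2 := by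
    intro p
    rw [hz, hF]
    simp only
    rw [show D (p.1, p.2) = D p from rfl]
    rw [show (D p : ℝ) / (2 * t) = w p by rw [hw]]
    rw [Real.mul_rpow (by norm_num) (hw0 p), ← mul_assoc, ← Real.rpow_add (by norm_num)]
    norm_num
  have hS : (∑ a : Fin 10 × Fin 10, ∑ b : Fin 10 × Fin 10, if A2 a b then z a * z b else 0) =
      900 * ((100:ℝ) ^ (-(2 / 3) : ℝ)) ^ 2 * quad F := by
    rw [show 900 * ((100:ℝ) ^ (-(2 / 3) : ℝ)) ^ 2 * quad F =
      ((100:ℝ) ^ (-(2 / 3) : ℝ)) ^ 2 * (900 * quad F) by ring, ← FarD_quad F, Finset.mul_sum]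
    refine Finset.sum_congr rfl fun a _ => ?_
    rw [Finset.mul_sum]
    refine Finset.sum_congr rfl fun b _ => ?_
    split_ifs
    · rw [hzF a, hzF b]; ring
    · ring
  have hconst : (900 * ((100:ℝ) ^ (-(2 / 3) : ℝ)) ^ 2) ^ 3 = (27 / 10) ^ 2 := by
    have h1 : (((100:ℝ) ^ (-(2 / 3) : ℝ)) ^ 2) ^ 3 = (100:ℝ) ^ (-4 : ℝ) := by
      rw [← pow_mul, ← Real.rpow_natCast, ← Real.rpow_mul (by norm_num)]
      norm_num
    rw [mul_pow, h1, Real.rpow_neg (by norm_num)]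
    have h2 : (100:ℝ) ^ (4:ℝ) = 100 ^ 4 := by exact_mod_cast Real.rpow_natCast (100:ℝ) 4
    rw [h2]
    norm_num
  rw [hR, hS, mul_pow, pow_mul _ 3 t, hconst]
  unfold B
  rw [← pow_mul, ← pow_mul, mul_comm t 2]
  ring

end Pool.Agent.PET
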