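import Pool.Agent.PET.Comp
import Pool.Agent.PET.FarD
/-!
# Far : pairs of balanced colourings with a far overlap matrix are negligible

Group the sum by the counts `D` of `x` (`∑ D = 2t`): at most `(2t+1)^{100}` values of `D`.  If both margins of `x` are `δ'`-near uniform and `x` is not `δ`-near, then `π = D/(2t)` satisfies the hypotheses of
`comp` (`∑_b cntX x (a,b) = cntX (fst ∘ x) a`), so `quad ≤ 1 - c`.  By `farD` the total is `≤ (2t+1)^{100}(6t+1)^{100}(1-c)^{3t} dfac(6t) (B t)²` (`quad ≥ 0`), and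
`(2t+1)^{100}(6t+1)^{100}(1-c)^{3t} → 0`.
-/
set_option autoImplicit false
open scoped BigOperators Classical
open Filter MeasureTheory
noncomputable section
namespace Pool.Agent.PET

namespace FarAux

theorem dfac_pos (q : ℕ) : 0 < dfac q := by
  unfold dfac
  exact_mod_cast Nat.doubleFactorial_pos _

theorem B_pos (t : ℕ) : 0 < B t := by
  unfold B
  positivity

theorem sum_snd {m : ℕ} {Y Z : Type} [Fintype Z] (x : Fin m → Y × Z) (a : Y) :
    ∑ b, cntX x (a, b) = cntX (fun v => (x v).1) a := by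
  unfold cntX
  have h := Finset.card_eq_sum_card_fiberwise (f := fun v => (x v).2) (t := Finset.univ)
    (s := Finset.univ.filter (fun v => (x v).1 = a)) (fun _ _ => Finset.mem_univ _)
  refine Eq.trans ?_ h.symm
  refine Finset.sum_congr rfl (fun b _ => ?_)
  congr 1
  ext v
  simp only [Finset.mem_filter, Finset.mem_univ, true_and, Prod.ext_iff]

theorem sum_fst {m : ℕ} {Y Z : Type} [Fintype Y] (x : Fin m → Y × Z) (b : Z) :
    ∑ a, cntX x (a, b) = cntX (fun v => (x v).2) b := by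
  unfold cntX
  have h := Finset.card_eq_sum_card_fiberwise (f := fun v => (x v).1) (t := Finset.univ)
    (s := Finset.univ.filter (fun v => (x v).2 = b)) (fun _ _ => Finset.mem_univ _)
  refine Eq.trans ?_ h.symm
  refine Finset.sum_congr rfl (fun a _ => ?_)
  congr 1
  ext v
  simp only [Finset.mem_filter, Finset.mem_univ, true_and, Prod.ext_iff]
  exact and_comm

theorem sum_all {m : ℕ} {Y : Type} [Fintype Y] (x : Fin m → Y) : ∑ p, cntX x p = m := by
  unfold cntX
  have := Finset.card_eq_sum_card_fiberwise (f := x) (t := Finset.univ)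
    (s := (Finset.univ : Finset (Fin m))) (fun _ _ => Finset.mem_univ _)
  rw [Finset.card_univ, Fintype.card_fin] at this
  exact this.symm

theorem sum4_nonneg {Y Z : Type} [Fintype Y] [Fintype Z] (P : Y → Finset Y) (Q : Z → Finset Z)
    (F : Y → Z → ℝ) (hF : ∀ a b, 0 ≤ F a b) :
    0 ≤ ∑ a, ∑ b, ∑ a' ∈ P a, ∑ b' ∈ Q b, F a b * F a' b' := by
  apply Finset.sum_nonneg
  intro a _
  apply Finset.sum_nonneg
  intro b _
  apply Finset.sum_nonneg
  intro a' _
  apply Finset.sum_nonneg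
  intro b' _
  exact mul_nonneg (hF _ _) (hF _ _)

theorem quad_nonneg (F : Fin 10 → Fin 10 → ℝ) (hF : ∀ a b, 0 ≤ F a b) : 0 ≤ quad F := by
  unfold quad
  exact div_nonneg (sum4_nonneg _ _ F hF) (by norm_num)

theorem card_T {Y : Type} [Fintype Y] (n : ℕ) :
    ((Fintype.piFinset (fun _ : Y => Finset.range (n + 1))).card : ℝ) =
      (n + 1 : ℝ) ^ (Fintype.card Y) := by
  rw [Fintype.card_piFinset, Finset.prod_const, Finset.card_range, Finset.card_univ]
  push_cast
  rfl

theorem card_Y : Fintype.card (Fin 10 × Fin 10) = 100 := by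
  rw [Fintype.card_prod, Fintype.card_fin]

theorem sum_prod {Y Z : Type} [Fintype Y] [Fintype Z] (D : Y × Z → ℕ) (h : ℝ) (m : ℕ)
    (hm : ∑ p, D p = m) (hh : h = m) (hp : 0 < h) :
    ∑ a, ∑ b, (D (a, b) : ℝ) / h = 1 := by
  simp only [← Finset.sum_div]
  rw [div_eq_one_iff_eq hp.ne', ← Fintype.sum_prod_type (fun p : Y × Z => (D p : ℝ)), hh, ← hm]
  push_cast
  rfl

theorem maps {m : ℕ} {Y : Type} [Fintype Y] (x : Fin m → Y) :
    (fun p => cntX x p) ∈ Fintype.piFinset (fun _ : Y => Finset.range (m + 1)) := by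
  rw [Fintype.mem_piFinset]
  intro p
  rw [Finset.mem_range, Nat.lt_succ_iff]
  unfold cntX
  refine (Finset.card_le_univ _).trans ?_
  rw [Fintype.card_fin]

theorem group {m : ℕ} {Y : Type} [Fintype Y] (S : Finset (Fin m → Y)) (g : (Fin m → Y) → ℝ)
    (hg : ∀ x, 0 ≤ g x) (M : ℝ)
    (h : ∀ x ∈ S, ∑ y ∈ Finset.univ.filter (fun y : Fin m → Y => ∀ p, cntX y p = cntX x p), g y ≤ M)
    (hM : 0 ≤ M) :
    ∑ x ∈ S, g x ≤ (m + 1 : ℝ) ^ (Fintype.card Y) * M := by
  rw [← Finset.sum_fiberwise_of_maps_to (fun x (_ : x ∈ S) => maps x), ← card_T, ← nsmul_eq_mul,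
    ← Finset.sum_const]
  refine Finset.sum_le_sum (fun D _ => ?_)
  by_cases hex : ∃ x ∈ S, (fun p => cntX x p) = D
  · obtain ⟨x, hxS, hxD⟩ := hex
    refine le_trans ?_ (h x hxS)
    refine Finset.sum_le_sum_of_subset_of_nonneg ?_ (fun _ _ _ => hg _)
    intro y hy
    rw [Finset.mem_filter] at hy ⊢
    refine ⟨Finset.mem_univ _, fun p => ?_⟩
    rw [congrFun hy.2 p, ← hxD]
  · rw [Finset.sum_eq_zero]
    · exact hM
    · intro x hx
      rw [Finset.mem_filter] at hx
      exact absurd ⟨x, hx.1, hx.2⟩ hex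

theorem pow_bd (t : ℕ) (ht : 1 ≤ t) (k : ℕ) :
    (2 * t + 1 : ℝ) ^ k * (6 * t + 1 : ℝ) ^ k ≤ 21 ^ k * (t : ℝ) ^ (2 * k) := by
  have ht' : (1 : ℝ) ≤ t := by exact_mod_cast ht
  have h3 : (2 * t + 1 : ℝ) * (6 * t + 1) ≤ 21 * t ^ 2 := by nlinarith
  rw [← mul_pow, pow_mul, ← mul_pow]
  exact pow_le_pow_left₀ (by positivity) h3 k

theorem lim_gen (k : ℕ) (c : ℝ) (hc : 0 < c) (hc1 : c < 1) :
    Tendsto (fun t : ℕ => (2 * t + 1 : ℝ) ^ k * (6 * t + 1 : ℝ) ^ k * (1 - c) ^ (3 * t))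
      atTop (nhds 0) := by
  have h0 : (0 : ℝ) ≤ 1 - c := by linarith
  have h1 := tendsto_pow_const_mul_const_pow_of_abs_lt_one (2 * k) (r := (1 - c) ^ 3) (by
    rw [abs_of_nonneg (pow_nonneg h0 _)]
    exact pow_lt_one₀ h0 (by linarith) (by norm_num))
  have h2 := h1.const_mul ((21 : ℝ) ^ k)
  rw [mul_zero] at h2
  refine squeeze_zero' (Filter.Eventually.of_forall fun t => ?_) ?_ h2
  · exact mul_nonneg (by positivity) (pow_nonneg h0 _)
  · filter_upwards [Filter.eventually_ge_atTop 1] with t ht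
    calc _ ≤ 21 ^ k * (t : ℝ) ^ (2 * k) * (1 - c) ^ (3 * t) :=
          mul_le_mul_of_nonneg_right (pow_bd t ht k) (pow_nonneg h0 _)
      _ = _ := by rw [pow_mul (1 - c)]; ring

end FarAux

theorem far (δ : ℝ) (hδ : 0 < δ) :
    ∃ δ' : ℝ, 0 < δ' ∧ Tendsto (fun t : ℕ =>
      (∑ x ∈ Finset.univ.filter (fun x : Fin (2 * t) → Fin 10 × Fin 10 =>
          Near δ' (fun v => (x v).1) ∧ Near δ' (fun v => (x v).2) ∧ ¬ Near δ x),
        (cnt A2 (fun h : HE (2 * t) => x h.1) : ℝ)) / (dfac (6 * t) * (B t) ^ 2))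
      atTop (nhds 0) := by
  obtain ⟨δ', hδ', c, hc, hc1, hcomp⟩ := comp δ hδ
  refine ⟨δ', hδ', ?_⟩
  have hlim := FarAux.lim_gen 100 c hc hc1
  refine squeeze_zero' (Filter.Eventually.of_forall fun t => ?_) ?_ hlim
  · refine div_nonneg (Finset.sum_nonneg fun x _ => Nat.cast_nonneg _) ?_
    exact mul_nonneg (FarAux.dfac_pos _).le (sq_nonneg _)
  · filter_upwards [Filter.eventually_ge_atTop 1] with t ht
    have htp : 0 < t := ht
    have ht0 : (0 : ℝ) < t := by exact_mod_cast htp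
    have hden : 0 < dfac (6 * t) * (B t) ^ 2 := mul_pos (FarAux.dfac_pos _) (pow_pos (FarAux.B_pos t) 2)
    have h0 : (0 : ℝ) ≤ 1 - c := by linarith
    have h61 : (0 : ℝ) ≤ 6 * t + 1 := by positivity
    rw [div_le_iff₀ hden]
    have hM0 : 0 ≤ (6 * t + 1 : ℝ) ^ 100 * dfac (6 * t) * (B t) ^ 2 * (1 - c) ^ (3 * t) :=
      mul_nonneg (mul_nonneg (mul_nonneg (pow_nonneg h61 _) (FarAux.dfac_pos _).le) (sq_nonneg _))
        (pow_nonneg h0 _)
    refine (FarAux.group _ (fun x => (cnt A2 (fun h : HE (2 * t) => x h.1) : ℝ))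
      (fun _ => Nat.cast_nonneg _) _ ?_ hM0).trans (le_of_eq ?_)
    · intro x hxS
      have hsum : ∑ p, cntX x p = 2 * t := FarAux.sum_all x
      have hfar := farD t htp (fun p => cntX x p) hsum
      refine hfar.trans ?_
      rw [Finset.mem_filter] at hxS
      obtain ⟨-, hn1, hn2, hn3⟩ := hxS
      have h2t : (0 : ℝ) < 2 * t := by positivity
      have hpi0 : ∀ a b : Fin 10, 0 ≤ (cntX x (a, b) : ℝ) / (2 * t) :=
        fun a b => div_nonneg (Nat.cast_nonneg _) h2t.le
      have hA : ∑ a, ∑ b, (cntX x (a, b) : ℝ) / (2 * t) = 1 :=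
        FarAux.sum_prod (fun p => cntX x p) (2 * t : ℝ) (2 * t) hsum (by push_cast; rfl) h2t
      have hB : ∀ a, |∑ b, (cntX x (a, b) : ℝ) / (2 * t) - 1 / 10| ≤ δ' := by
        intro a
        rw [← Finset.sum_div]
        have h5 : ∑ b : Fin 10, (cntX x (a, b) : ℝ) = (cntX (fun v => (x v).1) a : ℝ) := by
          rw [← FarAux.sum_snd x a, Nat.cast_sum]
        rw [h5]
        have h6 := hn1 a
        rw [Fintype.card_fin] at h6
        push_cast at h6
        exact h6
      have hC : ∀ b, |∑ a, (cntX x (a, b) : ℝ) / (2 * t) - 1 / 10| ≤ δ' := by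
        intro b
        rw [← Finset.sum_div]
        have h5 : ∑ a : Fin 10, (cntX x (a, b) : ℝ) = (cntX (fun v => (x v).2) b : ℝ) := by
          rw [← FarAux.sum_fst x b, Nat.cast_sum]
        rw [h5]
        have h6 := hn2 b
        rw [Fintype.card_fin] at h6
        push_cast at h6
        exact h6
      have hE : ∃ a b, δ < |(cntX x (a, b) : ℝ) / (2 * t) - 1 / 100| := by
        unfold Near at hn3
        rw [not_forall] at hn3
        obtain ⟨⟨a, b⟩, hab⟩ := hn3
        refine ⟨a, b, ?_⟩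
        rw [not_le, FarAux.card_Y] at hab
        push_cast at hab
        exact hab
      have hq := hcomp (fun a b => (cntX x (a, b) : ℝ) / (2 * t)) hpi0 hA hB hC hE
      have hq0 : 0 ≤ quad (fun a b => (100 * ((cntX x (a, b) : ℝ) / (2 * t))) ^ (2 / 3 : ℝ)) :=
        FarAux.quad_nonneg _ (fun a b => Real.rpow_nonneg (mul_nonneg (by norm_num) (hpi0 a b)) _)
      refine mul_le_mul_of_nonneg_left (pow_le_pow_left₀ hq0 hq _) ?_
      exact mul_nonneg (mul_nonneg (pow_nonneg h61 _) (FarAux.dfac_pos _).le) (sq_nonneg _)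
    · rw [FarAux.card_Y]
      push_cast
      generalize dfac (6 * t) = d1
      generalize B t = d2
      generalize (1 - c) ^ (3 * t) = d3
      generalize (2 * (t : ℝ) + 1) ^ 100 = d4
      generalize (6 * (t : ℝ) + 1) ^ 100 = d5
      ring

end Pool.Agent.PET
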