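import Pool.Agent.PET.CubS
/-!
# Fiber : each cubic graph comes from exactly `6^n` configurations

For a cubic graph `G` on `Fin n`, the perfect matchings `f` with `Simp f` and `Gr f = G` correspond bijectively to the families of bijections `β_v : Fin 3 ≃ G.neighborSet v`:
`β_v i = (f (v,i)).1` (`nbr_of_simp`); conversely given `β` put `f (v,i) = (w, β_w⁻¹ v)` with `w = β_v i`: this is a fixed point free involution, simple, with `Gr f = G`; and `f` is determined by `β`
(the partner of `(v,i)` is the unique half-edge at `w = β_v i` whose partner is at `v`).  There are `3! = 6` bijections for each `v` (`Fintype.card_equiv`), in total `6^n`.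
-/
set_option autoImplicit false
open scoped BigOperators Classical
open Filter MeasureTheory
noncomputable section
namespace Pool.Agent.PET

theorem Fiber_count {n : ℕ} (S : Set (Fin n)) (hS : S.ncard = 3) :
    (Finset.univ.filter (fun q : Fin 3 → Fin n => Function.Injective q ∧ Set.range q = S)).card = 6 := by
  have hcard : Fintype.card S = 3 := by
    rw [← Nat.card_eq_fintype_card]; exact hS
  let e0 : Fin 3 ≃ S := (Fintype.equivFinOfCardEq hcard).symm
  have h6 : Fintype.card (Fin 3 ≃ S) = 6 := by
    rw [Fintype.card_equiv e0]; simp [Nat.factorial]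
  rw [← h6, ← Finset.card_univ]
  symm
  refine Finset.card_bij (fun (e : Fin 3 ≃ S) _ => fun i => (e i : Fin n)) ?_ ?_ ?_
  · intro e _
    rw [Finset.mem_filter]
    refine ⟨Finset.mem_univ _, ?_, ?_⟩
    · intro i j hij
      exact e.injective (Subtype.ext hij)
    · ext x
      constructor
      · rintro ⟨i, rfl⟩
        exact (e i).2
      · intro hx
        refine ⟨e.symm ⟨x, hx⟩, ?_⟩
        simp
  · intro e _ e' _ h
    ext i
    exact congrArg Fin.val (congrFun h i)
  · intro q hq
    rw [Finset.mem_filter] at hq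
    obtain ⟨-, hinj, hr⟩ := hq
    have hm : ∀ i, q i ∈ S := fun i => hr ▸ Set.mem_range_self i
    refine ⟨Equiv.ofBijective (fun i => (⟨q i, hm i⟩ : S)) ⟨?_, ?_⟩, Finset.mem_univ _, ?_⟩
    · intro i j hij
      exact hinj (congrArg Subtype.val hij)
    · rintro ⟨x, hx⟩
      rw [← hr] at hx
      obtain ⟨i, rfl⟩ := hx
      exact ⟨i, rfl⟩
    · rfl

theorem fiber {n : ℕ} (G : SimpleGraph (Fin n)) (hG : IsCubic G) :
    ((PMs (HE n)).filter (fun f => Simp f ∧ Gr f = G)).card = 6 ^ n := by
  have hpi : (Fintype.piFinset (fun v : Fin n => Finset.univ.filter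
      (fun q : Fin 3 → Fin n => Function.Injective q ∧ Set.range q = G.neighborSet v))).card = 6 ^ n := by
    rw [Fintype.card_piFinset]
    rw [Finset.prod_congr rfl (fun v _ => Fiber_count (G.neighborSet v) (hG v))]
    simp
  rw [← hpi]
  refine Finset.card_bij (fun (f : HE n → HE n) _ => fun v i => (f (v, i)).1) ?_ ?_ ?_
  · intro f hf
    rw [Finset.mem_filter, mem_PMs] at hf
    obtain ⟨hpm, hs, hgr⟩ := hf
    rw [Fintype.mem_piFinset]
    intro v
    rw [Finset.mem_filter]
    obtain ⟨h1, h2⟩ := nbr_of_simp f hpm hs v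
    rw [hgr] at h1
    exact ⟨Finset.mem_univ _, h2, h1.symm⟩
  · intro f hf f' hf' h
    rw [Finset.mem_filter, mem_PMs] at hf hf'
    obtain ⟨hpm, hs, hgr⟩ := hf
    obtain ⟨hpm', hs', hgr'⟩ := hf'
    have hp : ∀ v i, (f (v, i)).1 = (f' (v, i)).1 := fun v i => congrFun (congrFun h v) i
    funext x
    obtain ⟨v, i⟩ := x
    refine Prod.ext (hp v i) ?_
    obtain ⟨-, hinj⟩ := nbr_of_simp f hpm hs (f (v, i)).1
    apply hinj
    show (f ((f (v, i)).1, (f (v, i)).2)).1 = (f ((f (v, i)).1, (f' (v, i)).2)).1
    rw [hp (f (v, i)).1 (f' (v, i)).2, hp v i]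
    have e1 : f ((f' (v, i)).1, (f (v, i)).2) = (v, i) := by
      rw [← hp v i]; exact hpm.1 (v, i)
    have e2 : f' ((f' (v, i)).1, (f' (v, i)).2) = (v, i) := hpm'.1 (v, i)
    rw [e1, e2]
  · intro p hp
    rw [Fintype.mem_piFinset] at hp
    have hinj : ∀ v, Function.Injective (p v) := fun v => ((Finset.mem_filter.1 (hp v)).2).1
    have hr : ∀ v, Set.range (p v) = G.neighborSet v := fun v => ((Finset.mem_filter.1 (hp v)).2).2
    have hadj : ∀ v i, G.Adj v (p v i) := by
      intro v i
      have : p v i ∈ G.neighborSet v := by rw [← hr v]; exact Set.mem_range_self i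
      exact this
    have hback : ∀ v i, ∃ j, p (p v i) j = v := by
      intro v i
      have h1 : v ∈ G.neighborSet (p v i) := (hadj v i).symm
      rw [← hr (p v i)] at h1
      exact h1
    choose b hb using hback
    let f : HE n → HE n := fun x => (p x.1 x.2, b x.1 x.2)
    have hf1 : ∀ v i, f (v, i) = (p v i, b v i) := fun v i => rfl
    have hinvol : ∀ x, f (f x) = x := by
      rintro ⟨v, i⟩
      show (p (p v i) (b v i), b (p v i) (b v i)) = (v, i)
      refine Prod.ext (hb v i) ?_
      show b (p v i) (b v i) = i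
      apply hinj v
      have h2 := hb (p v i) (b v i)
      rw [hb v i] at h2
      exact h2
    have hpm : IsPM f := by
      refine ⟨hinvol, ?_⟩
      rintro ⟨v, i⟩ h
      rw [hf1] at h
      have h1 : p v i = v := congrArg Prod.fst h
      exact (hadj v i).ne h1.symm
    have hs : Simp f := by
      rintro ⟨v, i⟩
      refine ⟨?_, ?_⟩
      · rw [hf1]
        exact (hadj v i).ne.symm
      · rintro ⟨v', i'⟩ h1 h2 h3
        have h1' : v' = v := h1
        subst h1'
        rw [hf1, hf1] at h3
        have h4 : i' = i := hinj v' h3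
        exact h2 (by rw [h4])
    have hgr : Gr f = G := by
      ext u v
      constructor
      · rintro ⟨-, ⟨i, j, h⟩ | ⟨i, j, h⟩⟩
        · rw [hf1] at h
          have h1 : p u i = v := congrArg Prod.fst h
          rw [← h1]; exact hadj u i
        · rw [hf1] at h
          have h1 : p v i = u := congrArg Prod.fst h
          rw [← h1]; exact (hadj v i).symm
      · intro h
        refine ⟨h.ne, Or.inl ?_⟩
        have h1 : v ∈ G.neighborSet u := h
        rw [← hr u] at h1
        obtain ⟨i, hi⟩ := h1
        exact ⟨i, b u i, by rw [hf1, hi]⟩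
    refine ⟨f, ?_, ?_⟩
    · rw [Finset.mem_filter, mem_PMs]
      exact ⟨hpm, hs, hgr⟩
    · rfl

end Pool.Agent.PET
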