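import Pool.Agent.PET.LemH
/-!
# GIn : the main inequality for doubly balanced overlap matrices

`D ≥ 0` with all row and column averages `1`, `F = D^{2/3}`, `m = Av_a Av_b F`.  Write `q_{ij} = ‖(P_i ⊗ P_j) F‖²` (normalised,
`i` acts on the first index, `P_0` = average).  Since `Ad/3 = P0 + (1/3) P1 - (2/3) P2`
`quad F = q00 + (1/3)(q01+q10) - (2/3)(q02+q20) + (1/9) q11 + (4/9) q22 - (2/9)(q12+q21)`
`≤ Av_a [ (Av F_a)² + (1/6) Av (P1 F_a)² + (4/9) Av (P2 F_a)² ] + (1/6) q01`,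
where `F_a` is the row `b ↦ F a b` (because `Av_a (Av F_a)² = q00+q10+q20`, `Av_a Av(P_j F_a)² = q0j+q1j+q2j`).
`lemH` times `12/13`: `(12/13)(Av F_a)² + (1/6)Av(P1 F_a)² + (4/9)Av(P2 F_a)² ≤ (12/13)(Av F_a^{3/2})^{4/3} = 12/13`, so the bracket is
`≤ 1 - (1/13)(1 - m_a²)`, `m_a = Av F_a`.  Here `0.464 ≤ m_a ≤ 1`: `D ≤ 10` gives `D^{2/3} ≥ D 10^{-1/3}`, and `m_a ≤ 1` by Jensen
(or `t^{2/3} ≤ 1 + (2/3)(t-1)`).  So the bracket is `≤ 1 - (1.464/13)(1-m_a)`.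
`q01 = Av (P1 Fbar)²`, `Fbar_b = Av_a F a b = 1 - φ_b`, `0 ≤ φ_b ≤ 0.536`, `q01 ≤ Av φ² ≤ 0.536 Av φ = 0.536 (1 - m)`.
Total `≤ 1 - (1.464/13 - 0.536/6)(1-m) ≤ 1 - (1/50)(1-m)` (`0.11261 - 0.08934 = 0.02327`).
-/
set_option autoImplicit false
open scoped BigOperators
noncomputable section
namespace Pool.Agent.PET

theorem GIn_sum_mul (g h : Fin 10 → ℝ) : ∑ x, g x * h x =
    10 * (Av g * Av h) + ∑ x, P1 g x * P1 h x + ∑ x, P2 g x * P2 h x := by
  have e : ∀ x, g x * h x = Av h * g x + g x * P1 h x + g x * P2 h x := by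
    intro x
    conv_lhs => rw [decomp h x]
    ring
  have q : ∑ x, g x = 10 * Av g := by rw [Av]; ring
  have r1 := P1_symm g h
  have r2 := P2_symm g h
  simp only [e, Finset.sum_add_distrib, ← Finset.mul_sum]
  rw [r1, r2, q]
  ring

theorem GIn_pair (g h : Fin 10 → ℝ) : ∑ x, g x * Ad h x =
    30 * (Av g * Av h) + ∑ x, P1 g x * P1 h x - 2 * ∑ x, P2 g x * P2 h x := by
  have e : ∀ x, g x * Ad h x = g x * h x - 3 * (g x * P2 h x) + (2 * Av h) * g x := by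
    intro x
    rw [P2, Av]
    ring
  have q : ∑ x, g x = 10 * Av g := by rw [Av]; ring
  have r2 := P2_symm g h
  have r3 := GIn_sum_mul g h
  simp only [e, Finset.sum_add_distrib, Finset.sum_sub_distrib, ← Finset.mul_sum]
  rw [r2, r3, q]
  ring

theorem GIn_L1 (x : Fin 10 → ℝ) : ∑ a, x a * Ad x a ≤ 3 * ∑ a, x a ^ 2 := by
  have h1 := GIn_pair x x
  have h2 := GIn_sum_mul x x
  have h3 : ∑ a, x a ^ 2 = ∑ a, x a * x a := Finset.sum_congr rfl fun a _ => sq _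
  have h4 : 0 ≤ ∑ a, P1 x a * P1 x a := Finset.sum_nonneg fun a _ => mul_self_nonneg _
  have h5 : 0 ≤ ∑ a, P2 x a * P2 x a := Finset.sum_nonneg fun a _ => mul_self_nonneg _
  rw [h3, h1, h2]
  linarith

theorem GIn_L2 (x : Fin 10 → ℝ) :
    ∑ a, x a * Ad x a ≤ (3 / 2) * ∑ a, x a ^ 2 + (3 / 20) * (∑ a, x a) ^ 2 := by
  have h1 := GIn_pair x x
  have h2 := GIn_sum_mul x x
  have h3 : ∑ a, x a ^ 2 = ∑ a, x a * x a := Finset.sum_congr rfl fun a _ => sq _
  have h4 : 0 ≤ ∑ a, P1 x a * P1 x a := Finset.sum_nonneg fun a _ => mul_self_nonneg _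
  have h5 : 0 ≤ ∑ a, P2 x a * P2 x a := Finset.sum_nonneg fun a _ => mul_self_nonneg _
  have h6 : ∑ a, x a = 10 * Av x := by rw [Av]; ring
  rw [h3, h1, h2, h6]
  nlinarith

theorem GIn_L3 (x : Fin 10 → ℝ) : -2 * ∑ a, x a * Ad x a ≤ 4 * ∑ a, x a ^ 2 := by
  have h1 := GIn_pair x x
  have h2 := GIn_sum_mul x x
  have h3 : ∑ a, x a ^ 2 = ∑ a, x a * x a := Finset.sum_congr rfl fun a _ => sq _
  have h4 : 0 ≤ ∑ a, P1 x a * P1 x a := Finset.sum_nonneg fun a _ => mul_self_nonneg _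
  have h5 : 0 ≤ ∑ a, P2 x a * P2 x a := Finset.sum_nonneg fun a _ => mul_self_nonneg _
  rw [h3, h1, h2]
  nlinarith [mul_self_nonneg (Av x)]

theorem GIn_swap (U : Fin 10 → Fin 10 → ℝ) :
    ∑ a, ∑ a' ∈ Finset.univ.filter (fun a' => padj a a'), ∑ b, U a b * U a' b =
      ∑ b, ∑ a, U a b * Ad (fun a => U a b) a := by
  rw [Finset.sum_comm]
  apply Finset.sum_congr rfl
  intro a _
  rw [Finset.sum_comm]
  apply Finset.sum_congr rfl
  intro b _
  rw [Ad, Finset.mul_sum]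

theorem GIn_quad (F : Fin 10 → Fin 10 → ℝ) : 900 * quad F =
    30 * ∑ a, Av (F a) * Ad (fun a => Av (F a)) a +
      ∑ b, ∑ a, P1 (F a) b * Ad (fun a => P1 (F a) b) a -
      2 * ∑ b, ∑ a, P2 (F a) b * Ad (fun a => P2 (F a) b) a := by
  have e1 : 900 * quad F =
      ∑ a, ∑ a' ∈ Finset.univ.filter (fun a' => padj a a'), ∑ b, F a b * Ad (F a') b := by
    rw [quad, mul_div_cancel₀ _ (by norm_num)]
    apply Finset.sum_congr rfl
    intro a _
    rw [Finset.sum_comm]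
    apply Finset.sum_congr rfl
    intro a' _
    apply Finset.sum_congr rfl
    intro b _
    rw [Ad, Finset.mul_sum]
  rw [e1, ← GIn_swap (fun a b => P1 (F a) b), ← GIn_swap (fun a b => P2 (F a) b)]
  have e2 : ∀ a, Av (F a) * Ad (fun a => Av (F a)) a =
      ∑ a' ∈ Finset.univ.filter (fun a' => padj a a'), Av (F a) * Av (F a') := by
    intro a
    rw [Ad, Finset.mul_sum]
  simp only [e2, GIn_pair, Finset.sum_add_distrib, Finset.sum_sub_distrib, ← Finset.mul_sum]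

theorem GIn_pt (t : ℝ) (h0 : 0 ≤ t) (h10 : t ≤ 10) :
    0.464 * t ≤ t ^ (2 / 3 : ℝ) ∧ t ^ (2 / 3 : ℝ) ≤ (1 + 2 * t) / 3 := by
  set s := t ^ (1 / 3 : ℝ) with hs
  have hs0 : 0 ≤ s := Real.rpow_nonneg h0 _
  have hs3 : s ^ 3 = t := by
    rw [hs, ← Real.rpow_natCast, ← Real.rpow_mul h0]
    norm_num
  have hs2 : t ^ (2 / 3 : ℝ) = s ^ 2 := by
    rw [hs, ← Real.rpow_natCast, ← Real.rpow_mul h0]
    norm_num
  rw [hs2]
  have hs1 : s ≤ 2.155 := by
    by_contra hc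
    push Not at hc
    have : (2.155 : ℝ) ^ 3 < s ^ 3 := pow_lt_pow_left₀ hc (by norm_num) (by norm_num)
    rw [hs3] at this
    norm_num at this
    linarith
  constructor
  · rw [← hs3]
    nlinarith [mul_nonneg (sq_nonneg s) (sub_nonneg.2 hs1)]
  · rw [← hs3]
    nlinarith [mul_nonneg (sq_nonneg (s - 1)) (by linarith : 0 ≤ 2 * s + 1)]

theorem GIn_P1_sum (F : Fin 10 → Fin 10 → ℝ) (b : Fin 10) :
    ∑ a, P1 (F a) b = P1 (fun b => ∑ a, F a b) b := by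
  simp only [P1, Ad]
  rw [← Finset.sum_div]
  congr 1
  rw [Finset.sum_sub_distrib, Finset.sum_add_distrib, ← Finset.mul_sum, ← Finset.mul_sum]
  congr 1
  · congr 1
    congr 1
    rw [Finset.sum_comm]
  · rw [Finset.sum_comm]

theorem GIn_P1_smul (k : ℝ) (g : Fin 10 → ℝ) (b : Fin 10) :
    P1 (fun b => k * g b) b = k * P1 g b := by
  have := P1_lin k 0 g g
  have h2 : (fun x => k * g x + 0 * g x) = fun x => k * g x := by
    funext x
    ring
  rw [h2] at this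
  rw [this]
  ring

theorem gin (D : Fin 10 → Fin 10 → ℝ) (hD : ∀ a b, 0 ≤ D a b) (hr : ∀ a, ∑ b, D a b = 10)
    (hc : ∀ b, ∑ a, D a b = 10) :
    quad (fun a b => (D a b) ^ (2 / 3 : ℝ))
      ≤ 1 - (1 / 50) * (1 - (∑ a, ∑ b, (D a b) ^ (2 / 3 : ℝ)) / 100) := by
  set F : Fin 10 → Fin 10 → ℝ := fun a b => (D a b) ^ (2 / 3 : ℝ) with hF
  set m : ℝ := (∑ a, ∑ b, F a b) / 100 with hm
  change quad F ≤ 1 - (1 / 50) * (1 - m)
  have hD10 : ∀ a b, D a b ≤ 10 := by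
    intro a b
    rw [← hr a]
    exact Finset.single_le_sum (f := fun b => D a b) (fun b _ => hD a b) (Finset.mem_univ b)
  have hF0 : ∀ a b, 0 ≤ F a b := fun a b => Real.rpow_nonneg (hD a b) _
  have hFl : ∀ a b, 0.464 * D a b ≤ F a b := fun a b => (GIn_pt _ (hD a b) (hD10 a b)).1
  have hFu : ∀ a b, F a b ≤ (1 + 2 * D a b) / 3 := fun a b => (GIn_pt _ (hD a b) (hD10 a b)).2
  -- row averages
  have hul : ∀ a, 0.464 ≤ Av (F a) := by
    intro a
    rw [Av, le_div_iff₀ (by norm_num)]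
    calc (0.464 : ℝ) * 10 = ∑ b, 0.464 * D a b := by rw [← Finset.mul_sum, hr a]
      _ ≤ ∑ b, F a b := Finset.sum_le_sum fun b _ => hFl a b
  have huu : ∀ a, Av (F a) ≤ 1 := by
    intro a
    rw [Av, div_le_iff₀ (by norm_num)]
    calc ∑ b, F a b ≤ ∑ b, (1 + 2 * D a b) / 3 := Finset.sum_le_sum fun b _ => hFu a b
      _ = 1 * 10 := by
        rw [← Finset.sum_div, Finset.sum_add_distrib, ← Finset.mul_sum, hr a]
        simp
        norm_num
  -- the bracket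
  have hrow : ∀ a, (Av (F a)) ^ 2 + (1 / 6) * Av (fun b => P1 (F a) b ^ 2) +
      (4 / 9) * Av (fun b => P2 (F a) b ^ 2) ≤ 1 - (1.464 / 13) * (1 - Av (F a)) := by
    intro a
    have h1 := lemH (F a) (hF0 a)
    have h2 : Av (fun b => F a b ^ (3 / 2 : ℝ)) = 1 := by
      have : ∀ b, F a b ^ (3 / 2 : ℝ) = D a b := by
        intro b
        simp only [hF]
        rw [← Real.rpow_mul (hD a b)]
        norm_num
      rw [Av]
      simp only [this]
      rw [hr a]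
      norm_num
    rw [h2, Real.one_rpow] at h1
    nlinarith [hul a, huu a, mul_nonneg (sub_nonneg.2 (huu a)) (sub_nonneg.2 (hul a))]
  -- column averages
  set Fb : Fin 10 → ℝ := fun b => (1 / 10) * ∑ a, F a b with hFb
  have hbl : ∀ b, 0.464 ≤ Fb b := by
    intro b
    have : (0.464 : ℝ) * 10 ≤ ∑ a, F a b := by
      calc (0.464 : ℝ) * 10 = ∑ a, 0.464 * D a b := by rw [← Finset.mul_sum, hc b]
        _ ≤ ∑ a, F a b := Finset.sum_le_sum fun a _ => hFl a b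
    simp only [hFb]
    linarith
  have hbu : ∀ b, Fb b ≤ 1 := by
    intro b
    have : ∑ a, F a b ≤ 10 := by
      calc ∑ a, F a b ≤ ∑ a, (1 + 2 * D a b) / 3 := Finset.sum_le_sum fun a _ => hFu a b
        _ = 10 := by
          rw [← Finset.sum_div, Finset.sum_add_distrib, ← Finset.mul_sum, hc b]
          simp
          norm_num
    simp only [hFb]
    linarith
  have hmb : Av Fb = m := by
    rw [Av, hm, hFb, ← Finset.mul_sum, Finset.sum_comm]
    ring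
  have hmr : ∑ a, Av (F a) = 10 * m := by
    rw [hm]
    simp only [Av]
    rw [← Finset.sum_div]
    ring
  have hm1 : m ≤ 1 := by
    have : ∑ a : Fin 10, Av (F a) ≤ ∑ a : Fin 10, (1 : ℝ) := Finset.sum_le_sum fun a _ => huu a
    rw [hmr] at this
    simp at this
    linarith
  have hq01 : Av (fun b => P1 Fb b ^ 2) ≤ 0.536 * (1 - m) := by
    have h1 := parseval Fb
    have h2 : 0 ≤ Av (fun x => P2 Fb x ^ 2) :=
      div_nonneg (Finset.sum_nonneg fun x _ => sq_nonneg _) (by norm_num)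
    have h3 : Av (fun x => Fb x ^ 2) ≤ 1.464 * m - 0.464 := by
      have : ∀ b, Fb b ^ 2 ≤ 1.464 * Fb b - 0.464 := by
        intro b
        nlinarith [mul_nonneg (sub_nonneg.2 (hbu b)) (sub_nonneg.2 (hbl b))]
      have h4 : ∑ b, Fb b ^ 2 ≤ ∑ b, (1.464 * Fb b - 0.464) := Finset.sum_le_sum fun b _ => this b
      have h5 : ∑ b, Fb b = 10 * m := by rw [← hmb, Av]; ring
      rw [Finset.sum_sub_distrib, ← Finset.mul_sum, h5] at h4
      simp at h4
      rw [Av, div_le_iff₀ (by norm_num)]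
      linarith
    rw [hmb] at h1
    nlinarith [mul_nonneg (sub_nonneg.2 hm1) (sub_nonneg.2 hm1)]
  -- the quadratic form
  have hquad := GIn_quad F
  have k1 := GIn_L1 (fun a => Av (F a))
  have k2 : ∑ b, ∑ a, P1 (F a) b * Ad (fun a => P1 (F a) b) a ≤
      (3 / 2) * ∑ a, ∑ b, P1 (F a) b ^ 2 + (3 / 20) * ∑ b, (10 * P1 Fb b) ^ 2 := by
    rw [Finset.sum_comm (f := fun a b => P1 (F a) b ^ 2), Finset.mul_sum, Finset.mul_sum,
      ← Finset.sum_add_distrib]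
    apply Finset.sum_le_sum
    intro b _
    have := GIn_L2 (fun a => P1 (F a) b)
    have e : ∑ a, P1 (F a) b = 10 * P1 Fb b := by
      rw [GIn_P1_sum, hFb, GIn_P1_smul]
      ring
    rw [e] at this
    exact this
  have k3 : -2 * ∑ b, ∑ a, P2 (F a) b * Ad (fun a => P2 (F a) b) a ≤
      4 * ∑ a, ∑ b, P2 (F a) b ^ 2 := by
    rw [Finset.sum_comm (f := fun a b => P2 (F a) b ^ 2), Finset.mul_sum, Finset.mul_sum]
    apply Finset.sum_le_sum
    intro b _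
    exact GIn_L3 (fun a => P2 (F a) b)
  have k4 : ∑ a, ((Av (F a)) ^ 2 + (1 / 6) * Av (fun b => P1 (F a) b ^ 2) +
      (4 / 9) * Av (fun b => P2 (F a) b ^ 2)) ≤ ∑ a, (1 - (1.464 / 13) * (1 - Av (F a))) :=
    Finset.sum_le_sum fun a _ => hrow a
  have k5 : ∑ a, (1 - (1.464 / 13) * (1 - Av (F a))) = 10 - (1.464 / 13) * (10 - 10 * m) := by
    rw [Finset.sum_sub_distrib, ← Finset.mul_sum, Finset.sum_sub_distrib, hmr]
    simp
  have k6 : ∑ a, ((Av (F a)) ^ 2 + (1 / 6) * Av (fun b => P1 (F a) b ^ 2) +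
      (4 / 9) * Av (fun b => P2 (F a) b ^ 2)) = ∑ a, (Av (F a)) ^ 2 +
      (1 / 60) * ∑ a, ∑ b, P1 (F a) b ^ 2 + (4 / 90) * ∑ a, ∑ b, P2 (F a) b ^ 2 := by
    rw [Finset.sum_add_distrib, Finset.sum_add_distrib, ← Finset.mul_sum, ← Finset.mul_sum]
    simp only [Av]
    rw [← Finset.sum_div, ← Finset.sum_div]
    ring
  have k7 : ∑ b, (10 * P1 Fb b) ^ 2 = 1000 * Av (fun b => P1 Fb b ^ 2) := by
    rw [Av]
    simp only [mul_pow]
    rw [← Finset.mul_sum]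
    ring
  rw [k7] at k2
  rw [k5, k6] at k4
  nlinarith [hquad, k1, k2, k3, k4, hq01, hm1]

end Pool.Agent.PET
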