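import Pool.Agent.PET.Defs

/-!
# GSq : sums of the field over `X`

From orthogonality (`S.orth`, `S.phi0`): with `N = card X`
* `∑_x G k x = N k_{i0}` (`s_{i0} = 1` since `lam i0 = 1`);
* `∑_x (G k x)² = N ∑_i lam_i k_i²` (`s_i² = lam_i`);
* `s_i` is real for `lam_i ≥ 0` and purely imaginary for `lam_i < 0`, so
  `Re G k x = ∑_{lam_i ≥ 0} √lam_i phi_i(x) k_i`, `Im G k x = ∑_{lam_i < 0} √(-lam_i) phi_i(x) k_i`, hence
  `∑_x ‖G‖² = N ∑_i |lam_i| k_i²`, `∑_x (Re G)² = N ∑_i max(lam_i, 0) k_i²`;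
* `‖G k x‖ ≤ C √(∑ k_i²)` for a constant `C` depending on `S` (Cauchy-Schwarz, `X` finite).
* parity `G (-k) = - G k`, homogeneity `G (c k) = c G k`, additivity.
-/

set_option autoImplicit false
open scoped BigOperators Classical
open Filter MeasureTheory
noncomputable section
namespace Pool.Agent.PET

variable {X I : Type} [Fintype X] [Fintype I]

theorem G_add (S : Spec X I) (k l : I → ℝ) (x : X) : S.G (k + l) x = S.G k x + S.G l x := by
  unfold Spec.G
  rw [← Finset.sum_add_distrib]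
  apply Finset.sum_congr rfl
  intro i _
  rw [Pi.add_apply]
  push_cast
  ring

theorem G_smul (S : Spec X I) (c : ℝ) (k : I → ℝ) (x : X) : S.G (c • k) x = (c : ℂ) * S.G k x := by
  unfold Spec.G
  rw [Finset.mul_sum]
  apply Finset.sum_congr rfl
  intro i _
  rw [Pi.smul_apply, smul_eq_mul]
  push_cast
  ring

theorem G_neg (S : Spec X I) (k : I → ℝ) (x : X) : S.G (-k) x = - S.G k x := by
  have h := G_smul S (-1) k x
  rw [neg_one_smul] at h
  rw [h]
  push_cast
  ring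

theorem GSq_s0 (S : Spec X I) : S.s S.i0 = 1 := by
  unfold Spec.s
  rw [S.lam0, if_pos zero_le_one, Real.sqrt_one]
  norm_num

/-- a constant shift of the `i0` coordinate -/
theorem G_kk (S : Spec X I) (q : ℝ) (u : I → ℝ) (x : X) :
    S.G (S.kk q u) x = (Real.sqrt q : ℂ) + S.G u x := by
  have h1 : S.kk q u = (fun i => if i = S.i0 then Real.sqrt q else 0) + u := by
    funext i
    unfold Spec.kk
    rw [Pi.add_apply]
    by_cases hi : i = S.i0
    · rw [if_pos hi, if_pos hi, add_comm]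
    · rw [if_neg hi, if_neg hi, zero_add]
  rw [h1, G_add]
  congr 1
  unfold Spec.G
  rw [Finset.sum_eq_single S.i0]
  · rw [GSq_s0, S.phi0]
    simp
  · intro i _ hi
    simp [hi]
  · intro h
    exact absurd (Finset.mem_univ _) h

theorem GSq_sumphi (S : Spec X I) (i : I) :
    ∑ x, S.phi i x = if i = S.i0 then (Fintype.card X : ℝ) else 0 := by
  rw [← S.orth i S.i0]
  apply Finset.sum_congr rfl
  intro x _
  rw [S.phi0, mul_one]

theorem sum_G (S : Spec X I) (k : I → ℝ) :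
    ∑ x, S.G k x = (Fintype.card X : ℂ) * (k S.i0 : ℂ) := by
  unfold Spec.G
  rw [Finset.sum_comm]
  have h1 : ∀ i, ∑ x, S.s i * (S.phi i x : ℂ) * (k i : ℂ) =
      if i = S.i0 then (Fintype.card X : ℂ) * (k S.i0 : ℂ) else 0 := by
    intro i
    have h2 : ∑ x, S.s i * (S.phi i x : ℂ) * (k i : ℂ) =
        S.s i * (k i : ℂ) * ((∑ x, S.phi i x : ℝ) : ℂ) := by
      push_cast
      rw [Finset.mul_sum]
      apply Finset.sum_congr rfl
      intro x _
      ring
    rw [h2, GSq_sumphi]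
    by_cases hi : i = S.i0
    · rw [if_pos hi, if_pos hi, hi, GSq_s0]
      push_cast
      ring
    · rw [if_neg hi, if_neg hi]
      push_cast
      ring
  rw [Finset.sum_congr rfl (fun i _ => h1 i)]
  simp

/-- Parseval -/
theorem GSq_pars (S : Spec X I) (c : I → ℝ) :
    ∑ x, (∑ i, c i * S.phi i x) ^ 2 = (Fintype.card X : ℝ) * ∑ i, c i ^ 2 := by
  have h1 : ∀ x, (∑ i, c i * S.phi i x) ^ 2 =
      ∑ i, ∑ j, c i * c j * (S.phi i x * S.phi j x) := by
    intro x
    rw [sq, Finset.sum_mul_sum]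
    apply Finset.sum_congr rfl
    intro i _
    apply Finset.sum_congr rfl
    intro j _
    ring
  rw [Finset.sum_congr rfl (fun x _ => h1 x), Finset.sum_comm, Finset.mul_sum]
  apply Finset.sum_congr rfl
  intro i _
  rw [Finset.sum_comm]
  have h2 : ∀ j, ∑ x, c i * c j * (S.phi i x * S.phi j x) =
      if i = j then c i * c j * (Fintype.card X : ℝ) else 0 := by
    intro j
    rw [← Finset.mul_sum, S.orth]
    split_ifs <;> simp
  rw [Finset.sum_congr rfl (fun j _ => h2 j)]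
  simp
  ring

theorem GSq_parsC (S : Spec X I) (c : I → ℂ) :
    ∑ x, (∑ i, c i * (S.phi i x : ℂ)) ^ 2 = (Fintype.card X : ℂ) * ∑ i, c i ^ 2 := by
  have h1 : ∀ x, (∑ i, c i * (S.phi i x : ℂ)) ^ 2 =
      ∑ i, ∑ j, c i * c j * ((S.phi i x : ℂ) * (S.phi j x : ℂ)) := by
    intro x
    rw [sq, Finset.sum_mul_sum]
    apply Finset.sum_congr rfl
    intro i _
    apply Finset.sum_congr rfl
    intro j _
    ring
  rw [Finset.sum_congr rfl (fun x _ => h1 x), Finset.sum_comm, Finset.mul_sum]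
  apply Finset.sum_congr rfl
  intro i _
  rw [Finset.sum_comm]
  have h2 : ∀ j, ∑ x, c i * c j * ((S.phi i x : ℂ) * (S.phi j x : ℂ)) =
      if i = j then c i * c j * (Fintype.card X : ℂ) else 0 := by
    intro j
    have h3 : ∑ x, ((S.phi i x : ℂ) * (S.phi j x : ℂ)) =
        ((∑ x, S.phi i x * S.phi j x : ℝ) : ℂ) := by push_cast; rfl
    rw [← Finset.mul_sum, h3, S.orth]
    split_ifs <;> simp
  rw [Finset.sum_congr rfl (fun j _ => h2 j)]
  simp
  ring

theorem GSq_s_sq (S : Spec X I) (i : I) : S.s i ^ 2 = ((S.lam i : ℝ) : ℂ) := by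
  unfold Spec.s
  split_ifs with h
  · rw [← Complex.ofReal_pow, Real.sq_sqrt h]
  · rw [mul_pow, Complex.I_sq, ← Complex.ofReal_pow, Real.sq_sqrt (by linarith)]
    push_cast
    ring

theorem sum_Gsq (S : Spec X I) (k : I → ℝ) :
    ∑ x, (S.G k x) ^ 2 = (Fintype.card X : ℂ) * ((∑ i, S.lam i * k i ^ 2 : ℝ) : ℂ) := by
  have h := GSq_parsC S (fun i => S.s i * (k i : ℂ))
  have h1 : ∀ x, S.G k x = ∑ i, S.s i * (k i : ℂ) * (S.phi i x : ℂ) := by
    intro x
    unfold Spec.G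
    apply Finset.sum_congr rfl
    intro i _
    ring
  rw [Finset.sum_congr rfl (fun x _ => by rw [h1 x]), h]
  congr 1
  push_cast
  apply Finset.sum_congr rfl
  intro i _
  rw [mul_pow, GSq_s_sq]

theorem GSq_re (S : Spec X I) (k : I → ℝ) (x : X) :
    (S.G k x).re = ∑ i, ((S.s i).re * k i) * S.phi i x := by
  unfold Spec.G
  rw [Complex.re_sum]
  apply Finset.sum_congr rfl
  intro i _
  simp [Complex.mul_re, Complex.mul_im]
  ring

theorem GSq_im (S : Spec X I) (k : I → ℝ) (x : X) :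
    (S.G k x).im = ∑ i, ((S.s i).im * k i) * S.phi i x := by
  unfold Spec.G
  rw [Complex.im_sum]
  apply Finset.sum_congr rfl
  intro i _
  simp [Complex.mul_re, Complex.mul_im]
  ring

theorem GSq_sre (S : Spec X I) (i : I) : (S.s i).re ^ 2 = max (S.lam i) 0 := by
  unfold Spec.s
  split_ifs with h
  · rw [Complex.ofReal_re, Real.sq_sqrt h, max_eq_left h]
  · rw [max_eq_right (by linarith)]
    simp

theorem GSq_sim (S : Spec X I) (i : I) : (S.s i).im ^ 2 = max (-S.lam i) 0 := by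
  unfold Spec.s
  split_ifs with h
  · rw [max_eq_right (by linarith)]
    simp
  · rw [max_eq_left (by linarith)]
    simp only [Complex.mul_im, Complex.I_re, Complex.I_im, Complex.ofReal_re, Complex.ofReal_im]
    rw [zero_mul, one_mul, zero_add, Real.sq_sqrt (by linarith)]

theorem sum_resq (S : Spec X I) (k : I → ℝ) :
    ∑ x, (S.G k x).re ^ 2 = (Fintype.card X : ℝ) * ∑ i, max (S.lam i) 0 * k i ^ 2 := by
  rw [Finset.sum_congr rfl (fun x _ => by rw [GSq_re S k x]),
    GSq_pars S (fun i => (S.s i).re * k i)]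
  congr 1
  apply Finset.sum_congr rfl
  intro i _
  rw [mul_pow, GSq_sre]

theorem GSq_imsq (S : Spec X I) (k : I → ℝ) :
    ∑ x, (S.G k x).im ^ 2 = (Fintype.card X : ℝ) * ∑ i, max (-S.lam i) 0 * k i ^ 2 := by
  rw [Finset.sum_congr rfl (fun x _ => by rw [GSq_im S k x]),
    GSq_pars S (fun i => (S.s i).im * k i)]
  congr 1
  apply Finset.sum_congr rfl
  intro i _
  rw [mul_pow, GSq_sim]

theorem sum_normsq (S : Spec X I) (k : I → ℝ) :
    ∑ x, ‖S.G k x‖ ^ 2 = (Fintype.card X : ℝ) * ∑ i, |S.lam i| * k i ^ 2 := by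
  have h1 : ∀ x, ‖S.G k x‖ ^ 2 = (S.G k x).re ^ 2 + (S.G k x).im ^ 2 := by
    intro x
    rw [Complex.sq_norm, Complex.normSq_apply]
    ring
  rw [Finset.sum_congr rfl (fun x _ => h1 x), Finset.sum_add_distrib, sum_resq, GSq_imsq,
    ← mul_add, ← Finset.sum_add_distrib]
  congr 1
  apply Finset.sum_congr rfl
  intro i _
  rw [← add_mul]
  congr 1
  rcases le_total 0 (S.lam i) with h | h
  · rw [max_eq_left h, max_eq_right (by linarith), abs_of_nonneg h, add_zero]
  · rw [max_eq_right h, max_eq_left (by linarith), abs_of_nonpos h, zero_add]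

theorem norm_G_le (S : Spec X I) :
    ∃ C : ℝ, 0 < C ∧ ∀ (k : I → ℝ) (x : X), ‖S.G k x‖ ≤ C * Real.sqrt (∑ i, k i ^ 2) := by
  refine ⟨Real.sqrt (Fintype.card X) + 1, by positivity, fun k x => ?_⟩
  have h1 : ‖S.G k x‖ ^ 2 ≤ ∑ x, ‖S.G k x‖ ^ 2 :=
    Finset.single_le_sum (f := fun x => ‖S.G k x‖ ^ 2) (fun x _ => by positivity)
      (Finset.mem_univ x)
  rw [sum_normsq] at h1
  have h2 : ∑ i, |S.lam i| * k i ^ 2 ≤ ∑ i, k i ^ 2 := by
    apply Finset.sum_le_sum
    intro i _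
    have h3 : |S.lam i| ≤ 1 := by
      by_cases hi : i = S.i0
      · rw [hi, S.lam0]
        simp
      · exact (S.labs i hi).trans (by norm_num)
    have h4 := sq_nonneg (k i)
    nlinarith
  have h5 : ‖S.G k x‖ ^ 2 ≤ (Fintype.card X : ℝ) * ∑ i, k i ^ 2 :=
    h1.trans (mul_le_mul_of_nonneg_left h2 (Nat.cast_nonneg _))
  have h6 := Real.sqrt_le_sqrt h5
  rw [Real.sqrt_sq (norm_nonneg _), Real.sqrt_mul (Nat.cast_nonneg _)] at h6
  have h7 := Real.sqrt_nonneg (∑ i, k i ^ 2)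
  nlinarith

theorem sum_sq_split (S : Spec X I) (k : I → ℝ) : ∑ i, k i ^ 2 = k S.i0 ^ 2 + S.rr k := by
  unfold Spec.rr
  rw [Finset.add_sum_erase Finset.univ (fun i => k i ^ 2) (Finset.mem_univ S.i0)]

end Pool.Agent.PET
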