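import Pool.Agent.PET.Defs
/-!
# GamDen : density of `gam I` and a Gaussian integral

`gam_integral`: `gaussianReal 0 1 = volume.withDensity (gaussianPDF 0 1)`, the product measure has the product density
`(2π)^{-|I|/2} e^{-∑ k_i²/2}` w.r.t. Lebesgue measure (`MeasureTheory.Measure.pi` of `withDensity`, or prove
equality of measures on boxes; note `volume` on `I → ℝ` is the product measure).
`gauss_prod`: product of one-dimensional Gaussian integrals (`integral_gaussian`, `integral_fintype_prod_eq_prod`).
-/
set_option autoImplicit false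
open scoped BigOperators Classical
open Filter MeasureTheory
noncomputable section
namespace Pool.Agent.PET

variable {I : Type} [Fintype I]

namespace GamDen

theorem gam_eq : gam I = (volume : Measure (I → ℝ)).withDensity
    (fun k => ENNReal.ofReal (∏ i, ProbabilityTheory.gaussianPDFReal 0 1 (k i))) := by
  unfold gam
  refine Measure.pi_eq (fun s hs => ?_)
  have hms : MeasurableSet (Set.pi Set.univ s) := MeasurableSet.univ_pi hs
  rw [withDensity_apply _ hms]
  have hres : (volume : Measure (I → ℝ)).restrict (Set.pi Set.univ s) =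
      Measure.pi (fun i => (volume : Measure ℝ).restrict (s i)) := by
    rw [volume_pi, Measure.restrict_pi_pi]
  have hint : ∀ i : I, Integrable (ProbabilityTheory.gaussianPDFReal 0 1)
      ((volume : Measure ℝ).restrict (s i)) :=
    fun i => (ProbabilityTheory.integrable_gaussianPDFReal 0 1).restrict
  rw [hres, ← ofReal_integral_eq_lintegral_ofReal
    (Integrable.fintype_prod (f := fun _ : I => ProbabilityTheory.gaussianPDFReal 0 1) hint)
    (Filter.Eventually.of_forall fun k => Finset.prod_nonneg fun i _ =>
      ProbabilityTheory.gaussianPDFReal_nonneg 0 1 _)]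
  rw [integral_fintype_prod_eq_prod (fun _ : I => ProbabilityTheory.gaussianPDFReal 0 1)]
  rw [ENNReal.ofReal_prod_of_nonneg (fun i _ => integral_nonneg fun x =>
    ProbabilityTheory.gaussianPDFReal_nonneg 0 1 x)]
  refine Finset.prod_congr rfl (fun i _ => ?_)
  rw [ProbabilityTheory.gaussianReal_apply_eq_integral 0 one_ne_zero]

end GamDen

theorem gam_integral (f : (I → ℝ) → ℂ) :
    ∫ k, f k ∂(gam I) = ∫ k : I → ℝ,
      (((1 / Real.sqrt (2 * Real.pi)) ^ (Fintype.card I) * Real.exp (-(∑ i, k i ^ 2) / 2) : ℝ) : ℂ) * f k := by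
  rw [GamDen.gam_eq, integral_withDensity_eq_integral_toReal_smul]
  · refine integral_congr_ae (Filter.Eventually.of_forall fun k => ?_)
    simp only
    rw [ENNReal.toReal_ofReal (Finset.prod_nonneg fun i _ =>
      ProbabilityTheory.gaussianPDFReal_nonneg 0 1 _)]
    have h1 : ∏ i, ProbabilityTheory.gaussianPDFReal 0 1 (k i) =
        (1 / Real.sqrt (2 * Real.pi)) ^ (Fintype.card I) * Real.exp (-(∑ i, k i ^ 2) / 2) := by
      simp only [ProbabilityTheory.gaussianPDFReal, sub_zero, NNReal.coe_one, mul_one]
      rw [Finset.prod_mul_distrib, Finset.prod_const, ← Real.exp_sum, Finset.card_univ, one_div]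
      congr 2
      rw [neg_div, Finset.sum_div, ← Finset.sum_neg_distrib]
      exact Finset.sum_congr rfl fun i _ => by rw [neg_div]
    rw [h1]
    rfl
  · refine Measurable.ennreal_ofReal ?_
    refine Finset.measurable_prod _ (fun i _ => ?_)
    exact (ProbabilityTheory.measurable_gaussianPDFReal 0 1).comp (measurable_pi_apply i)
  · exact Filter.Eventually.of_forall fun k => ENNReal.ofReal_lt_top

theorem gauss_integrable (b : I → ℝ) (hb : ∀ i, 0 < b i) :
    Integrable (fun k : I → ℝ => Real.exp (-(∑ i, b i * k i ^ 2))) := by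
  have h1 : (fun k : I → ℝ => Real.exp (-(∑ i, b i * k i ^ 2))) =
      fun k : I → ℝ => ∏ i, (fun (i : I) (y : ℝ) => Real.exp (-b i * y ^ 2)) i (k i) := by
    funext k
    rw [← Real.exp_sum, ← Finset.sum_neg_distrib]
    congr 1
    exact Finset.sum_congr rfl fun i _ => by ring
  rw [h1]
  exact Integrable.fintype_prod (f := fun (i : I) (y : ℝ) => Real.exp (-b i * y ^ 2))
    (fun i => integrable_exp_neg_mul_sq (hb i))

theorem gauss_prod (b : I → ℝ) (hb : ∀ i, 0 < b i) :
    ∫ k : I → ℝ, Real.exp (-(∑ i, b i * k i ^ 2)) = ∏ i, Real.sqrt (Real.pi / b i) := by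
  have h1 : (fun k : I → ℝ => Real.exp (-(∑ i, b i * k i ^ 2))) =
      fun k : I → ℝ => ∏ i, (fun (i : I) (y : ℝ) => Real.exp (-b i * y ^ 2)) i (k i) := by
    funext k
    rw [← Real.exp_sum, ← Finset.sum_neg_distrib]
    congr 1
    exact Finset.sum_congr rfl fun i _ => by ring
  rw [h1, integral_fintype_prod_volume_eq_prod (fun (i : I) (y : ℝ) => Real.exp (-b i * y ^ 2))]
  exact Finset.prod_congr rfl fun i _ => integral_gaussian (b i)

end Pool.Agent.PET
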