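import Pool.Agent.PET.CDefs
/-!
# GirthA : a graph cycle gives a canonical configuration cycle

`f` a simple perfect matching, `w` a cycle of `Gr f` (`Walk.IsCycle`), length `j` (`≥ 3`, `IsCycle.three_le_length`).  Let `v_s = w.getVert s`, `s < j`: distinct, consecutive ones adjacent
(also `v_{j-1} ~ v_0`).  For each `s` there are half-edges with `f (v_s, out_s) = (v_{s+1}, in_{s+1})` (adjacency in `Gr f`, `f` an involution), unique by
simplicity; `in_s ≠ out_s` since `v_{s-1} ≠ v_{s+1}` (`j ≥ 3`): the partner of `(v_s,in_s)` is at `v_{s-1}`, that of `(v_s,out_s)` at `v_{s+1}`.  Rotate such that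
the root is the smallest vertex; if `in > out` at the root, reverse the cycle (`t ↦ -t`, exchange `in` and `out`).  The result is `Canon` and `Real'`.
-/
set_option autoImplicit false
open scoped BigOperators Classical
open Filter MeasureTheory
noncomputable section
namespace Pool.Agent.PET

/-- the half-edge at `a` whose partner is at `b` -/
def GirthA_O {n : ℕ} (f : HE n → HE n) (a b : Fin n) : Fin 3 :=
  if h : ∃ i, (f (a, i)).1 = b then Classical.choose h else 0

theorem GirthA_O_spec {n : ℕ} (f : HE n → HE n) (hf : IsPM f) (a b : Fin n)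
    (h : (Gr f).Adj a b) : (f (a, GirthA_O f a b)).1 = b := by
  have h1 : ∃ i, (f (a, i)).1 = b := by
    obtain ⟨_, h2 | h2⟩ := h
    · obtain ⟨i, j, h3⟩ := h2
      exact ⟨i, by rw [h3]⟩
    · obtain ⟨i, j, h3⟩ := h2
      refine ⟨j, ?_⟩
      rw [← h3, hf.1]
  unfold GirthA_O
  rw [dif_pos h1]
  exact Classical.choose_spec h1

theorem GirthA_O_pair {n : ℕ} (f : HE n → HE n) (hf : IsPM f) (hs : Simp f) (a b : Fin n)
    (h : (Gr f).Adj a b) : f (a, GirthA_O f a b) = (b, GirthA_O f b a) := by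
  have h1 := GirthA_O_spec f hf a b h
  have h2 := GirthA_O_spec f hf b a h.symm
  by_contra hne
  have h3 := (hs (f (a, GirthA_O f a b))).2 (b, GirthA_O f b a) h1.symm (fun h => hne h.symm)
  rw [hf.1, h2] at h3
  exact h3 rfl

theorem GirthA_core {n : ℕ} (f : HE n → HE n) (hf : IsPM f) (hs : Simp f) (j : ℕ) (hj : 3 ≤ j)
    (V : ℤ → Fin n) (hper : ∀ s s', V s = V s' ↔ (j : ℤ) ∣ s - s')
    (hadj : ∀ s, (Gr f).Adj (V s) (V (s + 1))) (hmin : ∀ s, V 0 ≤ V s)
    (hlt : GirthA_O f (V 0) (V (-1)) < GirthA_O f (V 0) (V 1)) : 0 < XC j f := by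
  let c : Cyc j n := fun t => (V (t.1 : ℤ), GirthA_O f (V (t.1 : ℤ)) (V ((t.1 : ℤ) - 1)),
    GirthA_O f (V (t.1 : ℤ)) (V ((t.1 : ℤ) + 1)))
  unfold XC
  rw [Finset.card_pos]
  refine ⟨c, ?_⟩
  rw [Finset.mem_filter]
  refine ⟨Finset.mem_univ _, ⟨⟨?_, ?_⟩, ?_, ?_⟩, ?_⟩
  · intro t t' htt
    have h1 : V (t.1 : ℤ) = V (t'.1 : ℤ) := htt
    rw [hper] at h1
    have h2 := t.2
    have h3 := t'.2
    have h4 : (t.1 : ℤ) - t'.1 = 0 := by
      apply Int.eq_zero_of_abs_lt_dvd h1
      rw [abs_lt]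
      constructor <;> omega
    exact Fin.ext (by omega)
  · intro t hne
    have hne' : GirthA_O f (V (t.1 : ℤ)) (V ((t.1 : ℤ) - 1)) =
      GirthA_O f (V (t.1 : ℤ)) (V ((t.1 : ℤ) + 1)) := hne
    have h1 := GirthA_O_spec f hf _ _ (hadj (t.1 : ℤ))
    have h2 := hadj ((t.1 : ℤ) - 1)
    rw [sub_add_cancel] at h2
    have h3 := GirthA_O_spec f hf _ _ h2.symm
    rw [hne', h1, hper] at h3
    have h4 : ((t.1 : ℤ) + 1) - ((t.1 : ℤ) - 1) = 2 := by ring
    rw [h4] at h3
    have h5 := Int.le_of_dvd (by norm_num) h3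
    omega
  · intro s t hs0
    show V (s.1 : ℤ) ≤ V (t.1 : ℤ)
    rw [hs0]
    exact hmin _
  · intro s hs0
    show GirthA_O f (V (s.1 : ℤ)) (V ((s.1 : ℤ) - 1)) < GirthA_O f (V (s.1 : ℤ)) (V ((s.1 : ℤ) + 1))
    rw [hs0]
    simpa using hlt
  · intro t
    show f (V (t.1 : ℤ), GirthA_O f (V (t.1 : ℤ)) (V ((t.1 : ℤ) + 1))) =
      (V ((nxt t).1 : ℤ), GirthA_O f (V ((nxt t).1 : ℤ)) (V (((nxt t).1 : ℤ) - 1)))
    rw [GirthA_O_pair f hf hs _ _ (hadj _)]
    have h1 : ((nxt t).1 : ℤ) = ((t.1 : ℤ) + 1) % (j : ℤ) := by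
      unfold nxt
      push_cast
      rfl
    have h2 : V ((nxt t).1 : ℤ) = V ((t.1 : ℤ) + 1) := by
      rw [hper, h1]
      have h3 := Int.emod_add_mul_ediv ((t.1 : ℤ) + 1) (j : ℤ)
      exact ⟨-(((t.1 : ℤ) + 1) / (j : ℤ)), by linarith⟩
    have h3 : V (((nxt t).1 : ℤ) - 1) = V (t.1 : ℤ) := by
      rw [hper, h1]
      have h3 := Int.emod_add_mul_ediv ((t.1 : ℤ) + 1) (j : ℤ)
      exact ⟨-(((t.1 : ℤ) + 1) / (j : ℤ)), by linarith⟩
    rw [h2, h3]

theorem GirthA_core2 {n : ℕ} (f : HE n → HE n) (hf : IsPM f) (hs : Simp f) (j : ℕ) (hj : 3 ≤ j)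
    (V : ℤ → Fin n) (hper : ∀ s s', V s = V s' ↔ (j : ℤ) ∣ s - s')
    (hadj : ∀ s, (Gr f).Adj (V s) (V (s + 1))) : 0 < XC j f := by
  obtain ⟨s0, hs0⟩ : ∃ s0, ∀ s, V s0 ≤ V s := by
    obtain ⟨a, ⟨s0, rfl⟩, hmin⟩ := (Set.toFinite (Set.range V)).exists_minimal (Set.range_nonempty V)
    refine ⟨s0, fun s => ?_⟩
    rcases le_total (V s0) (V s) with h | h
    · exact h
    · exact hmin ⟨s, rfl⟩ h
  have hne : GirthA_O f (V s0) (V (s0 - 1)) ≠ GirthA_O f (V s0) (V (s0 + 1)) := by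
    intro hne
    have h1 := GirthA_O_spec f hf _ _ (hadj s0)
    have h2 := hadj (s0 - 1)
    rw [sub_add_cancel] at h2
    have h3 := GirthA_O_spec f hf _ _ h2.symm
    rw [hne, h1, hper] at h3
    have h4 : (s0 + 1) - (s0 - 1) = 2 := by ring
    rw [h4] at h3
    have h5 := Int.le_of_dvd (by norm_num) h3
    omega
  rcases lt_or_gt_of_ne hne with h | h
  · refine GirthA_core f hf hs j hj (fun s => V (s0 + s)) ?_ ?_ ?_ ?_
    · intro s s'
      rw [hper]
      ring_nf
    · intro s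
      have := hadj (s0 + s)
      rwa [add_assoc] at this
    · intro s
      simpa using hs0 (s0 + s)
    · simpa [sub_eq_add_neg] using h
  · refine GirthA_core f hf hs j hj (fun s => V (s0 - s)) ?_ ?_ ?_ ?_
    · intro s s'
      rw [hper]
      have : (s0 - s) - (s0 - s') = -(s - s') := by ring
      rw [this, dvd_neg]
    · intro s
      have := hadj (s0 - (s + 1))
      have h2 : s0 - (s + 1) + 1 = s0 - s := by ring
      rw [h2] at this
      exact this.symm
    · intro s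
      simpa using hs0 (s0 - s)
    · simpa using h

theorem girthA {n : ℕ} (f : HE n → HE n) (hf : IsPM f) (hs : Simp f) (v : Fin n)
    (w : (Gr f).Walk v v) (hw : w.IsCycle) : 0 < XC w.length f := by
  have hj := hw.three_le_length
  have hinj := hw.getVert_injOn'
  set j := w.length with hjdef
  have hj0 : (j : ℤ) ≠ 0 := by omega
  have hjp : (0 : ℤ) < j := by omega
  have hidx : ∀ s : ℤ, ((s % (j : ℤ)).toNat : ℤ) = s % (j : ℤ) :=
    fun s => Int.toNat_of_nonneg (Int.emod_nonneg s hj0)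
  have hlt : ∀ s : ℤ, (s % (j : ℤ)).toNat < j := by
    intro s
    have h1 := Int.emod_lt_of_pos s hjp
    have h2 := hidx s
    omega
  refine GirthA_core2 f hf hs j hj (fun s => w.getVert (s % (j : ℤ)).toNat) ?_ ?_
  · intro s s'
    constructor
    · intro h
      have h1 := hinj (x₁ := (s % (j : ℤ)).toNat) (x₂ := (s' % (j : ℤ)).toNat)
        (by have := hlt s; simp only [Set.mem_ofPred_eq]; omega)
        (by have := hlt s'; simp only [Set.mem_ofPred_eq]; omega) h
      have h2 := hidx s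
      have h3 := hidx s'
      rw [h1, h3] at h2
      exact Int.ModEq.dvd h2
    · intro h
      have h1 : s' % (j : ℤ) = s % (j : ℤ) := (Int.modEq_iff_dvd.2 h : s' ≡ s [ZMOD j])
      simp only [h1]
  · intro s
    have h0 := hlt s
    have h1 := w.adj_getVert_succ h0
    by_cases hlast : (s % (j : ℤ)).toNat + 1 = j
    · have h2 : (s + 1) % (j : ℤ) = 0 := by
        have h3 := Int.emod_add_mul_ediv s (j : ℤ)
        have h4 := hidx s
        apply Int.emod_eq_zero_of_dvd
        refine ⟨s / j + 1, ?_⟩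
        have h5 : ((s % (j : ℤ)).toNat : ℤ) + 1 = j := by exact_mod_cast hlast
        linarith
      rw [hlast, hjdef, SimpleGraph.Walk.getVert_length] at h1
      simp only [h2, Int.toNat_zero, SimpleGraph.Walk.getVert_zero]
      exact h1
    · have h2 : ((s + 1) % (j : ℤ)).toNat = (s % (j : ℤ)).toNat + 1 := by
        have h4 := hidx s
        have h5 := Int.emod_nonneg s hj0
        have h6 := hlt s
        have h7 : (s + 1) % (j : ℤ) = s % (j : ℤ) + 1 := by
          rw [Int.add_emod]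
          have h8 : (1 : ℤ) % (j : ℤ) = 1 := Int.emod_eq_of_lt (by norm_num) (by omega)
          rw [h8]
          exact Int.emod_eq_of_lt (by omega) (by omega)
        rw [h7]
        omega
      simp only [h2]
      exact h1

end Pool.Agent.PET
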