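import Pool.Agent.PET.CDefs
/-!
# GirthB : a canonical configuration cycle gives a graph cycle

A canonical `j`-cycle `c` (`j ≥ 3`) present in the simple perfect matching `f`: consecutive vertices are adjacent in `Gr f` (`(c t).1 ≠ (c (nxt t)).1`, distinct vertices, `j ≥ 2`), so there is a
closed walk `(c 0).1, (c 1).1, …, (c (j-1)).1, (c 0).1` of length `j` whose vertices other than the last are distinct: it is a cycle (`j ≥ 3`).
(E.g. build the path from `c 0` to `c (j-1)` and `Walk.cons`, `Walk.cons_isCycle_iff`/`IsPath.cons_isCycle`; the edge `(c (j-1)).1 (c 0).1` is not on the path since `j ≥ 3`.)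
-/
set_option autoImplicit false
open scoped BigOperators Classical
open Filter MeasureTheory
noncomputable section
namespace Pool.Agent.PET

theorem GirthB_walk {V : Type} (G : SimpleGraph V) (u : ℕ → V) (h : ∀ t, G.Adj (u t) (u (t + 1)))
    (m : ℕ) : ∀ a : ℕ, ∃ w : G.Walk (u a) (u (a + m)), w.length = m ∧
      w.support = (List.range (m + 1)).map (fun i => u (a + i)) ∧
      w.edges = (List.range m).map (fun i => s(u (a + i), u (a + i + 1))) := by
  induction m with
  | zero =>
    intro a
    refine ⟨SimpleGraph.Walk.nil, rfl, ?_, ?_⟩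
    · simp
    · simp
  | succ m ih =>
    intro a
    obtain ⟨w, h1, h2, h3⟩ := ih (a + 1)
    have e : a + 1 + m = a + (m + 1) := by omega
    refine ⟨SimpleGraph.Walk.cons (h a) (w.copy rfl (by rw [e])), ?_, ?_, ?_⟩
    · simp [h1]
    · rw [SimpleGraph.Walk.support_cons, SimpleGraph.Walk.support_copy, h2,
        List.range_succ_eq_map (n := m + 1), List.map_cons, List.map_map]
      congr 1
      apply List.map_congr_left
      intro i _
      show u (a + 1 + i) = u (a + (i + 1))
      congr 1
      omega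
    · rw [SimpleGraph.Walk.edges_cons, SimpleGraph.Walk.edges_copy, h3,
        List.range_succ_eq_map (n := m), List.map_cons, List.map_map]
      congr 1
      apply List.map_congr_left
      intro i _
      show s(u (a + 1 + i), u (a + 1 + i + 1)) = s(u (a + (i + 1)), u (a + (i + 1) + 1))
      have e1 : a + 1 + i = a + (i + 1) := by omega
      rw [e1]

theorem girthB {n : ℕ} (f : HE n → HE n) (hf : IsPM f) (j : ℕ) (hj : 3 ≤ j)
    (hx : 0 < XC j f) : ∃ (v : Fin n) (w : (Gr f).Walk v v), w.IsCycle ∧ w.length = j := by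
  unfold XC at hx
  obtain ⟨c, hc⟩ := Finset.card_pos.1 hx
  rw [Finset.mem_filter] at hc
  obtain ⟨-, ⟨⟨hinj, -⟩, -, -⟩, hreal⟩ := hc
  have hj0 : 0 < j := by omega
  let u : ℕ → Fin n := fun t => (c ⟨t % j, Nat.mod_lt _ hj0⟩).1
  have hu : ∀ a b : ℕ, u a = u b → a % j = b % j := by
    intro a b hab
    have := hinj hab
    simpa using this
  have hadj : ∀ t, (Gr f).Adj (u t) (u (t + 1)) := by
    intro t
    refine ⟨?_, Or.inl ?_⟩
    · intro h
      have h1 := hu _ _ h
      have h2 : j ∣ (t + 1) - t := (Nat.modEq_iff_dvd' (Nat.le_succ t)).1 h1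
      rw [Nat.add_sub_cancel_left] at h2
      have := Nat.le_of_dvd one_pos h2
      omega
    · have h1 := hreal ⟨t % j, Nat.mod_lt _ hj0⟩
      have h2 : nxt (⟨t % j, Nat.mod_lt _ hj0⟩ : Fin j) = ⟨(t + 1) % j, Nat.mod_lt _ hj0⟩ := by
        unfold nxt
        apply Fin.ext
        show (t % j + 1) % j = (t + 1) % j
        rw [Nat.mod_add_mod]
      rw [h2] at h1
      exact ⟨_, _, h1⟩
  obtain ⟨w, h1, h2, h3⟩ := GirthB_walk (Gr f) u hadj (j - 1) 1
  have hend : u (1 + (j - 1)) = u 0 := by
    have e : 1 + (j - 1) = j := by omega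
    rw [e]
    show (c ⟨j % j, _⟩).1 = (c ⟨0 % j, _⟩).1
    congr 2
    apply Fin.ext
    simp
  refine ⟨u 0, SimpleGraph.Walk.cons (hadj 0) (w.copy rfl hend), ?_, ?_⟩
  · rw [SimpleGraph.Walk.cons_isCycle_iff]
    constructor
    · rw [SimpleGraph.Walk.isPath_copy, SimpleGraph.Walk.isPath_def, h2]
      refine List.Nodup.map_on ?_ List.nodup_range
      intro a ha b hb hab
      rw [List.mem_range] at ha hb
      have h4 := hu _ _ hab
      by_contra hne
      rcases lt_or_gt_of_ne hne with hlt | hlt
      · have h5 : j ∣ (1 + b) - (1 + a) := (Nat.modEq_iff_dvd' (by omega)).1 h4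
        have := Nat.le_of_dvd (by omega) h5
        omega
      · have h5 : j ∣ (1 + a) - (1 + b) := (Nat.modEq_iff_dvd' (by omega)).1 h4.symm
        have := Nat.le_of_dvd (by omega) h5
        omega
    · rw [SimpleGraph.Walk.edges_copy, h3, List.mem_map]
      rintro ⟨i, hi, h4⟩
      rw [List.mem_range] at hi
      rw [Sym2.eq_iff] at h4
      rcases h4 with ⟨h5, -⟩ | ⟨h5, h6⟩
      · have h7 := hu _ _ h5
        rw [Nat.zero_mod, Nat.mod_eq_of_lt (by omega)] at h7
        omega
      · have h7 := hu _ _ h5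
        have h8 := hu _ _ h6
        rw [Nat.mod_eq_of_lt (by omega), Nat.mod_eq_of_lt (by omega)] at h7
        have hi0 : i = 0 := by omega
        subst hi0
        rw [Nat.zero_mod, Nat.mod_eq_of_lt (by omega)] at h8
        omega
  · rw [SimpleGraph.Walk.length_cons, SimpleGraph.Walk.length_copy, h1]
    omega

end Pool.Agent.PET
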