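import Pool.Agent.PET.GirthA
import Pool.Agent.PET.GirthB
/-!
# GirthX : girth of `Gr f` versus canonical cycles of the configuration

`SimpleGraph.le_egirth : n ≤ G.egirth ↔ ∀ a (w : G.Walk a a), w.IsCycle → n ≤ w.length`, `girthA`, `girthB`, `IsCycle.three_le_length`.
-/
set_option autoImplicit false
open scoped BigOperators Classical
open Filter MeasureTheory
noncomputable section
namespace Pool.Agent.PET

theorem girth_iff {n : ℕ} (f : HE n → HE n) (hf : IsPM f) (hs : Simp f) (g : ℕ) (hg : 3 ≤ g) :
    (∀ j, 3 ≤ j → j < g → XC j f = 0) ↔ (g : ℕ∞) ≤ (Gr f).egirth := by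
  rw [SimpleGraph.le_egirth]
  constructor
  · intro h a w hw
    by_contra hcon
    have hlt : w.length < g := by
      rw [not_le] at hcon
      exact_mod_cast hcon
    have h1 := girthA f hf hs a w hw
    have h2 := h w.length hw.three_le_length hlt
    omega
  · intro h j hj hjg
    by_contra hcon
    obtain ⟨v, w, hw, hl⟩ := girthB f hf j hj (Nat.pos_of_ne_zero hcon)
    have h1 := h v w hw
    have h2 : g ≤ w.length := by exact_mod_cast h1
    omega

end Pool.Agent.PET
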