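import Pool.Agent.PET.MRec
import Pool.Agent.PET.DFac
import Pool.Agent.PET.CDefs
/-!
# H12P : H1 and H2 for the uniform weight

`card_PMs_ext`: the number of matchings containing `e` given disjoint pairs is `dfac (6t - 2e)`; `dfac_ratio e` says
`(6t)^e dfac(6t-2e)/dfac(6t) → 1`.  H2 follows (`C = 2`).  H1: the constraints `Real' f (T i)` of vertex-disjoint cycles are
`L = ∑ l i` pairs `f (a p) = b p`, `p : Σ i, Fin (l i)`, `a p = ((T i s).1, out)`, `b p = ((T i (nxt s)).1, in)`; all `2L` half-edges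
are distinct (`VDisj`: distinct vertices, and at each vertex `in ≠ out`; `nxt` is a bijection).  Reindex `Σ i, Fin (l i) ≃ Fin L`.
`distinct_pairs` is the common combinatorial lemma (used also for the `Z` weight).
-/
set_option autoImplicit false
open scoped BigOperators Classical
open Filter MeasureTheory
noncomputable section
namespace Pool.Agent.PET

theorem nxt_bij (j : ℕ) : Function.Bijective (nxt : Fin j → Fin j) := by
  rw [← Finite.injective_iff_bijective]
  intro s t h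
  have h1 : (s.1 + 1) % j = (t.1 + 1) % j := congrArg Fin.val h
  have hs := s.2
  have ht := t.2
  apply Fin.ext
  by_cases hs1 : s.1 + 1 = j
  · by_cases ht1 : t.1 + 1 = j
    · omega
    · rw [hs1, Nat.mod_self, Nat.mod_eq_of_lt (by omega)] at h1
      omega
  · by_cases ht1 : t.1 + 1 = j
    · rw [ht1, Nat.mod_self, Nat.mod_eq_of_lt (by omega)] at h1
      omega
    · rw [Nat.mod_eq_of_lt (by omega), Nat.mod_eq_of_lt (by omega)] at h1
      omega

theorem distinct_pairs {r n : ℕ} {l : Fin r → ℕ} (T : ∀ i, Cyc (l i) n) (hT : ∀ i, IsCyc (T i))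
    (hD : VDisj T) :
    Function.Injective (Sum.elim
      (fun p : (Σ i : Fin r, Fin (l i)) => (((T p.1 p.2).1, (T p.1 p.2).2.2) : HE n))
      (fun p : (Σ i : Fin r, Fin (l i)) => (((T p.1 (nxt p.2)).1, (T p.1 (nxt p.2)).2.1) : HE n))) := by
  have key : ∀ p q : (Σ i : Fin r, Fin (l i)),
      (((T p.1 p.2).1, (T p.1 p.2).2.2) : HE n) ≠
        ((T q.1 (nxt q.2)).1, (T q.1 (nxt q.2)).2.1) := by
    intro p q h
    have h1 : (T p.1 p.2).1 = (T q.1 (nxt q.2)).1 := (Prod.ext_iff.1 h).1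
    have h2 : (T p.1 p.2).2.2 = (T q.1 (nxt q.2)).2.1 := (Prod.ext_iff.1 h).2
    have h3 : p = (⟨q.1, nxt q.2⟩ : Σ i : Fin r, Fin (l i)) := hD h1
    subst h3
    exact (hT q.1).2 (nxt q.2) h2.symm
  rintro (p | p) (q | q) h
  · have h1 : (T p.1 p.2).1 = (T q.1 q.2).1 := (Prod.ext_iff.1 h).1
    have h3 : p = q := hD h1
    rw [h3]
  · exact absurd h (key p q)
  · exact absurd h.symm (key q p)
  · have h1 : (T p.1 (nxt p.2)).1 = (T q.1 (nxt q.2)).1 := (Prod.ext_iff.1 h).1
    have h3 : (⟨p.1, nxt p.2⟩ : Σ i : Fin r, Fin (l i)) = ⟨q.1, nxt q.2⟩ := hD h1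
    obtain ⟨i, s⟩ := p
    obtain ⟨j, t⟩ := q
    have hij : i = j := congrArg Sigma.fst h3
    subst hij
    have h4 : nxt s = nxt t := by
      have := (Sigma.mk.inj_iff.1 h3).2
      exact eq_of_heq this
    have h5 : s = t := (nxt_bij (l i)).1 h4
    rw [h5]

private theorem H12P_card_HE (t : ℕ) : Fintype.card (HE (2 * t)) = 6 * t := by
  simp [HE]
  ring

private theorem H12P_sum {t e : ℕ} (a b : Fin e → HE (2 * t))
    (hinj : Function.Injective (Sum.elim a b)) :
    ∑ f ∈ (PMs (HE (2 * t))).filter (fun f => ∀ i, f (a i) = b i), wP t f =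
      dfac (6 * t - 2 * e) / dfac (6 * t) := by
  have hE : Even (Fintype.card (HE (2 * t))) := by
    rw [H12P_card_HE]
    exact ⟨3 * t, by ring⟩
  have h := card_PMs_ext hE a b hinj
  rw [H12P_card_HE] at h
  unfold wP
  have h2 : (((PMs (HE (2 * t))).filter (fun f => ∀ i, f (a i) = b i)).card : ℝ) =
      dfac (6 * t - 2 * e) := by
    convert h
  rw [Finset.sum_const, nsmul_eq_mul, mul_one_div]
  congr 1

private theorem H12P_filter {r n : ℕ} {l : Fin r → ℕ} (T : ∀ i, Cyc (l i) n) {L : ℕ}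
    (φ : Fin L ≃ (Σ i : Fin r, Fin (l i))) :
    (PMs (HE n)).filter (fun f => ∀ i, Real' f (T i)) =
      (PMs (HE n)).filter (fun f => ∀ i : Fin L,
        f ((T (φ i).1 (φ i).2).1, (T (φ i).1 (φ i).2).2.2) =
          ((T (φ i).1 (nxt (φ i).2)).1, (T (φ i).1 (nxt (φ i).2)).2.1)) := by
  refine Finset.filter_congr (fun f _ => ?_)
  constructor
  · intro h i
    exact h (φ i).1 (φ i).2
  · intro h i t
    have := h (φ.symm ⟨i, t⟩)
    rw [Equiv.apply_symm_apply] at this
    exact this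

theorem H1P : H1 wP 1 (fun _ => 1) := by
  intro r l hl ε hε
  have h := dfac_ratio (∑ i, l i)
  have h' := (Metric.tendsto_atTop.1 h) ε hε
  obtain ⟨N, hN⟩ := h'
  filter_upwards [eventually_ge_atTop N] with t ht T hT hD
  have hcard : Fintype.card (Σ i : Fin r, Fin (l i)) = ∑ i, l i := by
    rw [Fintype.card_sigma]
    simp
  let φ : Fin (∑ i, l i) ≃ (Σ i : Fin r, Fin (l i)) :=
    (Fintype.equivFinOfCardEq hcard).symm
  rw [H12P_filter T φ]
  have hd := distinct_pairs T hT hD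
  have hinj : Function.Injective (Sum.elim
      (fun i : Fin (∑ i, l i) =>
        (((T (φ i).1 (φ i).2).1, (T (φ i).1 (φ i).2).2.2) : HE (2 * t)))
      (fun i : Fin (∑ i, l i) =>
        (((T (φ i).1 (nxt (φ i).2)).1, (T (φ i).1 (nxt (φ i).2)).2.1) : HE (2 * t)))) := by
    have : (Sum.elim
      (fun i : Fin (∑ i, l i) =>
        (((T (φ i).1 (φ i).2).1, (T (φ i).1 (φ i).2).2.2) : HE (2 * t)))
      (fun i : Fin (∑ i, l i) =>
        (((T (φ i).1 (nxt (φ i).2)).1, (T (φ i).1 (nxt (φ i).2)).2.1) : HE (2 * t)))) =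
        (Sum.elim
      (fun p : (Σ i : Fin r, Fin (l i)) => (((T p.1 p.2).1, (T p.1 p.2).2.2) : HE (2 * t)))
      (fun p : (Σ i : Fin r, Fin (l i)) =>
        (((T p.1 (nxt p.2)).1, (T p.1 (nxt p.2)).2.1) : HE (2 * t)))) ∘ (Sum.map φ φ) := by
      funext x
      rcases x with x | x <;> rfl
    rw [this]
    exact hd.comp (Sum.map_injective.2 ⟨φ.injective, φ.injective⟩)
  rw [H12P_sum _ _ hinj]
  have := hN t ht
  rw [Real.dist_eq] at this
  simp only [Finset.prod_const_one, mul_one]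
  rw [← mul_div_assoc]
  exact this.le

theorem H2P : H2 wP := by
  intro e
  refine ⟨2, ?_⟩
  have h := dfac_ratio e
  have h2 : ∀ᶠ t : ℕ in atTop,
      (6 * t : ℝ) ^ e * dfac (6 * t - 2 * e) / dfac (6 * t) < 2 :=
    h.eventually (gt_mem_nhds (by norm_num))
  filter_upwards [h2, eventually_gt_atTop 0] with t ht ht0 a b hinj
  rw [H12P_sum a b hinj]
  have htp : (0 : ℝ) < t := by exact_mod_cast ht0
  have h6 : (t : ℝ) ^ e ≤ (6 * t : ℝ) ^ e :=
    pow_le_pow_left₀ htp.le (by linarith) e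
  rw [le_div_iff₀ (by positivity)]
  have hd : 0 ≤ dfac (6 * t - 2 * e) / dfac (6 * t) :=
    div_nonneg (dfac_pos _).le (dfac_pos _).le
  calc dfac (6 * t - 2 * e) / dfac (6 * t) * (t : ℝ) ^ e
      ≤ dfac (6 * t - 2 * e) / dfac (6 * t) * (6 * t : ℝ) ^ e :=
        mul_le_mul_of_nonneg_left h6 hd
    _ = (6 * t : ℝ) ^ e * dfac (6 * t - 2 * e) / dfac (6 * t) := by ring
    _ ≤ 2 := ht.le

end Pool.Agent.PET
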