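import Pool.Agent.PET.Lap
import Pool.Agent.PET.CDefs
/-!
# Pat : uniform asymptotics of the pattern integrals

Apply `lap S` (`S` with `S.lam = plam`, so `S.K = K1c` since `S.i0 = 0`), `δ1 := δ0/2`... precisely take the constant of the theorem to be
`δ0/2`.  For `δ ≤ δ0/2`, fixed `u, d, c, cc` and `N m = Nc δ u c m`: if `x ∈ Nc`, then `|cntX x a/m - 1/10| ≤ δ + O(u/m) ≤ δ0`
for `m` large; conversely `Near (δ/2) x` implies `x ∈ Nc` for `m` large.  So `lap` applies to each of the finitely many `(c, cc)`; take the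
maximum of the thresholds.
-/
set_option autoImplicit false
open scoped BigOperators Classical
open Filter MeasureTheory
noncomputable section
namespace Pool.Agent.PET

namespace PatAux

theorem cntX_le {m : ℕ} (x : Fin m → Fin 10) (a : Fin 10) : cntX x a ≤ m := by
  unfold cntX
  exact (Finset.card_le_univ _).trans (by simp)

/-- comparison of the two frequencies -/
theorem cmp {m u a b : ℕ} (hm : 0 < m) (ha : a ≤ m) (hb : b ≤ u) :
    |((a + b : ℕ) : ℝ) / ((m + u : ℕ) : ℝ) - (a : ℝ) / m| ≤ (u : ℝ) / m := by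
  have hm' : (0 : ℝ) < m := by exact_mod_cast hm
  have hu' : (0 : ℝ) ≤ u := by positivity
  have ha' : (a : ℝ) ≤ m := by exact_mod_cast ha
  have hb' : (b : ℝ) ≤ u := by exact_mod_cast hb
  have ha0 : (0 : ℝ) ≤ a := by positivity
  have hb0 : (0 : ℝ) ≤ b := by positivity
  push_cast
  have e : ((a : ℝ) + b) / (m + u) - a / m = (b * m - a * u) / (m * (m + u)) := by
    field_simp
    ring
  rw [e, abs_div, abs_of_pos (by positivity : (0 : ℝ) < m * (m + u)), div_le_div_iff₀ (by positivity) hm']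
  have h1 : |(b : ℝ) * m - a * u| ≤ u * m := by
    rw [abs_le]
    constructor <;> nlinarith
  calc |(b : ℝ) * m - a * u| * m ≤ (u * m) * m := by gcongr
    _ ≤ u * (m * (m + u)) := by nlinarith [mul_nonneg (mul_nonneg hu' hm'.le) hu']

theorem ev (u : ℕ) {δ : ℝ} (hδ : 0 < δ) : ∀ᶠ m : ℕ in atTop, 0 < m ∧ (u : ℝ) / m ≤ δ := by
  have h1 : Tendsto (fun m : ℕ => (u : ℝ) / m) atTop (nhds 0) :=
    tendsto_const_div_atTop_nhds_zero_nat _
  filter_upwards [eventually_gt_atTop 0, h1.eventually (ge_mem_nhds hδ)] with m h2 h3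
  exact ⟨h2, h3⟩

end PatAux

theorem pat (S : Spec (Fin 10) (Fin 10)) (hi : S.i0 = 0) (hl : S.lam = plam) :
    ∃ δ₁ : ℝ, 0 < δ₁ ∧ ∀ δ : ℝ, 0 < δ → δ ≤ δ₁ → ∀ (u d : ℕ) (ε : ℝ), 0 < ε →
      ∀ᶠ m : ℕ in atTop, Even (3 * m + d) → ∀ (c : Fin u → Fin 10) (cc : Fin d → Fin 10),
        ‖Jint S δ u c cc m / ((10 : ℂ) ^ m * ((dfac (3 * m + d) : ℝ) : ℂ)) - ((K1c : ℝ) : ℂ)‖ ≤ ε := by
  obtain ⟨δ₀, hδ₀, H⟩ := lap S
  have hK : S.K = K1c := by
    unfold Spec.K K1c
    rw [hl, hi]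
    refine Finset.prod_congr rfl fun i _ => ?_
    by_cases h : i = 0 <;> simp [h]
  refine ⟨δ₀ / 2, by positivity, ?_⟩
  intro δ hδ hδ1 u d ε hε
  have key : ∀ (c : Fin u → Fin 10) (cc : Fin d → Fin 10), ∀ᶠ m : ℕ in atTop, Even (3 * m + d) →
      ‖Jint S δ u c cc m / ((10 : ℂ) ^ m * ((dfac (3 * m + d) : ℝ) : ℂ)) - ((K1c : ℝ) : ℂ)‖ ≤ ε := by
    intro c cc
    have h1 : ∀ᶠ m : ℕ in atTop, ∀ x ∈ Nc δ u c m, Near δ₀ x := by
      filter_upwards [PatAux.ev u (half_pos hδ)] with m hm x hx a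
      have h2 := hx a
      have h3 := PatAux.cmp hm.1 (PatAux.cntX_le x a) (PatAux.cntX_le c a)
      rw [Fintype.card_fin]
      rw [abs_le] at h2 h3 ⊢
      have h4 := hm.2
      push_cast at h2 h3 ⊢
      constructor <;> linarith
    have h2 : ∀ᶠ m : ℕ in atTop, ∀ x : Fin m → Fin 10, Near (δ / 2) x → x ∈ Nc δ u c m := by
      filter_upwards [PatAux.ev u (half_pos hδ)] with m hm x hx a
      have h2 := hx a
      have h3 := PatAux.cmp hm.1 (PatAux.cntX_le x a) (PatAux.cntX_le c a)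
      rw [Fintype.card_fin] at h2
      rw [abs_le] at h2 h3 ⊢
      have h4 := hm.2
      push_cast at h2 h3 ⊢
      constructor <;> linarith
    have h3 := H d cc (fun m => Nc δ u c m) (δ / 2) (half_pos hδ) h1 h2
    have h4 := h3.eventually (Metric.closedBall_mem_nhds _ hε)
    rw [eventually_inf_principal] at h4
    filter_upwards [h4] with m hm hev
    have h5 := hm hev
    rw [dist_eq_norm, hK] at h5
    simpa [Jint] using h5
  have h6 := (Filter.eventually_all (l := (atTop : Filter ℕ))).2 fun c =>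
    (Filter.eventually_all (l := (atTop : Filter ℕ))).2 fun cc => key c cc
  filter_upwards [h6] with m hm hev c cc
  exact hm c cc hev

end Pool.Agent.PET
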