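import Pool.Agent.PET.CDefs
/-!
# SpecP : spectral data of the Petersen graph

Orthogonal integer eigenbasis `W_0, …, W_9` of the adjacency matrix (`W_0 = 1`), eigenvalues
`3, 1,1,1,1,1, -2,-2,-2,-2`; `phi_i = √(10/|W_i|²) W_i`.
-/
set_option autoImplicit false
open scoped BigOperators Classical
open Filter MeasureTheory
noncomputable section
namespace Pool.Agent.PET

/-- integer eigenbasis -/
def SpecP_W : Fin 10 → Fin 10 → ℤ :=
  ![![1, 1, 1, 1, 1, 1, 1, 1, 1, 1],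
    ![0, -1, 1, 0, 0, 0, 0, 0, 1, -1],
    ![2, -1, -1, 0, 0, 0, -2, 0, 1, 1],
    ![1, 0, -1, 0, -2, 0, 1, 2, 0, -1],
    ![1, 0, 1, -2, 0, -2, 1, 0, 0, 1],
    ![0, 1, 0, -1, -1, 1, 0, -1, 1, 0],
    ![0, 1, 1, 1, -1, -1, -1, 0, 0, 0],
    ![2, -1, 1, 1, -1, 1, 1, -2, -2, 0],
    ![2, 2, -2, 1, 2, -2, 1, -2, 1, -3],
    ![2, 2, 2, -3, 2, 2, -3, 2, -3, -3]]

/-- squared norms -/
def SpecP_n : Fin 10 → ℤ := ![10, 4, 12, 12, 12, 6, 6, 18, 36, 60]

/-- `180 / n` -/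
def SpecP_m : Fin 10 → ℤ := ![18, 45, 15, 15, 15, 30, 30, 10, 5, 3]

/-- `3 * plam` -/
def SpecP_l : Fin 10 → ℤ := ![3, 1, 1, 1, 1, 1, -2, -2, -2, -2]

theorem SpecP_orth : ∀ i j : Fin 10, ∑ x, SpecP_W i x * SpecP_W j x = if i = j then SpecP_n i else 0 := by
  decide

theorem SpecP_mn : ∀ i : Fin 10, SpecP_n i * SpecP_m i = 180 := by decide

theorem SpecP_npos : ∀ i : Fin 10, 0 < SpecP_n i := by decide

theorem SpecP_A : ∀ x y : Fin 10, (if padj x y then (180 : ℤ) else 0)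
    = ∑ i, SpecP_l i * SpecP_m i * SpecP_W i x * SpecP_W i y := by
  intro x y
  revert x y
  decide

theorem SpecP_lam (i : Fin 10) : 3 * plam i = (SpecP_l i : ℝ) := by
  fin_cases i <;> simp [plam, SpecP_l]
  all_goals norm_num

/-- eigenfunctions -/
def SpecP_phi (i x : Fin 10) : ℝ := Real.sqrt (10 / (SpecP_n i : ℝ)) * (SpecP_W i x : ℝ)

theorem SpecP_phi_mul (i x y : Fin 10) :
    SpecP_phi i x * SpecP_phi i y = (10 / (SpecP_n i : ℝ)) * (SpecP_W i x : ℝ) * (SpecP_W i y : ℝ) := by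
  unfold SpecP_phi
  have h : (0 : ℝ) ≤ 10 / (SpecP_n i : ℝ) := by
    have : (0 : ℝ) < (SpecP_n i : ℝ) := by exact_mod_cast SpecP_npos i
    positivity
  have h2 := Real.mul_self_sqrt h
  calc Real.sqrt (10 / (SpecP_n i : ℝ)) * (SpecP_W i x : ℝ) * (Real.sqrt (10 / (SpecP_n i : ℝ)) * (SpecP_W i y : ℝ))
      = (Real.sqrt (10 / (SpecP_n i : ℝ)) * Real.sqrt (10 / (SpecP_n i : ℝ))) * (SpecP_W i x : ℝ) * (SpecP_W i y : ℝ) := by ring
    _ = _ := by rw [h2]

theorem SpecP_orth' (i j : Fin 10) :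
    ∑ x, SpecP_phi i x * SpecP_phi j x = if i = j then (Fintype.card (Fin 10) : ℝ) else 0 := by
  have e : ∑ x, SpecP_phi i x * SpecP_phi j x
      = Real.sqrt (10 / (SpecP_n i : ℝ)) * Real.sqrt (10 / (SpecP_n j : ℝ))
        * ((∑ x, SpecP_W i x * SpecP_W j x : ℤ) : ℝ) := by
    push_cast
    rw [Finset.mul_sum]
    refine Finset.sum_congr rfl fun x _ => ?_
    unfold SpecP_phi; ring
  rw [e, SpecP_orth]
  by_cases h : i = j
  · subst h
    have h0 : (0 : ℝ) < (SpecP_n i : ℝ) := by exact_mod_cast SpecP_npos i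
    have h1 : (0 : ℝ) ≤ 10 / (SpecP_n i : ℝ) := by positivity
    simp only [if_true, Real.mul_self_sqrt h1, Fintype.card_fin]
    field_simp
    norm_num
  · simp [h]

theorem SpecP_hA (x y : Fin 10) : (if padj x y then (1 : ℝ) else 0)
    = (3 / 10) * ∑ i, plam i * SpecP_phi i x * SpecP_phi i y := by
  have h := SpecP_A x y
  have h' : (if padj x y then (180 : ℝ) else 0)
      = ∑ i, (SpecP_l i : ℝ) * (SpecP_m i : ℝ) * (SpecP_W i x : ℝ) * (SpecP_W i y : ℝ) := by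
    have := congrArg (fun z : ℤ => (z : ℝ)) h
    push_cast at this
    convert this using 1
  have e : ∀ i, (3 / 10) * (plam i * SpecP_phi i x * SpecP_phi i y)
      = (1 / 180) * ((SpecP_l i : ℝ) * (SpecP_m i : ℝ) * (SpecP_W i x : ℝ) * (SpecP_W i y : ℝ)) := by
    intro i
    have h0 : (0 : ℝ) < (SpecP_n i : ℝ) := by exact_mod_cast SpecP_npos i
    have hm : (SpecP_n i : ℝ) * (SpecP_m i : ℝ) = 180 := by exact_mod_cast SpecP_mn i
    have hl := SpecP_lam i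
    have hm' : (SpecP_m i : ℝ) = 180 / (SpecP_n i : ℝ) := by
      field_simp; linarith
    rw [mul_assoc (plam i), SpecP_phi_mul, ← hl, hm']
    ring
  rw [Finset.mul_sum]
  rw [Finset.sum_congr rfl fun i _ => e i, ← Finset.mul_sum, ← h']
  split_ifs <;> norm_num

theorem specP : ∃ S : Spec (Fin 10) (Fin 10),
    S.A = padj ∧ S.rho = 3 / 10 ∧ S.i0 = 0 ∧ S.lam = plam := by
  refine ⟨{ A := padj, i0 := 0, phi := SpecP_phi, lam := plam, rho := 3 / 10, rho_pos := by norm_num,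
            phi0 := ?_, orth := ?_, lam0 := ?_, labs := ?_, lle := ?_, hA := ?_ }, rfl, rfl, rfl, rfl⟩
  · intro x
    have hW : SpecP_W 0 x = 1 := by revert x; decide
    have hn : SpecP_n 0 = 10 := by decide
    simp [SpecP_phi, hW, hn]
  · intro i j
    rw [SpecP_orth' i j]
    split_ifs <;> rfl
  · simp [plam]
  · intro i hi
    fin_cases i <;> simp [plam] at hi ⊢ <;> norm_num [abs_of_pos, abs_of_neg, abs_div]
  · intro i hi
    fin_cases i <;> simp [plam] at hi ⊢ <;> norm_num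
  · intro x y
    rw [← SpecP_hA x y]
    split_ifs <;> rfl

theorem SpecP_vals (i : Fin 10) : i = 0 ∧ plam i = 1 ∨ i ≠ 0 ∧ plam i = 1 / 3 ∨ i ≠ 0 ∧ plam i = -2 / 3 := by
  fin_cases i <;> simp [plam]

theorem specPP : ∃ S : Spec (Fin 10 × Fin 10) (Fin 10 × Fin 10),
    S.A = A2 ∧ S.rho = 9 / 100 ∧ S.i0 = (0, 0) ∧ S.lam = fun p => plam p.1 * plam p.2 := by
  refine ⟨{ A := A2, i0 := (0, 0), phi := fun p x => SpecP_phi p.1 x.1 * SpecP_phi p.2 x.2,
            lam := fun p => plam p.1 * plam p.2, rho := 9 / 100, rho_pos := by norm_num,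
            phi0 := ?_, orth := ?_, lam0 := ?_, labs := ?_, lle := ?_, hA := ?_ }, rfl, rfl, rfl, rfl⟩
  · intro x
    have hW : ∀ y, SpecP_W 0 y = 1 := by decide
    have hn : SpecP_n 0 = 10 := by decide
    simp [SpecP_phi, hW, hn]
  · intro i j
    have e : ∑ x : Fin 10 × Fin 10, SpecP_phi i.1 x.1 * SpecP_phi i.2 x.2 * (SpecP_phi j.1 x.1 * SpecP_phi j.2 x.2)
        = (∑ x, SpecP_phi i.1 x * SpecP_phi j.1 x) * (∑ x, SpecP_phi i.2 x * SpecP_phi j.2 x) := by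
      rw [Fintype.sum_prod_type, Finset.sum_mul_sum]
      refine Finset.sum_congr rfl fun a _ => Finset.sum_congr rfl fun b _ => ?_
      ring
    rw [e, SpecP_orth', SpecP_orth']
    obtain ⟨i1, i2⟩ := i
    obtain ⟨j1, j2⟩ := j
    by_cases h1 : i1 = j1 <;> by_cases h2 : i2 = j2 <;> simp [h1, h2]
    norm_num
  · simp [plam]
  · intro p hp
    obtain ⟨i, j⟩ := p
    show |plam i * plam j| ≤ 2 / 3
    rcases SpecP_vals i with ⟨h1, h2⟩ | ⟨h1, h2⟩ | ⟨h1, h2⟩ <;>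
      rcases SpecP_vals j with ⟨h3, h4⟩ | ⟨h3, h4⟩ | ⟨h3, h4⟩ <;> rw [h2, h4]
    · exact absurd (by rw [h1, h3]) hp
    all_goals rw [abs_le]; constructor <;> norm_num
  · intro p hp
    obtain ⟨i, j⟩ := p
    show plam i * plam j ≤ 4 / 9
    rcases SpecP_vals i with ⟨h1, h2⟩ | ⟨h1, h2⟩ | ⟨h1, h2⟩ <;>
      rcases SpecP_vals j with ⟨h3, h4⟩ | ⟨h3, h4⟩ | ⟨h3, h4⟩ <;> rw [h2, h4]
    · exact absurd (by rw [h1, h3]) hp
    all_goals norm_num
  · intro x y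
    have h1 := SpecP_hA x.1 y.1
    have h2 := SpecP_hA x.2 y.2
    have e : (if A2 x y then (1 : ℝ) else 0)
        = (if padj x.1 y.1 then (1 : ℝ) else 0) * (if padj x.2 y.2 then (1 : ℝ) else 0) := by
      unfold A2
      by_cases h1 : padj x.1 y.1 <;> by_cases h2 : padj x.2 y.2 <;> simp [h1, h2]
    rw [e, h1, h2, Fintype.sum_prod_type]
    have e2 : ∀ i j, plam i * plam j * (SpecP_phi i x.1 * SpecP_phi j x.2) * (SpecP_phi i y.1 * SpecP_phi j y.2)
        = (plam i * SpecP_phi i x.1 * SpecP_phi i y.1) * (plam j * SpecP_phi j x.2 * SpecP_phi j y.2) := by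
      intro i j; ring
    simp only [e2]
    rw [← Finset.sum_mul_sum]
    ring

end Pool.Agent.PET
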