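import Pool.Agent.PET.Split
import Pool.Agent.PET.Pat
import Pool.Agent.PET.DFac
import Pool.Agent.PET.SpecP
/-!
# H2Z : H2 for the weight `wZ δ`

Let `S` be from `specP`, `δ1` from `pat S`.  `wZ δ t f = Zf δ f/(B t dfac(6t))`, `B t = 10^{2t} (3/10)^{3t}`.  Fix `e`.  For given `a, b` let `w` enumerate the touched vertices (`u ≤ 2e` of them).  By `split`
and `pat` with `ε = 1` (`m = 2t - u`, `d = 3u - 2e`, `3m + d = 6t - 2e` even; `t` large, uniformly for the finitely many `u ≤ 2e`), `‖Jint‖ ≤ (K1c+1) 10^m dfac(6t-2e)` and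
`∑ Zf ≤ 10^u (3/10)^{3t-e} (K1c+1) 10^{2t-u} dfac(6t-2e) = (10/3)^e (K1c+1) B t dfac(6t-2e)`; by `dfac_ratio`
`dfac(6t-2e)/dfac(6t) ≤ 2/(6t)^e` for large `t`.
-/
set_option autoImplicit false
open scoped BigOperators Classical
open Filter MeasureTheory
noncomputable section
namespace Pool.Agent.PET

theorem H2Z_dfac_pos (q : ℕ) : 0 < dfac q := by
  unfold dfac
  exact_mod_cast Nat.doubleFactorial_pos _

theorem H2Z_B (t : ℕ) : B t = (3 / 10 : ℝ) ^ (3 * t) * 10 ^ (2 * t) := by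
  unfold B
  rw [pow_mul, pow_mul, ← mul_pow]
  norm_num

theorem H2Z : ∃ δ₁ : ℝ, 0 < δ₁ ∧ ∀ δ : ℝ, 0 < δ → δ ≤ δ₁ → H2 (wZ δ) := by
  obtain ⟨S, hA, hr, hi, hl⟩ := specP
  obtain ⟨δ₁, hδ₁, hpat⟩ := pat S hi hl
  refine ⟨δ₁, hδ₁, fun δ hδ hle => ?_⟩
  intro e
  set M : ℝ := |K1c| + 1 with hM
  have hM0 : 0 < M := by positivity
  refine ⟨(10 / 3 : ℝ) ^ e * M * 2 / 6 ^ e, ?_⟩
  have h1 : ∀ u ∈ Finset.range (2 * e + 1), ∀ᶠ t : ℕ in atTop,
      Even (3 * (2 * t - u) + (3 * u - 2 * e)) → ∀ (c : Fin u → Fin 10) (cc : Fin (3 * u - 2 * e) → Fin 10),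
        ‖Jint S δ u c cc (2 * t - u) / ((10 : ℂ) ^ (2 * t - u) *
          ((dfac (3 * (2 * t - u) + (3 * u - 2 * e)) : ℝ) : ℂ)) - ((K1c : ℝ) : ℂ)‖ ≤ 1 := by
    intro u _
    have ht : Tendsto (fun t : ℕ => 2 * t - u) atTop atTop := by
      refine tendsto_atTop.2 fun b => ?_
      filter_upwards [eventually_ge_atTop (b + u)] with t ht
      omega
    exact ht.eventually (hpat δ hδ hle u (3 * u - 2 * e) 1 one_pos)
  have h1' := (Filter.eventually_all_finset (Finset.range (2 * e + 1))).2 h1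
  have h2 : ∀ᶠ t : ℕ in atTop, (6 * t : ℝ) ^ e * dfac (6 * t - 2 * e) / dfac (6 * t) ≤ 2 :=
    (dfac_ratio e).eventually_le_const (by norm_num)
  filter_upwards [h1', h2, eventually_ge_atTop 1] with t ht1 ht2 ht3 a b hinj
  set V : Finset (Fin (2 * t)) :=
    (Finset.univ.image fun i => (a i).1) ∪ (Finset.univ.image fun i => (b i).1) with hV
  have hVc : V.card ≤ 2 * e := by
    refine (Finset.card_union_le _ _).trans ?_
    have e1 : (Finset.univ.image fun i => (a i).1).card ≤ e := Finset.card_image_le.trans (by simp)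
    have e2 : (Finset.univ.image fun i => (b i).1).card ≤ e := Finset.card_image_le.trans (by simp)
    omega
  obtain ⟨u, hu⟩ : ∃ u, V.card = u := ⟨_, rfl⟩
  rw [hu] at hVc
  let w : Fin u → Fin (2 * t) := V.orderEmbOfFin hu
  have hw : Function.Injective w := (V.orderEmbOfFin hu).injective
  have hrange : Set.range w = (V : Set (Fin (2 * t))) := V.range_orderEmbOfFin hu
  obtain ⟨g1, g2, g3, ρ, hsum⟩ := split S hA hr δ t e u a b hinj w hw
    (fun i => by rw [hrange]; simp [hV]) (fun i => by rw [hrange]; simp [hV])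
  have hpar : 3 * (2 * t - u) + (3 * u - 2 * e) = 6 * t - 2 * e := by omega
  have hev : Even (3 * (2 * t - u) + (3 * u - 2 * e)) := by
    rw [hpar]
    exact ⟨3 * t - e, by omega⟩
  have hJ := ht1 u (by simp; omega) hev
  rw [hpar] at hJ
  have hd0 : 0 < dfac (6 * t - 2 * e) := H2Z_dfac_pos _
  have hd1 : 0 < dfac (6 * t) := H2Z_dfac_pos _
  have hJb : ∀ (c : Fin u → Fin 10) (cc : Fin (3 * u - 2 * e) → Fin 10),
      ‖Jint S δ u c cc (2 * t - u)‖ ≤ M * (10 ^ (2 * t - u) * dfac (6 * t - 2 * e)) := by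
    intro c cc
    have h := hJ c cc
    have hX : ‖Jint S δ u c cc (2 * t - u) / ((10 : ℂ) ^ (2 * t - u) *
          ((dfac (6 * t - 2 * e) : ℝ) : ℂ))‖ ≤ M := by
      have h3 := norm_le_norm_add_norm_sub' (Jint S δ u c cc (2 * t - u) / ((10 : ℂ) ^ (2 * t - u) *
          ((dfac (6 * t - 2 * e) : ℝ) : ℂ))) ((K1c : ℝ) : ℂ)
      have h4 : ‖((K1c : ℝ) : ℂ)‖ = |K1c| := by simp
      rw [h4] at h3
      linarith
    have hden : ‖((10 : ℂ) ^ (2 * t - u) * ((dfac (6 * t - 2 * e) : ℝ) : ℂ))‖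
        = 10 ^ (2 * t - u) * dfac (6 * t - 2 * e) := by
      rw [norm_mul, norm_pow, Complex.norm_real, Real.norm_of_nonneg hd0.le]
      simp
    rw [norm_div, hden] at hX
    rwa [div_le_iff₀ (by positivity)] at hX
  have hsumle : (∑ f ∈ (PMs (HE (2 * t))).filter (fun f => ∀ i, f (a i) = b i), (Zf δ f : ℝ))
      ≤ 10 ^ u * ((3 / 10 : ℝ) ^ (3 * t - e) * (M * (10 ^ (2 * t - u) * dfac (6 * t - 2 * e)))) := by
    have h5 : (∑ f ∈ (PMs (HE (2 * t))).filter (fun f => ∀ i, f (a i) = b i), (Zf δ f : ℝ))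
        ≤ ‖((∑ f ∈ (PMs (HE (2 * t))).filter (fun f => ∀ i, f (a i) = b i), (Zf δ f : ℝ) : ℝ) : ℂ)‖ := by
      rw [Complex.norm_real]
      exact le_abs_self _
    refine h5.trans ?_
    rw [hsum]
    refine (norm_sum_le _ _).trans ?_
    have h6 : ∀ c ∈ (Finset.univ : Finset (Fin u → Fin 10)),
        ‖(if (∀ i, ∀ p q, (a i).1 = w p → (b i).1 = w q → padj (c p) (c q)) then
              ((3 / 10 : ℝ) : ℂ) ^ (3 * t - e) * Jint S δ u c (fun i => c (ρ i)) (2 * t - u)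
            else 0)‖ ≤ (3 / 10 : ℝ) ^ (3 * t - e) * (M * (10 ^ (2 * t - u) * dfac (6 * t - 2 * e))) := by
      intro c _
      split_ifs
      · rw [norm_mul, norm_pow, Complex.norm_real, Real.norm_of_nonneg (by norm_num)]
        exact mul_le_mul_of_nonneg_left (hJb _ _) (by positivity)
      · simp only [norm_zero]
        positivity
    refine (Finset.sum_le_sum h6).trans ?_
    rw [Finset.sum_const, nsmul_eq_mul, Finset.card_univ, Fintype.card_fun, Fintype.card_fin, Fintype.card_fin]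
    push_cast
    exact le_rfl
  have hw1 : ∑ f ∈ (PMs (HE (2 * t))).filter (fun f => ∀ i, f (a i) = b i), wZ δ t f
      = (∑ f ∈ (PMs (HE (2 * t))).filter (fun f => ∀ i, f (a i) = b i), (Zf δ f : ℝ)) / (B t * dfac (6 * t)) := by
    unfold wZ
    rw [Finset.sum_div]
  rw [hw1]
  have ht0 : (0 : ℝ) < t := by exact_mod_cast ht3
  have hBpos : 0 < B t := by unfold B; positivity
  rw [div_le_div_iff₀ (by positivity) (by positivity)]
  have hkey : (6 * t : ℝ) ^ e * dfac (6 * t - 2 * e) ≤ 2 * dfac (6 * t) := by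
    rwa [div_le_iff₀ hd1] at ht2
  have hBe : 10 ^ u * ((3 / 10 : ℝ) ^ (3 * t - e) * (M * (10 ^ (2 * t - u) * dfac (6 * t - 2 * e))))
      = (10 / 3 : ℝ) ^ e * M * B t * dfac (6 * t - 2 * e) := by
    rw [H2Z_B]
    have e1 : (10 : ℝ) ^ (2 * t) = 10 ^ u * 10 ^ (2 * t - u) := by
      rw [← pow_add]; congr 1; omega
    have e2 : (3 / 10 : ℝ) ^ (3 * t) = (3 / 10) ^ e * (3 / 10) ^ (3 * t - e) := by
      rw [← pow_add]; congr 1; omega
    have e3 : (10 / 3 : ℝ) ^ e * (3 / 10) ^ e = 1 := by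
      rw [← mul_pow]; norm_num
    rw [e1, e2]
    linear_combination (-(10 ^ u * 10 ^ (2 * t - u) * (3 / 10 : ℝ) ^ (3 * t - e) * M * dfac (6 * t - 2 * e))) * e3
  rw [hBe] at hsumle
  have h6e : (6 * t : ℝ) ^ e = 6 ^ e * (t : ℝ) ^ e := mul_pow _ _ _
  calc (∑ f ∈ (PMs (HE (2 * t))).filter (fun f => ∀ i, f (a i) = b i), (Zf δ f : ℝ)) * (t : ℝ) ^ e
      ≤ ((10 / 3 : ℝ) ^ e * M * B t * dfac (6 * t - 2 * e)) * (t : ℝ) ^ e := by
        apply mul_le_mul_of_nonneg_right hsumle (by positivity)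
    _ = ((10 / 3 : ℝ) ^ e * M * B t / 6 ^ e) * ((6 * t : ℝ) ^ e * dfac (6 * t - 2 * e)) := by
        rw [h6e]; field_simp
    _ ≤ ((10 / 3 : ℝ) ^ e * M * B t / 6 ^ e) * (2 * dfac (6 * t)) := by
        apply mul_le_mul_of_nonneg_left hkey (by positivity)
    _ = (10 / 3 : ℝ) ^ e * M * 2 / 6 ^ e * (B t * dfac (6 * t)) := by ring

end Pool.Agent.PET
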