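import Pool.Agent.PET.H1Z
import Pool.Agent.PET.H2Z
/-!
# H12Z : H1 and H2 for the weight `wZ δ`
-/
set_option autoImplicit false
open scoped BigOperators Classical
open Filter MeasureTheory
noncomputable section
namespace Pool.Agent.PET

theorem H12Z : ∃ δ₁ : ℝ, 0 < δ₁ ∧ ∀ δ : ℝ, 0 < δ → δ ≤ δ₁ → H1 (wZ δ) K1c tau ∧ H2 (wZ δ) := by
  obtain ⟨d1, h1, H1'⟩ := H1Z
  obtain ⟨d2, h2, H2'⟩ := H2Z
  exact ⟨min d1 d2, lt_min h1 h2, fun δ hδ hle =>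
    ⟨H1' δ hδ (le_trans hle (min_le_left _ _)), H2' δ hδ (le_trans hle (min_le_right _ _))⟩⟩

end Pool.Agent.PET
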