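import Pool.Agent.PET.Split
import Pool.Agent.PET.Pat
import Pool.Agent.PET.ClosedW
import Pool.Agent.PET.H12P
import Pool.Agent.PET.SpecP
/-!
# H1Z : H1 for the weight `wZ δ`

Let `S` be from `specP`, `δ1` from `pat S`.  `wZ δ t f = Zf δ f/(B t dfac(6t))`, `B t = 10^{2t} (3/10)^{3t}`.  For vertex-disjoint cycles `T` with lengths `l i ≥ 1`, `L = ∑ l i`: the condition
`∀ i, Real' f (T i)` is `f (a p) = b p`, `p ∈ Σ i, Fin (l i) ≃ Fin L`, with the pairs of `distinct_pairs`; apply `split` with `e = u = L`, `w` = the vertices of `T` (injective by `VDisj`), `d = 3L - 2L = L`.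
The condition on `c : Fin L → Fin 10` is that each restriction is a closed walk (the vertex of `b (i,s)` is that of `T i (nxt s)`): `∏_i 3^{l i} tau(l i)` colourings (`closedW`); by `pat` each term is
`(3/10)^{3t-L} 10^{2t-L} dfac(6t-2L)(K1c + o(1)) = 3^{-L} B t dfac(6t-2L) (K1c + o(1))`, uniformly.  Multiply by `(6t)^L/(B t dfac(6t))`, use `dfac_ratio L`.
-/
set_option autoImplicit false
open scoped BigOperators Classical
open Filter MeasureTheory
noncomputable section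
namespace Pool.Agent.PET

theorem H1Z_dfac_pos (q : ℕ) : 0 < dfac q := by
  unfold dfac
  exact_mod_cast Nat.doubleFactorial_pos _

theorem H1Z_B (t : ℕ) : B t = (3 / 10 : ℝ) ^ (3 * t) * 10 ^ (2 * t) := by
  unfold B
  rw [pow_mul, pow_mul, ← mul_pow]
  norm_num

/-- the analytic estimate: a sum over colourings -/
theorem H1Z_sum (n : ℕ) (P : (Fin n → Fin 10) → Prop) (J : (Fin n → Fin 10) → ℂ) (K W D q ε₁ Z : ℝ)
    (hD : 0 < D) (hq : 0 < q) (hJ : ∀ c, ‖J c / (D : ℂ) - (K : ℂ)‖ ≤ ε₁)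
    (hW : ((Finset.univ.filter P).card : ℝ) = W)
    (hZ : (Z : ℂ) = ∑ c, if P c then (q : ℂ) * J c else 0) :
    |Z / (q * D) - W * K| ≤ 10 ^ n * ε₁ := by
  have hDc : (D : ℂ) ≠ 0 := by exact_mod_cast hD.ne'
  have hqc : (q : ℂ) ≠ 0 := by exact_mod_cast hq.ne'
  have h1 : ((Z / (q * D) - W * K : ℝ) : ℂ) = ∑ c, if P c then (J c / (D : ℂ) - (K : ℂ)) else 0 := by
    push_cast
    rw [hZ, Finset.sum_div]
    have hWc : (W : ℂ) * K = ∑ c, if P c then (K : ℂ) else 0 := by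
      rw [← Finset.sum_filter, Finset.sum_const, nsmul_eq_mul]
      congr 1
      rw [← hW]
      push_cast
      rfl
    rw [hWc, ← Finset.sum_sub_distrib]
    refine Finset.sum_congr rfl fun c _ => ?_
    split_ifs
    · field_simp
    · simp
  have h2 : |Z / (q * D) - W * K| = ‖((Z / (q * D) - W * K : ℝ) : ℂ)‖ := by
    rw [Complex.norm_real]; rfl
  rw [h2, h1]
  refine (norm_sum_le _ _).trans ?_
  have h3 : ∀ c ∈ (Finset.univ : Finset (Fin n → Fin 10)),
      ‖(if P c then (J c / (D : ℂ) - (K : ℂ)) else 0)‖ ≤ ε₁ := by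
    intro c _
    split_ifs
    · exact hJ c
    · rw [norm_zero]
      exact (norm_nonneg _).trans (hJ c)
  refine (Finset.sum_le_sum h3).trans ?_
  rw [Finset.sum_const, nsmul_eq_mul, Finset.card_univ, Fintype.card_fun, Fintype.card_fin, Fintype.card_fin]
  push_cast
  exact le_rfl

theorem H1Z : ∃ δ₁ : ℝ, 0 < δ₁ ∧ ∀ δ : ℝ, 0 < δ → δ ≤ δ₁ → H1 (wZ δ) K1c tau := by
  obtain ⟨S, hA, hr, hi, hl⟩ := specP
  obtain ⟨δ₁, hδ₁, hpat⟩ := pat S hi hl
  refine ⟨δ₁, hδ₁, fun δ hδ hle => ?_⟩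
  intro r l hl1 ε hε
  set L := ∑ i, l i with hL
  set Q : ℝ := |K1c * ∏ i, tau (l i)| + 1 with hQ
  have hQ0 : 0 < Q := by positivity
  set ε₁ : ℝ := ε / (4 * 10 ^ L) with hε₁
  have hε₁0 : 0 < ε₁ := by positivity
  have hev1 : ∀ᶠ t : ℕ in atTop,
      Even (3 * (2 * t - L) + (3 * L - 2 * L)) → ∀ (c : Fin L → Fin 10) (cc : Fin (3 * L - 2 * L) → Fin 10),
        ‖Jint S δ L c cc (2 * t - L) / ((10 : ℂ) ^ (2 * t - L) *
          ((dfac (3 * (2 * t - L) + (3 * L - 2 * L)) : ℝ) : ℂ)) - ((K1c : ℝ) : ℂ)‖ ≤ ε₁ := by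
    have ht : Tendsto (fun t : ℕ => 2 * t - L) atTop atTop := by
      refine tendsto_atTop.2 fun b => ?_
      filter_upwards [eventually_ge_atTop (b + L)] with t ht
      omega
    exact ht.eventually (hpat δ hδ hle L (3 * L - 2 * L) ε₁ hε₁0)
  have hev2 : ∀ᶠ t : ℕ in atTop,
      |(6 * t : ℝ) ^ L * dfac (6 * t - 2 * L) / dfac (6 * t) - 1| < min 1 (ε / (2 * Q)) := by
    have := (Metric.tendsto_nhds.1 (dfac_ratio L)) (min 1 (ε / (2 * Q))) (by positivity)
    simpa [Real.dist_eq] using this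
  filter_upwards [hev1, hev2, eventually_ge_atTop 1] with t ht1 ht2 ht3 T hT hD
  let E : (Σ i : Fin r, Fin (l i)) ≃ Fin L := finSigmaFinEquiv
  let a : Fin L → HE (2 * t) := fun q => ((T (E.symm q).1 (E.symm q).2).1, (T (E.symm q).1 (E.symm q).2).2.2)
  let b : Fin L → HE (2 * t) := fun q =>
    ((T (E.symm q).1 (nxt (E.symm q).2)).1, (T (E.symm q).1 (nxt (E.symm q).2)).2.1)
  let w : Fin L → Fin (2 * t) := fun q => (T (E.symm q).1 (E.symm q).2).1
  have hw : Function.Injective w := by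
    intro q q' h
    exact E.symm.injective (hD h)
  have hinj : Function.Injective (Sum.elim a b) := by
    have h := distinct_pairs T hT hD
    have h2 : Sum.elim a b = (Sum.elim
      (fun p : (Σ i : Fin r, Fin (l i)) => (((T p.1 p.2).1, (T p.1 p.2).2.2) : HE (2 * t)))
      (fun p : (Σ i : Fin r, Fin (l i)) => (((T p.1 (nxt p.2)).1, (T p.1 (nxt p.2)).2.1) : HE (2 * t)))) ∘
        (Sum.map E.symm E.symm) := by
      funext q
      rcases q with q | q <;> rfl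
    rw [h2]
    exact h.comp (Sum.map_injective.2 ⟨E.symm.injective, E.symm.injective⟩)
  have hwE : ∀ i s, w (E ⟨i, s⟩) = (T i s).1 := by
    intro i s
    show (T (E.symm (E ⟨i, s⟩)).1 (E.symm (E ⟨i, s⟩)).2).1 = _
    rw [E.symm_apply_apply]
  have haE : ∀ i s, a (E ⟨i, s⟩) = ((T i s).1, (T i s).2.2) := by
    intro i s
    show ((T (E.symm (E ⟨i, s⟩)).1 (E.symm (E ⟨i, s⟩)).2).1, (T (E.symm (E ⟨i, s⟩)).1 (E.symm (E ⟨i, s⟩)).2).2.2) = _
    rw [E.symm_apply_apply]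
  have hbE : ∀ i s, b (E ⟨i, s⟩) = ((T i (nxt s)).1, (T i (nxt s)).2.1) := by
    intro i s
    show ((T (E.symm (E ⟨i, s⟩)).1 (nxt (E.symm (E ⟨i, s⟩)).2)).1,
      (T (E.symm (E ⟨i, s⟩)).1 (nxt (E.symm (E ⟨i, s⟩)).2)).2.1) = _
    rw [E.symm_apply_apply]
  obtain ⟨g1, g2, g3, ρ, hsum⟩ := split S hA hr δ t L L a b hinj w hw
    (fun q => ⟨q, rfl⟩) (fun q => ⟨E ⟨(E.symm q).1, nxt (E.symm q).2⟩, by rw [hwE]⟩)
  have hcond : ∀ f : HE (2 * t) → HE (2 * t), (∀ i, f (a i) = b i) ↔ (∀ i, Real' f (T i)) := by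
    intro f
    constructor
    · intro h i s
      have := h (E ⟨i, s⟩)
      rw [haE, hbE] at this
      exact this
    · intro h q
      have := h (E.symm q).1 (E.symm q).2
      exact this
  have hfil : (PMs (HE (2 * t))).filter (fun f => ∀ i, f (a i) = b i)
      = (PMs (HE (2 * t))).filter (fun f => ∀ i, Real' f (T i)) := by
    apply Finset.filter_congr
    intro f _
    exact hcond f
  rw [hfil] at hsum
  have hcol : ∀ c : Fin L → Fin 10, (∀ i, ∀ p q, (a i).1 = w p → (b i).1 = w q → padj (c p) (c q)) ↔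
      (∀ i s, padj (c (E ⟨i, s⟩)) (c (E ⟨i, nxt s⟩))) := by
    intro c
    constructor
    · intro h i s
      refine h (E ⟨i, s⟩) _ _ ?_ ?_
      · rw [haE, hwE]
      · rw [hbE, hwE]
    · intro h q p p' hp hp'
      obtain ⟨⟨i, s⟩, rfl⟩ := E.surjective q
      rw [haE] at hp
      rw [hbE] at hp'
      have e1 : E ⟨i, s⟩ = p := hw (by rw [hwE]; exact hp)
      have e2 : E ⟨i, nxt s⟩ = p' := hw (by rw [hwE]; exact hp')
      rw [← e1, ← e2]
      exact h i s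
  have hpar : 3 * (2 * t - L) + (3 * L - 2 * L) = 6 * t - 2 * L := by omega
  have hev : Even (3 * (2 * t - L) + (3 * L - 2 * L)) := by
    rw [hpar]
    exact ⟨3 * t - L, by omega⟩
  have hJ := ht1 hev
  rw [hpar] at hJ
  have hd0 : 0 < dfac (6 * t - 2 * L) := H1Z_dfac_pos _
  have hd1 : 0 < dfac (6 * t) := H1Z_dfac_pos _
  set Z : ℝ := ∑ f ∈ (PMs (HE (2 * t))).filter (fun f => ∀ i, Real' f (T i)), (Zf δ f : ℝ) with hZ
  have hmain := H1Z_sum L (fun c => ∀ i s, padj (c (E ⟨i, s⟩)) (c (E ⟨i, nxt s⟩)))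
    (fun c => Jint S δ L c (fun i => c (ρ i)) (2 * t - L)) K1c (∏ i, (3 ^ (l i) * tau (l i)))
    (10 ^ (2 * t - L) * dfac (6 * t - 2 * L)) ((3 / 10 : ℝ) ^ (3 * t - L)) ε₁ Z
    (by positivity) (by positivity)
    (by
      intro c
      have := hJ c (fun i => c (ρ i))
      push_cast
      exact this)
    (by
      rw [← closedW r l hl1 E]
      congr 2
      ext c
      simp only [Finset.mem_filter])
    (by
      rw [hsum]
      refine Finset.sum_congr rfl fun c _ => ?_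
      simp only [hcol c]
      push_cast
      rfl)
  have hw1 : ∑ f ∈ (PMs (HE (2 * t))).filter (fun f => ∀ i, Real' f (T i)), wZ δ t f
      = Z / (B t * dfac (6 * t)) := by
    unfold wZ
    rw [hZ, Finset.sum_div]
  rw [hw1]
  have ht0 : (0 : ℝ) < t := by exact_mod_cast ht3
  have hBpos : 0 < B t := by unfold B; positivity
  have hprod : ∏ i, (3 ^ (l i) * tau (l i)) = 3 ^ L * ∏ i, tau (l i) := by
    rw [Finset.prod_mul_distrib, Finset.prod_pow_eq_pow_sum]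
  rw [hprod] at hmain
  set q : ℝ := (3 / 10 : ℝ) ^ (3 * t - L) with hq
  set D : ℝ := 10 ^ (2 * t - L) * dfac (6 * t - 2 * L) with hDD
  have hq0 : 0 < q := by positivity
  have hD0 : 0 < D := by positivity
  set y : ℝ := Z / (q * D) with hy
  set R : ℝ := (6 * t : ℝ) ^ L * dfac (6 * t - 2 * L) / dfac (6 * t) with hR
  have hBe : B t = 3 ^ L * (q * 10 ^ (2 * t - L)) := by
    rw [H1Z_B]
    have e1 : (10 : ℝ) ^ (2 * t) = 10 ^ L * 10 ^ (2 * t - L) := by
      rw [← pow_add]; congr 1; omega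
    have e2 : (3 / 10 : ℝ) ^ (3 * t) = (3 / 10) ^ L * (3 / 10) ^ (3 * t - L) := by
      rw [← pow_add]; congr 1; omega
    have e3 : (10 : ℝ) ^ L * (3 / 10) ^ L = 3 ^ L := by
      rw [← mul_pow]; norm_num
    rw [e1, e2, ← hq]
    linear_combination (q * 10 ^ (2 * t - L)) * e3
  have hZy : Z = y * (q * D) := by
    rw [hy]; field_simp
  have hkey : (6 * t : ℝ) ^ L * (Z / (B t * dfac (6 * t))) = R * (y / 3 ^ L) := by
    rw [hZy, hR, hBe, hDD]
    field_simp
  rw [hkey]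
  have h3L : (1 : ℝ) ≤ 3 ^ L := one_le_pow₀ (by norm_num)
  have h3L0 : (0 : ℝ) < 3 ^ L := by positivity
  have hdiff : |y / 3 ^ L - K1c * ∏ i, tau (l i)| ≤ 10 ^ L * ε₁ := by
    have e : y / 3 ^ L - K1c * ∏ i, tau (l i) = (y - (3 ^ L * ∏ i, tau (l i)) * K1c) / 3 ^ L := by
      field_simp
    rw [e, abs_div, abs_of_pos h3L0, div_le_iff₀ h3L0]
    calc |y - (3 ^ L * ∏ i, tau (l i)) * K1c| ≤ 10 ^ L * ε₁ := hmain
      _ = 10 ^ L * ε₁ * 1 := by ring
      _ ≤ 10 ^ L * ε₁ * 3 ^ L := by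
        apply mul_le_mul_of_nonneg_left h3L (by positivity)
  have hR1 : |R - 1| < 1 := lt_of_lt_of_le ht2 (min_le_left _ _)
  have hR2 : |R - 1| < ε / (2 * Q) := lt_of_lt_of_le ht2 (min_le_right _ _)
  have hRabs : |R| ≤ 2 := by
    have := abs_le.1 hR1.le
    rw [abs_le]; constructor <;> linarith [this.1, this.2]
  set F : ℝ := K1c * ∏ i, tau (l i) with hF
  have hFQ : |F| ≤ Q := by rw [hQ]; linarith
  have hsplit : R * (y / 3 ^ L) - F = R * (y / 3 ^ L - F) + (R - 1) * F := by ring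
  rw [hsplit]
  refine (abs_add_le _ _).trans ?_
  rw [abs_mul, abs_mul]
  have s1 : |R| * |y / 3 ^ L - F| ≤ 2 * (10 ^ L * ε₁) :=
    mul_le_mul hRabs hdiff (abs_nonneg _) (by norm_num)
  have s2 : |R - 1| * |F| ≤ ε / (2 * Q) * Q :=
    mul_le_mul hR2.le hFQ (abs_nonneg _) (by positivity)
  have s3 : 2 * (10 ^ L * ε₁) = ε / 2 := by
    rw [hε₁]; field_simp; ring
  have s4 : ε / (2 * Q) * Q = ε / 2 := by field_simp
  rw [s3] at s1
  rw [s4] at s2
  linarith

end Pool.Agent.PET
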