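import Pool.Agent.PET.Defs
/-!
# Mode : comparison of multinomial coefficients

For natural numbers `a, b`:  `a! a^b ≤ b! a^a`  (equivalently `b!/a! ≥ a^{b-a}`; `0^0 = 1`).
Hence for `c : X → ℕ`, `∑ c = M`, and any `c'` with `∑ c' = M`:
`(M!/∏ c'!) ∏ (c_x)^{c'_x} ≤ (M!/∏ c_x!) ∏ c_x^{c_x}` (multiply the inequalities `c_x! c_x^{c'_x} ≤ c'_x! c_x^{c_x}`).
Sum over all `c'` (at most `(M+1)^{|X|}` of them): by the multinomial theorem `M^M = (∑ c_x)^M ≤ (M+1)^{|X|} (M!/∏c_x!)∏ c_x^{c_x}`.
Apply this with `c = 3D`, `M = 3n`:  `1 ≤ (3n+1)^{|X|} multinomial(3D) ∏ (D_x/n)^{3D_x}`.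
Also (one term of the multinomial theorem) `multinomial(D) ∏ (D_x/n)^{D_x} ≤ 1`.
So `multinomial(D) ∏(D_x/n)^{D_x} ≤ 1 ≤ (3n+1)^{|X|} multinomial(3D) ∏ (D_x/n)^{3D_x}`; divide by `∏ (D_x/n)^{D_x} > 0`.
-/
set_option autoImplicit false
open scoped BigOperators Classical
noncomputable section
namespace Pool.Agent.PET

theorem Mode_key (a b : ℕ) : a.factorial * a ^ b ≤ b.factorial * a ^ a := by
  rcases le_total a b with h | h
  · have h1 := Nat.factorial_mul_pow_sub_le_factorial h
    calc a.factorial * a ^ b = (a.factorial * a ^ (b - a)) * a ^ a := by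
          rw [mul_assoc, ← pow_add, Nat.sub_add_cancel h]
      _ ≤ b.factorial * a ^ a := Nat.mul_le_mul_right _ h1
  · have h1 : b.factorial * a.descFactorial (a - b) = a.factorial := by
      have := Nat.factorial_mul_descFactorial (n := a) (k := a - b) (Nat.sub_le a b)
      rwa [Nat.sub_sub_self h] at this
    have h2 := Nat.descFactorial_le_pow a (a - b)
    calc a.factorial * a ^ b = b.factorial * a.descFactorial (a - b) * a ^ b := by rw [h1]
      _ ≤ b.factorial * a ^ (a - b) * a ^ b :=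
          Nat.mul_le_mul_right _ (Nat.mul_le_mul_left _ h2)
      _ = b.factorial * a ^ a := by
          rw [mul_assoc, ← pow_add, Nat.sub_add_cancel h]

theorem Mode_pos {X : Type} [Fintype X] (D : X → ℕ) : 0 < ∏ x, D x ^ D x := by
  refine Finset.prod_pos (fun x _ => ?_)
  rcases Nat.eq_zero_or_pos (D x) with h | h
  · rw [h]
    norm_num
  · exact pow_pos h _

theorem Mode_cmp {X : Type} [Fintype X] (c c' : X → ℕ) (h : ∑ x, c' x = ∑ x, c x) :
    Nat.multinomial Finset.univ c' * ∏ x, c x ^ c' x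
      ≤ Nat.multinomial Finset.univ c * ∏ x, c x ^ c x := by
  have h1 : (∏ x, (c x).factorial) * ∏ x, c x ^ c' x
      ≤ (∏ x, (c' x).factorial) * ∏ x, c x ^ c x := by
    rw [← Finset.prod_mul_distrib, ← Finset.prod_mul_distrib]
    exact Finset.prod_le_prod' (fun x _ => Mode_key (c x) (c' x))
  have hs := Nat.multinomial_spec (Finset.univ : Finset X) c
  have hs' := Nat.multinomial_spec (Finset.univ : Finset X) c'
  have hpos : 0 < ∏ x, (c x).factorial := Finset.prod_pos (fun x _ => Nat.factorial_pos _)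
  refine Nat.le_of_mul_le_mul_left ?_ hpos
  calc (∏ x, (c x).factorial) * (Nat.multinomial Finset.univ c' * ∏ x, c x ^ c' x)
      = Nat.multinomial Finset.univ c' * ((∏ x, (c x).factorial) * ∏ x, c x ^ c' x) := by ring
    _ ≤ Nat.multinomial Finset.univ c' * ((∏ x, (c' x).factorial) * ∏ x, c x ^ c x) :=
        Nat.mul_le_mul_left _ h1
    _ = ((∏ x, (c' x).factorial) * Nat.multinomial Finset.univ c') * ∏ x, c x ^ c x := by ring
    _ = ((∏ x, (c x).factorial) * Nat.multinomial Finset.univ c) * ∏ x, c x ^ c x := by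
        rw [hs, hs', h]
    _ = (∏ x, (c x).factorial) * (Nat.multinomial Finset.univ c * ∏ x, c x ^ c x) := by ring

theorem Mode_card {X : Type} [Fintype X] (M : ℕ) :
    (Finset.piAntidiag (Finset.univ : Finset X) M).card ≤ (M + 1) ^ Fintype.card X := by
  have hsub : Finset.piAntidiag (Finset.univ : Finset X) M
      ⊆ Fintype.piFinset (fun _ : X => Finset.range (M + 1)) := by
    intro c hc
    rw [Finset.mem_piAntidiag] at hc
    rw [Fintype.mem_piFinset]
    intro x
    rw [Finset.mem_range, Nat.lt_succ_iff, ← hc.1]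
    exact Finset.single_le_sum (f := c) (fun _ _ => Nat.zero_le _) (Finset.mem_univ x)
  refine (Finset.card_le_card hsub).trans ?_
  rw [Fintype.card_piFinset]
  simp

theorem Mode_sum {X : Type} [Fintype X] (c : X → ℕ) :
    (∑ x, c x) ^ (∑ x, c x) ≤ ((∑ x, c x) + 1) ^ Fintype.card X *
      (Nat.multinomial Finset.univ c * ∏ x, c x ^ c x) := by
  set M := ∑ x, c x with hM
  have h1 : (∑ x, c x) ^ M = ∑ k ∈ Finset.piAntidiag (Finset.univ : Finset X) M,
      Nat.multinomial Finset.univ k * ∏ i, c i ^ k i := by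
    have := Finset.sum_pow_eq_sum_piAntidiag (Finset.univ : Finset X) c M
    simpa using this
  rw [← hM] at h1
  rw [h1]
  calc ∑ k ∈ Finset.piAntidiag (Finset.univ : Finset X) M,
        Nat.multinomial Finset.univ k * ∏ i, c i ^ k i
      ≤ ∑ _k ∈ Finset.piAntidiag (Finset.univ : Finset X) M,
        (Nat.multinomial Finset.univ c * ∏ x, c x ^ c x) := by
        refine Finset.sum_le_sum (fun k hk => ?_)
        rw [Finset.mem_piAntidiag] at hk
        exact Mode_cmp c k hk.1
    _ = (Finset.piAntidiag (Finset.univ : Finset X) M).card *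
        (Nat.multinomial Finset.univ c * ∏ x, c x ^ c x) := by
        rw [Finset.sum_const, smul_eq_mul]
    _ ≤ _ := Nat.mul_le_mul_right _ (Mode_card M)

theorem Mode_one {X : Type} [Fintype X] (D : X → ℕ) :
    Nat.multinomial Finset.univ D * ∏ x, D x ^ D x ≤ (∑ x, D x) ^ (∑ x, D x) := by
  set M := ∑ x, D x with hM
  have h1 : (∑ x, D x) ^ M = ∑ k ∈ Finset.piAntidiag (Finset.univ : Finset X) M,
      Nat.multinomial Finset.univ k * ∏ i, D i ^ k i := by
    have := Finset.sum_pow_eq_sum_piAntidiag (Finset.univ : Finset X) D M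
    simpa using this
  rw [← hM] at h1
  rw [h1]
  have hmem : D ∈ Finset.piAntidiag (Finset.univ : Finset X) M := by
    rw [Finset.mem_piAntidiag]
    exact ⟨hM.symm, fun i _ => Finset.mem_univ i⟩
  exact Finset.single_le_sum (f := fun k : X → ℕ =>
    Nat.multinomial Finset.univ k * ∏ i, D i ^ k i) (fun _ _ => Nat.zero_le _) hmem

theorem Mode_nat {X : Type} [Fintype X] (D : X → ℕ) (n : ℕ) (hD : ∑ x, D x = n) :
    Nat.multinomial Finset.univ D * n ^ (2 * n) ≤ (3 * n + 1) ^ (Fintype.card X)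
      * Nat.multinomial Finset.univ (fun x => 3 * D x) * ∏ x, D x ^ (2 * D x) := by
  have hsum : ∑ x, 3 * D x = 3 * n := by rw [← Finset.mul_sum, hD]
  have h1 := Mode_sum (fun x => 3 * D x)
  rw [hsum] at h1
  have h3 : ∏ x, (3 * D x) ^ (3 * D x) = 3 ^ (3 * n) * ∏ x, D x ^ (3 * D x) := by
    calc ∏ x, (3 * D x) ^ (3 * D x) = ∏ x, (3 ^ (3 * D x) * D x ^ (3 * D x)) :=
          Finset.prod_congr rfl (fun x _ => mul_pow _ _ _)
      _ = _ := by rw [Finset.prod_mul_distrib, Finset.prod_pow_eq_pow_sum, hsum]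
  rw [h3, mul_pow] at h1
  have h4 : n ^ (3 * n) ≤ (3 * n + 1) ^ Fintype.card X *
      (Nat.multinomial Finset.univ (fun x => 3 * D x) * ∏ x, D x ^ (3 * D x)) := by
    have hp : 0 < 3 ^ (3 * n) := by positivity
    refine Nat.le_of_mul_le_mul_left ?_ hp
    calc 3 ^ (3 * n) * n ^ (3 * n) ≤ _ := h1
      _ = _ := by ring
  have h2 := Mode_one D
  rw [hD] at h2
  have hpos := Mode_pos D
  refine Nat.le_of_mul_le_mul_left ?_ hpos
  have h5 : (∏ x, D x ^ D x) * ∏ x, D x ^ (2 * D x) = ∏ x, D x ^ (3 * D x) := by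
    rw [← Finset.prod_mul_distrib]
    refine Finset.prod_congr rfl (fun x _ => ?_)
    rw [← pow_add]
    congr 1
    ring
  calc (∏ x, D x ^ D x) * (Nat.multinomial Finset.univ D * n ^ (2 * n))
      = (Nat.multinomial Finset.univ D * ∏ x, D x ^ D x) * n ^ (2 * n) := by ring
    _ ≤ n ^ n * n ^ (2 * n) := Nat.mul_le_mul_right _ h2
    _ = n ^ (3 * n) := by rw [← pow_add]; congr 1; ring
    _ ≤ _ := h4
    _ = (3 * n + 1) ^ Fintype.card X * Nat.multinomial Finset.univ (fun x => 3 * D x) *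
        ((∏ x, D x ^ D x) * ∏ x, D x ^ (2 * D x)) := by rw [h5]; ring
    _ = _ := by ring

theorem mode {X : Type} [Fintype X] (D : X → ℕ) (n : ℕ) (hn : 0 < n) (hD : ∑ x, D x = n) :
    (Nat.multinomial Finset.univ D : ℝ) ≤ (3 * n + 1 : ℝ) ^ (Fintype.card X)
      * (Nat.multinomial Finset.univ (fun x => 3 * D x) : ℝ)
      * ∏ x, ((D x : ℝ) / n) ^ (2 * D x) := by
  have h := Mode_nat D n hD
  have hc : (Nat.multinomial Finset.univ D : ℝ) * (n : ℝ) ^ (2 * n) ≤
      (3 * n + 1 : ℝ) ^ (Fintype.card X)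
      * (Nat.multinomial Finset.univ (fun x => 3 * D x) : ℝ) * ∏ x, (D x : ℝ) ^ (2 * D x) := by
    exact_mod_cast h
  have hn' : (0 : ℝ) < (n : ℝ) ^ (2 * n) := by positivity
  have h1 : ∏ x, ((D x : ℝ) / n) ^ (2 * D x) = (∏ x, (D x : ℝ) ^ (2 * D x)) / (n : ℝ) ^ (2 * n) := by
    have h2 : ∏ x : X, (n : ℝ) ^ (2 * D x) = (n : ℝ) ^ (2 * n) := by
      rw [Finset.prod_pow_eq_pow_sum, ← Finset.mul_sum, hD]
    rw [← h2, ← Finset.prod_div_distrib]
    exact Finset.prod_congr rfl (fun x _ => div_pow _ _ _)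
  rw [h1, ← mul_div_assoc, le_div_iff₀ hn']
  exact hc

theorem Mode_mono {X : Type} [Fintype X] (k : X → ℕ) :
    (∏ i, (MvPolynomial.X i : MvPolynomial X ℕ) ^ k i)
      = MvPolynomial.monomial (Finsupp.equivFunOnFinite.symm k) 1 := by
  rw [MvPolynomial.monomial_eq, Finsupp.prod_fintype _ _ (fun i => pow_zero _)]
  simp

/-- number of functions with prescribed counts -/
theorem card_counts {X : Type} [Fintype X] {m : ℕ} (D : X → ℕ) (hD : ∑ x, D x = m) :
    (Finset.univ.filter (fun x : Fin m → X => ∀ a, cntX x a = D a)).card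
      = Nat.multinomial Finset.univ D := by
  have h1 := Finset.sum_pow_eq_sum_piAntidiag (Finset.univ : Finset X)
    (fun i => (MvPolynomial.X i : MvPolynomial X ℕ)) m
  have h2 := Fintype.sum_pow (fun i => (MvPolynomial.X i : MvPolynomial X ℕ)) m
  rw [h2] at h1
  have h3 : ∀ p : Fin m → X, ∏ i, (MvPolynomial.X (p i) : MvPolynomial X ℕ)
      = MvPolynomial.monomial (Finsupp.equivFunOnFinite.symm (fun a => cntX p a)) 1 := by
    intro p
    rw [← Mode_mono]
    rw [← Finset.prod_fiberwise (s := (Finset.univ : Finset (Fin m))) (g := p)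
      (f := fun i => (MvPolynomial.X (p i) : MvPolynomial X ℕ))]
    refine Finset.prod_congr rfl (fun a _ => ?_)
    unfold cntX
    rw [Finset.prod_congr rfl (g := fun _ => (MvPolynomial.X a : MvPolynomial X ℕ))
      (fun i hi => by rw [(Finset.mem_filter.1 hi).2]), Finset.prod_const]
  have h4 := congrArg (MvPolynomial.coeff (Finsupp.equivFunOnFinite.symm D)) h1
  rw [MvPolynomial.coeff_sum, MvPolynomial.coeff_sum] at h4
  have hinj : ∀ k : X → ℕ, (Finsupp.equivFunOnFinite.symm k = Finsupp.equivFunOnFinite.symm D) ↔ k = D :=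
    fun k => Finsupp.equivFunOnFinite.symm.injective.eq_iff
  have h5 : ∑ p : Fin m → X, MvPolynomial.coeff (Finsupp.equivFunOnFinite.symm D)
      (∏ i, (MvPolynomial.X (p i) : MvPolynomial X ℕ))
      = (Finset.univ.filter (fun x : Fin m → X => ∀ a, cntX x a = D a)).card := by
    rw [Finset.card_filter]
    refine Finset.sum_congr rfl (fun p _ => ?_)
    rw [h3, MvPolynomial.coeff_monomial]
    by_cases hp : ∀ a, cntX p a = D a
    · rw [if_pos ((hinj _).2 (funext hp)), if_pos hp]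
    · rw [if_neg (fun h => hp (fun a => congrFun ((hinj _).1 h) a)), if_neg hp]
  have h6 : ∑ k ∈ Finset.piAntidiag (Finset.univ : Finset X) m,
      MvPolynomial.coeff (Finsupp.equivFunOnFinite.symm D)
      ((Nat.multinomial Finset.univ k : MvPolynomial X ℕ) * ∏ i, MvPolynomial.X i ^ k i)
      = Nat.multinomial Finset.univ D := by
    rw [Finset.sum_eq_single D]
    · rw [Mode_mono, ← MvPolynomial.C_eq_coe_nat, MvPolynomial.coeff_C_mul,
        MvPolynomial.coeff_monomial, if_pos rfl, mul_one]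
      exact Nat.cast_id _
    · intro k _ hk
      rw [Mode_mono, ← MvPolynomial.C_eq_coe_nat, MvPolynomial.coeff_C_mul,
        MvPolynomial.coeff_monomial, if_neg (fun h => hk ((hinj _).1 h)), mul_zero]
    · intro h
      exact absurd (Finset.mem_piAntidiag.2 ⟨hD, fun i _ => Finset.mem_univ i⟩) h
  rw [h5, h6] at h4
  exact_mod_cast h4

end Pool.Agent.PET
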