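import Pool.Agent.PET.MRec
import Pool.Agent.PET.Mode
/-!
# HafB : upper bound for the number of compatible matchings

Let `H = HE n`, `n = 2t`, `|H| = 6t`, `y0 h = x h.1` (each type `a` has `3 cntX x a` half-edges).  For every matching `f`
`∑_{y : H → X} [Compat A y f] ∏_h z (y h) = (∑_{a,b} [A a b] z_a z_b)^{3t}` (the sum factorises over the `3t` pairs of `f`;
`A` symmetric).  Sum over `f ∈ PMs H` (`card = dfac (6t)`), exchange the sums and keep only the typings `y` with the same counts as `y0`:
for each such `y` there is a permutation `e` of `H` with `y = y0 ∘ e`, so `cnt A y = cnt A y0` (`cnt_equiv`), and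
`∏_h z (y h) = ∏_a z_a^{3 cntX x a}`; the number of such `y` is `multinomial (3 cntX x)`.
-/
set_option autoImplicit false
open scoped BigOperators Classical
noncomputable section
namespace Pool.Agent.PET

/-- factorization over the pairs of the matching -/
theorem HafB_fact {X : Type} [Fintype X] (A : X → X → Prop) (hA : ∀ u v, A u v → A v u)
    {s : ℕ} (f : Fin (2 * s) → Fin (2 * s)) (hf : IsPM f) (z : X → ℝ) :
    ∑ y : Fin (2 * s) → X, (if Compat A y f then ∏ h, z (y h) else 0) =
      (∑ a, ∑ b, if A a b then z a * z b else 0) ^ s := by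
  obtain ⟨hf1, hf2⟩ := hf
  have hinj : Function.Injective f := fun a b h => by rw [← hf1 a, h, hf1 b]
  have hlt : ∀ h, ¬ h < f h → f h < f (f h) := by
    intro h hh
    rw [hf1]
    exact lt_of_le_of_ne (not_lt.mp hh) (hf2 h)
  have hlt' : ∀ h, h < f h → ¬ f h < f (f h) := by
    intro h hh
    rw [hf1]
    exact not_lt.mpr hh.le
  set R := {h : Fin (2 * s) // h < f h} with hR
  -- the product splits
  have hsplit : ∀ g : Fin (2 * s) → ℝ, ∏ h, g h = ∏ r : R, (g r.1 * g (f r.1)) := by
    intro g
    rw [Finset.prod_mul_distrib]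
    rw [← Finset.prod_filter_mul_prod_filter_not Finset.univ (fun h => h < f h)]
    congr 1
    · rw [Finset.prod_subtype (Finset.univ.filter (fun h => h < f h)) (p := fun h => h < f h)
        (by simp)]
    · rw [Finset.prod_subtype (Finset.univ.filter (fun h => ¬ h < f h)) (p := fun h => ¬ h < f h)
        (by simp)]
      refine Fintype.prod_bijective (fun h : {h : Fin (2 * s) // ¬ h < f h} =>
        (⟨f h.1, hlt h.1 h.2⟩ : R)) ?_ _ _ ?_
      · constructor
        · intro a b h
          have := congrArg Subtype.val h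
          exact Subtype.ext (hinj this)
        · intro r
          exact ⟨⟨f r.1, hlt' r.1 r.2⟩, Subtype.ext (hf1 r.1)⟩
      · intro h
        simp only
        rw [hf1]
  have hcard : Fintype.card R = s := by
    have h1 : Fintype.card R = Fintype.card {h : Fin (2 * s) // ¬ h < f h} := by
      apply Fintype.card_congr
      refine ⟨fun r => ⟨f r.1, hlt' r.1 r.2⟩, fun h => ⟨f h.1, hlt h.1 h.2⟩, ?_, ?_⟩
      · intro r
        exact Subtype.ext (hf1 r.1)
      · intro r
        exact Subtype.ext (hf1 r.1)
    have h2 := Fintype.card_subtype_compl (fun h : Fin (2 * s) => h < f h)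
    rw [Fintype.card_fin] at h2
    have h3 : Fintype.card {h : Fin (2 * s) // h < f h} ≤ 2 * s := by
      have := Fintype.card_subtype_le (fun h : Fin (2 * s) => h < f h)
      rwa [Fintype.card_fin] at this
    have h4 : Fintype.card R = Fintype.card {h : Fin (2 * s) // h < f h} := rfl
    omega
  -- the bijection of typings
  set Ψ : (Fin (2 * s) → X) → (R → X × X) := fun y r => (y r.1, y (f r.1)) with hΨ
  have hbij : Function.Bijective Ψ := by
    constructor
    · intro y y' h
      funext k
      by_cases hk : k < f k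
      · have := congrFun h ⟨k, hk⟩
        rw [hΨ] at this
        simp only [Prod.mk.injEq] at this
        exact this.1
      · have := congrFun h ⟨f k, hlt k hk⟩
        rw [hΨ] at this
        simp only [Prod.mk.injEq, hf1] at this
        exact this.2
    · intro p
      refine ⟨fun k => if hk : k < f k then (p ⟨k, hk⟩).1 else (p ⟨f k, hlt k hk⟩).2, ?_⟩
      funext r
      rw [hΨ]
      simp only
      rw [dif_pos r.2, dif_neg (hlt' r.1 r.2)]
      have : (⟨f (f r.1), hlt (f r.1) (hlt' r.1 r.2)⟩ : R) = r := Subtype.ext (hf1 r.1)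
      rw [this]
  have hterm : ∀ y : Fin (2 * s) → X, (if Compat A y f then ∏ h, z (y h) else 0) =
      ∏ r : R, (if A (Ψ y r).1 (Ψ y r).2 then z (Ψ y r).1 * z (Ψ y r).2 else 0) := by
    intro y
    have hc : Compat A y f ↔ ∀ r : R, A (y r.1) (y (f r.1)) := by
      constructor
      · intro h r
        exact h r.1
      · intro h k
        by_cases hk : k < f k
        · exact h ⟨k, hk⟩
        · have := h ⟨f k, hlt k hk⟩
          simp only [hf1] at this
          exact hA _ _ this
    by_cases h : Compat A y f
    · rw [if_pos h, hsplit]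
      apply Finset.prod_congr rfl
      intro r _
      rw [hΨ]
      simp only
      rw [if_pos (hc.mp h r)]
    · rw [if_neg h]
      rw [hc] at h
      push Not at h
      obtain ⟨r, hr⟩ := h
      symm
      apply Finset.prod_eq_zero (Finset.mem_univ r)
      rw [hΨ]
      simp only
      rw [if_neg hr]
  simp only [hterm]
  rw [Fintype.sum_bijective Ψ hbij _ (fun p : R → X × X =>
    ∏ r : R, (if A (p r).1 (p r).2 then z (p r).1 * z (p r).2 else 0)) (fun _ => rfl)]
  have h5 := Finset.prod_univ_sum (fun _ : R => (Finset.univ : Finset (X × X)))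
    (fun _ p => if A p.1 p.2 then z p.1 * z p.2 else (0 : ℝ))
  rw [Fintype.piFinset_univ, Finset.prod_const, Finset.card_univ, hcard] at h5
  rw [← h5, Fintype.sum_prod_type]

theorem HafB_gen {X : Type} [Fintype X] (A : X → X → Prop) (hA : ∀ u v, A u v → A v u) (s : ℕ)
    (y0 : Fin (2 * s) → X) (z : X → ℝ) (hz : ∀ a, 0 ≤ z a) :
    (cnt A y0 : ℝ) * (Nat.multinomial Finset.univ (cntX y0) : ℝ) * ∏ a, z a ^ (cntX y0 a)
      ≤ dfac (2 * s) * (∑ a, ∑ b, if A a b then z a * z b else 0) ^ s := by
  have hpm : ((PMs (Fin (2 * s))).card : ℝ) = dfac (2 * s) := by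
    have := card_PMs (H := Fin (2 * s)) (by rw [Fintype.card_fin]; exact even_two_mul s)
    rwa [Fintype.card_fin] at this
  have hsum : ∑ y : Fin (2 * s) → X, (cnt A y : ℝ) * ∏ h, z (y h) =
      dfac (2 * s) * (∑ a, ∑ b, if A a b then z a * z b else 0) ^ s := by
    calc ∑ y : Fin (2 * s) → X, (cnt A y : ℝ) * ∏ h, z (y h)
        = ∑ y : Fin (2 * s) → X, ∑ f ∈ PMs (Fin (2 * s)),
          (if Compat A y f then ∏ h, z (y h) else 0) := by
          apply Finset.sum_congr rfl
          intro y _
          unfold cnt
          rw [← Finset.sum_filter, Finset.sum_const, nsmul_eq_mul]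
      _ = ∑ f ∈ PMs (Fin (2 * s)), ∑ y : Fin (2 * s) → X,
          (if Compat A y f then ∏ h, z (y h) else 0) := Finset.sum_comm
      _ = ∑ f ∈ PMs (Fin (2 * s)), (∑ a, ∑ b, if A a b then z a * z b else 0) ^ s := by
          apply Finset.sum_congr rfl
          intro f hf
          exact HafB_fact A hA f ((mem_PMs f).mp hf) z
      _ = _ := by
          rw [Finset.sum_const, nsmul_eq_mul, hpm]
  rw [← hsum]
  have hcount : ∑ a, cntX y0 a = 2 * s := by
    unfold cntX
    have := Finset.card_eq_sum_card_fiberwise (f := y0) (s := Finset.univ) (t := Finset.univ)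
      (fun _ _ => Finset.mem_univ _)
    rw [Finset.card_univ, Fintype.card_fin] at this
    exact this.symm
  have hprod : ∀ y : Fin (2 * s) → X, ∏ h, z (y h) = ∏ a, z a ^ (cntX y a) := by
    intro y
    unfold cntX
    rw [← Finset.prod_fiberwise_of_maps_to (s := Finset.univ) (t := Finset.univ) (g := y)
      (fun _ _ => Finset.mem_univ _)]
    apply Finset.prod_congr rfl
    intro a _
    rw [Finset.prod_congr rfl (g := fun _ => z a), Finset.prod_const]
    intro h hh
    rw [(Finset.mem_filter.mp hh).2]
  have hcnteq : ∀ y : Fin (2 * s) → X, (∀ a, cntX y a = cntX y0 a) → cnt A y = cnt A y0 := by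
    intro y hy
    have he : ∀ c, Nonempty ({a // y a = c} ≃ {b // y0 b = c}) := by
      intro c
      have := hy c
      unfold cntX at this
      rw [← Fintype.card_subtype, ← Fintype.card_subtype] at this
      exact ⟨Fintype.equivOfCardEq this⟩
    let e := Equiv.ofFiberEquiv (fun c => (he c).some)
    have h1 : y = fun h => y0 (e h) := by
      funext h
      exact (Equiv.ofFiberEquiv_map (fun c => (he c).some) h).symm
    rw [h1]
    exact cnt_equiv A e y0
  calc (cnt A y0 : ℝ) * (Nat.multinomial Finset.univ (cntX y0) : ℝ) * ∏ a, z a ^ (cntX y0 a)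
      = ∑ y ∈ Finset.univ.filter (fun y : Fin (2 * s) → X => ∀ a, cntX y a = cntX y0 a),
        (cnt A y : ℝ) * ∏ h, z (y h) := by
        rw [← card_counts (cntX y0) hcount]
        rw [Finset.sum_congr rfl (g := fun _ => (cnt A y0 : ℝ) * ∏ a, z a ^ (cntX y0 a)),
          Finset.sum_const, nsmul_eq_mul]
        · ring
        · intro y hy
          have hy := (Finset.mem_filter.mp hy).2
          rw [hcnteq y hy, hprod]
          congr 1
          apply Finset.prod_congr rfl
          intro a _
          rw [hy a]
    _ ≤ ∑ y : Fin (2 * s) → X, (cnt A y : ℝ) * ∏ h, z (y h) := by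
        apply Finset.sum_le_sum_of_subset_of_nonneg (Finset.filter_subset _ _)
        intro y _ _
        exact mul_nonneg (Nat.cast_nonneg _) (Finset.prod_nonneg (fun h _ => hz _))

theorem hafB {X : Type} [Fintype X] (A : X → X → Prop) (hA : ∀ u v, A u v → A v u) (t : ℕ)
    (x : Fin (2 * t) → X) (z : X → ℝ) (hz : ∀ a, 0 ≤ z a) :
    (cnt A (fun h : HE (2 * t) => x h.1) : ℝ)
      * (Nat.multinomial Finset.univ (fun a => 3 * cntX x a) : ℝ) * ∏ a, z a ^ (3 * cntX x a)
      ≤ dfac (6 * t) * (∑ a, ∑ b, if A a b then z a * z b else 0) ^ (3 * t) := by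
  have hc : Fintype.card (Fin (2 * (3 * t))) = Fintype.card (HE (2 * t)) := by
    simp only [Fintype.card_prod, Fintype.card_fin]
    ring
  let e : Fin (2 * (3 * t)) ≃ HE (2 * t) := Fintype.equivOfCardEq hc
  have h1 := HafB_gen A hA (3 * t) (fun i => x (e i).1) z hz
  have h2 : cnt A (fun i => x (e i).1) = cnt A (fun h : HE (2 * t) => x h.1) :=
    cnt_equiv A e (fun h : HE (2 * t) => x h.1)
  have h3 : cntX (fun i => x (e i).1) = fun a => 3 * cntX x a := by
    funext a
    unfold cntX
    have h4 : (Finset.univ.filter (fun i => x (e i).1 = a)).card =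
        (Finset.univ.filter (fun h : HE (2 * t) => x h.1 = a)).card := by
      apply Finset.card_bij (fun i _ => e i)
      · intro i hi
        rw [Finset.mem_filter] at hi ⊢
        exact ⟨Finset.mem_univ _, hi.2⟩
      · intro i _ j _ h
        exact e.injective h
      · intro h hh
        refine ⟨e.symm h, ?_, by simp⟩
        rw [Finset.mem_filter] at hh ⊢
        simpa using hh.2
    rw [h4]
    have h5 : (Finset.univ.filter (fun h : HE (2 * t) => x h.1 = a)) =
        (Finset.univ.filter (fun v => x v = a)) ×ˢ (Finset.univ : Finset (Fin 3)) := by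
      ext ⟨v, j⟩
      simp
    rw [h5, Finset.card_product, Finset.card_univ, Fintype.card_fin]
    ring
  rw [h2, h3] at h1
  have h6 : 2 * (3 * t) = 6 * t := by ring
  rw [h6] at h1
  exact h1

end Pool.Agent.PET
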