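import Pool.Agent.PET.CDefs
/-!
# HomZ : a compatible typing gives a homomorphism to the Petersen graph

If `Zf δ f > 0` there is `σ : Fin n → Fin 10` with `padj (σ h.1) (σ (f h).1)` for all half-edges `h`.  Map `v` to the 2-subset
`{(pv (σ v)).1, (pv (σ v)).2}` of `Fin 5`.  If `(Gr f).Adj u v` then some half-edge of `u` is matched with a half-edge of `v` (or the other way
round), so `padj (σ u) (σ v)` (`padj` symmetric): the two 2-subsets are disjoint, hence different and adjacent in `petersen`.
-/
set_option autoImplicit false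
open scoped BigOperators Classical
open Filter MeasureTheory
noncomputable section
namespace Pool.Agent.PET

theorem HomZ_card (x : Fin 10) : ({(pv x).1, (pv x).2} : Finset (Fin 5)).card = 2 := by
  rw [Finset.card_pair]
  fin_cases x <;> simp [pv]

def HomZ_P (x : Fin 10) : PetersenV := ⟨{(pv x).1, (pv x).2}, HomZ_card x⟩

theorem HomZ_adj (x y : Fin 10) (h : padj x y) : petersen.Adj (HomZ_P x) (HomZ_P y) := by
  have hd : Disjoint (HomZ_P x).1 (HomZ_P y).1 := by
    rw [Finset.disjoint_left]
    intro a ha hb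
    simp only [HomZ_P, Finset.mem_insert, Finset.mem_singleton] at ha hb
    obtain ⟨h1, h2, h3, h4⟩ := h
    rcases ha with ha | ha <;> rcases hb with hb | hb
    · exact h1 (ha ▸ hb)
    · exact h2 (ha ▸ hb)
    · exact h3 (ha ▸ hb)
    · exact h4 (ha ▸ hb)
  rw [SimpleGraph.fromRel_adj]
  refine ⟨?_, Or.inl hd⟩
  intro he
  rw [he] at hd
  have := (HomZ_P y).2
  rw [disjoint_self] at hd
  rw [hd] at this
  simp at this

theorem hom_of_Zf {n : ℕ} (δ : ℝ) (f : HE n → HE n) (h : 0 < Zf δ f) : Nonempty (Gr f →g petersen) := by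
  unfold Zf at h
  obtain ⟨σ, hσ⟩ := Finset.card_pos.1 h
  rw [Finset.mem_filter] at hσ
  have hc := hσ.2.2
  refine ⟨⟨fun v => HomZ_P (σ v), ?_⟩⟩
  intro u v huv
  obtain ⟨-, ⟨i, j, hij⟩ | ⟨i, j, hij⟩⟩ := huv
  · have := hc (u, i)
    simp only [hij] at this
    exact HomZ_adj _ _ this
  · have := hc (v, i)
    simp only [hij] at this
    exact (HomZ_adj _ _ this).symm

end Pool.Agent.PET
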