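import Pool.Agent.PET.PDefs
/-!
# K5m : moments of eigenfunctions of the Petersen graph

Vertices of the Petersen graph = edges `{i,j}` of `K_5` (`pv`).  `Ad f = f` : eigenvalue 1 (5-dim.),
`Ad f = -2 f` : eigenvalue -2 (4-dim.).  Both imply `∑ f = 0` (sum the equation: every vertex has 3 neighbours).

`m1`: for `Ad β = β`: `β = P1 β`, `β_x = ∑_y K(x,y) β_y`, `K = (4 I + 2 A - J)/6` has `∑_y K(x,y)² = 1/2`; Cauchy-Schwarz: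
`β_x² ≤ (1/2)∑ β² = 5 Av β²`.
`m2`: for `Ad γ = -2γ`: `γ = P2 γ`, kernel `(I - A)/3 + J/15`, `∑_y K(x,y)² = 2/5`, so `γ_x² ≤ (2/5)∑γ² = 4 Av γ²`.
`m4`, `m3`: put `y_i = (1/3)∑_{e ∋ i} γ_e` (`i < 5`); `Ad γ = -2γ` gives `∑ y_i = 0` and `γ_{ij} = y_i + y_j`.  With `Y = ∑ y_i²`,
`q = ∑ y_i⁴`:  `Av γ² = (3/10) Y`,  `Av γ³ = (1/10) ∑ y_i³`.
`(∑ y³)² ≤ (9/20) Y³`: let `M = max y_i` (if `∑y³ ≥ 0`; replace `y` by `-y` otherwise); `M² ≤ (4/5) Y` (as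
`(∑_{j≠i} y_j)² ≤ 4 ∑_{j≠i} y_j²`), and `0 ≤ ∑ (y_i + M/4)² (M - y_i) = (M/2) Y + (5/16) M³ - ∑ y³`, so
`∑ y³ ≤ (M/2) Y + (5/16)M³ ≤ ((1/2)√(4/5) + (5/16)(4/5)^{3/2}) Y^{3/2} = (3/√20) Y^{3/2}`.
`m3`: `Ad β = β` implies `∑_{e ∋ i} β_e = 0` for every `i`, hence
`Av(β γ²) = Av(β h)` with `h_{ij} = 2 y_i y_j + (2/3)(y_i² + y_j²) - Y/6`, and `Av h² = (13/60) Y² - q/3 ≤ (3/20) Y²` (`q ≥ Y²/5`),
`(3/20)Y² = (5/3)(Av γ²)²`; Cauchy-Schwarz.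
-/
set_option autoImplicit false
open scoped BigOperators
noncomputable section
namespace Pool.Agent.PET

theorem K5m_S10 (f : Fin 10 → ℝ) : ∑ x, f x =
    f 0 + f 1 + f 2 + f 3 + f 4 + f 5 + f 6 + f 7 + f 8 + f 9 := by
  simp only [Fin.sum_univ_castSucc, Finset.univ_eq_empty, Finset.sum_empty, zero_add]
  rfl

theorem K5m_Ad0 (f : Fin 10 → ℝ) : Ad f 0 = f 7 + f 8 + f 9 := by
  have h : Finset.univ.filter (fun y => padj 0 y) = ({7, 8, 9} : Finset (Fin 10)) := by decide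
  rw [Ad, h, Finset.sum_insert (by decide), Finset.sum_insert (by decide), Finset.sum_singleton,
    add_assoc]

theorem K5m_Ad1 (f : Fin 10 → ℝ) : Ad f 1 = f 5 + f 6 + f 9 := by
  have h : Finset.univ.filter (fun y => padj 1 y) = ({5, 6, 9} : Finset (Fin 10)) := by decide
  rw [Ad, h, Finset.sum_insert (by decide), Finset.sum_insert (by decide), Finset.sum_singleton,
    add_assoc]

theorem K5m_Ad2 (f : Fin 10 → ℝ) : Ad f 2 = f 4 + f 6 + f 8 := by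
  have h : Finset.univ.filter (fun y => padj 2 y) = ({4, 6, 8} : Finset (Fin 10)) := by decide
  rw [Ad, h, Finset.sum_insert (by decide), Finset.sum_insert (by decide), Finset.sum_singleton,
    add_assoc]

theorem K5m_Ad3 (f : Fin 10 → ℝ) : Ad f 3 = f 4 + f 5 + f 7 := by
  have h : Finset.univ.filter (fun y => padj 3 y) = ({4, 5, 7} : Finset (Fin 10)) := by decide
  rw [Ad, h, Finset.sum_insert (by decide), Finset.sum_insert (by decide), Finset.sum_singleton,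
    add_assoc]

theorem K5m_Ad4 (f : Fin 10 → ℝ) : Ad f 4 = f 2 + f 3 + f 9 := by
  have h : Finset.univ.filter (fun y => padj 4 y) = ({2, 3, 9} : Finset (Fin 10)) := by decide
  rw [Ad, h, Finset.sum_insert (by decide), Finset.sum_insert (by decide), Finset.sum_singleton,
    add_assoc]

theorem K5m_Ad5 (f : Fin 10 → ℝ) : Ad f 5 = f 1 + f 3 + f 8 := by
  have h : Finset.univ.filter (fun y => padj 5 y) = ({1, 3, 8} : Finset (Fin 10)) := by decide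
  rw [Ad, h, Finset.sum_insert (by decide), Finset.sum_insert (by decide), Finset.sum_singleton,
    add_assoc]

theorem K5m_Ad6 (f : Fin 10 → ℝ) : Ad f 6 = f 1 + f 2 + f 7 := by
  have h : Finset.univ.filter (fun y => padj 6 y) = ({1, 2, 7} : Finset (Fin 10)) := by decide
  rw [Ad, h, Finset.sum_insert (by decide), Finset.sum_insert (by decide), Finset.sum_singleton,
    add_assoc]

theorem K5m_Ad7 (f : Fin 10 → ℝ) : Ad f 7 = f 0 + f 3 + f 6 := by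
  have h : Finset.univ.filter (fun y => padj 7 y) = ({0, 3, 6} : Finset (Fin 10)) := by decide
  rw [Ad, h, Finset.sum_insert (by decide), Finset.sum_insert (by decide), Finset.sum_singleton,
    add_assoc]

theorem K5m_Ad8 (f : Fin 10 → ℝ) : Ad f 8 = f 0 + f 2 + f 5 := by
  have h : Finset.univ.filter (fun y => padj 8 y) = ({0, 2, 5} : Finset (Fin 10)) := by decide
  rw [Ad, h, Finset.sum_insert (by decide), Finset.sum_insert (by decide), Finset.sum_singleton,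
    add_assoc]

theorem K5m_Ad9 (f : Fin 10 → ℝ) : Ad f 9 = f 0 + f 1 + f 4 := by
  have h : Finset.univ.filter (fun y => padj 9 y) = ({0, 1, 4} : Finset (Fin 10)) := by decide
  rw [Ad, h, Finset.sum_insert (by decide), Finset.sum_insert (by decide), Finset.sum_singleton,
    add_assoc]

theorem K5m_eig1 (β : Fin 10 → ℝ) (h : Ad β = β) :
    β 7 + β 8 + β 9 = β 0 ∧ β 5 + β 6 + β 9 = β 1 ∧ β 4 + β 6 + β 8 = β 2 ∧ β 4 + β 5 + β 7 = β 3 ∧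
    β 2 + β 3 + β 9 = β 4 ∧ β 1 + β 3 + β 8 = β 5 ∧ β 1 + β 2 + β 7 = β 6 ∧ β 0 + β 3 + β 6 = β 7 ∧ β 0 + β 2 + β 5 = β 8 ∧ β 0 + β 1 + β 4 = β 9 := by
  refine ⟨?_, ?_, ?_, ?_, ?_, ?_, ?_, ?_, ?_, ?_⟩
  · rw [← K5m_Ad0, h]
  · rw [← K5m_Ad1, h]
  · rw [← K5m_Ad2, h]
  · rw [← K5m_Ad3, h]
  · rw [← K5m_Ad4, h]
  · rw [← K5m_Ad5, h]
  · rw [← K5m_Ad6, h]
  · rw [← K5m_Ad7, h]
  · rw [← K5m_Ad8, h]
  · rw [← K5m_Ad9, h]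

theorem K5m_eig2 (γ : Fin 10 → ℝ) (h : Ad γ = fun x => -2 * γ x) :
    γ 7 + γ 8 + γ 9 = -2 * γ 0 ∧
    γ 5 + γ 6 + γ 9 = -2 * γ 1 ∧
    γ 4 + γ 6 + γ 8 = -2 * γ 2 ∧
    γ 4 + γ 5 + γ 7 = -2 * γ 3 ∧
    γ 2 + γ 3 + γ 9 = -2 * γ 4 ∧
    γ 1 + γ 3 + γ 8 = -2 * γ 5 ∧
    γ 1 + γ 2 + γ 7 = -2 * γ 6 ∧
    γ 0 + γ 3 + γ 6 = -2 * γ 7 ∧
    γ 0 + γ 2 + γ 5 = -2 * γ 8 ∧
    γ 0 + γ 1 + γ 4 = -2 * γ 9 := by
  refine ⟨?_, ?_, ?_, ?_, ?_, ?_, ?_, ?_, ?_, ?_⟩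
  · rw [← K5m_Ad0, h]
  · rw [← K5m_Ad1, h]
  · rw [← K5m_Ad2, h]
  · rw [← K5m_Ad3, h]
  · rw [← K5m_Ad4, h]
  · rw [← K5m_Ad5, h]
  · rw [← K5m_Ad6, h]
  · rw [← K5m_Ad7, h]
  · rw [← K5m_Ad8, h]
  · rw [← K5m_Ad9, h]

theorem sum_zero_of_eig1 (β : Fin 10 → ℝ) (h : Ad β = β) : ∑ x, β x = 0 := by
  obtain ⟨h0, h1, h2, h3, h4, h5, h6, h7, h8, h9⟩ := K5m_eig1 β h
  rw [K5m_S10]
  linarith

theorem sum_zero_of_eig2 (γ : Fin 10 → ℝ) (h : Ad γ = fun x => -2 * γ x) : ∑ x, γ x = 0 := by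
  obtain ⟨h0, h1, h2, h3, h4, h5, h6, h7, h8, h9⟩ := K5m_eig2 γ h
  rw [K5m_S10]
  linarith

/-- a function in the eigenspace `-2` comes from a function on the five points -/
theorem K5m_par (γ : Fin 10 → ℝ) (h : Ad γ = fun x => -2 * γ x) :
    ∃ a b c d e : ℝ, a + b + c + d + e = 0 ∧ γ 0 = a + b ∧ γ 1 = a + c ∧ γ 2 = a + d ∧
      γ 3 = a + e ∧ γ 4 = b + c ∧ γ 5 = b + d ∧ γ 6 = b + e ∧ γ 7 = c + d ∧ γ 8 = c + e ∧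
      γ 9 = d + e := by
  obtain ⟨h0, h1, h2, h3, h4, h5, h6, h7, h8, h9⟩ := K5m_eig2 γ h
  refine ⟨(γ 0 + γ 1 + γ 2 + γ 3) / 3, (γ 0 + γ 4 + γ 5 + γ 6) / 3, (γ 1 + γ 4 + γ 7 + γ 8) / 3,
    (γ 2 + γ 5 + γ 7 + γ 9) / 3, (γ 3 + γ 6 + γ 8 + γ 9) / 3, ?_, ?_, ?_, ?_, ?_, ?_, ?_, ?_, ?_,
    ?_, ?_⟩ <;> linarith

/-- a function in the eigenspace `1` is orthogonal to the stars -/
theorem K5m_star (β : Fin 10 → ℝ) (h : Ad β = β) :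
    β 0 + β 1 + β 2 + β 3 = 0 ∧ β 0 + β 4 + β 5 + β 6 = 0 ∧ β 1 + β 4 + β 7 + β 8 = 0 ∧
      β 2 + β 5 + β 7 + β 9 = 0 ∧ β 3 + β 6 + β 8 + β 9 = 0 := by
  obtain ⟨h0, h1, h2, h3, h4, h5, h6, h7, h8, h9⟩ := K5m_eig1 β h
  refine ⟨?_, ?_, ?_, ?_, ?_⟩ <;> linarith

theorem orth12 (β γ : Fin 10 → ℝ) (hβ : Ad β = β) (hγ : Ad γ = fun x => -2 * γ x) :
    ∑ x, β x * γ x = 0 := by
  obtain ⟨a, b, c, d, e, h, g0, g1, g2, g3, g4, g5, g6, g7, g8, g9⟩ := K5m_par γ hγ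
  obtain ⟨s0, s1, s2, s3, s4⟩ := K5m_star β hβ
  rw [K5m_S10, g0, g1, g2, g3, g4, g5, g6, g7, g8, g9]
  linear_combination a * s0 + b * s1 + c * s2 + d * s3 + e * s4

theorem m1 (β : Fin 10 → ℝ) (h : Ad β = β) (x : Fin 10) : β x ^ 2 ≤ 5 * Av (fun x => β x ^ 2) := by
  have hs := sum_zero_of_eig1 β h
  rw [K5m_S10] at hs
  obtain ⟨h0, h1, h2, h3, h4, h5, h6, h7, h8, h9⟩ := K5m_eig1 β h
  rw [Av, K5m_S10]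
  fin_cases x
  · change β 0 ^ 2 ≤ _
    have e1 : β 0 * (β 7 + β 8 + β 9) = β 0 * β 0 := by rw [h0]
    have e2 : β 0 * (β 0 + β 1 + β 2 + β 3 + β 4 + β 5 + β 6 + β 7 + β 8 + β 9) = 0 := by
      rw [hs, mul_zero]
    clear hs h0 h1 h2 h3 h4 h5 h6 h7 h8 h9
    linarith [sq_nonneg (β 7 - β 0 / 3), sq_nonneg (β 8 - β 0 / 3), sq_nonneg (β 9 - β 0 / 3), sq_nonneg (β 1 + β 0 / 3),
      sq_nonneg (β 2 + β 0 / 3), sq_nonneg (β 3 + β 0 / 3), sq_nonneg (β 4 + β 0 / 3),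
      sq_nonneg (β 5 + β 0 / 3), sq_nonneg (β 6 + β 0 / 3)]
  · change β 1 ^ 2 ≤ _
    have e1 : β 1 * (β 5 + β 6 + β 9) = β 1 * β 1 := by rw [h1]
    have e2 : β 1 * (β 0 + β 1 + β 2 + β 3 + β 4 + β 5 + β 6 + β 7 + β 8 + β 9) = 0 := by
      rw [hs, mul_zero]
    clear hs h0 h1 h2 h3 h4 h5 h6 h7 h8 h9
    linarith [sq_nonneg (β 5 - β 1 / 3), sq_nonneg (β 6 - β 1 / 3), sq_nonneg (β 9 - β 1 / 3), sq_nonneg (β 0 + β 1 / 3),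
      sq_nonneg (β 2 + β 1 / 3), sq_nonneg (β 3 + β 1 / 3), sq_nonneg (β 4 + β 1 / 3),
      sq_nonneg (β 7 + β 1 / 3), sq_nonneg (β 8 + β 1 / 3)]
  · change β 2 ^ 2 ≤ _
    have e1 : β 2 * (β 4 + β 6 + β 8) = β 2 * β 2 := by rw [h2]
    have e2 : β 2 * (β 0 + β 1 + β 2 + β 3 + β 4 + β 5 + β 6 + β 7 + β 8 + β 9) = 0 := by
      rw [hs, mul_zero]
    clear hs h0 h1 h2 h3 h4 h5 h6 h7 h8 h9
    linarith [sq_nonneg (β 4 - β 2 / 3), sq_nonneg (β 6 - β 2 / 3), sq_nonneg (β 8 - β 2 / 3), sq_nonneg (β 0 + β 2 / 3),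
      sq_nonneg (β 1 + β 2 / 3), sq_nonneg (β 3 + β 2 / 3), sq_nonneg (β 5 + β 2 / 3),
      sq_nonneg (β 7 + β 2 / 3), sq_nonneg (β 9 + β 2 / 3)]
  · change β 3 ^ 2 ≤ _
    have e1 : β 3 * (β 4 + β 5 + β 7) = β 3 * β 3 := by rw [h3]
    have e2 : β 3 * (β 0 + β 1 + β 2 + β 3 + β 4 + β 5 + β 6 + β 7 + β 8 + β 9) = 0 := by
      rw [hs, mul_zero]
    clear hs h0 h1 h2 h3 h4 h5 h6 h7 h8 h9
    linarith [sq_nonneg (β 4 - β 3 / 3), sq_nonneg (β 5 - β 3 / 3), sq_nonneg (β 7 - β 3 / 3), sq_nonneg (β 0 + β 3 / 3),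
      sq_nonneg (β 1 + β 3 / 3), sq_nonneg (β 2 + β 3 / 3), sq_nonneg (β 6 + β 3 / 3),
      sq_nonneg (β 8 + β 3 / 3), sq_nonneg (β 9 + β 3 / 3)]
  · change β 4 ^ 2 ≤ _
    have e1 : β 4 * (β 2 + β 3 + β 9) = β 4 * β 4 := by rw [h4]
    have e2 : β 4 * (β 0 + β 1 + β 2 + β 3 + β 4 + β 5 + β 6 + β 7 + β 8 + β 9) = 0 := by
      rw [hs, mul_zero]
    clear hs h0 h1 h2 h3 h4 h5 h6 h7 h8 h9
    linarith [sq_nonneg (β 2 - β 4 / 3), sq_nonneg (β 3 - β 4 / 3), sq_nonneg (β 9 - β 4 / 3), sq_nonneg (β 0 + β 4 / 3),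
      sq_nonneg (β 1 + β 4 / 3), sq_nonneg (β 5 + β 4 / 3), sq_nonneg (β 6 + β 4 / 3),
      sq_nonneg (β 7 + β 4 / 3), sq_nonneg (β 8 + β 4 / 3)]
  · change β 5 ^ 2 ≤ _
    have e1 : β 5 * (β 1 + β 3 + β 8) = β 5 * β 5 := by rw [h5]
    have e2 : β 5 * (β 0 + β 1 + β 2 + β 3 + β 4 + β 5 + β 6 + β 7 + β 8 + β 9) = 0 := by
      rw [hs, mul_zero]
    clear hs h0 h1 h2 h3 h4 h5 h6 h7 h8 h9
    linarith [sq_nonneg (β 1 - β 5 / 3), sq_nonneg (β 3 - β 5 / 3), sq_nonneg (β 8 - β 5 / 3), sq_nonneg (β 0 + β 5 / 3),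
      sq_nonneg (β 2 + β 5 / 3), sq_nonneg (β 4 + β 5 / 3), sq_nonneg (β 6 + β 5 / 3),
      sq_nonneg (β 7 + β 5 / 3), sq_nonneg (β 9 + β 5 / 3)]
  · change β 6 ^ 2 ≤ _
    have e1 : β 6 * (β 1 + β 2 + β 7) = β 6 * β 6 := by rw [h6]
    have e2 : β 6 * (β 0 + β 1 + β 2 + β 3 + β 4 + β 5 + β 6 + β 7 + β 8 + β 9) = 0 := by
      rw [hs, mul_zero]
    clear hs h0 h1 h2 h3 h4 h5 h6 h7 h8 h9
    linarith [sq_nonneg (β 1 - β 6 / 3), sq_nonneg (β 2 - β 6 / 3), sq_nonneg (β 7 - β 6 / 3), sq_nonneg (β 0 + β 6 / 3),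
      sq_nonneg (β 3 + β 6 / 3), sq_nonneg (β 4 + β 6 / 3), sq_nonneg (β 5 + β 6 / 3),
      sq_nonneg (β 8 + β 6 / 3), sq_nonneg (β 9 + β 6 / 3)]
  · change β 7 ^ 2 ≤ _
    have e1 : β 7 * (β 0 + β 3 + β 6) = β 7 * β 7 := by rw [h7]
    have e2 : β 7 * (β 0 + β 1 + β 2 + β 3 + β 4 + β 5 + β 6 + β 7 + β 8 + β 9) = 0 := by
      rw [hs, mul_zero]
    clear hs h0 h1 h2 h3 h4 h5 h6 h7 h8 h9
    linarith [sq_nonneg (β 0 - β 7 / 3), sq_nonneg (β 3 - β 7 / 3), sq_nonneg (β 6 - β 7 / 3), sq_nonneg (β 1 + β 7 / 3),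
      sq_nonneg (β 2 + β 7 / 3), sq_nonneg (β 4 + β 7 / 3), sq_nonneg (β 5 + β 7 / 3),
      sq_nonneg (β 8 + β 7 / 3), sq_nonneg (β 9 + β 7 / 3)]
  · change β 8 ^ 2 ≤ _
    have e1 : β 8 * (β 0 + β 2 + β 5) = β 8 * β 8 := by rw [h8]
    have e2 : β 8 * (β 0 + β 1 + β 2 + β 3 + β 4 + β 5 + β 6 + β 7 + β 8 + β 9) = 0 := by
      rw [hs, mul_zero]
    clear hs h0 h1 h2 h3 h4 h5 h6 h7 h8 h9
    linarith [sq_nonneg (β 0 - β 8 / 3), sq_nonneg (β 2 - β 8 / 3), sq_nonneg (β 5 - β 8 / 3), sq_nonneg (β 1 + β 8 / 3),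
      sq_nonneg (β 3 + β 8 / 3), sq_nonneg (β 4 + β 8 / 3), sq_nonneg (β 6 + β 8 / 3),
      sq_nonneg (β 7 + β 8 / 3), sq_nonneg (β 9 + β 8 / 3)]
  · change β 9 ^ 2 ≤ _
    have e1 : β 9 * (β 0 + β 1 + β 4) = β 9 * β 9 := by rw [h9]
    have e2 : β 9 * (β 0 + β 1 + β 2 + β 3 + β 4 + β 5 + β 6 + β 7 + β 8 + β 9) = 0 := by
      rw [hs, mul_zero]
    clear hs h0 h1 h2 h3 h4 h5 h6 h7 h8 h9
    linarith [sq_nonneg (β 0 - β 9 / 3), sq_nonneg (β 1 - β 9 / 3), sq_nonneg (β 4 - β 9 / 3), sq_nonneg (β 2 + β 9 / 3),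
      sq_nonneg (β 3 + β 9 / 3), sq_nonneg (β 5 + β 9 / 3), sq_nonneg (β 6 + β 9 / 3),
      sq_nonneg (β 7 + β 9 / 3), sq_nonneg (β 8 + β 9 / 3)]

theorem m2 (γ : Fin 10 → ℝ) (h : Ad γ = fun x => -2 * γ x) (x : Fin 10) :
    γ x ^ 2 ≤ 4 * Av (fun x => γ x ^ 2) := by
  have hs := sum_zero_of_eig2 γ h
  rw [K5m_S10] at hs
  obtain ⟨h0, h1, h2, h3, h4, h5, h6, h7, h8, h9⟩ := K5m_eig2 γ h
  rw [Av, K5m_S10]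
  fin_cases x
  · change γ 0 ^ 2 ≤ _
    have e1 : γ 0 * (γ 7 + γ 8 + γ 9) = γ 0 * (-2 * γ 0) := by
      rw [h0]
    have e2 : γ 0 * (γ 0 + γ 1 + γ 2 + γ 3 + γ 4 + γ 5 + γ 6 + γ 7 + γ 8 + γ 9) = 0 := by
      rw [hs, mul_zero]
    clear hs h0 h1 h2 h3 h4 h5 h6 h7 h8 h9
    linarith [sq_nonneg (γ 7 + 2 * γ 0 / 3), sq_nonneg (γ 8 + 2 * γ 0 / 3), sq_nonneg (γ 9 + 2 * γ 0 / 3), sq_nonneg (γ 1 - γ 0 / 6),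
      sq_nonneg (γ 2 - γ 0 / 6), sq_nonneg (γ 3 - γ 0 / 6), sq_nonneg (γ 4 - γ 0 / 6),
      sq_nonneg (γ 5 - γ 0 / 6), sq_nonneg (γ 6 - γ 0 / 6)]
  · change γ 1 ^ 2 ≤ _
    have e1 : γ 1 * (γ 5 + γ 6 + γ 9) = γ 1 * (-2 * γ 1) := by
      rw [h1]
    have e2 : γ 1 * (γ 0 + γ 1 + γ 2 + γ 3 + γ 4 + γ 5 + γ 6 + γ 7 + γ 8 + γ 9) = 0 := by
      rw [hs, mul_zero]
    clear hs h0 h1 h2 h3 h4 h5 h6 h7 h8 h9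
    linarith [sq_nonneg (γ 5 + 2 * γ 1 / 3), sq_nonneg (γ 6 + 2 * γ 1 / 3), sq_nonneg (γ 9 + 2 * γ 1 / 3), sq_nonneg (γ 0 - γ 1 / 6),
      sq_nonneg (γ 2 - γ 1 / 6), sq_nonneg (γ 3 - γ 1 / 6), sq_nonneg (γ 4 - γ 1 / 6),
      sq_nonneg (γ 7 - γ 1 / 6), sq_nonneg (γ 8 - γ 1 / 6)]
  · change γ 2 ^ 2 ≤ _
    have e1 : γ 2 * (γ 4 + γ 6 + γ 8) = γ 2 * (-2 * γ 2) := by
      rw [h2]
    have e2 : γ 2 * (γ 0 + γ 1 + γ 2 + γ 3 + γ 4 + γ 5 + γ 6 + γ 7 + γ 8 + γ 9) = 0 := by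
      rw [hs, mul_zero]
    clear hs h0 h1 h2 h3 h4 h5 h6 h7 h8 h9
    linarith [sq_nonneg (γ 4 + 2 * γ 2 / 3), sq_nonneg (γ 6 + 2 * γ 2 / 3), sq_nonneg (γ 8 + 2 * γ 2 / 3), sq_nonneg (γ 0 - γ 2 / 6),
      sq_nonneg (γ 1 - γ 2 / 6), sq_nonneg (γ 3 - γ 2 / 6), sq_nonneg (γ 5 - γ 2 / 6),
      sq_nonneg (γ 7 - γ 2 / 6), sq_nonneg (γ 9 - γ 2 / 6)]
  · change γ 3 ^ 2 ≤ _
    have e1 : γ 3 * (γ 4 + γ 5 + γ 7) = γ 3 * (-2 * γ 3) := by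
      rw [h3]
    have e2 : γ 3 * (γ 0 + γ 1 + γ 2 + γ 3 + γ 4 + γ 5 + γ 6 + γ 7 + γ 8 + γ 9) = 0 := by
      rw [hs, mul_zero]
    clear hs h0 h1 h2 h3 h4 h5 h6 h7 h8 h9
    linarith [sq_nonneg (γ 4 + 2 * γ 3 / 3), sq_nonneg (γ 5 + 2 * γ 3 / 3), sq_nonneg (γ 7 + 2 * γ 3 / 3), sq_nonneg (γ 0 - γ 3 / 6),
      sq_nonneg (γ 1 - γ 3 / 6), sq_nonneg (γ 2 - γ 3 / 6), sq_nonneg (γ 6 - γ 3 / 6),
      sq_nonneg (γ 8 - γ 3 / 6), sq_nonneg (γ 9 - γ 3 / 6)]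
  · change γ 4 ^ 2 ≤ _
    have e1 : γ 4 * (γ 2 + γ 3 + γ 9) = γ 4 * (-2 * γ 4) := by
      rw [h4]
    have e2 : γ 4 * (γ 0 + γ 1 + γ 2 + γ 3 + γ 4 + γ 5 + γ 6 + γ 7 + γ 8 + γ 9) = 0 := by
      rw [hs, mul_zero]
    clear hs h0 h1 h2 h3 h4 h5 h6 h7 h8 h9
    linarith [sq_nonneg (γ 2 + 2 * γ 4 / 3), sq_nonneg (γ 3 + 2 * γ 4 / 3), sq_nonneg (γ 9 + 2 * γ 4 / 3), sq_nonneg (γ 0 - γ 4 / 6),
      sq_nonneg (γ 1 - γ 4 / 6), sq_nonneg (γ 5 - γ 4 / 6), sq_nonneg (γ 6 - γ 4 / 6),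
      sq_nonneg (γ 7 - γ 4 / 6), sq_nonneg (γ 8 - γ 4 / 6)]
  · change γ 5 ^ 2 ≤ _
    have e1 : γ 5 * (γ 1 + γ 3 + γ 8) = γ 5 * (-2 * γ 5) := by
      rw [h5]
    have e2 : γ 5 * (γ 0 + γ 1 + γ 2 + γ 3 + γ 4 + γ 5 + γ 6 + γ 7 + γ 8 + γ 9) = 0 := by
      rw [hs, mul_zero]
    clear hs h0 h1 h2 h3 h4 h5 h6 h7 h8 h9
    linarith [sq_nonneg (γ 1 + 2 * γ 5 / 3), sq_nonneg (γ 3 + 2 * γ 5 / 3), sq_nonneg (γ 8 + 2 * γ 5 / 3), sq_nonneg (γ 0 - γ 5 / 6),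
      sq_nonneg (γ 2 - γ 5 / 6), sq_nonneg (γ 4 - γ 5 / 6), sq_nonneg (γ 6 - γ 5 / 6),
      sq_nonneg (γ 7 - γ 5 / 6), sq_nonneg (γ 9 - γ 5 / 6)]
  · change γ 6 ^ 2 ≤ _
    have e1 : γ 6 * (γ 1 + γ 2 + γ 7) = γ 6 * (-2 * γ 6) := by
      rw [h6]
    have e2 : γ 6 * (γ 0 + γ 1 + γ 2 + γ 3 + γ 4 + γ 5 + γ 6 + γ 7 + γ 8 + γ 9) = 0 := by
      rw [hs, mul_zero]
    clear hs h0 h1 h2 h3 h4 h5 h6 h7 h8 h9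
    linarith [sq_nonneg (γ 1 + 2 * γ 6 / 3), sq_nonneg (γ 2 + 2 * γ 6 / 3), sq_nonneg (γ 7 + 2 * γ 6 / 3), sq_nonneg (γ 0 - γ 6 / 6),
      sq_nonneg (γ 3 - γ 6 / 6), sq_nonneg (γ 4 - γ 6 / 6), sq_nonneg (γ 5 - γ 6 / 6),
      sq_nonneg (γ 8 - γ 6 / 6), sq_nonneg (γ 9 - γ 6 / 6)]
  · change γ 7 ^ 2 ≤ _
    have e1 : γ 7 * (γ 0 + γ 3 + γ 6) = γ 7 * (-2 * γ 7) := by
      rw [h7]
    have e2 : γ 7 * (γ 0 + γ 1 + γ 2 + γ 3 + γ 4 + γ 5 + γ 6 + γ 7 + γ 8 + γ 9) = 0 := by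
      rw [hs, mul_zero]
    clear hs h0 h1 h2 h3 h4 h5 h6 h7 h8 h9
    linarith [sq_nonneg (γ 0 + 2 * γ 7 / 3), sq_nonneg (γ 3 + 2 * γ 7 / 3), sq_nonneg (γ 6 + 2 * γ 7 / 3), sq_nonneg (γ 1 - γ 7 / 6),
      sq_nonneg (γ 2 - γ 7 / 6), sq_nonneg (γ 4 - γ 7 / 6), sq_nonneg (γ 5 - γ 7 / 6),
      sq_nonneg (γ 8 - γ 7 / 6), sq_nonneg (γ 9 - γ 7 / 6)]
  · change γ 8 ^ 2 ≤ _
    have e1 : γ 8 * (γ 0 + γ 2 + γ 5) = γ 8 * (-2 * γ 8) := by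
      rw [h8]
    have e2 : γ 8 * (γ 0 + γ 1 + γ 2 + γ 3 + γ 4 + γ 5 + γ 6 + γ 7 + γ 8 + γ 9) = 0 := by
      rw [hs, mul_zero]
    clear hs h0 h1 h2 h3 h4 h5 h6 h7 h8 h9
    linarith [sq_nonneg (γ 0 + 2 * γ 8 / 3), sq_nonneg (γ 2 + 2 * γ 8 / 3), sq_nonneg (γ 5 + 2 * γ 8 / 3), sq_nonneg (γ 1 - γ 8 / 6),
      sq_nonneg (γ 3 - γ 8 / 6), sq_nonneg (γ 4 - γ 8 / 6), sq_nonneg (γ 6 - γ 8 / 6),
      sq_nonneg (γ 7 - γ 8 / 6), sq_nonneg (γ 9 - γ 8 / 6)]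
  · change γ 9 ^ 2 ≤ _
    have e1 : γ 9 * (γ 0 + γ 1 + γ 4) = γ 9 * (-2 * γ 9) := by
      rw [h9]
    have e2 : γ 9 * (γ 0 + γ 1 + γ 2 + γ 3 + γ 4 + γ 5 + γ 6 + γ 7 + γ 8 + γ 9) = 0 := by
      rw [hs, mul_zero]
    clear hs h0 h1 h2 h3 h4 h5 h6 h7 h8 h9
    linarith [sq_nonneg (γ 0 + 2 * γ 9 / 3), sq_nonneg (γ 1 + 2 * γ 9 / 3), sq_nonneg (γ 4 + 2 * γ 9 / 3), sq_nonneg (γ 2 - γ 9 / 6),
      sq_nonneg (γ 3 - γ 9 / 6), sq_nonneg (γ 5 - γ 9 / 6), sq_nonneg (γ 6 - γ 9 / 6),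
      sq_nonneg (γ 7 - γ 9 / 6), sq_nonneg (γ 8 - γ 9 / 6)]

theorem m3 (β γ : Fin 10 → ℝ) (hβ : Ad β = β) (hγ : Ad γ = fun x => -2 * γ x) :
    (Av (fun x => β x * γ x ^ 2)) ^ 2
      ≤ (5 / 3) * Av (fun x => β x ^ 2) * (Av (fun x => γ x ^ 2)) ^ 2 := by
  obtain ⟨a, b, c, d, e, h, g0, g1, g2, g3, g4, g5, g6, g7, g8, g9⟩ := K5m_par γ hγ
  obtain ⟨s0, s1, s2, s3, s4⟩ := K5m_star β hβ
  set Y : ℝ := a ^ 2 + b ^ 2 + c ^ 2 + d ^ 2 + e ^ 2 with hY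
  let H : ℝ → ℝ → ℝ := fun u v => 2 * u * v + (2 / 3) * (u ^ 2 + v ^ 2) - Y / 6
  let hh : Fin 10 → ℝ := ![H a b, H a c, H a d, H a e, H b c, H b d, H b e, H c d, H c e, H d e]
  have e0 : hh 0 = H a b := rfl
  have e1 : hh 1 = H a c := rfl
  have e2 : hh 2 = H a d := rfl
  have e3 : hh 3 = H a e := rfl
  have e4 : hh 4 = H b c := rfl
  have e5 : hh 5 = H b d := rfl
  have e6 : hh 6 = H b e := rfl
  have e7 : hh 7 = H c d := rfl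
  have e8 : hh 8 = H c e := rfl
  have e9 : hh 9 = H d e := rfl
  have k1 : ∑ x, β x * γ x ^ 2 = ∑ x, β x * hh x := by
    rw [K5m_S10, K5m_S10, g0, g1, g2, g3, g4, g5, g6, g7, g8, g9, e0, e1, e2, e3, e4, e5, e6, e7,
      e8, e9]
    simp only [H]
    linear_combination (a ^ 2 / 3 + Y / 12) * s0 + (b ^ 2 / 3 + Y / 12) * s1 +
      (c ^ 2 / 3 + Y / 12) * s2 + (d ^ 2 / 3 + Y / 12) * s3 + (e ^ 2 / 3 + Y / 12) * s4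
  have k2 := Finset.sum_mul_sq_le_sq_mul_sq Finset.univ β hh
  have he : e = -(a + b + c + d) := by linarith
  have k3 : ∑ x, hh x ^ 2 ≤ (3 / 2) * Y ^ 2 := by
    rw [K5m_S10, e0, e1, e2, e3, e4, e5, e6, e7, e8, e9]
    have q1 : Y ^ 2 ≤ 5 * (a ^ 4 + b ^ 4 + c ^ 4 + d ^ 4 + e ^ 4) := by
      nlinarith [sq_nonneg (a ^ 2 - b ^ 2), sq_nonneg (a ^ 2 - c ^ 2), sq_nonneg (a ^ 2 - d ^ 2),
        sq_nonneg (a ^ 2 - e ^ 2), sq_nonneg (b ^ 2 - c ^ 2), sq_nonneg (b ^ 2 - d ^ 2),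
        sq_nonneg (b ^ 2 - e ^ 2), sq_nonneg (c ^ 2 - d ^ 2), sq_nonneg (c ^ 2 - e ^ 2),
        sq_nonneg (d ^ 2 - e ^ 2)]
    have q2 : H a b ^ 2 + H a c ^ 2 + H a d ^ 2 + H a e ^ 2 + H b c ^ 2 + H b d ^ 2 + H b e ^ 2 +
        H c d ^ 2 + H c e ^ 2 + H d e ^ 2 = (13 / 6) * Y ^ 2 -
        (10 / 3) * (a ^ 4 + b ^ 4 + c ^ 4 + d ^ 4 + e ^ 4) := by
      simp only [H, hY, he]
      ring
    linarith
  have k4 : Av (fun x => γ x ^ 2) = (3 / 10) * Y := by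
    rw [Av, K5m_S10, g0, g1, g2, g3, g4, g5, g6, g7, g8, g9]
    simp only [hY, he]
    ring
  have k5 : 0 ≤ ∑ x, β x ^ 2 := Finset.sum_nonneg fun x _ => sq_nonneg _
  rw [k4, Av, Av, k1, div_pow, div_le_iff₀ (by norm_num)]
  calc (∑ x, β x * hh x) ^ 2 ≤ (∑ x, β x ^ 2) * ∑ x, hh x ^ 2 := k2
    _ ≤ (∑ x, β x ^ 2) * ((3 / 2) * Y ^ 2) := mul_le_mul_of_nonneg_left k3 k5
    _ = _ := by ring

theorem K5m_max (a b c d e : ℝ) (h : a + b + c + d + e = 0) (hb : b ≤ a) (hc : c ≤ a) (hd : d ≤ a)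
    (he : e ≤ a) (hC : 0 ≤ a ^ 3 + b ^ 3 + c ^ 3 + d ^ 3 + e ^ 3) :
    (a ^ 3 + b ^ 3 + c ^ 3 + d ^ 3 + e ^ 3) ^ 2 ≤
      (9 / 20) * (a ^ 2 + b ^ 2 + c ^ 2 + d ^ 2 + e ^ 2) ^ 3 := by
  set Y : ℝ := a ^ 2 + b ^ 2 + c ^ 2 + d ^ 2 + e ^ 2 with hY
  set C : ℝ := a ^ 3 + b ^ 3 + c ^ 3 + d ^ 3 + e ^ 3 with hCd
  have ha : 0 ≤ a := by linarith
  have hY0 : 0 ≤ Y := by positivity
  have h1 : a ^ 2 ≤ (4 / 5) * Y := by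
    have : a = -(b + c + d + e) := by linarith
    have h2 : a ^ 2 = (b + c + d + e) ^ 2 := by rw [this]; ring
    nlinarith [sq_nonneg (b - c), sq_nonneg (b - d), sq_nonneg (b - e), sq_nonneg (c - d),
      sq_nonneg (c - e), sq_nonneg (d - e)]
  have h2 : C ≤ (a / 2) * Y + (5 / 16) * a ^ 3 := by
    have t : ∀ z : ℝ, z ≤ a → 0 ≤ (z + a / 4) ^ 2 * (a - z) := fun z hz =>
      mul_nonneg (sq_nonneg _) (by linarith)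
    have key : (b + a / 4) ^ 2 * (a - b) + (c + a / 4) ^ 2 * (a - c) + (d + a / 4) ^ 2 * (a - d) +
        (e + a / 4) ^ 2 * (a - e) = (a / 2) * Y + (5 / 16) * a ^ 3 - C := by
      have he' : e = -(a + b + c + d) := by linarith
      simp only [hY, hCd, he']
      ring
    linarith [t b hb, t c hc, t d hd, t e he]
  have h3 : (a / 2) * Y + (5 / 16) * a ^ 3 ≤ a * ((3 / 4) * Y) := by
    nlinarith [mul_le_mul_of_nonneg_left h1 ha]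
  have h4 : C ≤ a * ((3 / 4) * Y) := h2.trans h3
  calc C ^ 2 ≤ (a * ((3 / 4) * Y)) ^ 2 := pow_le_pow_left₀ hC h4 2
    _ = a ^ 2 * ((3 / 4) * Y) ^ 2 := by ring
    _ ≤ ((4 / 5) * Y) * ((3 / 4) * Y) ^ 2 := mul_le_mul_of_nonneg_right h1 (sq_nonneg _)
    _ = _ := by ring

theorem K5m_pos (a b c d e : ℝ) (h : a + b + c + d + e = 0)
    (hC : 0 ≤ a ^ 3 + b ^ 3 + c ^ 3 + d ^ 3 + e ^ 3) :
    (a ^ 3 + b ^ 3 + c ^ 3 + d ^ 3 + e ^ 3) ^ 2 ≤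
      (9 / 20) * (a ^ 2 + b ^ 2 + c ^ 2 + d ^ 2 + e ^ 2) ^ 3 := by
  have hmax : (b ≤ a ∧ c ≤ a ∧ d ≤ a ∧ e ≤ a) ∨ (a ≤ b ∧ c ≤ b ∧ d ≤ b ∧ e ≤ b) ∨
      (a ≤ c ∧ b ≤ c ∧ d ≤ c ∧ e ≤ c) ∨ (a ≤ d ∧ b ≤ d ∧ c ≤ d ∧ e ≤ d) ∨
      (a ≤ e ∧ b ≤ e ∧ c ≤ e ∧ d ≤ e) := by
    obtain ⟨i, -, hi⟩ := Finset.exists_max_image (Finset.univ : Finset (Fin 5)) ![a, b, c, d, e]
      ⟨0, Finset.mem_univ _⟩
    have i0 : a ≤ ![a, b, c, d, e] i := hi 0 (Finset.mem_univ _)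
    have i1 : b ≤ ![a, b, c, d, e] i := hi 1 (Finset.mem_univ _)
    have i2 : c ≤ ![a, b, c, d, e] i := hi 2 (Finset.mem_univ _)
    have i3 : d ≤ ![a, b, c, d, e] i := hi 3 (Finset.mem_univ _)
    have i4 : e ≤ ![a, b, c, d, e] i := hi 4 (Finset.mem_univ _)
    fin_cases i
    · exact Or.inl ⟨i1, i2, i3, i4⟩
    · exact Or.inr (Or.inl ⟨i0, i2, i3, i4⟩)
    · exact Or.inr (Or.inr (Or.inl ⟨i0, i1, i3, i4⟩))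
    · exact Or.inr (Or.inr (Or.inr (Or.inl ⟨i0, i1, i2, i4⟩)))
    · exact Or.inr (Or.inr (Or.inr (Or.inr ⟨i0, i1, i2, i3⟩)))
  rcases hmax with ⟨h1, h2, h3, h4⟩ | ⟨h1, h2, h3, h4⟩ | ⟨h1, h2, h3, h4⟩ | ⟨h1, h2, h3, h4⟩ |
    ⟨h1, h2, h3, h4⟩
  · exact K5m_max a b c d e h h1 h2 h3 h4 hC
  · have := K5m_max b a c d e (by linarith) h1 h2 h3 h4 (by linarith)
    linarith
  · have := K5m_max c a b d e (by linarith) h1 h2 h3 h4 (by linarith)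
    linarith
  · have := K5m_max d a b c e (by linarith) h1 h2 h3 h4 (by linarith)
    linarith
  · have := K5m_max e a b c d (by linarith) h1 h2 h3 h4 (by linarith)
    linarith

theorem m4 (γ : Fin 10 → ℝ) (h : Ad γ = fun x => -2 * γ x) :
    (Av (fun x => γ x ^ 3)) ^ 2 ≤ (1 / 6) * (Av (fun x => γ x ^ 2)) ^ 3 := by
  obtain ⟨a, b, c, d, e, h, g0, g1, g2, g3, g4, g5, g6, g7, g8, g9⟩ := K5m_par γ h
  have he : e = -(a + b + c + d) := by linarith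
  have k4 : Av (fun x => γ x ^ 2) = (3 / 10) * (a ^ 2 + b ^ 2 + c ^ 2 + d ^ 2 + e ^ 2) := by
    rw [Av, K5m_S10, g0, g1, g2, g3, g4, g5, g6, g7, g8, g9]
    simp only [he]
    ring
  have k3 : Av (fun x => γ x ^ 3) = (1 / 10) * (a ^ 3 + b ^ 3 + c ^ 3 + d ^ 3 + e ^ 3) := by
    rw [Av, K5m_S10, g0, g1, g2, g3, g4, g5, g6, g7, g8, g9]
    simp only [he]
    ring
  have main : (a ^ 3 + b ^ 3 + c ^ 3 + d ^ 3 + e ^ 3) ^ 2 ≤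
      (9 / 20) * (a ^ 2 + b ^ 2 + c ^ 2 + d ^ 2 + e ^ 2) ^ 3 := by
    rcases le_total 0 (a ^ 3 + b ^ 3 + c ^ 3 + d ^ 3 + e ^ 3) with hC | hC
    · exact K5m_pos a b c d e h hC
    · have := K5m_pos (-a) (-b) (-c) (-d) (-e) (by linarith) (by nlinarith)
      have e1 : (-a) ^ 3 + (-b) ^ 3 + (-c) ^ 3 + (-d) ^ 3 + (-e) ^ 3 =
        -(a ^ 3 + b ^ 3 + c ^ 3 + d ^ 3 + e ^ 3) := by ring
      have e2 : (-a) ^ 2 + (-b) ^ 2 + (-c) ^ 2 + (-d) ^ 2 + (-e) ^ 2 =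
        a ^ 2 + b ^ 2 + c ^ 2 + d ^ 2 + e ^ 2 := by ring
      rw [e1, e2, neg_sq] at this
      exact this
  rw [k3, k4, mul_pow, mul_pow]
  linarith

end Pool.Agent.PET
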