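import Pool.Agent.PET.GSq
/-!
# PtMain : pointwise limit of the full sum near the saddle point

Fix `u`; `q = 3m + d`, `k = kk q u`, `G k x = √q (1 + w_x/√q)`, `w_x = G u x`.  By `sum_G`, `sum_Gsq`
`(1/N) ∑_x (1 + w_x/√q)³ = 1 + y_m`, `y_m = 3 u0/√q + 3 (u0² + ∑_{i≠i0} lam_i u_i²)/q + c/q^{3/2}` (`u0 = u i0`, `c = (1/N)∑ w³`).
`(1+y)^m = exp(m log(1+y))`, `|log(1+y) - y + y²/2| ≤ |y|³` for `|y| ≤ 1/2`; `m y_m³ → 0`,
`m y_m - √q u0 = (3m-q) u0/√q + (3m/q)(u0² + ∑ lam u²) + o(1) → u0² + ∑_{i≠i0} lam_i u_i²`, `m y_m²/2 → (3/2) u0²`.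
`∑ k_i² = q + 2√q u0 + ∑ u_i²`.  Total exponent → `u0² + ∑_{i≠i0} lam_i u_i² - (3/2)u0² - (1/2)∑ u_i²
 = -u0² - (1/2)∑_{i≠i0} (1 - 2 lam_i) u_i²`.
`∑_x ∏_v (G (x v))³ = (∑_x (G x)³)^m`.
-/
set_option autoImplicit false
open scoped BigOperators Classical
open Filter MeasureTheory
noncomputable section
namespace Pool.Agent.PET

variable {X I : Type} [Fintype X] [Fintype I]

/-- the limiting Gaussian exponent -/
def Spec.Qf (S : Spec X I) (u : I → ℝ) : ℝ :=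
  u S.i0 ^ 2 + (1 / 2) * ∑ i ∈ Finset.univ.erase S.i0, (1 - 2 * S.lam i) * u i ^ 2

theorem PtMain_logLim (α β c : ℂ) :
    Tendsto (fun s : ℝ => (Complex.log (1 + (α * s + β * s ^ 2 + c * s ^ 3)) - α * s
      - (β - α ^ 2 / 2) * s ^ 2) / s ^ 2) (nhdsWithin 0 (Set.Ioi 0)) (nhds 0) := by
  have hp : Tendsto (fun s : ℝ => ‖(α + β * s + c * s ^ 2 : ℂ)‖) (nhdsWithin 0 (Set.Ioi 0))
      (nhds ‖α‖) := by
    have : Continuous (fun s : ℝ => ‖(α + β * s + c * s ^ 2 : ℂ)‖) := by fun_prop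
    have h := (this.tendsto 0).mono_left (nhdsWithin_le_nhds (s := Set.Ioi (0:ℝ)))
    simpa using h
  have hy : Tendsto (fun s : ℝ => ‖(α * s + β * s ^ 2 + c * s ^ 3 : ℂ)‖)
      (nhdsWithin 0 (Set.Ioi 0)) (nhds 0) := by
    have : Continuous (fun s : ℝ => ‖(α * s + β * s ^ 2 + c * s ^ 3 : ℂ)‖) := by fun_prop
    have h := (this.tendsto 0).mono_left (nhdsWithin_le_nhds (s := Set.Ioi (0:ℝ)))
    simpa using h
  have hs : Tendsto (fun s : ℝ => s) (nhdsWithin 0 (Set.Ioi 0)) (nhds (0 : ℝ)) :=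
    tendsto_id.mono_left nhdsWithin_le_nhds
  -- second part
  have h2 : Tendsto (fun s : ℝ => (s : ℂ) * (c - α * (β + c * s) - s * (β + c * s) ^ 2 / 2))
      (nhdsWithin 0 (Set.Ioi 0)) (nhds 0) := by
    have : Continuous (fun s : ℝ => (s : ℂ) * (c - α * (β + c * s) - s * (β + c * s) ^ 2 / 2)) := by
      fun_prop
    have h := (this.tendsto 0).mono_left (nhdsWithin_le_nhds (s := Set.Ioi (0:ℝ)))
    simpa using h
  -- first part
  have h1 : Tendsto (fun s : ℝ => (Complex.log (1 + (α * s + β * s ^ 2 + c * s ^ 3)) -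
      ((α * s + β * s ^ 2 + c * s ^ 3) - (α * s + β * s ^ 2 + c * s ^ 3) ^ 2 / 2)) / s ^ 2)
      (nhdsWithin 0 (Set.Ioi 0)) (nhds 0) := by
    have hb : Tendsto (fun s : ℝ => s * (‖(α + β * s + c * s ^ 2 : ℂ)‖ ^ 3 *
        (1 - ‖(α * s + β * s ^ 2 + c * s ^ 3 : ℂ)‖)⁻¹ / 3)) (nhdsWithin 0 (Set.Ioi 0)) (nhds 0) := by
      have := hs.mul (((hp.pow 3).mul ((tendsto_const_nhds (x := (1:ℝ)).sub hy).inv₀
        (by norm_num))).div_const 3)
      simpa using this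
    refine squeeze_zero_norm' ?_ hb
    have hev : ∀ᶠ s : ℝ in nhdsWithin 0 (Set.Ioi 0),
        ‖(α * s + β * s ^ 2 + c * s ^ 3 : ℂ)‖ < 1 := hy.eventually_lt_const (by norm_num)
    filter_upwards [hev, self_mem_nhdsWithin] with s hs1 hs0
    have hs0 : 0 < s := hs0
    have h3 := Complex.norm_log_sub_logTaylor_le 2 hs1
    have h4 : Complex.logTaylor (2 + 1) (α * s + β * s ^ 2 + c * s ^ 3) =
        (α * s + β * s ^ 2 + c * s ^ 3) - (α * s + β * s ^ 2 + c * s ^ 3) ^ 2 / 2 := by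
      simp [Complex.logTaylor_succ, Complex.logTaylor_zero]
      ring
    rw [h4] at h3
    rw [norm_div, norm_pow, Complex.norm_real, Real.norm_of_nonneg hs0.le,
      div_le_iff₀ (by positivity)]
    refine h3.trans (le_of_eq ?_)
    have h5 : (α * s + β * s ^ 2 + c * s ^ 3 : ℂ) = s * (α + β * s + c * s ^ 2) := by ring
    have h6 : ‖(α * s + β * s ^ 2 + c * s ^ 3 : ℂ)‖ ^ (2 + 1) =
        s ^ 3 * ‖(α + β * s + c * s ^ 2 : ℂ)‖ ^ 3 := by
      rw [h5, norm_mul, Complex.norm_real, Real.norm_of_nonneg hs0.le]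
      ring
    rw [h6]
    push_cast
    ring
  have h3 := h1.add h2
  rw [add_zero] at h3
  refine h3.congr' ?_
  filter_upwards [self_mem_nhdsWithin] with s hs0
  have hs0 : (s : ℂ) ≠ 0 := by
    have : (0 : ℝ) < s := hs0
    exact_mod_cast this.ne'
  field_simp
  ring

theorem PtMain_expLim (a L U : ℝ) (d : ℕ) (c : ℂ) :
    Tendsto (fun s : ℝ => ((1 / s ^ 2 - d) / 3 : ℂ) *
      Complex.log (1 + (3 * a * s + 3 * L * s ^ 2 + c * s ^ 3)) - a / s - U / 2)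
      (nhdsWithin 0 (Set.Ioi 0)) (nhds ((L - 3 / 2 * a ^ 2 - U / 2 : ℝ) : ℂ)) := by
  have h1 := PtMain_logLim (3 * a) (3 * L) c
  have h2 : Tendsto (fun s : ℝ => Complex.log (1 + (3 * a * s + 3 * L * s ^ 2 + c * s ^ 3)))
      (nhdsWithin 0 (Set.Ioi 0)) (nhds 0) := by
    have hc : ContinuousAt (fun s : ℝ =>
        Complex.log (1 + (3 * a * s + 3 * L * s ^ 2 + c * s ^ 3))) 0 := by
      apply ContinuousAt.clog
      · fun_prop
      · simp
    have h := hc.tendsto.mono_left (nhdsWithin_le_nhds (s := Set.Ioi (0:ℝ)))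
    simpa using h
  have h3 := ((h1.div_const 3).add (tendsto_const_nhds
    (x := ((3 * L - (3 * a) ^ 2 / 2) / 3 - U / 2 : ℂ)))).sub (h2.const_mul ((d : ℂ) / 3))
  have e : (0 / 3 + ((3 * L - (3 * a) ^ 2 / 2) / 3 - U / 2 : ℂ) - (d : ℂ) / 3 * 0) =
      ((L - 3 / 2 * a ^ 2 - U / 2 : ℝ) : ℂ) := by
    push_cast
    ring
  rw [e] at h3
  refine h3.congr' ?_
  filter_upwards [self_mem_nhdsWithin] with s hs0
  have hs0 : (s : ℂ) ≠ 0 := by
    have : (0 : ℝ) < s := hs0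
    exact_mod_cast this.ne'
  field_simp
  ring

theorem PtMain_sumkk (S : Spec X I) (q : ℝ) (hq : 0 ≤ q) (u : I → ℝ) :
    ∑ i, (S.kk q u i) ^ 2 = q + 2 * Real.sqrt q * u S.i0 + ∑ i, u i ^ 2 := by
  rw [← Finset.add_sum_erase _ _ (Finset.mem_univ S.i0), ← Finset.add_sum_erase _ _
    (Finset.mem_univ S.i0)]
  have h1 : ∑ x ∈ Finset.univ.erase S.i0, S.kk q u x ^ 2 =
      ∑ x ∈ Finset.univ.erase S.i0, u x ^ 2 := by
    apply Finset.sum_congr rfl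
    intro i hi
    simp [Spec.kk, Finset.ne_of_mem_erase hi]
  rw [h1]
  have h2 : S.kk q u S.i0 = u S.i0 + Real.sqrt q := by simp [Spec.kk]
  rw [h2]
  have h3 := Real.sq_sqrt hq
  linear_combination h3

theorem PtMain_Qf (S : Spec X I) (u : I → ℝ) :
    -S.Qf u = (∑ i, S.lam i * u i ^ 2) - 3 / 2 * u S.i0 ^ 2 - (∑ i, u i ^ 2) / 2 := by
  unfold Spec.Qf
  rw [← Finset.add_sum_erase _ (fun i => S.lam i * u i ^ 2) (Finset.mem_univ S.i0),
    ← Finset.add_sum_erase _ (fun i => u i ^ 2) (Finset.mem_univ S.i0), S.lam0]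
  have h : ∑ x ∈ Finset.univ.erase S.i0, (1 - 2 * S.lam x) * u x ^ 2 =
      ∑ x ∈ Finset.univ.erase S.i0, u x ^ 2 -
      2 * ∑ x ∈ Finset.univ.erase S.i0, S.lam x * u x ^ 2 := by
    rw [Finset.mul_sum, ← Finset.sum_sub_distrib]
    apply Finset.sum_congr rfl
    intro i _
    ring
  rw [h]
  ring

theorem ptmain (S : Spec X I) [Nonempty X] (d : ℕ) (u : I → ℝ) :
    Tendsto (fun m : ℕ =>
      (∑ x : Fin m → X, ∏ v, (S.G (S.kk ((3 * m + d : ℕ) : ℝ) u) (x v)) ^ 3)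
        * (Real.exp (-(∑ i, (S.kk ((3 * m + d : ℕ) : ℝ) u i) ^ 2) / 2) : ℂ)
        / (((Fintype.card X : ℝ) ^ m *
            (((3 * m + d : ℕ) : ℝ) ^ ((3 * m : ℝ) / 2) * Real.exp (-((3 * m + d : ℕ) : ℝ) / 2)) : ℝ) : ℂ))
      atTop (nhds (Real.exp (-S.Qf u) : ℂ)) := by
  set L : ℝ := ∑ i, S.lam i * u i ^ 2 with hL
  set U : ℝ := ∑ i, u i ^ 2 with hU
  set W : ℂ := ∑ x, (S.G u x) ^ 3 with hW
  set Nc : ℂ := (Fintype.card X : ℂ) with hN
  have hN0 : Nc ≠ 0 := by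
    rw [hN]
    exact_mod_cast Fintype.card_ne_zero
  have hq : Tendsto (fun m : ℕ => ((3 * m + d : ℕ) : ℝ)) atTop atTop := by
    apply tendsto_natCast_atTop_atTop.comp
    apply tendsto_atTop_mono (fun m => (by omega : m ≤ 3 * m + d)) tendsto_id
  have hs : Tendsto (fun m : ℕ => 1 / Real.sqrt ((3 * m + d : ℕ) : ℝ)) atTop
      (nhdsWithin 0 (Set.Ioi 0)) := by
    rw [tendsto_nhdsWithin_iff]
    constructor
    · exact tendsto_const_nhds.div_atTop (Real.tendsto_sqrt_atTop.comp hq)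
    · filter_upwards [eventually_gt_atTop 0] with m hm
      have : (0 : ℝ) < ((3 * m + d : ℕ) : ℝ) := by exact_mod_cast (by omega : 0 < 3 * m + d)
      show 0 < 1 / Real.sqrt ((3 * m + d : ℕ) : ℝ)
      positivity
  have hlim := (PtMain_expLim (u S.i0) L U d (W / Nc)).comp hs
  have hexp := (Complex.continuous_exp.tendsto _).comp hlim
  rw [← Complex.ofReal_exp, ← PtMain_Qf] at hexp
  have hy0 : Tendsto (fun s : ℝ => (1 + (3 * (u S.i0) * s + 3 * L * s ^ 2 + W / Nc * s ^ 3) : ℂ))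
      (nhdsWithin 0 (Set.Ioi 0)) (nhds 1) := by
    have : Continuous (fun s : ℝ =>
      (1 + (3 * (u S.i0) * s + 3 * L * s ^ 2 + W / Nc * s ^ 3) : ℂ)) := by fun_prop
    have h := (this.tendsto 0).mono_left (nhdsWithin_le_nhds (s := Set.Ioi (0:ℝ)))
    simpa using h
  have hne := (hy0.comp hs).eventually_ne one_ne_zero
  refine hexp.congr' ?_
  filter_upwards [eventually_gt_atTop 0, hne] with m hm hne1
  simp only [Function.comp_apply] at hne1 ⊢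
  set q : ℝ := ((3 * m + d : ℕ) : ℝ) with hqdef
  have hq0 : 0 < q := by rw [hqdef]; exact_mod_cast (by omega : 0 < 3 * m + d)
  set r : ℝ := Real.sqrt q with hr
  have hr0 : 0 < r := Real.sqrt_pos.mpr hq0
  have hr2 : r ^ 2 = q := Real.sq_sqrt hq0.le
  have hrc : (r : ℂ) ≠ 0 := by exact_mod_cast hr0.ne'
  have hrc2 : (r : ℂ) ^ 2 = (q : ℂ) := by exact_mod_cast hr2
  -- the sum of cubes
  have hG : ∀ x, (S.G (S.kk q u) x) ^ 3 = (r : ℂ) ^ 3 + 3 * r ^ 2 * S.G u x +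
      3 * r * (S.G u x) ^ 2 + (S.G u x) ^ 3 := by
    intro x
    rw [G_kk]
    ring
  have hsum : ∑ x, (S.G (S.kk q u) x) ^ 3 = Nc * (r : ℂ) ^ 3 *
      (1 + (3 * (u S.i0) * ((1 / r : ℝ) : ℂ) + 3 * L * ((1 / r : ℝ) : ℂ) ^ 2 +
        W / Nc * ((1 / r : ℝ) : ℂ) ^ 3)) := by
    simp only [hG]
    rw [Finset.sum_add_distrib, Finset.sum_add_distrib, Finset.sum_add_distrib,
      ← Finset.mul_sum, ← Finset.mul_sum, sum_G, sum_Gsq, Finset.sum_const, Finset.card_univ,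
      nsmul_eq_mul, ← hL, ← hW, ← hN]
    push_cast
    field_simp
    ring
  have hpow : (∑ x : Fin m → X, ∏ v, (S.G (S.kk q u) (x v)) ^ 3) =
      (∑ x, (S.G (S.kk q u) x) ^ 3) ^ m := by
    have := Fintype.sum_pow (fun x => (S.G (S.kk q u) x) ^ 3) m
    rw [this]
  rw [hpow, hsum]
  set z : ℂ := 1 + (3 * (u S.i0) * ((1 / r : ℝ) : ℂ) + 3 * L * ((1 / r : ℝ) : ℂ) ^ 2 +
        W / Nc * ((1 / r : ℝ) : ℂ) ^ 3) with hz
  have hzm : z ^ m = Complex.exp (m * Complex.log z) := by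
    rw [Complex.exp_nat_mul, Complex.exp_log hne1]
  have hrpow : ((q ^ ((3 * m : ℝ) / 2) : ℝ) : ℂ) = (r : ℂ) ^ (3 * m) := by
    have : q ^ ((3 * m : ℝ) / 2) = r ^ (3 * m) := by
      rw [hr, Real.sqrt_eq_rpow, ← Real.rpow_natCast, ← Real.rpow_mul hq0.le]
      congr 1
      push_cast
      ring
    rw [this]
    push_cast
    rfl
  rw [PtMain_sumkk S q hq0.le u, ← hU, ← hr]
  rw [mul_pow, mul_pow, hzm]
  push_cast
  rw [hrpow]
  have hexp2 : Complex.exp (-((q : ℂ) + 2 * r * (u S.i0) + U) / 2) =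
      Complex.exp (-(q : ℂ) / 2) * Complex.exp (-(r * (u S.i0)) - U / 2) := by
    rw [← Complex.exp_add]
    congr 1
    ring
  have hexpne : Complex.exp (-(q : ℂ) / 2) ≠ 0 := Complex.exp_ne_zero _
  have hmq : ((1 / (1 / (r : ℂ)) ^ 2 - d) / 3 : ℂ) = m := by
    rw [one_div, one_div, inv_pow, inv_inv, hrc2, hqdef]
    push_cast
    ring
  rw [hexp2, hmq]
  have hfin : Complex.exp (m * Complex.log z - (u S.i0) / (1 / (r : ℂ)) - U / 2) =
      Complex.exp (m * Complex.log z) * Complex.exp (-(r * (u S.i0)) - U / 2) := by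
    rw [← Complex.exp_add]
    congr 1
    field_simp
    ring
  rw [hfin]
  have h3m : ((r : ℂ) ^ 3) ^ m = (r : ℂ) ^ (3 * m) := (pow_mul _ _ _).symm
  rw [h3m]
  have hNm : (Fintype.card X : ℂ) ^ m ≠ 0 := pow_ne_zero _ hN0
  have hrm : (r : ℂ) ^ (3 * m) ≠ 0 := pow_ne_zero _ hrc
  rw [hN]
  field_simp

end Pool.Agent.PET
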