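import Pool.Agent.PET.NearB
/-!
# Tail : unbalanced type vectors are negligible near the saddle point

Fix `u`; `q = 3m + d`, `k = kk q u` (the `i0` coordinate is `√q + u_{i0}`), `g_x = ‖G k x‖³ ≥ 0`, `N = card X`.
If `x` is not `δ1`-near, some `a` has `|cntX x a / m - 1/N| > δ1`, so (Chebyshev)
`∑_{x not near} ∏_v g_{x v} ≤ δ1^{-2} ∑_a ∑_x (cntX x a/m - 1/N)² ∏_v g_{x v}` and, with `p = g_a/∑g`
(the `x v` are i.i.d. under the weights),
`∑_x (cntX x a/m - 1/N)² ∏ g = (∑ g)^m ( p(1-p)/m + (p - 1/N)² )`.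
`p → 1/N` as `m → ∞` because `G k x/√q = 1 + G u x/√q → 1`.
`(∑ g)^m e^{-∑k²/2} / (N^m q^{3m/2} e^{-q/2})` is bounded: by `nearB` (for large `m`, as `rr k = rr u` is fixed and
`k_{i0} ~ √q`), `(∑ g)^m ≤ N^m k0^{3m} exp((29/20) m rr u/k0²) ≤ C N^m k0^{3m}`, and
`(k0/√q)^{3m} e^{-(k0² - q)/2}` is bounded: `y = u0/√q`, `3m log(1+y) - √q u0 - u0²/2 ≤ (3m - q) u0/√q - u0²/2 = -d u0/√q - u0²/2`
(`log(1+y) ≤ y`).
-/
set_option autoImplicit false
open scoped BigOperators Classical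
open Filter MeasureTheory
noncomputable section
namespace Pool.Agent.PET

variable {X I : Type} [Fintype X] [Fintype I]

omit [Fintype I] in
/-- generating function of the number of indices of type `a` -/
theorem Tail_gf (g : X → ℝ) (m : ℕ) (a : X) (τ : ℝ) :
    ∑ x : Fin m → X, (∏ v, g (x v)) * Real.exp (τ * (cntX x a : ℝ)) =
      (∑ y, g y * Real.exp (τ * (if y = a then 1 else 0))) ^ m := by
  rw [Fintype.sum_pow]
  apply Finset.sum_congr rfl
  intro x _
  rw [Finset.prod_mul_distrib, ← Real.exp_sum, ← Finset.mul_sum]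
  congr 3
  rw [cntX, Finset.card_filter]
  push_cast
  rfl

omit [Fintype I] in
theorem Tail_gf_le {g : X → ℝ} {W : ℝ} (hg : ∀ x, 0 ≤ g x) (hW : W = ∑ x, g x) (hW0 : 0 < W)
    (m : ℕ) (a : X) {τ : ℝ} (hτ : |τ| ≤ 1) :
    ∑ x : Fin m → X, (∏ v, g (x v)) * Real.exp (τ * (cntX x a : ℝ)) ≤
      W ^ m * Real.exp (m * ((τ + τ ^ 2) * (g a / W))) := by
  rw [Tail_gf]
  have e1 : ∑ y, g y * Real.exp (τ * (if y = a then 1 else 0)) = W + (Real.exp τ - 1) * g a := by
    have e2 : ∀ y, g y * Real.exp (τ * (if y = a then 1 else 0)) =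
        g y + (if y = a then (Real.exp τ - 1) * g y else 0) := by
      intro y
      by_cases h : y = a
      · simp [h]; ring
      · simp [h]
    simp_rw [e2]
    rw [Finset.sum_add_distrib, ← hW, Finset.sum_ite_eq' Finset.univ a]
    simp
  have h1 := abs_le.mp (Real.abs_exp_sub_one_sub_id_le hτ)
  have h2 : W + (Real.exp τ - 1) * g a ≤ W * Real.exp ((τ + τ ^ 2) * (g a / W)) := by
    have h3 := Real.add_one_le_exp ((τ + τ ^ 2) * (g a / W))
    have h4 : (Real.exp τ - 1) * g a ≤ (τ + τ ^ 2) * g a :=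
      mul_le_mul_of_nonneg_right (by linarith [h1.2]) (hg a)
    have h5 : W * ((τ + τ ^ 2) * (g a / W)) = (τ + τ ^ 2) * g a := by
      field_simp
    calc W + (Real.exp τ - 1) * g a ≤ W + (τ + τ ^ 2) * g a := by linarith
      _ = W * ((τ + τ ^ 2) * (g a / W) + 1) := by rw [mul_add, h5]; ring
      _ ≤ _ := mul_le_mul_of_nonneg_left h3 hW0.le
  have h6 : 0 ≤ W + (Real.exp τ - 1) * g a := by
    rw [← e1]
    exact Finset.sum_nonneg fun y _ => mul_nonneg (hg y) (Real.exp_pos _).le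
  rw [e1]
  calc (W + (Real.exp τ - 1) * g a) ^ m ≤ (W * Real.exp ((τ + τ ^ 2) * (g a / W))) ^ m :=
        pow_le_pow_left₀ h6 h2 m
    _ = _ := by rw [mul_pow, ← Real.exp_nat_mul]

omit [Fintype I] in
/-- Chernoff bound for the unbalanced type vectors -/
theorem Tail_chern {g : X → ℝ} {W : ℝ} (hg : ∀ x, 0 ≤ g x) (hW : W = ∑ x, g x) (hW0 : 0 < W)
    {m : ℕ} (hm : 0 < m) {θ ρ δ : ℝ} (hθ0 : 0 < θ) (hθ1 : θ ≤ 1)
    (hρ : ∀ a, |g a / W - 1 / (Fintype.card X : ℝ)| ≤ ρ) :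
    ∑ x ∈ Finset.univ.filter (fun x : Fin m → X => ¬ Near δ x), ∏ v, g (x v) ≤
      W ^ m * (2 * (Fintype.card X : ℝ) * Real.exp (m * (θ * ρ + θ ^ 2 - θ * δ))) := by
  have hmR : (0 : ℝ) < m := by exact_mod_cast hm
  set N : ℝ := (Fintype.card X : ℝ) with hN
  -- pointwise bound
  have hpt : ∀ x : Fin m → X, ¬ Near δ x → 1 ≤ ∑ a,
      (Real.exp (θ * (cntX x a : ℝ)) * Real.exp (-(θ * (m / N)) - θ * m * δ) +
        Real.exp (-θ * (cntX x a : ℝ)) * Real.exp (θ * (m / N) - θ * m * δ)) := by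
    intro x hx
    rw [Near] at hx
    push Not at hx
    obtain ⟨a, ha⟩ := hx
    have hpos : ∀ b ∈ (Finset.univ : Finset X), 0 ≤
      (Real.exp (θ * (cntX x b : ℝ)) * Real.exp (-(θ * (m / N)) - θ * m * δ) +
        Real.exp (-θ * (cntX x b : ℝ)) * Real.exp (θ * (m / N) - θ * m * δ)) :=
      fun b _ => by positivity
    refine le_trans ?_ (Finset.single_le_sum hpos (Finset.mem_univ a))
    have h1 : (m : ℝ) * ((cntX x a : ℝ) / m - 1 / N) = (cntX x a : ℝ) - m / N := by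
      field_simp
    rcases lt_abs.mp ha with h2 | h2
    · have h3 : (m : ℝ) * δ ≤ (cntX x a : ℝ) - m / N := by
        rw [← h1]
        exact mul_le_mul_of_nonneg_left h2.le hmR.le
      have h4 : 0 ≤ θ * (cntX x a : ℝ) + (-(θ * (m / N)) - θ * m * δ) := by
        nlinarith
      have h5 : 1 ≤ Real.exp (θ * (cntX x a : ℝ)) * Real.exp (-(θ * (m / N)) - θ * m * δ) := by
        rw [← Real.exp_add]
        exact Real.one_le_exp h4
      have h6 : 0 ≤ Real.exp (-θ * (cntX x a : ℝ)) * Real.exp (θ * (m / N) - θ * m * δ) := by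
        positivity
      linarith
    · have h3 : (m : ℝ) * δ ≤ -((cntX x a : ℝ) - m / N) := by
        rw [← h1, ← mul_neg]
        exact mul_le_mul_of_nonneg_left h2.le hmR.le
      have h4 : 0 ≤ -θ * (cntX x a : ℝ) + (θ * (m / N) - θ * m * δ) := by
        nlinarith
      have h5 : 1 ≤ Real.exp (-θ * (cntX x a : ℝ)) * Real.exp (θ * (m / N) - θ * m * δ) := by
        rw [← Real.exp_add]
        exact Real.one_le_exp h4
      have h6 : 0 ≤ Real.exp (θ * (cntX x a : ℝ)) * Real.exp (-(θ * (m / N)) - θ * m * δ) := by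
        positivity
      linarith
  have hpr : ∀ x : Fin m → X, 0 ≤ ∏ v, g (x v) := fun x => Finset.prod_nonneg fun v _ => hg _
  have hW1 : ∀ a, g a / W ≤ 1 := by
    intro a
    rw [div_le_one hW0, hW]
    exact Finset.single_le_sum (fun y _ => hg y) (Finset.mem_univ a)
  have hW2 : ∀ a, 0 ≤ g a / W := fun a => div_nonneg (hg a) hW0.le
  have hterm : ∀ (a : X) (τ : ℝ), |τ| = θ →
      (∑ x : Fin m → X, (∏ v, g (x v)) * Real.exp (τ * (cntX x a : ℝ))) *
        Real.exp (-(τ * (m / N)) - θ * m * δ) ≤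
      W ^ m * Real.exp (m * (θ * ρ + θ ^ 2 - θ * δ)) := by
    intro a τ hτ
    have h1 := Tail_gf_le hg hW hW0 m a (τ := τ) (by rw [hτ]; exact hθ1)
    have hWm : 0 ≤ W ^ m := by positivity
    calc (∑ x : Fin m → X, (∏ v, g (x v)) * Real.exp (τ * (cntX x a : ℝ))) *
        Real.exp (-(τ * (m / N)) - θ * m * δ)
        ≤ (W ^ m * Real.exp (m * ((τ + τ ^ 2) * (g a / W)))) *
            Real.exp (-(τ * (m / N)) - θ * m * δ) :=
          mul_le_mul_of_nonneg_right h1 (Real.exp_pos _).le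
      _ = W ^ m * Real.exp (m * ((τ + τ ^ 2) * (g a / W)) + (-(τ * (m / N)) - θ * m * δ)) := by
          rw [Real.exp_add, mul_assoc]
      _ ≤ W ^ m * Real.exp (m * (θ * ρ + θ ^ 2 - θ * δ)) := by
          apply mul_le_mul_of_nonneg_left _ hWm
          apply Real.exp_le_exp.mpr
          have h2 : τ * (g a / W - 1 / N) ≤ θ * ρ := by
            calc τ * (g a / W - 1 / N) ≤ |τ * (g a / W - 1 / N)| := le_abs_self _
              _ = θ * |g a / W - 1 / N| := by rw [abs_mul, hτ]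
              _ ≤ θ * ρ := mul_le_mul_of_nonneg_left (hρ a) hθ0.le
          have h3 : τ ^ 2 = θ ^ 2 := by rw [← sq_abs, hτ]
          have h4 : τ ^ 2 * (g a / W) ≤ θ ^ 2 := by
            rw [h3]
            have := mul_le_mul_of_nonneg_left (hW1 a) (sq_nonneg θ)
            linarith
          have h5 : m * ((τ + τ ^ 2) * (g a / W)) + (-(τ * (m / N)) - θ * m * δ) =
              m * (τ * (g a / W - 1 / N) + τ ^ 2 * (g a / W) - θ * δ) := by
            ring
          rw [h5]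
          apply mul_le_mul_of_nonneg_left _ hmR.le
          linarith
  calc ∑ x ∈ Finset.univ.filter (fun x : Fin m → X => ¬ Near δ x), ∏ v, g (x v)
      ≤ ∑ x : Fin m → X, (∏ v, g (x v)) * ∑ a,
        (Real.exp (θ * (cntX x a : ℝ)) * Real.exp (-(θ * (m / N)) - θ * m * δ) +
          Real.exp (-θ * (cntX x a : ℝ)) * Real.exp (θ * (m / N) - θ * m * δ)) := by
        rw [Finset.sum_filter]
        apply Finset.sum_le_sum
        intro x _
        by_cases h : Near δ x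
        · rw [if_neg (not_not.mpr h)]
          exact mul_nonneg (hpr x) (Finset.sum_nonneg fun a _ => by positivity)
        · rw [if_pos h]
          have := mul_le_mul_of_nonneg_left (hpt x h) (hpr x)
          rwa [mul_one] at this
    _ = ∑ a : X, ((∑ x : Fin m → X, (∏ v, g (x v)) * Real.exp (θ * (cntX x a : ℝ))) *
          Real.exp (-(θ * (m / N)) - θ * m * δ) +
        (∑ x : Fin m → X, (∏ v, g (x v)) * Real.exp (-θ * (cntX x a : ℝ))) *
          Real.exp (-(-θ * (m / N)) - θ * m * δ)) := by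
        simp_rw [Finset.mul_sum]
        rw [Finset.sum_comm]
        apply Finset.sum_congr rfl
        intro a _
        rw [Finset.sum_mul, Finset.sum_mul, ← Finset.sum_add_distrib]
        apply Finset.sum_congr rfl
        intro x _
        have : -(-θ * (m / N)) - θ * m * δ = θ * (m / N) - θ * m * δ := by ring
        rw [this]
        ring
    _ ≤ ∑ _a : X, (W ^ m * Real.exp (m * (θ * ρ + θ ^ 2 - θ * δ)) +
          W ^ m * Real.exp (m * (θ * ρ + θ ^ 2 - θ * δ))) := by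
        apply Finset.sum_le_sum
        intro a _
        exact add_le_add (hterm a θ (abs_of_pos hθ0))
          (hterm a (-θ) (by rw [abs_neg, abs_of_pos hθ0]))
    _ = W ^ m * (2 * N * Real.exp (m * (θ * ρ + θ ^ 2 - θ * δ))) := by
        rw [Finset.sum_const, Finset.card_univ, nsmul_eq_mul]
        ring

theorem Tail_sqrt (d : ℕ) : Tendsto (fun m : ℕ => Real.sqrt ((3 * m + d : ℕ) : ℝ)) atTop atTop := by
  apply Real.tendsto_sqrt_atTop.comp
  apply tendsto_natCast_atTop_atTop.comp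
  apply tendsto_atTop_mono (f := fun m : ℕ => m) _ tendsto_id
  intro m
  show m ≤ 3 * m + d
  omega

/-- the weights become uniform -/
theorem Tail_unif (S : Spec X I) [Nonempty X] (d : ℕ) (u : I → ℝ) (a : X) :
    Tendsto (fun m : ℕ => ‖S.G (S.kk ((3 * m + d : ℕ) : ℝ) u) a‖ ^ 3 /
      ∑ x, ‖S.G (S.kk ((3 * m + d : ℕ) : ℝ) u) x‖ ^ 3) atTop
      (nhds (1 / (Fintype.card X : ℝ))) := by
  set s : ℕ → ℝ := fun m => Real.sqrt ((3 * m + d : ℕ) : ℝ) with hs
  have hs1 : Tendsto s atTop atTop := Tail_sqrt d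
  have hinv : Tendsto (fun m => (s m)⁻¹) atTop (nhds 0) := hs1.inv_tendsto_atTop
  have h1 : ∀ x, Tendsto (fun m => ‖(1 : ℂ) + (((s m)⁻¹ : ℝ) : ℂ) * S.G u x‖ ^ 3) atTop (nhds 1) := by
    intro x
    have h2 : Tendsto (fun m => (((s m)⁻¹ : ℝ) : ℂ)) atTop (nhds ((0 : ℝ) : ℂ)) :=
      (Complex.continuous_ofReal.tendsto 0).comp hinv
    have h3 : Tendsto (fun m => (1 : ℂ) + (((s m)⁻¹ : ℝ) : ℂ) * S.G u x) atTop
        (nhds ((1 : ℂ) + ((0 : ℝ) : ℂ) * S.G u x)) := (h2.mul_const _).const_add _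
    have h4 := (h3.norm).pow 3
    simpa using h4
  have h2 : Tendsto (fun m => ∑ x, ‖(1 : ℂ) + (((s m)⁻¹ : ℝ) : ℂ) * S.G u x‖ ^ 3) atTop
      (nhds (∑ _x : X, (1 : ℝ))) := tendsto_finsetSum _ fun x _ => h1 x
  have hX : (∑ _x : X, (1 : ℝ)) = (Fintype.card X : ℝ) := by simp
  rw [hX] at h2
  have hX0 : (Fintype.card X : ℝ) ≠ 0 := by exact_mod_cast Fintype.card_ne_zero
  have h3 := (h1 a).div h2 hX0
  refine h3.congr' ?_
  filter_upwards [hs1.eventually_gt_atTop 0] with m hm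
  have e : ∀ x, ‖S.G (S.kk ((3 * m + d : ℕ) : ℝ) u) x‖ ^ 3 =
      s m ^ 3 * ‖(1 : ℂ) + (((s m)⁻¹ : ℝ) : ℂ) * S.G u x‖ ^ 3 := by
    intro x
    have hm' : ((s m : ℝ) : ℂ) ≠ 0 := by exact_mod_cast hm.ne'
    have : S.G (S.kk ((3 * m + d : ℕ) : ℝ) u) x =
        ((s m : ℝ) : ℂ) * ((1 : ℂ) + (((s m)⁻¹ : ℝ) : ℂ) * S.G u x) := by
      rw [G_kk, mul_add, mul_one, ← mul_assoc, Complex.ofReal_inv, mul_inv_cancel₀ hm', one_mul]
    rw [this, norm_mul, mul_pow, Complex.norm_of_nonneg hm.le]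
  simp_rw [e]
  rw [← Finset.mul_sum, mul_div_mul_left _ _ (by positivity)]
  rfl

/-- the total weight is of the right order -/
theorem Tail_total (S : Spec X I) [Nonempty X] (d : ℕ) (u : I → ℝ) :
    ∀ᶠ m : ℕ in atTop, (∑ x, ‖S.G (S.kk ((3 * m + d : ℕ) : ℝ) u) x‖ ^ 3) ^ m *
        Real.exp (-(∑ i, (S.kk ((3 * m + d : ℕ) : ℝ) u i) ^ 2) / 2) ≤
      Real.exp (2 * S.rr u + d * |u S.i0|) * ((Fintype.card X : ℝ) ^ m *
            (((3 * m + d : ℕ) : ℝ) ^ ((3 * m : ℝ) / 2) * Real.exp (-((3 * m + d : ℕ) : ℝ) / 2))) := by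
  obtain ⟨η, hη, hnear⟩ := nearB S
  have hs1 := Tail_sqrt d
  filter_upwards [hs1.eventually_ge_atTop 1, hs1.eventually_ge_atTop (2 * |u S.i0|),
    hs1.eventually_ge_atTop (2 * Real.sqrt (S.rr u) / η), eventually_gt_atTop 0] with m h1 h2 h3 hm
  have hmR : (0 : ℝ) < m := by exact_mod_cast hm
  set q : ℝ := ((3 * m + d : ℕ) : ℝ) with hq
  set s := Real.sqrt q with hsdef
  set k := S.kk q u with hkdef
  set u0 := u S.i0 with hu0
  have hdR : (0 : ℝ) ≤ (d : ℝ) := Nat.cast_nonneg d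
  have hqe : q = 3 * m + d := by rw [hq]; push_cast; ring
  have hq0 : 0 < q := by rw [hqe]; positivity
  have hs0 : 0 < s := Real.sqrt_pos.mpr hq0
  have hsq : s ^ 2 = q := Real.sq_sqrt hq0.le
  have hk0 : k S.i0 = u0 + s := by simp [hkdef, Spec.kk, hu0, hsdef]
  have hrr : S.rr k = S.rr u := by
    unfold Spec.rr
    apply Finset.sum_congr rfl
    intro i hi
    have : i ≠ S.i0 := Finset.ne_of_mem_erase hi
    simp [hkdef, Spec.kk, this]
  have hrr0 : 0 ≤ S.rr u := Finset.sum_nonneg fun i _ => sq_nonneg _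
  have habs := neg_abs_le u0
  have habs' := le_abs_self u0
  have hk1 : s / 2 ≤ k S.i0 := by rw [hk0]; linarith
  have hkpos : 0 < k S.i0 := by linarith
  have hcone : S.rr k ≤ η ^ 2 * (k S.i0) ^ 2 := by
    rw [hrr]
    have h4 : Real.sqrt (S.rr u) ≤ η * (k S.i0) := by
      rw [div_le_iff₀ hη] at h3
      nlinarith
    have h5 : Real.sqrt (S.rr u) ^ 2 ≤ (η * (k S.i0)) ^ 2 :=
      pow_le_pow_left₀ (Real.sqrt_nonneg _) h4 2
    rw [Real.sq_sqrt hrr0, mul_pow] at h5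
    exact h5
  have hW := hnear k hkpos hcone
  set k0 := k S.i0 with hk0def
  set N : ℝ := (Fintype.card X : ℝ) with hN
  have hk02 : 0 < k0 ^ 2 := by positivity
  have hmk : (m : ℝ) * ((29 / 20) * (S.rr k / k0 ^ 2)) ≤ 2 * S.rr u := by
    rw [hrr]
    have e : (m : ℝ) * ((29 / 20) * (S.rr u / k0 ^ 2)) = ((29 / 20) * m * S.rr u) / k0 ^ 2 := by ring
    rw [e, div_le_iff₀ hk02]
    have h4 : (s / 2) ^ 2 ≤ k0 ^ 2 := pow_le_pow_left₀ (by positivity) hk1 2
    have h5 : (29 / 20) * (m : ℝ) ≤ 2 * k0 ^ 2 := by nlinarith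
    nlinarith [mul_le_mul_of_nonneg_left h5 hrr0]
  have hWm : (∑ x, ‖S.G k x‖ ^ 3) ^ m ≤ N ^ m * (k0 ^ (3 * m) * Real.exp (2 * S.rr u)) := by
    calc (∑ x, ‖S.G k x‖ ^ 3) ^ m ≤
        (N * k0 ^ 3 * Real.exp ((29 / 20) * (S.rr k / k0 ^ 2))) ^ m :=
          pow_le_pow_left₀ (Finset.sum_nonneg fun x _ => by positivity) hW m
      _ = N ^ m * (k0 ^ (3 * m) * Real.exp (m * ((29 / 20) * (S.rr k / k0 ^ 2)))) := by
          rw [mul_pow, mul_pow, ← pow_mul, ← Real.exp_nat_mul, mul_assoc]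
      _ ≤ N ^ m * (k0 ^ (3 * m) * Real.exp (2 * S.rr u)) := by
          apply mul_le_mul_of_nonneg_left _ (by positivity)
          apply mul_le_mul_of_nonneg_left (Real.exp_le_exp.mpr hmk) (by positivity)
  have hkk : k0 ^ (3 * m) * Real.exp (-(k0 ^ 2 + S.rr u) / 2) ≤
      Real.exp (d * |u0|) * (q ^ ((3 * m : ℝ) / 2) * Real.exp (-q / 2)) := by
    have e1 : q ^ ((3 * m : ℝ) / 2) = s ^ (3 * m) := by
      rw [← hsq, ← Real.rpow_natCast s 2, ← Real.rpow_mul hs0.le, ← Real.rpow_natCast s (3 * m)]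
      congr 1
      push_cast
      ring
    have e2 : k0 ≤ s * Real.exp (u0 / s) := by
      have := Real.add_one_le_exp (u0 / s)
      calc k0 = s * (u0 / s + 1) := by rw [hk0]; field_simp
        _ ≤ _ := mul_le_mul_of_nonneg_left this hs0.le
    have e3 : k0 ^ (3 * m) ≤ s ^ (3 * m) * Real.exp (((3 * m : ℕ) : ℝ) * (u0 / s)) := by
      calc k0 ^ (3 * m) ≤ (s * Real.exp (u0 / s)) ^ (3 * m) := pow_le_pow_left₀ hkpos.le e2 _
        _ = _ := by rw [mul_pow, ← Real.exp_nat_mul]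
    have e4 : ((3 * m : ℕ) : ℝ) * (u0 / s) + -(k0 ^ 2 + S.rr u) / 2 ≤ d * |u0| + -q / 2 := by
      have e5 : ((3 * m : ℕ) : ℝ) = s ^ 2 - d := by
        rw [hsq, hqe]; push_cast; ring
      have e6 : (s ^ 2 - d) * (u0 / s) = s * u0 - d * (u0 / s) := by
        field_simp
      have e7 : -(u0 / s) ≤ |u0| := by
        rw [← neg_div, div_le_iff₀ hs0]
        nlinarith [abs_nonneg u0]
      have e8 : (d : ℝ) * (-(u0 / s)) ≤ d * |u0| := mul_le_mul_of_nonneg_left e7 hdR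
      rw [e5, e6, hk0, ← hsq]
      nlinarith [sq_nonneg u0]
    rw [e1]
    calc k0 ^ (3 * m) * Real.exp (-(k0 ^ 2 + S.rr u) / 2)
        ≤ (s ^ (3 * m) * Real.exp (((3 * m : ℕ) : ℝ) * (u0 / s))) *
            Real.exp (-(k0 ^ 2 + S.rr u) / 2) :=
          mul_le_mul_of_nonneg_right e3 (Real.exp_pos _).le
      _ = s ^ (3 * m) * Real.exp (((3 * m : ℕ) : ℝ) * (u0 / s) + -(k0 ^ 2 + S.rr u) / 2) := by
          rw [Real.exp_add, mul_assoc]
      _ ≤ s ^ (3 * m) * Real.exp (d * |u0| + -q / 2) :=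
          mul_le_mul_of_nonneg_left (Real.exp_le_exp.mpr e4) (by positivity)
      _ = _ := by rw [Real.exp_add]; ring
  have hsum : ∑ i, k i ^ 2 = k0 ^ 2 + S.rr u := by rw [sum_sq_split S k, hrr]
  rw [hsum]
  calc (∑ x, ‖S.G k x‖ ^ 3) ^ m * Real.exp (-(k0 ^ 2 + S.rr u) / 2)
      ≤ (N ^ m * (k0 ^ (3 * m) * Real.exp (2 * S.rr u))) * Real.exp (-(k0 ^ 2 + S.rr u) / 2) :=
        mul_le_mul_of_nonneg_right hWm (Real.exp_pos _).le
    _ = N ^ m * Real.exp (2 * S.rr u) *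
          (k0 ^ (3 * m) * Real.exp (-(k0 ^ 2 + S.rr u) / 2)) := by ring
    _ ≤ N ^ m * Real.exp (2 * S.rr u) *
          (Real.exp (d * |u0|) * (q ^ ((3 * m : ℝ) / 2) * Real.exp (-q / 2))) :=
        mul_le_mul_of_nonneg_left hkk (by positivity)
    _ = _ := by rw [Real.exp_add]; ring

theorem tail (S : Spec X I) [Nonempty X] (d : ℕ) (δ₁ : ℝ) (hδ : 0 < δ₁) (u : I → ℝ) :
    Tendsto (fun m : ℕ =>
      (∑ x ∈ Finset.univ.filter (fun x : Fin m → X => ¬ Near δ₁ x),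
          ∏ v, ‖S.G (S.kk ((3 * m + d : ℕ) : ℝ) u) (x v)‖ ^ 3)
        * Real.exp (-(∑ i, (S.kk ((3 * m + d : ℕ) : ℝ) u i) ^ 2) / 2)
        / ((Fintype.card X : ℝ) ^ m *
            (((3 * m + d : ℕ) : ℝ) ^ ((3 * m : ℝ) / 2) * Real.exp (-((3 * m + d : ℕ) : ℝ) / 2))))
      atTop (nhds 0) := by
  set θ := min (δ₁ / 4) 1 with hθ
  have hθ0 : 0 < θ := lt_min (by positivity) one_pos
  have hθ1 : θ ≤ 1 := min_le_right _ _
  have hθδ : θ ≤ δ₁ / 4 := min_le_left _ _
  set K := Real.exp (2 * S.rr u + d * |u S.i0|) with hK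
  have hN : (0 : ℝ) < (Fintype.card X : ℝ) := by exact_mod_cast Fintype.card_pos
  -- the bound tends to zero
  have hlim : Tendsto (fun m : ℕ => K * (2 * (Fintype.card X : ℝ) *
      Real.exp (-((θ * δ₁ / 2) * m)))) atTop (nhds 0) := by
    have h1 : Tendsto (fun m : ℕ => (θ * δ₁ / 2) * (m : ℝ)) atTop atTop :=
      (tendsto_natCast_atTop_atTop).const_mul_atTop (by positivity)
    have h2 := Real.tendsto_exp_neg_atTop_nhds_zero.comp h1
    have h3 := (h2.const_mul (2 * (Fintype.card X : ℝ))).const_mul K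
    simpa using h3
  have hunif : ∀ᶠ m : ℕ in atTop, ∀ a, |‖S.G (S.kk ((3 * m + d : ℕ) : ℝ) u) a‖ ^ 3 /
      ∑ x, ‖S.G (S.kk ((3 * m + d : ℕ) : ℝ) u) x‖ ^ 3 - 1 / (Fintype.card X : ℝ)| ≤ δ₁ / 4 := by
    rw [eventually_all]
    intro a
    have h1 := Tail_unif S d u a
    have h2 := (h1.sub_const (1 / (Fintype.card X : ℝ))).abs
    rw [sub_self, abs_zero] at h2
    exact (h2.eventually_lt_const (show (0 : ℝ) < δ₁ / 4 by positivity)).mono fun m hm => hm.le
  refine squeeze_zero' (Eventually.of_forall fun m => ?_) ?_ hlim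
  · apply div_nonneg
    · apply mul_nonneg _ (Real.exp_pos _).le
      exact Finset.sum_nonneg fun x _ => Finset.prod_nonneg fun v _ => by positivity
    · positivity
  · filter_upwards [hunif, Tail_total S d u, eventually_gt_atTop 0] with m h1 h2 hm
    have hmR : (0 : ℝ) < m := by exact_mod_cast hm
    set g : X → ℝ := fun x => ‖S.G (S.kk ((3 * m + d : ℕ) : ℝ) u) x‖ ^ 3 with hg
    have hg0 : ∀ x, 0 ≤ g x := fun x => by positivity
    set W := ∑ x, g x with hW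
    have hW0 : 0 ≤ W := Finset.sum_nonneg fun x _ => hg0 x
    have hq0 : (0 : ℝ) < ((3 * m + d : ℕ) : ℝ) := by
      have : 0 < 3 * m + d := by omega
      exact_mod_cast this
    have hden : 0 < (Fintype.card X : ℝ) ^ m *
            (((3 * m + d : ℕ) : ℝ) ^ ((3 * m : ℝ) / 2) *
              Real.exp (-((3 * m + d : ℕ) : ℝ) / 2)) := by positivity
    rw [div_le_iff₀ hden]
    have hsum : ∑ x ∈ Finset.univ.filter (fun x : Fin m → X => ¬ Near δ₁ x), ∏ v, g (x v) ≤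
        W ^ m * (2 * (Fintype.card X : ℝ) * Real.exp (-((θ * δ₁ / 2) * m))) := by
      rcases hW0.eq_or_lt with h3 | h3
      · -- all weights vanish
        have h4 : ∀ x, g x = 0 := by
          intro x
          have := (Finset.sum_eq_zero_iff_of_nonneg (fun y _ => hg0 y)).mp h3.symm x
            (Finset.mem_univ x)
          exact this
        have h5 : ∀ x : Fin m → X, ∏ v, g (x v) = 0 := fun x =>
          Finset.prod_eq_zero (Finset.mem_univ (⟨0, hm⟩ : Fin m)) (h4 _)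
        rw [Finset.sum_congr rfl fun x _ => h5 x, Finset.sum_const_zero]
        positivity
      · refine (Tail_chern hg0 hW h3 hm hθ0 hθ1 h1).trans ?_
        apply mul_le_mul_of_nonneg_left _ (by positivity)
        apply mul_le_mul_of_nonneg_left _ (by positivity)
        apply Real.exp_le_exp.mpr
        have h6 : θ * (δ₁ / 4) + θ ^ 2 - θ * δ₁ ≤ -(θ * δ₁ / 2) := by nlinarith
        nlinarith
    have hex : 0 ≤ Real.exp (-(∑ i, (S.kk ((3 * m + d : ℕ) : ℝ) u i) ^ 2) / 2) :=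
      (Real.exp_pos _).le
    have h7 : 0 ≤ 2 * (Fintype.card X : ℝ) * Real.exp (-((θ * δ₁ / 2) * m)) := by positivity
    calc (∑ x ∈ Finset.univ.filter (fun x : Fin m → X => ¬ Near δ₁ x), ∏ v, g (x v)) *
          Real.exp (-(∑ i, (S.kk ((3 * m + d : ℕ) : ℝ) u i) ^ 2) / 2)
        ≤ (W ^ m * (2 * (Fintype.card X : ℝ) * Real.exp (-((θ * δ₁ / 2) * m)))) *
          Real.exp (-(∑ i, (S.kk ((3 * m + d : ℕ) : ℝ) u i) ^ 2) / 2) :=
          mul_le_mul_of_nonneg_right hsum hex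
      _ = (2 * (Fintype.card X : ℝ) * Real.exp (-((θ * δ₁ / 2) * m))) *
          (W ^ m * Real.exp (-(∑ i, (S.kk ((3 * m + d : ℕ) : ℝ) u i) ^ 2) / 2)) := by ring
      _ ≤ (2 * (Fintype.card X : ℝ) * Real.exp (-((θ * δ₁ / 2) * m))) *
          (K * ((Fintype.card X : ℝ) ^ m *
            (((3 * m + d : ℕ) : ℝ) ^ ((3 * m : ℝ) / 2) *
              Real.exp (-((3 * m + d : ℕ) : ℝ) / 2)))) :=
          mul_le_mul_of_nonneg_left h2 h7
      _ = _ := by ring

end Pool.Agent.PET
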