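import Pool.Agent.PET.Dom
import Pool.Agent.PET.Tail
import Pool.Agent.PET.PtMain
import Pool.Agent.PET.GamDen
import Pool.Agent.PET.DFac
/-!
# Lap : the Laplace asymptotics

`q = 3m + d` even, `n_q = q^{q/2} e^{-q/2}`, `N = card X`, `h_m(k) = ∏_{i<d} G k (cc i) * F (N m) k`.
1. `gam_integral`: `∫ h_m dgam = (2π)^{-|I|/2} ∫ h_m(k) e^{-∑k²/2} dk`.
2. `h_m(-k) = (-1)^{3m+d} h_m(k) = h_m(k)` (`G_neg`), the hyperplane `k_{i0} = 0` is a null set, so the integral is twice
   the integral over `{k_{i0} > 0}`.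
3. Translate the `i0` coordinate by `√q`: `k = kk q u`, `u_{i0} > -√q`.  By `dom` the integrand divided by `N^m n_q` is bounded by
   `C exp(-c ∑ u_i²)` (integrable: `gauss_integrable`).
4. For fixed `u`, for large `m`: `∏_{i<d} G(cc i)/q^{d/2} → 1` (`G_kk`), and `F (N m) = ∑_{all x} - ∑_{x ∉ N m}`, where
   `x ∉ N m` implies `¬ Near δ1 x` (eventually), so by `ptmain` and `tail` the integrand tends to `exp(-Qf u)`.
5. Dominated convergence and `gauss_prod` (`b_{i0} = 1`, `b_i = (1-2lam_i)/2`):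
   `∫ exp(-Qf) = √π ∏_{i≠i0} √(2π/(1-2 lam_i))`, times `2 (2π)^{-|I|/2}` gives `√2 K`.
6. `dfac q / n_q → √2` (`dfac_asymp`, `q = 2t`).
`lap_bdd`: the same for the integral of absolute values is not needed; the bound follows from `lap` (a convergent sequence is bounded).
-/
set_option autoImplicit false
open scoped BigOperators Classical
open Filter MeasureTheory
noncomputable section
namespace Pool.Agent.PET

variable {X I : Type} [Fintype X] [Fintype I]

theorem Lap_contG (S : Spec X I) (x : X) : Continuous (fun k : I → ℝ => S.G k x) := by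
  unfold Spec.G
  fun_prop

theorem Lap_contF (S : Spec X I) {m : ℕ} (N : Set (Fin m → X)) :
    Continuous (fun k : I → ℝ => S.F N k) := by
  unfold Spec.F
  refine continuous_finsetSum _ (fun x _ => continuous_finsetProd _ (fun v _ => ?_))
  exact (Lap_contG S (x v)).pow 3

theorem Lap_kk0 (S : Spec X I) (q : ℝ) (u : I → ℝ) : S.kk q u S.i0 = u S.i0 + Real.sqrt q := by
  simp [Spec.kk]

theorem Lap_rrkk (S : Spec X I) (q : ℝ) (u : I → ℝ) : S.rr (S.kk q u) = S.rr u := by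
  unfold Spec.rr
  apply Finset.sum_congr rfl
  intro i hi
  simp [Spec.kk, Finset.ne_of_mem_erase hi]

theorem Lap_kkadd (S : Spec X I) (q : ℝ) (u : I → ℝ) :
    S.kk q u = u + Pi.single S.i0 (Real.sqrt q) := by
  funext i
  by_cases h : i = S.i0
  · subst h
    simp [Spec.kk]
  · simp [Spec.kk, h]

/-- the integrand -/
def Lap_h (S : Spec X I) {d : ℕ} (cc : Fin d → X) {m : ℕ} (N : Set (Fin m → X)) (k : I → ℝ) : ℂ :=
  (∏ i, S.G k (cc i)) * S.F N k

def Lap_g (S : Spec X I) {d : ℕ} (cc : Fin d → X) {m : ℕ} (N : Set (Fin m → X)) (k : I → ℝ) : ℂ :=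
  (Real.exp (-(∑ i, k i ^ 2) / 2) : ℂ) * Lap_h S cc N k

theorem Lap_conth (S : Spec X I) {d : ℕ} (cc : Fin d → X) {m : ℕ} (N : Set (Fin m → X)) :
    Continuous (Lap_h S cc N) := by
  unfold Lap_h
  exact (continuous_finsetProd _ (fun i _ => Lap_contG S (cc i))).mul (Lap_contF S N)

theorem Lap_contg (S : Spec X I) {d : ℕ} (cc : Fin d → X) {m : ℕ} (N : Set (Fin m → X)) :
    Continuous (Lap_g S cc N) := by
  unfold Lap_g
  refine Continuous.mul ?_ (Lap_conth S cc N)
  exact Complex.continuous_ofReal.comp (by fun_prop)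

theorem Lap_hneg (S : Spec X I) {d : ℕ} (cc : Fin d → X) {m : ℕ} (N : Set (Fin m → X))
    (hev : Even (3 * m + d)) (k : I → ℝ) : Lap_h S cc N (-k) = Lap_h S cc N k := by
  unfold Lap_h Spec.F
  have h1 : ∏ i, S.G (-k) (cc i) = (-1) ^ d * ∏ i, S.G k (cc i) := by
    simp only [G_neg]
    rw [Finset.prod_neg]
    simp
  have h2 : ∑ x ∈ Finset.univ.filter (fun x : Fin m → X => x ∈ N), ∏ v, (S.G (-k) (x v)) ^ 3 =
      (-1) ^ m * ∑ x ∈ Finset.univ.filter (fun x : Fin m → X => x ∈ N),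
        ∏ v, (S.G k (x v)) ^ 3 := by
    rw [Finset.mul_sum]
    apply Finset.sum_congr rfl
    intro x _
    have : ∀ v, (S.G (-k) (x v)) ^ 3 = -((S.G k (x v)) ^ 3) := by
      intro v
      rw [G_neg]
      ring
    simp only [this]
    rw [Finset.prod_neg]
    simp
  rw [h1, h2]
  have h3 : ((-1 : ℂ)) ^ d * (-1) ^ m = 1 := by
    rw [← pow_add]
    apply Even.neg_one_pow
    rw [Nat.even_add] at hev ⊢
    rw [Nat.even_mul] at hev
    have h3 : ¬ Even 3 := by decide
    tauto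
  calc ((-1) ^ d * ∏ i, S.G k (cc i)) * ((-1) ^ m *
        ∑ x ∈ Finset.univ.filter (fun x : Fin m → X => x ∈ N), ∏ v, (S.G k (x v)) ^ 3)
      = ((-1) ^ d * (-1) ^ m) * ((∏ i, S.G k (cc i)) *
        ∑ x ∈ Finset.univ.filter (fun x : Fin m → X => x ∈ N), ∏ v, (S.G k (x v)) ^ 3) := by ring
    _ = _ := by rw [h3, one_mul]

theorem Lap_gneg (S : Spec X I) {d : ℕ} (cc : Fin d → X) {m : ℕ} (N : Set (Fin m → X))
    (hev : Even (3 * m + d)) (k : I → ℝ) : Lap_g S cc N (-k) = Lap_g S cc N k := by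
  unfold Lap_g
  rw [Lap_hneg S cc N hev]
  simp

theorem Lap_hyper (S : Spec X I) : ∀ᵐ k : I → ℝ, k S.i0 ≠ 0 := by
  have h := Measure.pi_hyperplane (fun _ : I => (volume : Measure ℝ)) S.i0 0
  rw [ae_iff]
  simpa [volume_pi] using h

/-- the integral is twice the integral over the half space, shifted -/
theorem Lap_half (S : Spec X I) {d : ℕ} (cc : Fin d → X) {m : ℕ} (N : Set (Fin m → X))
    (hev : Even (3 * m + d)) (q : ℝ)
    (hint : Integrable (fun u : I → ℝ => if -Real.sqrt q < u S.i0 then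
      Lap_g S cc N (S.kk q u) else 0)) :
    ∫ k, Lap_g S cc N k = 2 * ∫ u : I → ℝ, (if -Real.sqrt q < u S.i0 then
      Lap_g S cc N (S.kk q u) else 0) := by
  set ψ : (I → ℝ) → ℂ := fun k => if 0 < k S.i0 then Lap_g S cc N k else 0 with hψ
  have h1 : (fun u : I → ℝ => if -Real.sqrt q < u S.i0 then
      Lap_g S cc N (S.kk q u) else 0) = fun u => ψ (u + Pi.single S.i0 (Real.sqrt q)) := by
    funext u
    rw [hψ]
    simp only [Pi.add_apply, Pi.single_eq_same]
    rw [← Lap_kkadd]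
    have : (-Real.sqrt q < u S.i0) ↔ (0 < u S.i0 + Real.sqrt q) := by
      constructor <;> intro h <;> linarith
    by_cases h : -Real.sqrt q < u S.i0
    · rw [if_pos h, if_pos (this.mp h)]
    · rw [if_neg h, if_neg (fun h' => h (this.mpr h'))]
  rw [h1] at hint ⊢
  rw [integral_add_right_eq_self ψ]
  have hψint : Integrable ψ := by
    have := hint.comp_add_right (-(Pi.single S.i0 (Real.sqrt q) : I → ℝ))
    simpa using this
  have h2 : ∫ k, ψ (-k) = ∫ k, ψ k := integral_neg_eq_self ψ volume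
  have h3 : Integrable (fun k => ψ (-k)) := hψint.comp_neg
  have h4 : ∫ k, Lap_g S cc N k = ∫ k, (ψ k + ψ (-k)) := by
    apply integral_congr_ae
    filter_upwards [Lap_hyper S] with k hk
    rw [hψ]
    simp only [Pi.neg_apply, Left.neg_pos_iff]
    rcases lt_or_gt_of_ne hk with h | h
    · rw [if_neg (not_lt.mpr h.le), if_pos h, Lap_gneg S cc N hev, zero_add]
    · rw [if_pos h, if_neg (not_lt.mpr h.le), add_zero]
  rw [h4, integral_add hψint h3, h2]
  ring

theorem Lap_qtendsto (d : ℕ) : Tendsto (fun m : ℕ => ((3 * m + d : ℕ) : ℝ)) atTop atTop := by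
  apply tendsto_natCast_atTop_atTop.comp
  apply tendsto_atTop_mono (fun m => (by omega : m ≤ 3 * m + d)) tendsto_id

/-- pointwise limit -/
theorem Lap_ptlim (S : Spec X I) [Nonempty X] (d : ℕ) (cc : Fin d → X)
    (N : ∀ m : ℕ, Set (Fin m → X)) (δ₁ : ℝ) (hδ : 0 < δ₁)
    (hN : ∀ᶠ m : ℕ in atTop, ∀ x : Fin m → X, Near δ₁ x → x ∈ N m) (u : I → ℝ) :
    Tendsto (fun m : ℕ => Lap_g S cc (N m) (S.kk ((3 * m + d : ℕ) : ℝ) u)
        / (((Fintype.card X : ℝ) ^ m * (((3 * m + d : ℕ) : ℝ) ^ (((3 * m + d : ℕ) : ℝ) / 2)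
          * Real.exp (-((3 * m + d : ℕ) : ℝ) / 2)) : ℝ) : ℂ)) atTop
      (nhds (Real.exp (-S.Qf u) : ℂ)) := by
  have hq := Lap_qtendsto d
  -- the product of the `d` factors
  have hfac : Tendsto (fun m : ℕ => ∏ i, (S.G (S.kk ((3 * m + d : ℕ) : ℝ) u) (cc i) /
      (Real.sqrt ((3 * m + d : ℕ) : ℝ) : ℂ))) atTop (nhds 1) := by
    have : (1 : ℂ) = ∏ _i : Fin d, 1 := by simp
    rw [this]
    apply tendsto_finsetProd
    intro i _
    have h1 : Tendsto (fun m : ℕ => S.G u (cc i) / (Real.sqrt ((3 * m + d : ℕ) : ℝ) : ℂ)) atTop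
        (nhds 0) := by
      rw [tendsto_zero_iff_norm_tendsto_zero]
      simp only [norm_div, Complex.norm_real, Real.norm_eq_abs, abs_of_nonneg (Real.sqrt_nonneg _)]
      exact tendsto_const_nhds.div_atTop (Real.tendsto_sqrt_atTop.comp hq)
    have h2 := (tendsto_const_nhds (x := (1 : ℂ))).add h1
    rw [add_zero] at h2
    refine h2.congr' ?_
    filter_upwards [eventually_gt_atTop 0] with m hm
    have hq0 : (0 : ℝ) < ((3 * m + d : ℕ) : ℝ) := by exact_mod_cast (by omega : 0 < 3 * m + d)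
    have hs : (Real.sqrt ((3 * m + d : ℕ) : ℝ) : ℂ) ≠ 0 := by
      exact_mod_cast (Real.sqrt_pos.mpr hq0).ne'
    rw [G_kk, add_div, div_self hs]
  -- the rest
  have hrest : Tendsto (fun m : ℕ =>
      ((∑ x : Fin m → X, ∏ v, (S.G (S.kk ((3 * m + d : ℕ) : ℝ) u) (x v)) ^ 3) -
        S.F (N m) (S.kk ((3 * m + d : ℕ) : ℝ) u))
        * (Real.exp (-(∑ i, (S.kk ((3 * m + d : ℕ) : ℝ) u i) ^ 2) / 2) : ℂ)
        / (((Fintype.card X : ℝ) ^ m *
            (((3 * m + d : ℕ) : ℝ) ^ ((3 * m : ℝ) / 2) * Real.exp (-((3 * m + d : ℕ) : ℝ) / 2)) : ℝ) : ℂ))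
      atTop (nhds 0) := by
    refine squeeze_zero_norm' ?_ (tail S d δ₁ hδ u)
    filter_upwards [hN] with m hm
    rw [norm_div, norm_mul, Complex.norm_real, Complex.norm_real, Real.norm_eq_abs,
      Real.norm_eq_abs, abs_of_pos (Real.exp_pos _), abs_of_nonneg (by positivity)]
    gcongr
    have hsplit : (∑ x : Fin m → X, ∏ v, (S.G (S.kk ((3 * m + d : ℕ) : ℝ) u) (x v)) ^ 3) -
        S.F (N m) (S.kk ((3 * m + d : ℕ) : ℝ) u) =
        ∑ x ∈ Finset.univ.filter (fun x : Fin m → X => ¬ x ∈ N m),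
          ∏ v, (S.G (S.kk ((3 * m + d : ℕ) : ℝ) u) (x v)) ^ 3 := by
      unfold Spec.F
      rw [← Finset.sum_filter_add_sum_filter_not Finset.univ (fun x : Fin m → X => x ∈ N m)]
      ring
    rw [hsplit]
    refine (norm_sum_le _ _).trans ?_
    calc ∑ x ∈ Finset.univ.filter (fun x : Fin m → X => ¬ x ∈ N m),
          ‖∏ v, (S.G (S.kk ((3 * m + d : ℕ) : ℝ) u) (x v)) ^ 3‖
        = ∑ x ∈ Finset.univ.filter (fun x : Fin m → X => ¬ x ∈ N m),
          ∏ v, ‖S.G (S.kk ((3 * m + d : ℕ) : ℝ) u) (x v)‖ ^ 3 := by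
          apply Finset.sum_congr rfl
          intro x _
          rw [norm_prod]
          apply Finset.prod_congr rfl
          intro v _
          rw [norm_pow]
      _ ≤ _ := by
          apply Finset.sum_le_sum_of_subset_of_nonneg
          · intro x hx
            rw [Finset.mem_filter] at hx ⊢
            exact ⟨hx.1, fun h => hx.2 (hm x h)⟩
          · intro x _ _
            positivity
  have hmain := (ptmain S d u).sub hrest
  rw [sub_zero] at hmain
  have hall := hfac.mul hmain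
  rw [one_mul] at hall
  refine hall.congr' ?_
  filter_upwards [eventually_gt_atTop 0] with m hm
  have hq0 : (0 : ℝ) < ((3 * m + d : ℕ) : ℝ) := by exact_mod_cast (by omega : 0 < 3 * m + d)
  set q : ℝ := ((3 * m + d : ℕ) : ℝ) with hqdef
  have hs : (Real.sqrt q : ℂ) ≠ 0 := by exact_mod_cast (Real.sqrt_pos.mpr hq0).ne'
  unfold Lap_g Lap_h
  rw [Finset.prod_div_distrib, Finset.prod_const, Finset.card_univ, Fintype.card_fin]
  have hpow : q ^ (q / 2) = Real.sqrt q ^ d * q ^ ((3 * m : ℝ) / 2) := by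
    rw [Real.sqrt_eq_rpow, ← Real.rpow_natCast, ← Real.rpow_mul hq0.le, ← Real.rpow_add hq0]
    congr 1
    rw [hqdef]
    push_cast
    ring
  rw [hpow]
  have hA : ((q ^ ((3 * m : ℝ) / 2) : ℝ) : ℂ) ≠ 0 := by
    exact_mod_cast (Real.rpow_pos_of_pos hq0 _).ne'
  have hB : ((Real.exp (-q / 2) : ℝ) : ℂ) ≠ 0 := by
    exact_mod_cast (Real.exp_pos _).ne'
  have hC : ((Fintype.card X : ℂ)) ≠ 0 := by exact_mod_cast Fintype.card_ne_zero
  simp only [Complex.ofReal_mul, Complex.ofReal_pow, Complex.ofReal_natCast]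
  field_simp
  ring

/-- the limiting Gaussian integral -/
theorem Lap_gauss (S : Spec X I) :
    (1 / Real.sqrt (2 * Real.pi)) ^ (Fintype.card I) * (2 * ∫ u : I → ℝ, Real.exp (-S.Qf u)) =
      Real.sqrt 2 * S.K := by
  set b : I → ℝ := fun i => if i = S.i0 then 1 else (1 - 2 * S.lam i) / 2 with hb
  have hb0 : ∀ i, 0 < b i := by
    intro i
    rw [hb]
    simp only
    split_ifs with h
    · norm_num
    · have := S.lle i h
      linarith
  have hQ : ∀ u : I → ℝ, S.Qf u = ∑ i, b i * u i ^ 2 := by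
    intro u
    unfold Spec.Qf
    rw [← Finset.add_sum_erase _ _ (Finset.mem_univ S.i0), Finset.mul_sum]
    congr 1
    · simp [hb]
    · apply Finset.sum_congr rfl
      intro i hi
      rw [hb]
      simp only [if_neg (Finset.ne_of_mem_erase hi)]
      ring
  simp only [hQ]
  rw [gauss_prod b hb0]
  have hpi := Real.pi_pos
  have h2pi : 0 < Real.sqrt (2 * Real.pi) := Real.sqrt_pos.mpr (by positivity)
  have hprod : ∀ i, Real.sqrt (Real.pi / b i) = Real.sqrt (2 * Real.pi) *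
      ((if i = S.i0 then 1 / Real.sqrt 2 else 1) *
        (if i = S.i0 then 1 else 1 / Real.sqrt (1 - 2 * S.lam i))) := by
    intro i
    rw [hb]
    simp only
    split_ifs with h
    · rw [div_one, Real.sqrt_mul (by norm_num : (0:ℝ) ≤ 2)]
      have : Real.sqrt 2 ≠ 0 := by positivity
      field_simp
    · have h1 := S.lle i h
      have h2 : 0 < 1 - 2 * S.lam i := by linarith
      rw [one_mul, mul_one_div, ← Real.sqrt_div' _ h2.le]
      congr 1
      field_simp
  simp only [hprod]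
  rw [Finset.prod_mul_distrib, Finset.prod_mul_distrib, Finset.prod_const, Finset.card_univ,
    Finset.prod_ite_eq' Finset.univ S.i0 (fun _ => 1 / Real.sqrt 2)]
  unfold Spec.K
  simp only [Finset.mem_univ, if_true]
  have h2 : Real.sqrt 2 ≠ 0 := by positivity
  have h22 : Real.sqrt 2 * Real.sqrt 2 = 2 := Real.mul_self_sqrt (by norm_num)
  have hpw : (1 / Real.sqrt (2 * Real.pi)) ^ (Fintype.card I) *
      Real.sqrt (2 * Real.pi) ^ (Fintype.card I) = 1 := by
    rw [← mul_pow, one_div, inv_mul_cancel₀ h2pi.ne', one_pow]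
  calc (1 / Real.sqrt (2 * Real.pi)) ^ (Fintype.card I) *
        (2 * (Real.sqrt (2 * Real.pi) ^ Fintype.card I * (1 / Real.sqrt 2 *
          ∏ i, if i = S.i0 then 1 else 1 / Real.sqrt (1 - 2 * S.lam i)))) =
        ((1 / Real.sqrt (2 * Real.pi)) ^ (Fintype.card I) *
          Real.sqrt (2 * Real.pi) ^ (Fintype.card I)) * (2 / Real.sqrt 2 *
          ∏ i, if i = S.i0 then 1 else 1 / Real.sqrt (1 - 2 * S.lam i)) := by ring
    _ = _ := by
        rw [hpw, one_mul]
        congr 1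
        rw [div_eq_iff h2, h22]

theorem Lap_dfac (d : ℕ) :
    Tendsto (fun m : ℕ => dfac (3 * m + d) / (((3 * m + d : ℕ) : ℝ) ^ (((3 * m + d : ℕ) : ℝ) / 2)
          * Real.exp (-((3 * m + d : ℕ) : ℝ) / 2)))
      (atTop ⊓ Filter.principal {m : ℕ | Even (3 * m + d)}) (nhds (Real.sqrt 2)) := by
  have h1 : Tendsto (fun m : ℕ => (3 * m + d) / 2)
      (atTop ⊓ Filter.principal {m : ℕ | Even (3 * m + d)}) atTop := by
    apply Tendsto.mono_left _ inf_le_left
    apply tendsto_atTop_mono (fun m => (by omega : m ≤ (3 * m + d) / 2)) tendsto_id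
  refine (dfac_asymp.comp h1).congr' ?_
  have hev : ∀ᶠ m : ℕ in (atTop ⊓ Filter.principal {m : ℕ | Even (3 * m + d)}),
      Even (3 * m + d) := by
    apply Filter.mem_inf_of_right
    exact Filter.mem_principal_self _
  filter_upwards [hev] with m hm
  simp only [Function.comp_apply]
  obtain ⟨t, ht⟩ := hm
  have ht2 : 3 * m + d = 2 * t := by omega
  rw [ht2]
  have h2 : 2 * t / 2 = t := by omega
  rw [h2]
  have h3 : ((2 * t : ℕ) : ℝ) / 2 = t := by push_cast; ring
  have h4 : -((2 * t : ℕ) : ℝ) / 2 = -(t : ℝ) := by push_cast; ring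
  rw [h3, h4, Real.rpow_natCast]
  push_cast
  rfl

theorem lap (S : Spec X I) [Nonempty X] :
    ∃ δ₀ : ℝ, 0 < δ₀ ∧ ∀ (d : ℕ) (cc : Fin d → X) (N : ∀ m : ℕ, Set (Fin m → X)) (δ₁ : ℝ), 0 < δ₁ →
      (∀ᶠ m : ℕ in atTop, ∀ x ∈ N m, Near δ₀ x) →
      (∀ᶠ m : ℕ in atTop, ∀ x : Fin m → X, Near δ₁ x → x ∈ N m) →
      Tendsto (fun m : ℕ =>
        (∫ k, (∏ i, S.G k (cc i)) * S.F (N m) k ∂(gam I))
          / ((Fintype.card X : ℂ) ^ m * ((dfac (3 * m + d) : ℝ) : ℂ)))
        (atTop ⊓ Filter.principal {m : ℕ | Even (3 * m + d)}) (nhds ((S.K : ℝ) : ℂ)) := by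
  obtain ⟨δ₀, hδ₀, c, hc, hdom⟩ := dom S
  refine ⟨δ₀, hδ₀, ?_⟩
  intro d cc N δ₁ hδ₁ hN0 hN1
  obtain ⟨C, hC⟩ := hdom d
  set nq : ℕ → ℝ := fun m => ((3 * m + d : ℕ) : ℝ) ^ (((3 * m + d : ℕ) : ℝ) / 2)
          * Real.exp (-((3 * m + d : ℕ) : ℝ) / 2) with hnq
  have hnqpos : ∀ m, 0 < m → 0 < nq m := by
    intro m hm
    have hq0 : (0 : ℝ) < ((3 * m + d : ℕ) : ℝ) := by exact_mod_cast (by omega : 0 < 3 * m + d)
    rw [hnq]
    positivity
  have hX : (0 : ℝ) < Fintype.card X := by exact_mod_cast Fintype.card_pos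
  set Φ : ℕ → (I → ℝ) → ℂ := fun m u =>
    (if -Real.sqrt ((3 * m + d : ℕ) : ℝ) < u S.i0 then
      Lap_g S cc (N m) (S.kk ((3 * m + d : ℕ) : ℝ) u) else 0)
      / (((Fintype.card X : ℝ) ^ m * nq m : ℝ) : ℂ) with hΦ
  have hbound : ∀ᶠ m in atTop, ∀ᵐ u : I → ℝ, ‖Φ m u‖ ≤
      |C| * Real.exp (-(∑ i : I, c * u i ^ 2)) := by
    filter_upwards [eventually_gt_atTop 0, hN0] with m hm hNm
    refine Eventually.of_forall (fun u => ?_)
    have hDm : 0 < (Fintype.card X : ℝ) ^ m * nq m := mul_pos (pow_pos hX _) (hnqpos m hm)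
    rw [hΦ]
    simp only
    rw [norm_div, Complex.norm_real, Real.norm_eq_abs, abs_of_pos hDm, div_le_iff₀ hDm]
    split_ifs with h
    · have h1 := hC m hm cc (N m) hNm (S.kk ((3 * m + d : ℕ) : ℝ) u) (by
        rw [Lap_kk0]; linarith)
      rw [Lap_kk0, Lap_rrkk, add_sub_cancel_right] at h1
      have h2 : ∑ i, c * u i ^ 2 = c * (u S.i0 ^ 2 + S.rr u) := by
        rw [← Finset.mul_sum, sum_sq_split S u]
      rw [h2]
      unfold Lap_g Lap_h
      rw [norm_mul, Complex.norm_real, Real.norm_eq_abs, abs_of_pos (Real.exp_pos _), mul_comm]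
      refine h1.trans ?_
      rw [neg_mul]
      have h3 : C * (Fintype.card X : ℝ) ^ m * nq m ≤ |C| * ((Fintype.card X : ℝ) ^ m * nq m) := by
        rw [mul_assoc]
        exact mul_le_mul_of_nonneg_right (le_abs_self C) hDm.le
      calc C * (Fintype.card X : ℝ) ^ m * nq m * Real.exp (-(c * (u S.i0 ^ 2 + S.rr u)))
          ≤ |C| * ((Fintype.card X : ℝ) ^ m * nq m) * Real.exp (-(c * (u S.i0 ^ 2 + S.rr u))) :=
            mul_le_mul_of_nonneg_right h3 (Real.exp_pos _).le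
        _ = _ := by ring
    · rw [norm_zero]
      positivity
  have hbint : Integrable (fun u : I → ℝ => |C| * Real.exp (-(∑ i, c * u i ^ 2))) :=
    (gauss_integrable (fun _ : I => c) (fun _ => hc)).const_mul _
  have hmeas : ∀ m, AEStronglyMeasurable (Φ m) volume := by
    intro m
    have hcont : Continuous (fun u : I → ℝ => Lap_g S cc (N m) (S.kk ((3 * m + d : ℕ) : ℝ) u)) := by
      have hk : Continuous (fun u : I → ℝ => S.kk ((3 * m + d : ℕ) : ℝ) u) := by
        simp only [Lap_kkadd]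
        fun_prop
      exact (Lap_contg S cc (N m)).comp hk
    have hset : MeasurableSet {u : I → ℝ | -Real.sqrt ((3 * m + d : ℕ) : ℝ) < u S.i0} :=
      measurableSet_lt measurable_const (measurable_pi_apply _)
    have : Measurable (Φ m) := by
      rw [hΦ]
      exact (Measurable.ite hset hcont.measurable measurable_const).div_const _
    exact this.aestronglyMeasurable
  have hlim : ∀ᵐ u : I → ℝ, Tendsto (fun m => Φ m u) atTop (nhds (Real.exp (-S.Qf u) : ℂ)) := by
    refine Eventually.of_forall (fun u => ?_)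
    refine (Lap_ptlim S d cc N δ₁ hδ₁ hN1 u).congr' ?_
    have h1 : ∀ᶠ m : ℕ in atTop, -u S.i0 < Real.sqrt ((3 * m + d : ℕ) : ℝ) :=
      (Real.tendsto_sqrt_atTop.comp (Lap_qtendsto d)).eventually_gt_atTop _
    filter_upwards [h1] with m hm
    rw [hΦ]
    simp only
    rw [if_pos (by linarith)]
  have hDCT := tendsto_integral_filter_of_dominated_convergence _
    (Eventually.of_forall hmeas) hbound hbint hlim
  have hint : ∀ᶠ m in atTop, Integrable (Φ m) := by
    filter_upwards [hbound] with m hm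
    exact hbint.mono' (hmeas m) hm
  -- assemble
  have hA := (hDCT.const_mul (((1 / Real.sqrt (2 * Real.pi)) ^ (Fintype.card I) * 2 : ℝ) : ℂ))
  have hlimval : (((1 / Real.sqrt (2 * Real.pi)) ^ (Fintype.card I) * 2 : ℝ) : ℂ) *
      ∫ u : I → ℝ, ((Real.exp (-S.Qf u) : ℝ) : ℂ) = ((Real.sqrt 2 * S.K : ℝ) : ℂ) := by
    rw [integral_complex_ofReal, ← Lap_gauss S]
    push_cast
    ring
  rw [hlimval] at hA
  have hA' := hA.mono_left (inf_le_left : atTop ⊓ Filter.principal {m : ℕ | Even (3 * m + d)} ≤ atTop)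
  have hB := (Complex.continuous_ofReal.tendsto _).comp (Lap_dfac d)
  have hs2 : ((Real.sqrt 2 : ℝ) : ℂ) ≠ 0 := by
    exact_mod_cast (Real.sqrt_pos.mpr (by norm_num : (0:ℝ) < 2)).ne'
  have hfin := hA'.div hB hs2
  have hval : ((Real.sqrt 2 * S.K : ℝ) : ℂ) / ((Real.sqrt 2 : ℝ) : ℂ) = ((S.K : ℝ) : ℂ) := by
    push_cast
    field_simp
  rw [hval] at hfin
  refine hfin.congr' ?_
  have hev : ∀ᶠ m : ℕ in (atTop ⊓ Filter.principal {m : ℕ | Even (3 * m + d)}),
      Even (3 * m + d) := by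
    apply Filter.mem_inf_of_right
    exact Filter.mem_principal_self _
  have hev2 : ∀ᶠ m : ℕ in (atTop ⊓ Filter.principal {m : ℕ | Even (3 * m + d)}),
      0 < m ∧ Integrable (Φ m) :=
    ((eventually_gt_atTop 0).and hint).filter_mono inf_le_left
  filter_upwards [hev, hev2] with m hm hm2
  obtain ⟨hm0, hmint⟩ := hm2
  have hDm : 0 < (Fintype.card X : ℝ) ^ m * nq m := mul_pos (pow_pos hX _) (hnqpos m hm0)
  have hDmc : (((Fintype.card X : ℝ) ^ m * nq m : ℝ) : ℂ) ≠ 0 := by exact_mod_cast hDm.ne'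
  have hint' : Integrable (fun u : I → ℝ => if -Real.sqrt ((3 * m + d : ℕ) : ℝ) < u S.i0 then
      Lap_g S cc (N m) (S.kk ((3 * m + d : ℕ) : ℝ) u) else 0) := by
    have := hmint.mul_const (((Fintype.card X : ℝ) ^ m * nq m : ℝ) : ℂ)
    refine this.congr (Eventually.of_forall (fun u => ?_))
    rw [hΦ]
    simp only
    rw [div_mul_cancel₀ _ hDmc]
  have hhalf := Lap_half S cc (N m) hm ((3 * m + d : ℕ) : ℝ) hint'
  have hgam : ∫ k, (∏ i, S.G k (cc i)) * S.F (N m) k ∂(gam I) =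
      (((1 / Real.sqrt (2 * Real.pi)) ^ (Fintype.card I) : ℝ) : ℂ) * ∫ k, Lap_g S cc (N m) k := by
    rw [gam_integral, ← integral_const_mul]
    apply integral_congr_ae
    refine Eventually.of_forall (fun k => ?_)
    unfold Lap_g Lap_h
    simp only
    rw [Complex.ofReal_mul]
    ring
  have hΦint : ∫ u, Φ m u = (∫ u : I → ℝ, (if -Real.sqrt ((3 * m + d : ℕ) : ℝ) < u S.i0 then
      Lap_g S cc (N m) (S.kk ((3 * m + d : ℕ) : ℝ) u) else 0)) /
      (((Fintype.card X : ℝ) ^ m * nq m : ℝ) : ℂ) := by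
    rw [hΦ]
    simp only
    rw [integral_div]
  rw [hgam, hhalf]
  simp only [Function.comp_apply, Pi.div_apply]
  rw [hΦint]
  have hdf : ((dfac (3 * m + d) : ℝ) : ℂ) ≠ 0 := by exact_mod_cast (dfac_pos _).ne'
  have hnqc : ((nq m : ℝ) : ℂ) ≠ 0 := by exact_mod_cast (hnqpos m hm0).ne'
  have hXc : (Fintype.card X : ℂ) ≠ 0 := by exact_mod_cast Fintype.card_ne_zero
  have hnqe : ((3 * m + d : ℕ) : ℝ) ^ (((3 * m + d : ℕ) : ℝ) / 2)
          * Real.exp (-((3 * m + d : ℕ) : ℝ) / 2) = nq m := rfl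
  rw [hnqe]
  simp only [Complex.ofReal_mul, Complex.ofReal_pow, Complex.ofReal_natCast, Complex.ofReal_div,
    Complex.ofReal_ofNat]
  field_simp

end Pool.Agent.PET
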