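import Pool.Agent.PET.PDefs
/-!
# Proj : the spectral projections

Everything is linear algebra on `Fin 10` (`decide`-able identities between integer matrices: `A² = 2 I - A + J`, `A J = 3 J`):
`f = Av f + P1 f + P2 f`, `Ad (P1 f) = P1 f`, `Ad (P2 f) = -2 P2 f`, `∑ P1 f = ∑ P2 f = 0`, orthogonality, `Ad` is symmetric,
`∑ f Ad f /3 /10 = (Av f)² + (1/3) Av (P1 f)² - (2/3) Av (P2 f)²`.
-/
set_option autoImplicit false
open scoped BigOperators
noncomputable section
namespace Pool.Agent.PET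

namespace Proj

theorem sum10 (f : Fin 10 → ℝ) :
    ∑ x, f x = f 0 + f 1 + f 2 + f 3 + f 4 + f 5 + f 6 + f 7 + f 8 + f 9 := by
  rw [Fin.sum_univ_castSucc, Fin.sum_univ_castSucc, Fin.sum_univ_eight]
  rfl

theorem Ad_eq (f : Fin 10 → ℝ) (x : Fin 10) : Ad f x =
    (![f 7 + f 8 + f 9, f 5 + f 6 + f 9, f 4 + f 6 + f 8, f 4 + f 5 + f 7, f 2 + f 3 + f 9,
      f 1 + f 3 + f 8, f 1 + f 2 + f 7, f 0 + f 3 + f 6, f 0 + f 2 + f 5, f 0 + f 1 + f 4] :
      Fin 10 → ℝ) x := by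
  unfold Ad
  fin_cases x
  · rw [show Finset.univ.filter (fun y : Fin 10 => padj ⟨0, by norm_num⟩ y) = {7, 8, 9} by decide]
    rw [Finset.sum_insert (by decide), Finset.sum_insert (by decide), Finset.sum_singleton, ← add_assoc]
    rfl
  · rw [show Finset.univ.filter (fun y : Fin 10 => padj ⟨1, by norm_num⟩ y) = {5, 6, 9} by decide]
    rw [Finset.sum_insert (by decide), Finset.sum_insert (by decide), Finset.sum_singleton, ← add_assoc]
    rfl
  · rw [show Finset.univ.filter (fun y : Fin 10 => padj ⟨2, by norm_num⟩ y) = {4, 6, 8} by decide]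
    rw [Finset.sum_insert (by decide), Finset.sum_insert (by decide), Finset.sum_singleton, ← add_assoc]
    rfl
  · rw [show Finset.univ.filter (fun y : Fin 10 => padj ⟨3, by norm_num⟩ y) = {4, 5, 7} by decide]
    rw [Finset.sum_insert (by decide), Finset.sum_insert (by decide), Finset.sum_singleton, ← add_assoc]
    rfl
  · rw [show Finset.univ.filter (fun y : Fin 10 => padj ⟨4, by norm_num⟩ y) = {2, 3, 9} by decide]
    rw [Finset.sum_insert (by decide), Finset.sum_insert (by decide), Finset.sum_singleton, ← add_assoc]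
    rfl
  · rw [show Finset.univ.filter (fun y : Fin 10 => padj ⟨5, by norm_num⟩ y) = {1, 3, 8} by decide]
    rw [Finset.sum_insert (by decide), Finset.sum_insert (by decide), Finset.sum_singleton, ← add_assoc]
    rfl
  · rw [show Finset.univ.filter (fun y : Fin 10 => padj ⟨6, by norm_num⟩ y) = {1, 2, 7} by decide]
    rw [Finset.sum_insert (by decide), Finset.sum_insert (by decide), Finset.sum_singleton, ← add_assoc]
    rfl
  · rw [show Finset.univ.filter (fun y : Fin 10 => padj ⟨7, by norm_num⟩ y) = {0, 3, 6} by decide]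
    rw [Finset.sum_insert (by decide), Finset.sum_insert (by decide), Finset.sum_singleton, ← add_assoc]
    rfl
  · rw [show Finset.univ.filter (fun y : Fin 10 => padj ⟨8, by norm_num⟩ y) = {0, 2, 5} by decide]
    rw [Finset.sum_insert (by decide), Finset.sum_insert (by decide), Finset.sum_singleton, ← add_assoc]
    rfl
  · rw [show Finset.univ.filter (fun y : Fin 10 => padj ⟨9, by norm_num⟩ y) = {0, 1, 4} by decide]
    rw [Finset.sum_insert (by decide), Finset.sum_insert (by decide), Finset.sum_singleton, ← add_assoc]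
    rfl

theorem A0 (f : Fin 10 → ℝ) : Ad f 0 = f 7 + f 8 + f 9 := Ad_eq f 0
theorem A1 (f : Fin 10 → ℝ) : Ad f 1 = f 5 + f 6 + f 9 := Ad_eq f 1
theorem A2' (f : Fin 10 → ℝ) : Ad f 2 = f 4 + f 6 + f 8 := Ad_eq f 2
theorem A3 (f : Fin 10 → ℝ) : Ad f 3 = f 4 + f 5 + f 7 := Ad_eq f 3
theorem A4 (f : Fin 10 → ℝ) : Ad f 4 = f 2 + f 3 + f 9 := Ad_eq f 4
theorem A5 (f : Fin 10 → ℝ) : Ad f 5 = f 1 + f 3 + f 8 := Ad_eq f 5
theorem A6 (f : Fin 10 → ℝ) : Ad f 6 = f 1 + f 2 + f 7 := Ad_eq f 6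
theorem A7 (f : Fin 10 → ℝ) : Ad f 7 = f 0 + f 3 + f 6 := Ad_eq f 7
theorem A8 (f : Fin 10 → ℝ) : Ad f 8 = f 0 + f 2 + f 5 := Ad_eq f 8
theorem A9 (f : Fin 10 → ℝ) : Ad f 9 = f 0 + f 1 + f 4 := Ad_eq f 9

theorem all10 {Q : Fin 10 → Prop} (h0 : Q 0) (h1 : Q 1) (h2 : Q 2) (h3 : Q 3) (h4 : Q 4)
    (h5 : Q 5) (h6 : Q 6) (h7 : Q 7) (h8 : Q 8) (h9 : Q 9) (x : Fin 10) : Q x := by
  fin_cases x <;> assumption

end Proj

open Proj

theorem decomp (f : Fin 10 → ℝ) (x : Fin 10) : f x = Av f + P1 f x + P2 f x := by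
  unfold P1 P2 Av
  ring

theorem Ad_P1 (f : Fin 10 → ℝ) : Ad (P1 f) = P1 f := by
  funext x
  revert x
  apply all10 <;> simp only [A0, A1, A2', A3, A4, A5, A6, A7, A8, A9, P1, sum10] <;> ring

theorem Ad_P2 (f : Fin 10 → ℝ) : Ad (P2 f) = fun x => -2 * P2 f x := by
  funext x
  revert x
  apply all10 <;> simp only [A0, A1, A2', A3, A4, A5, A6, A7, A8, A9, P2, sum10] <;> ring

theorem P1_lin (a b : ℝ) (f g : Fin 10 → ℝ) :
    P1 (fun x => a * f x + b * g x) = fun x => a * P1 f x + b * P1 g x := by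
  funext x
  revert x
  apply all10 <;> simp only [A0, A1, A2', A3, A4, A5, A6, A7, A8, A9, P1, sum10] <;> ring

theorem P2_lin (a b : ℝ) (f g : Fin 10 → ℝ) :
    P2 (fun x => a * f x + b * g x) = fun x => a * P2 f x + b * P2 g x := by
  funext x
  revert x
  apply all10 <;> simp only [A0, A1, A2', A3, A4, A5, A6, A7, A8, A9, P2, sum10] <;> ring

theorem Ad_symm (f g : Fin 10 → ℝ) : ∑ x, f x * Ad g x = ∑ x, Ad f x * g x := by
  simp only [sum10, A0, A1, A2', A3, A4, A5, A6, A7, A8, A9]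
  ring

theorem P1_symm (f g : Fin 10 → ℝ) : ∑ x, f x * P1 g x = ∑ x, P1 f x * P1 g x := by
  simp only [sum10, A0, A1, A2', A3, A4, A5, A6, A7, A8, A9, P1]
  ring

theorem P2_symm (f g : Fin 10 → ℝ) : ∑ x, f x * P2 g x = ∑ x, P2 f x * P2 g x := by
  simp only [sum10, A0, A1, A2', A3, A4, A5, A6, A7, A8, A9, P2]
  ring

theorem P12_orth (f g : Fin 10 → ℝ) : ∑ x, P1 f x * P2 g x = 0 := by
  simp only [sum10, A0, A1, A2', A3, A4, A5, A6, A7, A8, A9, P1, P2]
  ring

theorem sum_P1 (f : Fin 10 → ℝ) : ∑ x, P1 f x = 0 := by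
  simp only [sum10, A0, A1, A2', A3, A4, A5, A6, A7, A8, A9, P1]
  ring

theorem sum_P2 (f : Fin 10 → ℝ) : ∑ x, P2 f x = 0 := by
  simp only [sum10, A0, A1, A2', A3, A4, A5, A6, A7, A8, A9, P2]
  ring

/-- Parseval -/
theorem parseval (f : Fin 10 → ℝ) :
    Av (fun x => f x ^ 2) = (Av f) ^ 2 + Av (fun x => P1 f x ^ 2) + Av (fun x => P2 f x ^ 2) := by
  simp only [sum10, Av, A0, A1, A2', A3, A4, A5, A6, A7, A8, A9, P1, P2]
  ring

end Pool.Agent.PET
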