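import Pool.Agent.PET.Cubic
import Pool.Agent.PET.Proj
/-!
# LemH : a hypercontractive inequality on the Petersen graph

For `f ≥ 0`:  `J := (Av f)² + (13/72) Av (P1 f)² + (13/27) Av (P2 f)² ≤ (Av f^{3/2})^{4/3}`.

Proof.  `G = Av f + (13/72) P1 f + (13/27) P2 f`.  The kernel of `G`: with `A` = adjacency, `J` = all ones matrix,
`J/10 + (13/72)(4I+2A-J)/6 + (13/27)((I-A)/3 + J/15)` has entries `> 0` (diagonal: `> 0.38`, adjacent: `0.00169.. > 0`,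
non adjacent `0.102`), so `G ≥ 0`.  `J = Av (f G)`.
Put `α = Av f ≥ 0`, `β = (13/72) P1 f`, `γ = (13/27) P2 f`, `b² = Av β²`, `c² = Av γ²`, `v = (3/2) b + c/6`;
`J = α² + (72/13) b² + (27/13) c² ≥ α² + 2(b²+c²) + v²`, because `v² ≤ (46/13) b² + (1/13) c²`
(Cauchy-Schwarz: `(9/4)(13/46) + (1/36)·13 = 0.99698 ≤ 1`).
`Av G³ = α³ + 3α(b²+c²) + Av (β+γ)³ ≤ α³ + 3α(b²+c²) + v(3(b²+c²)+v²)` by `cubic`.
With `s = α + v`, `u = b²+c²`: `J^{3/2} ≥ (3/2) s J - s³/2` (`y³ - (3/2) s y² + s³/2 = (y-s)²(y+s/2) ≥ 0`, `y = √J`)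
`≥ (3/2) s (α²+2u+v²) - s³/2 = α³ + 3αu + v(3u+v²)` (identity).  Hence `Av G³ ≤ J^{3/2}`.
Hölder (exponents 3/2 and 3): `J = Av (f G) ≤ (Av f^{3/2})^{2/3} (Av G³)^{1/3} ≤ (Av f^{3/2})^{2/3} J^{1/2}`, so `J ≤ (Av f^{3/2})^{4/3}`.
-/
set_option autoImplicit false
open scoped BigOperators
noncomputable section
namespace Pool.Agent.PET

theorem LemH_Ad_mul (k : ℝ) (g : Fin 10 → ℝ) : Ad (fun x => k * g x) = fun x => k * Ad g x := by
  funext x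
  simp only [Ad, Finset.mul_sum]

/-- the algebraic core -/
theorem LemH_alg (α b c J T : ℝ) (hα : 0 ≤ α) (hb : 0 ≤ b) (hc : 0 ≤ c)
    (hJ : J = α ^ 2 + (72 / 13) * b ^ 2 + (27 / 13) * c ^ 2)
    (hT : T ≤ α ^ 3 + 3 * α * (b ^ 2 + c ^ 2) +
      ((3 / 2) * b + c / 6) * (3 * (b ^ 2 + c ^ 2) + ((3 / 2) * b + c / 6) ^ 2)) :
    T ≤ (Real.sqrt J) ^ 3 := by
  set v : ℝ := (3 / 2) * b + c / 6 with hv
  have hv0 : 0 ≤ v := by positivity
  set y := Real.sqrt J with hy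
  have hJ0 : 0 ≤ J := by rw [hJ]; positivity
  have hyy : y ^ 2 = J := Real.sq_sqrt hJ0
  have hy0 : 0 ≤ y := Real.sqrt_nonneg _
  have h1 : v ^ 2 ≤ (46 / 13) * b ^ 2 + (1 / 13) * c ^ 2 := by
    rw [hv]
    nlinarith [sq_nonneg (b - (26 / 134) * c), sq_nonneg c]
  have h2 : α ^ 2 + 2 * (b ^ 2 + c ^ 2) + v ^ 2 ≤ J := by
    rw [hJ]
    linarith
  have hs0 : 0 ≤ α + v := by positivity
  have h3 : 0 ≤ (y - (α + v)) ^ 2 * (y + (α + v) / 2) := mul_nonneg (sq_nonneg _) (by positivity)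
  have h4 : (3 / 2) * (α + v) * (α ^ 2 + 2 * (b ^ 2 + c ^ 2) + v ^ 2) ≤
      (3 / 2) * (α + v) * y ^ 2 := by
    rw [hyy]
    exact mul_le_mul_of_nonneg_left h2 (by positivity)
  have e1 : (y - (α + v)) ^ 2 * (y + (α + v) / 2) =
      y ^ 3 - (3 / 2) * (α + v) * y ^ 2 + (α + v) ^ 3 / 2 := by ring
  have e2 : (3 / 2) * (α + v) * (α ^ 2 + 2 * (b ^ 2 + c ^ 2) + v ^ 2) - (α + v) ^ 3 / 2 =
      α ^ 3 + 3 * α * (b ^ 2 + c ^ 2) + v * (3 * (b ^ 2 + c ^ 2) + v ^ 2) := by ring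
  linarith

/-- Hölder with exponents `3/2` and `3` for the average -/
theorem LemH_holder (f G : Fin 10 → ℝ) (hf : ∀ x, 0 ≤ f x) (hG : ∀ x, 0 ≤ G x) (y : ℝ)
    (hy : 0 ≤ y) (hGy : Av (fun x => G x ^ 3) ≤ y ^ 3) :
    Av (fun x => f x * G x) ≤ (Av (fun x => f x ^ (3 / 2 : ℝ))) ^ (2 / 3 : ℝ) * y := by
  have hpq : (3 / 2 : ℝ).HolderConjugate 3 := by
    rw [Real.holderConjugate_iff]
    norm_num
  have h := Real.inner_le_Lp_mul_Lq_of_nonneg Finset.univ hpq (fun i _ => hf i) (fun i _ => hG i)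
  have hS1 : 0 ≤ ∑ i, f i ^ (3 / 2 : ℝ) := Finset.sum_nonneg fun i _ => Real.rpow_nonneg (hf i) _
  have hA : ∑ i, f i ^ (3 / 2 : ℝ) = 10 * Av (fun x => f x ^ (3 / 2 : ℝ)) := by
    rw [Av]; ring
  have hA0 : 0 ≤ Av (fun x => f x ^ (3 / 2 : ℝ)) := by
    rw [Av]
    exact div_nonneg hS1 (by norm_num)
  have hG3 : ∑ i, G i ^ (3 : ℝ) ≤ 10 * y ^ 3 := by
    have : ∑ i, G i ^ (3 : ℝ) = 10 * Av (fun x => G x ^ 3) := by
      rw [Av]
      have : ∀ i, G i ^ (3 : ℝ) = G i ^ 3 := fun i => by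
        rw [← Real.rpow_natCast]
        norm_num
      simp only [this]
      ring
    rw [this]
    linarith
  have hG3' : (∑ i, G i ^ (3 : ℝ)) ^ (1 / 3 : ℝ) ≤ (10 : ℝ) ^ (1 / 3 : ℝ) * y := by
    have h0 : 0 ≤ ∑ i, G i ^ (3 : ℝ) := Finset.sum_nonneg fun i _ => Real.rpow_nonneg (hG i) _
    refine (Real.rpow_le_rpow h0 hG3 (by norm_num)).trans ?_
    rw [Real.mul_rpow (by norm_num) (by positivity)]
    have : (y ^ 3) ^ (1 / 3 : ℝ) = y := by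
      rw [← Real.rpow_natCast, ← Real.rpow_mul hy]
      norm_num
    rw [this]
  rw [hA, Real.mul_rpow (by norm_num) hA0] at h
  have e1 : (1 / (3 / 2) : ℝ) = 2 / 3 := by norm_num
  rw [e1] at h
  have h10 : (10 : ℝ) ^ (2 / 3 : ℝ) * (10 : ℝ) ^ (1 / 3 : ℝ) = 10 := by
    rw [← Real.rpow_add (by norm_num)]
    norm_num
  have hfin : ∑ i, f i * G i ≤
      10 * ((Av (fun x => f x ^ (3 / 2 : ℝ))) ^ (2 / 3 : ℝ) * y) := by
    calc ∑ i, f i * G i ≤ _ := h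
      _ ≤ (10 : ℝ) ^ (2 / 3 : ℝ) * (Av (fun x => f x ^ (3 / 2 : ℝ))) ^ (2 / 3 : ℝ) *
          ((10 : ℝ) ^ (1 / 3 : ℝ) * y) :=
          mul_le_mul_of_nonneg_left hG3' (mul_nonneg (by positivity) (Real.rpow_nonneg hA0 _))
      _ = ((10 : ℝ) ^ (2 / 3 : ℝ) * (10 : ℝ) ^ (1 / 3 : ℝ)) *
          ((Av (fun x => f x ^ (3 / 2 : ℝ))) ^ (2 / 3 : ℝ) * y) := by ring
      _ = _ := by rw [h10]
  rw [Av, div_le_iff₀ (by norm_num)]
  linarith

theorem lemH (f : Fin 10 → ℝ) (hf : ∀ x, 0 ≤ f x) :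
    (Av f) ^ 2 + (13 / 72) * Av (fun x => P1 f x ^ 2) + (13 / 27) * Av (fun x => P2 f x ^ 2)
      ≤ (Av (fun x => f x ^ (3 / 2 : ℝ))) ^ (4 / 3 : ℝ) := by
  set α := Av f with hα
  let β : Fin 10 → ℝ := fun x => (13 / 72) * P1 f x
  let γ : Fin 10 → ℝ := fun x => (13 / 27) * P2 f x
  let G : Fin 10 → ℝ := fun x => α + (β x + γ x)
  set J : ℝ := α ^ 2 + (13 / 72) * Av (fun x => P1 f x ^ 2) + (13 / 27) * Av (fun x => P2 f x ^ 2)
    with hJ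
  have hβ : Ad β = β := by
    change Ad (fun x => (13 / 72) * P1 f x) = _
    rw [LemH_Ad_mul, Ad_P1]
  have hγ : Ad γ = fun x => -2 * γ x := by
    change Ad (fun x => (13 / 27) * P2 f x) = _
    rw [LemH_Ad_mul, Ad_P2]
    funext x
    change (13 / 27) * (-2 * P2 f x) = -2 * ((13 / 27) * P2 f x)
    ring
  have hα0 : 0 ≤ α := div_nonneg (Finset.sum_nonneg fun x _ => hf x) (by norm_num)
  -- nonnegativity of `G`
  have hG : ∀ x, 0 ≤ G x := by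
    intro x
    have h1 : 0 ≤ Ad f x := Finset.sum_nonneg fun y _ => hf y
    have h2 : Ad f x ≤ ∑ y, f y :=
      Finset.sum_le_sum_of_subset_of_nonneg (Finset.filter_subset _ _) fun y _ _ => hf y
    have h3 := hf x
    change 0 ≤ α + ((13 / 72) * P1 f x + (13 / 27) * P2 f x)
    rw [hα, Av, P1, P2]
    linarith
  -- the second moments
  have hAvn : ∀ g : Fin 10 → ℝ, 0 ≤ Av (fun x => g x ^ 2) := fun g =>
    div_nonneg (Finset.sum_nonneg fun x _ => sq_nonneg _) (by norm_num)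
  set b := Real.sqrt (Av (fun x => β x ^ 2)) with hb
  set c := Real.sqrt (Av (fun x => γ x ^ 2)) with hc
  have hb2 : b ^ 2 = Av (fun x => β x ^ 2) := Real.sq_sqrt (hAvn β)
  have hc2 : c ^ 2 = Av (fun x => γ x ^ 2) := Real.sq_sqrt (hAvn γ)
  have hb0 : 0 ≤ b := Real.sqrt_nonneg _
  have hc0 : 0 ≤ c := Real.sqrt_nonneg _
  have hb3 : b ^ 2 = (13 / 72) ^ 2 * Av (fun x => P1 f x ^ 2) := by
    rw [hb2]
    simp only [Av, β, mul_pow, ← Finset.mul_sum]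
    ring
  have hc3 : c ^ 2 = (13 / 27) ^ 2 * Av (fun x => P2 f x ^ 2) := by
    rw [hc2]
    simp only [Av, γ, mul_pow, ← Finset.mul_sum]
    ring
  have hJ2 : J = α ^ 2 + (72 / 13) * b ^ 2 + (27 / 13) * c ^ 2 := by
    rw [hJ, hb3, hc3]
    ring
  -- the third moment
  have hsβ : ∑ x, β x = 0 := sum_zero_of_eig1 β hβ
  have hsγ : ∑ x, γ x = 0 := sum_zero_of_eig2 γ hγ
  have hort : ∑ x, β x * γ x = 0 := orth12 β γ hβ hγ
  have hT : Av (fun x => G x ^ 3) = α ^ 3 + 3 * α * (b ^ 2 + c ^ 2) +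
      Av (fun x => (β x + γ x) ^ 3) := by
    have e : ∀ x, G x ^ 3 = α ^ 3 + 3 * α ^ 2 * β x + 3 * α ^ 2 * γ x + 3 * α * β x ^ 2 +
        3 * α * γ x ^ 2 + 6 * α * (β x * γ x) + (β x + γ x) ^ 3 := by
      intro x
      change (α + (β x + γ x)) ^ 3 = _
      ring
    rw [hb2, hc2]
    simp only [Av, e, Finset.sum_add_distrib, ← Finset.mul_sum, hsβ, hsγ, hort,
      Finset.sum_const, Finset.card_univ, Fintype.card_fin]
    ring
  have hcub := cubic β γ hβ hγ b c hb0 hc0 hb2 hc2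
  have hT2 : Av (fun x => G x ^ 3) ≤ (Real.sqrt J) ^ 3 := by
    apply LemH_alg α b c J _ hα0 hb0 hc0 hJ2
    rw [hT]
    linarith
  have hJ0 : 0 ≤ J := by rw [hJ2]; positivity
  have hJG : J = Av (fun x => f x * G x) := by
    have e : ∀ x, f x * G x = α * f x + (13 / 72) * (f x * P1 f x) + (13 / 27) * (f x * P2 f x) := by
      intro x
      change f x * (α + ((13 / 72) * P1 f x + (13 / 27) * P2 f x)) = _
      ring
    have q1 := P1_symm f f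
    have q2 := P2_symm f f
    rw [hJ]
    simp only [Av, e, Finset.sum_add_distrib, ← Finset.mul_sum, q1, q2]
    have q3 : ∑ x, P1 f x ^ 2 = ∑ x, P1 f x * P1 f x := Finset.sum_congr rfl fun x _ => sq _
    have q4 : ∑ x, P2 f x ^ 2 = ∑ x, P2 f x * P2 f x := Finset.sum_congr rfl fun x _ => sq _
    have q5 : ∑ x, f x = 10 * α := by rw [hα, Av]; ring
    rw [q3, q4, q5]
    ring
  have hmain := LemH_holder f G hf hG (Real.sqrt J) (Real.sqrt_nonneg _) hT2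
  rw [← hJG] at hmain
  set A := Av (fun x => f x ^ (3 / 2 : ℝ)) with hA
  have hA0 : 0 ≤ A := div_nonneg (Finset.sum_nonneg fun i _ => Real.rpow_nonneg (hf i) _)
    (by norm_num)
  have hy : Real.sqrt J ≤ A ^ (2 / 3 : ℝ) := by
    rcases (Real.sqrt_nonneg J).eq_or_lt with h0 | h0
    · rw [← h0]
      exact Real.rpow_nonneg hA0 _
    · have e : J = Real.sqrt J * Real.sqrt J := (Real.mul_self_sqrt hJ0).symm
      rw [e] at hmain
      have h' : Real.sqrt J * Real.sqrt J ≤ A ^ (2 / 3 : ℝ) * Real.sqrt J := by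
        calc Real.sqrt J * Real.sqrt J = J := Real.mul_self_sqrt hJ0
          _ ≤ _ := by rw [← e] at hmain; exact hmain
      exact le_of_mul_le_mul_right h' h0
  calc J = Real.sqrt J ^ 2 := (Real.sq_sqrt hJ0).symm
    _ ≤ (A ^ (2 / 3 : ℝ)) ^ 2 := pow_le_pow_left₀ (Real.sqrt_nonneg _) hy 2
    _ = A ^ (4 / 3 : ℝ) := by
      rw [← Real.rpow_natCast, ← Real.rpow_mul hA0]
      norm_num

end Pool.Agent.PET
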