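import Pool.Agent.PET.Ext
/-!
# MRec : recursion for the number of compatible perfect matchings

Fix `h0 : H`.  Every perfect matching `f` has a unique partner `h1 = f h0 ≠ h0`; partition `PMs H` by `h1` and
apply `cnt_ext` with `e = 1`, `a = fun _ => h0`, `b = fun _ => h1` (then transport the subtype
`{h // h ∉ range a ∧ h ∉ range b}` to `{h // h ≠ h0 ∧ h ≠ h1}` with `cnt_equiv`).

`card_PMs`: number of perfect matchings of a set of even size `q` is `(q-1)!!`:
`(PMs H).card = cnt (fun _ _ => True) (fun _ => ())`, use the recursion: `q-1` choices of `h1`, then a set of size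
`q - 2` (induction over the cardinality).  For odd `q` there is none (`cnt_odd`).

`card_PMs_ext`: number of perfect matchings containing `e` given disjoint pairs: `(q-2e-1)!!`
(from `cnt_ext` with `A = True` and `card_PMs`; the remaining set has `q - 2e` elements).
-/
set_option autoImplicit false
open scoped BigOperators Classical
open Filter MeasureTheory
noncomputable section
namespace Pool.Agent.PET

theorem cnt_rec {H X : Type} [Fintype H] (A : X → X → Prop) (hA : ∀ u v, A u v → A v u)
    (x : H → X) (h0 : H) :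
    cnt A x = ∑ h1 ∈ Finset.univ.filter (fun h => h ≠ h0 ∧ A (x h0) (x h)),
      cnt A (fun h : {h : H // h ≠ h0 ∧ h ≠ h1} => x h.1) := by
  unfold cnt
  rw [Finset.card_eq_sum_card_fiberwise (f := fun f : H → H => f h0) (t := Finset.univ)
    (fun _ _ => Finset.mem_coe.2 (Finset.mem_univ _))]
  rw [Finset.sum_filter]
  refine Finset.sum_congr rfl fun h1 _ => ?_
  split_ifs with hc
  · obtain ⟨hne, hadj⟩ := hc
    have hinj : Function.Injective (Sum.elim (fun _ : Fin 1 => h0) (fun _ : Fin 1 => h1)) := by
      rintro (i | i) (j | j) hij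
      · exact congrArg _ (Subsingleton.elim _ _)
      · exact absurd (show h0 = h1 from hij) hne.symm
      · exact absurd (show h1 = h0 from hij) hne
      · exact congrArg _ (Subsingleton.elim _ _)
    have h1' := cnt_ext A hA x (fun _ : Fin 1 => h0) (fun _ : Fin 1 => h1) hinj
    rw [if_pos (fun _ => hadj)] at h1'
    have he : ∀ h : H, (h ≠ h0 ∧ h ≠ h1) ↔
        (h ∉ Set.range (fun _ : Fin 1 => h0) ∧ h ∉ Set.range (fun _ : Fin 1 => h1)) := by
      intro h
      simp [eq_comm]
    have h2 := cnt_equiv A (Equiv.subtypeEquivRight he)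
      (fun h : {h : H // h ∉ Set.range (fun _ : Fin 1 => h0) ∧ h ∉ Set.range (fun _ : Fin 1 => h1)}
        => x h.1)
    have h3 : (fun h : {h : H // h ≠ h0 ∧ h ≠ h1} => x ((Equiv.subtypeEquivRight he) h).1) =
        fun h : {h : H // h ≠ h0 ∧ h ≠ h1} => x h.1 := rfl
    simp only [Equiv.subtypeEquivRight_apply_coe] at h2
    show _ = cnt A (fun h : {h : H // h ≠ h0 ∧ h ≠ h1} => x h.1)
    rw [h2, ← h1', Finset.filter_filter]
    congr 1
    ext f
    simp
  · rw [Finset.card_eq_zero, Finset.filter_eq_empty_iff]
    intro f hf hfh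
    rw [Finset.mem_filter, mem_PMs] at hf
    apply hc
    have h1' := hf.1.2 h0
    have h2' := hf.2 h0
    rw [hfh] at h1' h2'
    exact ⟨h1', h2'⟩

private theorem MRec_even {H : Type} [Fintype H] {f : H → H} (hf : IsPM f) :
    Even (Fintype.card H) := by
  have h1 : ∑ _h : H, (1 : ZMod 2) = 0 := by
    refine Finset.sum_involution (fun h _ => f h) (fun _ _ => by decide) (fun h _ _ => hf.2 h)
      (fun _ _ => Finset.mem_univ _) (fun h _ => hf.1 h)
  rw [Finset.sum_const, Finset.card_univ, nsmul_eq_mul, mul_one] at h1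
  rw [ZMod.natCast_eq_zero_iff] at h1
  exact even_iff_two_dvd.2 h1

theorem cnt_odd {H X : Type} [Fintype H] (A : X → X → Prop) (x : H → X)
    (hH : ¬ Even (Fintype.card H)) : cnt A x = 0 := by
  unfold cnt
  rw [Finset.card_eq_zero, Finset.filter_eq_empty_iff]
  intro f hf
  rw [mem_PMs] at hf
  exact absurd (MRec_even hf) hH

private theorem MRec_card_two {H : Type} [Fintype H] {h0 h1 : H} (h : h1 ≠ h0) :
    Fintype.card {h : H // h ≠ h0 ∧ h ≠ h1} = Fintype.card H - 2 := by
  rw [Fintype.card_subtype]
  have e : Finset.univ.filter (fun h : H => h ≠ h0 ∧ h ≠ h1) = (Finset.univ.erase h0).erase h1 := by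
    ext y
    simp [and_comm]
  rw [e, Finset.card_erase_of_mem (by simp [h]), Finset.card_erase_of_mem (Finset.mem_univ _),
    Finset.card_univ]
  omega

private theorem MRec_card (A : Unit → Unit → Prop) (hA : ∀ u v, A u v) (t : ℕ) :
    ∀ (H : Type) [Fintype H], Fintype.card H = 2 * t →
    ((cnt A (fun _ : H => ()) : ℕ) : ℝ) = dfac (2 * t) := by
  induction t with
  | zero =>
    intro H _ hH
    have : IsEmpty H := Fintype.card_eq_zero_iff.1 (by simpa using hH)
    rw [cnt_empty]
    simp [dfac]
  | succ t ih =>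
    intro H _ hH
    have : Nonempty H := Fintype.card_pos_iff.1 (by omega)
    obtain ⟨h0⟩ := this
    rw [cnt_rec A (fun _ _ _ => hA _ _) _ h0]
    push_cast
    refine (Finset.sum_congr (g := fun _ => dfac (2 * t)) rfl fun h1 hh1 => ?_).trans ?_
    · rw [Finset.mem_filter] at hh1
      apply ih
      have h3 := MRec_card_two hh1.2.1
      rw [hH] at h3
      have h4 : 2 * t = 2 * (t + 1) - 2 := by omega
      rw [h4, ← h3]
    rw [Finset.sum_const, nsmul_eq_mul]
    have h2 : (Finset.univ.filter (fun h : H => h ≠ h0 ∧ A () ())).card = 2 * t + 1 := by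
      have e : Finset.univ.filter (fun h : H => h ≠ h0 ∧ A () ()) = Finset.univ.erase h0 := by
        ext y
        simp [hA]
      rw [e, Finset.card_erase_of_mem (Finset.mem_univ _), Finset.card_univ]
      omega
    rw [h2]
    unfold dfac
    rcases Nat.eq_zero_or_pos t with rfl | ht
    · simp
    · obtain ⟨s, rfl⟩ : ∃ s, t = s + 1 := ⟨t - 1, by omega⟩
      have e1 : 2 * (s + 1 + 1) - 1 = (2 * s + 1) + 2 := by omega
      have e2 : 2 * (s + 1) - 1 = 2 * s + 1 := by omega
      rw [e1, e2, Nat.doubleFactorial_add_two]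
      push_cast
      ring

theorem card_PMs {H : Type} [Fintype H] (hH : Even (Fintype.card H)) :
    ((PMs H).card : ℝ) = dfac (Fintype.card H) := by
  obtain ⟨t, ht⟩ := hH
  have ht' : Fintype.card H = 2 * t := by omega
  have h1 := MRec_card (fun _ _ => True) (fun _ _ => trivial) t H ht'
  rw [ht', ← h1]
  unfold cnt
  congr 2
  rw [Finset.filter_true_of_mem]
  intro f _ h
  trivial

theorem card_PMs_ext {H : Type} [Fintype H] (hH : Even (Fintype.card H)) {e : ℕ} (a b : Fin e → H)
    (hinj : Function.Injective (Sum.elim a b)) :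
    (((PMs H).filter (fun f => ∀ i, f (a i) = b i)).card : ℝ) = dfac (Fintype.card H - 2 * e) := by
  have h1 := cnt_ext (fun _ _ : Unit => True) (fun _ _ h => h) (fun _ : H => ()) a b hinj
  rw [if_pos (fun _ => trivial)] at h1
  have h2 : (PMs H).filter (fun f => ∀ i, f (a i) = b i) =
      (PMs H).filter (fun f => Compat (fun _ _ : Unit => True) (fun _ : H => ()) f ∧
        ∀ i, f (a i) = b i) := by
    refine Finset.filter_congr fun f _ => ?_
    constructor
    · intro h
      exact ⟨fun _ => trivial, h⟩
    · intro h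
      exact h.2
  have hle : 2 * e ≤ Fintype.card H := by
    have := Fintype.card_le_of_injective _ hinj
    rw [Fintype.card_sum, Fintype.card_fin] at this
    omega
  have hcard : Fintype.card {h : H // h ∉ Set.range a ∧ h ∉ Set.range b} =
      Fintype.card H - 2 * e := by
    rw [Fintype.card_subtype]
    have e1 : Finset.univ.filter (fun h : H => h ∉ Set.range a ∧ h ∉ Set.range b) =
        Finset.univ \ (Finset.univ.image (Sum.elim a b)) := by
      ext y
      simp only [Finset.mem_filter, Finset.mem_univ, true_and, Finset.mem_sdiff, Finset.mem_image,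
        Set.mem_range, Sum.exists, Sum.elim_inl, Sum.elim_inr, not_or]
    rw [e1, Finset.card_sdiff_of_subset (Finset.subset_univ _), Finset.card_image_of_injective _ hinj,
      Finset.card_univ, Finset.card_univ, Fintype.card_sum, Fintype.card_fin]
    omega
  have heven : Even (Fintype.card H - 2 * e) := by
    obtain ⟨t, ht⟩ := hH
    exact ⟨t - e, by omega⟩
  obtain ⟨t, ht⟩ := heven
  have ht' : Fintype.card {h : H // h ∉ Set.range a ∧ h ∉ Set.range b} = 2 * t := by omega
  rw [h2, h1, MRec_card (fun _ _ => True) (fun _ _ => trivial) t _ ht']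
  congr 1
  omega

end Pool.Agent.PET
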