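import Pool.Agent.PET.Stein
import Pool.Agent.PET.MRec
/-!
# Wick : the number of compatible matchings is a Gaussian moment

By induction on `t` (`card H = 2t`).  `t = 0`: both sides are `1` (`cnt_empty`; `gam I` is a probability measure).
`t + 1`: pick `h0 : H`; by `stein` with `s = univ.erase h0`
`∫ ∏_h G(x h) = ∑_{h1 ≠ h0} (∑_i lam_i phi_i(x h0) phi_i(x h1)) ∫ ∏_{h ≠ h0,h1} G(x h)`,
and by `S.hA`  `rho * ∑_i lam_i phi_i phi_i = [A (x h0) (x h1)]`; compare with `cnt_rec`
(the symmetric property of `S.A` follows from `hA`).  Products over the subtype `{h // h ≠ h0 ∧ h ≠ h1}` are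
products over `(univ.erase h0).erase h1`.
-/
set_option autoImplicit false
open scoped BigOperators Classical
open Filter MeasureTheory
noncomputable section
namespace Pool.Agent.PET

variable {X I : Type} [Fintype X] [Fintype I]

theorem A_symm (S : Spec X I) : ∀ u v, S.A u v → S.A v u := by
  intro u v h
  have h1 := S.hA u v
  have h2 := S.hA v u
  have h3 : ∑ i, S.lam i * S.phi i u * S.phi i v = ∑ i, S.lam i * S.phi i v * S.phi i u :=
    Finset.sum_congr rfl fun i _ => by ring
  rw [h3, ← h2, if_pos h] at h1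
  by_contra hc
  rw [if_neg hc] at h1
  exact one_ne_zero h1

theorem wick (S : Spec X I) {H : Type} [Fintype H] (x : H → X) (t : ℕ)
    (hH : Fintype.card H = 2 * t) :
    ((cnt S.A x : ℕ) : ℂ) = ((S.rho : ℝ) : ℂ) ^ t * ∫ k, ∏ h, S.G k (x h) ∂(gam I) := by
  induction t generalizing H with
  | zero =>
    have : IsEmpty H := Fintype.card_eq_zero_iff.1 (by simpa using hH)
    have : IsProbabilityMeasure (gam I) := by unfold gam; infer_instance
    rw [cnt_empty]
    simp
  | succ t ih =>
    have : Nonempty H := Fintype.card_pos_iff.1 (by omega)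
    obtain ⟨h0⟩ := this
    have e1 : ∀ k : I → ℝ, ∏ h, S.G k (x h) =
        S.G k (x h0) * ∏ h ∈ Finset.univ.erase h0, S.G k (x h) := by
      intro k
      exact (Finset.mul_prod_erase _ _ (Finset.mem_univ h0)).symm
    simp_rw [e1]
    rw [stein, cnt_rec S.A (A_symm S) x h0, Finset.sum_filter, Nat.cast_sum, Finset.mul_sum]
    have e2 : ∑ h1 : H, (((if h1 ≠ h0 ∧ S.A (x h0) (x h1) then
          cnt S.A (fun h : {h : H // h ≠ h0 ∧ h ≠ h1} => x h.1) else 0 : ℕ)) : ℂ) =
        ∑ h1 ∈ Finset.univ.erase h0, (((if h1 ≠ h0 ∧ S.A (x h0) (x h1) then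
          cnt S.A (fun h : {h : H // h ≠ h0 ∧ h ≠ h1} => x h.1) else 0 : ℕ)) : ℂ) := by
      rw [← Finset.add_sum_erase _ _ (Finset.mem_univ h0)]
      simp
    rw [e2]
    refine Finset.sum_congr rfl fun h1 hh1 => ?_
    have hne : h1 ≠ h0 := Finset.ne_of_mem_erase hh1
    have hcard : Fintype.card {h : H // h ≠ h0 ∧ h ≠ h1} = 2 * t := by
      rw [Fintype.card_subtype]
      have e : Finset.univ.filter (fun h : H => h ≠ h0 ∧ h ≠ h1) =
          (Finset.univ.erase h0).erase h1 := by
        ext y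
        simp [and_comm]
      rw [e, Finset.card_erase_of_mem hh1, Finset.card_erase_of_mem (Finset.mem_univ _),
        Finset.card_univ]
      omega
    have h2 := ih (fun h : {h : H // h ≠ h0 ∧ h ≠ h1} => x h.1) hcard
    have h3 : ∀ k : I → ℝ, ∏ h' ∈ (Finset.univ.erase h0).erase h1, S.G k (x h') =
        ∏ h : {h : H // h ≠ h0 ∧ h ≠ h1}, S.G k (x h.1) := by
      intro k
      apply Finset.prod_subtype
      intro y
      simp [and_comm]
    simp_rw [h3]
    have h4 := S.hA (x h0) (x h1)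
    have h5 : ((S.rho : ℝ) : ℂ) * ((∑ i, S.lam i * S.phi i (x h0) * S.phi i (x h1) : ℝ) : ℂ) =
        if S.A (x h0) (x h1) then 1 else 0 := by
      rw [← Complex.ofReal_mul, ← h4]
      split_ifs <;> simp
    have h6 : (((if h1 ≠ h0 ∧ S.A (x h0) (x h1) then
          cnt S.A (fun h : {h : H // h ≠ h0 ∧ h ≠ h1} => x h.1) else 0 : ℕ)) : ℂ) =
        (if S.A (x h0) (x h1) then 1 else 0) *
          ((cnt S.A (fun h : {h : H // h ≠ h0 ∧ h ≠ h1} => x h.1) : ℕ) : ℂ) := by
      by_cases hA : S.A (x h0) (x h1)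
      · simp [hA, hne]
      · simp [hA]
    rw [h6, ← h5, h2, pow_succ]
    ring

end Pool.Agent.PET
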