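import Pool.Agent.PET.Lap
import Pool.Agent.PET.Wick
import Pool.Agent.PET.Far
import Pool.Agent.PET.SpecP
/-!
# Second : the second moment

`n = 2t`.  `∑_f Zf² = ∑_{σ,τ δ-near} #{f : compat with both} = ∑_{x : Fin n → Fin 10 × Fin 10, both margins near} cnt A2 (x ∘ fst)`.
Let `S` be the `Spec` of `specPP`, `δ0` from `lap S`, `δ'` from `far δ0`, `δ2 = δ'`; if `δ ≤ δ2` then
`∑_f Zf² ≤ ∑_{x δ0-near} cnt A2 x + (far sum)` (`Near δ → Near δ'`), the far sum is `o(dfac (6t) B²)`.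
By `wick` (`card (HE n) = 6t = 2·(3t)`) the near sum is `(9/100)^{3t} ∫ F(N) dgam`, `N m = {x | Near δ0 x}`
(`∏_{h : Fin n × Fin 3} G (x h.1) = ∏_v (G (x v))^3`), and by `lap` with `d = 0`, `m = 2t` it is
`~ (9/100)^{3t} 100^{2t} dfac(6t) K2c = (B t)² dfac(6t) K2c` (`(9/100)³ 100² = 7.29 = (27/10)²`; `S.K = K2c`).
-/
set_option autoImplicit false
open scoped BigOperators Classical
open Filter MeasureTheory
noncomputable section
namespace Pool.Agent.PET

namespace SecondAux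

theorem dfac_pos (q : ℕ) : 0 < dfac q := by
  unfold dfac
  exact_mod_cast Nat.doubleFactorial_pos _

theorem B_pos (t : ℕ) : 0 < B t := by
  unfold B
  positivity

/-- `Zf²` counts pairs of colourings -/
theorem Zf_sq (δ : ℝ) {n : ℕ} (f : HE n → HE n) :
    (Zf δ f) ^ 2 = ((Finset.univ.filter (fun x : Fin n → Fin 10 × Fin 10 =>
      Near δ (fun v => (x v).1) ∧ Near δ (fun v => (x v).2))).filter
        (fun x => Compat A2 (fun h : HE n => x h.1) f)).card := by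
  unfold Zf
  rw [sq, ← Finset.card_product]
  symm
  refine Finset.card_bij (fun x _ => ((fun v => (x v).1), (fun v => (x v).2))) ?_ ?_ ?_
  · intro x hx
    simp only [Finset.mem_filter, Finset.mem_univ, true_and] at hx
    simp only [Finset.mem_product, Finset.mem_filter, Finset.mem_univ, true_and]
    exact ⟨⟨hx.1.1, fun h => (hx.2 h).1⟩, ⟨hx.1.2, fun h => (hx.2 h).2⟩⟩
  · intro x _ y _ hxy
    funext v
    have h1 := congrFun (congrArg Prod.fst hxy) v
    have h2 := congrFun (congrArg Prod.snd hxy) v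
    exact Prod.ext h1 h2
  · rintro ⟨σ, τ⟩ hστ
    simp only [Finset.mem_product, Finset.mem_filter, Finset.mem_univ, true_and] at hστ
    refine ⟨fun v => (σ v, τ v), ?_, rfl⟩
    simp only [Finset.mem_filter, Finset.mem_univ, true_and]
    exact ⟨⟨hστ.1.1, hστ.2.1⟩, fun h => ⟨hστ.1.2 h, hστ.2.2 h⟩⟩

/-- double counting -/
theorem sum_Zf (δ : ℝ) (n : ℕ) :
    ∑ f ∈ PMs (HE n), ((Zf δ f : ℝ)) ^ 2 =
      ∑ x ∈ Finset.univ.filter (fun x : Fin n → Fin 10 × Fin 10 =>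
        Near δ (fun v => (x v).1) ∧ Near δ (fun v => (x v).2)),
        (cnt A2 (fun h : HE n => x h.1) : ℝ) := by
  have h1 : ∀ f ∈ PMs (HE n), ((Zf δ f : ℝ)) ^ 2 =
      ∑ x ∈ Finset.univ.filter (fun x : Fin n → Fin 10 × Fin 10 =>
        Near δ (fun v => (x v).1) ∧ Near δ (fun v => (x v).2)),
        (if Compat A2 (fun h : HE n => x h.1) f then (1 : ℝ) else 0) := by
    intro f _
    rw [← Nat.cast_pow, Zf_sq, Finset.card_filter, Nat.cast_sum]
    exact Finset.sum_congr rfl fun x _ => by push_cast; rfl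
  rw [Finset.sum_congr rfl h1, Finset.sum_comm]
  refine Finset.sum_congr rfl fun x _ => ?_
  unfold cnt
  rw [Finset.card_filter, Nat.cast_sum]
  exact Finset.sum_congr rfl fun f _ => by push_cast; rfl

theorem cnt_sum (S : Spec (Fin 10 × Fin 10) (Fin 10 × Fin 10)) (t : ℕ)
    (N : Set (Fin (2 * t) → Fin 10 × Fin 10)) :
    ((∑ x ∈ Finset.univ.filter (fun x : Fin (2 * t) → Fin 10 × Fin 10 => x ∈ N),
      (cnt S.A (fun h : HE (2 * t) => x h.1) : ℝ) : ℝ) : ℂ) =
      ((S.rho : ℝ) : ℂ) ^ (3 * t) * ∫ k, S.F N k ∂(gam (Fin 10 × Fin 10)) := by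
  have hcard : Fintype.card (HE (2 * t)) = 2 * (3 * t) := by
    rw [Fintype.card_prod, Fintype.card_fin, Fintype.card_fin]; ring
  have hprod : ∀ (x : Fin (2 * t) → Fin 10 × Fin 10) (k : Fin 10 × Fin 10 → ℝ),
      ∏ h : HE (2 * t), S.G k (x h.1) = ∏ v, (S.G k (x v)) ^ 3 := by
    intro x k
    rw [Fintype.prod_prod_type]
    refine Finset.prod_congr rfl fun v _ => ?_
    show ∏ _y : Fin 3, S.G k (x v) = _
    rw [Finset.prod_const, Finset.card_univ, Fintype.card_fin]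
  have hint : ∀ x : Fin (2 * t) → Fin 10 × Fin 10,
      Integrable (fun k => ∏ v, (S.G k (x v)) ^ 3) (gam (Fin 10 × Fin 10)) := by
    intro x
    have := integ S (Finset.univ : Finset (HE (2 * t))) (fun h => x h.1)
    simp only [hprod] at this
    exact this
  unfold Spec.F
  rw [integral_finsetSum _ (fun x _ => hint x), Finset.mul_sum, Complex.ofReal_sum]
  refine Finset.sum_congr rfl fun x _ => ?_
  have hw := wick S (H := HE (2 * t)) (fun h => x h.1) (3 * t) hcard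
  simp only [hprod] at hw
  rw [← hw]
  push_cast
  rfl

theorem near_lim (S : Spec (Fin 10 × Fin 10) (Fin 10 × Fin 10)) (hrho : S.rho = 9 / 100) (δ₀ : ℝ)
    (hlap : Tendsto (fun m : ℕ =>
        (∫ k, (∏ i : Fin 0, S.G k (Fin.elim0 i)) * S.F {x : Fin m → Fin 10 × Fin 10 | Near δ₀ x} k
          ∂(gam (Fin 10 × Fin 10)))
          / ((Fintype.card (Fin 10 × Fin 10) : ℂ) ^ m * ((dfac (3 * m + 0) : ℝ) : ℂ)))
        (atTop ⊓ Filter.principal {m : ℕ | Even (3 * m + 0)}) (nhds ((S.K : ℝ) : ℂ))) :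
    Tendsto (fun t : ℕ => (∑ x ∈ Finset.univ.filter (fun x : Fin (2 * t) → Fin 10 × Fin 10 => Near δ₀ x),
      (cnt S.A (fun h : HE (2 * t) => x h.1) : ℝ)) / (dfac (6 * t) * (B t) ^ 2)) atTop
        (nhds S.K) := by
  have h2t : Tendsto (fun t : ℕ => 2 * t) atTop (atTop ⊓ Filter.principal {m : ℕ | Even (3 * m + 0)}) := by
    rw [tendsto_inf]
    refine ⟨?_, ?_⟩
    · exact Filter.tendsto_id.const_mul_atTop' (by norm_num)
    · rw [tendsto_principal]
      refine Filter.Eventually.of_forall fun t => ?_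
      show Even (3 * (2 * t) + 0)
      exact ⟨3 * t, by ring⟩
  have h1 := hlap.comp h2t
  have h2 : Tendsto (fun t : ℕ => (((∑ x ∈ Finset.univ.filter
      (fun x : Fin (2 * t) → Fin 10 × Fin 10 => Near δ₀ x),
      (cnt S.A (fun h : HE (2 * t) => x h.1) : ℝ)) / (dfac (6 * t) * (B t) ^ 2) : ℝ) : ℂ)) atTop
        (nhds ((S.K : ℝ) : ℂ)) := by
    refine h1.congr (fun t => ?_)
    have h3 := cnt_sum S t {x : Fin (2 * t) → Fin 10 × Fin 10 | Near δ₀ x}
    simp only [Set.mem_ofPred_eq] at h3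
    simp only [Function.comp_def, Finset.univ_eq_empty, Finset.prod_empty, one_mul]
    rw [Complex.ofReal_div, h3, hrho]
    have e1 : 3 * (2 * t) + 0 = 6 * t := by ring
    rw [e1]
    have e2 : Fintype.card (Fin 10 × Fin 10) = 100 := by
      rw [Fintype.card_prod, Fintype.card_fin]
    rw [e2]
    have e3 : ((9 / 100 : ℝ) : ℂ) ^ (3 * t) * (100 : ℂ) ^ (2 * t) = ((B t : ℝ) : ℂ) ^ 2 := by
      unfold B
      rw [pow_mul, pow_mul, ← mul_pow]
      push_cast
      rw [← pow_mul, mul_comm t 2, pow_mul]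
      norm_num
    have hB : ((B t : ℝ) : ℂ) ≠ 0 := by
      exact_mod_cast (B_pos t).ne'
    have hd : ((dfac (6 * t) : ℝ) : ℂ) ≠ 0 := by
      exact_mod_cast (dfac_pos (6 * t)).ne'
    have h100 : (100 : ℂ) ^ (2 * t) ≠ 0 := pow_ne_zero _ (by norm_num)
    rw [Complex.ofReal_mul, Complex.ofReal_pow, ← e3]
    have h9 : ((9 / 100 : ℝ) : ℂ) ^ (3 * t) ≠ 0 := pow_ne_zero _ (by
      push_cast; norm_num)
    push_cast at h9 ⊢
    field_simp
  exact (Complex.continuous_re.tendsto _).comp h2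

end SecondAux

theorem second : ∃ δ₂ : ℝ, 0 < δ₂ ∧ ∀ δ : ℝ, 0 < δ → δ ≤ δ₂ → ∀ ε : ℝ, 0 < ε → ∀ᶠ t : ℕ in atTop,
    ∑ f ∈ PMs (HE (2 * t)), wP t f * ((Zf δ f : ℝ) / B t) ^ 2 ≤ K2c + ε := by
  obtain ⟨S, hSA, hrho, hi0, hlam⟩ := specPP
  obtain ⟨δ₀, hδ₀, hlap⟩ := lap S
  obtain ⟨δ', hδ', hfar⟩ := far δ₀ hδ₀
  refine ⟨δ', hδ', ?_⟩
  intro δ hδ hδδ' ε hε
  have hK : S.K = K2c := by
    unfold Spec.K K2c
    rw [hi0, hlam]
    refine Finset.prod_congr rfl fun i _ => ?_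
    by_cases h : i = (0, 0)
    · rw [if_pos h, if_pos h]
    · rw [if_neg h, if_neg h]
  have hlap0 := hlap 0 Fin.elim0 (fun m => {x : Fin m → Fin 10 × Fin 10 | Near δ₀ x}) δ₀ hδ₀
    (Filter.Eventually.of_forall fun m x hx => hx) (Filter.Eventually.of_forall fun m x hx => hx)
  have hnear := SecondAux.near_lim S hrho δ₀ hlap0
  rw [hK, hSA] at hnear
  have e1 := hnear.eventually (gt_mem_nhds (show K2c < K2c + ε / 2 by linarith))
  have e2 := hfar.eventually (gt_mem_nhds (show (0 : ℝ) < ε / 2 by linarith))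
  filter_upwards [e1, e2] with t h1 h2
  have hden : 0 < dfac (6 * t) * (B t) ^ 2 :=
    mul_pos (SecondAux.dfac_pos _) (pow_pos (SecondAux.B_pos t) 2)
  rw [div_lt_iff₀ hden] at h1 h2
  have hsum : ∑ f ∈ PMs (HE (2 * t)), wP t f * ((Zf δ f : ℝ) / B t) ^ 2 =
      (∑ f ∈ PMs (HE (2 * t)), ((Zf δ f : ℝ)) ^ 2) / (dfac (6 * t) * (B t) ^ 2) := by
    rw [Finset.sum_div]
    refine Finset.sum_congr rfl fun f _ => ?_
    unfold wP
    rw [div_pow, one_div, mul_comm (dfac (6 * t)), ← div_div, div_eq_mul_inv _ (dfac (6 * t)), mul_comm]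
  rw [hsum, div_le_iff₀ hden, SecondAux.sum_Zf]
  have hsplit : ∑ x ∈ Finset.univ.filter (fun x : Fin (2 * t) → Fin 10 × Fin 10 =>
        Near δ (fun v => (x v).1) ∧ Near δ (fun v => (x v).2)),
        (cnt A2 (fun h : HE (2 * t) => x h.1) : ℝ) ≤
      ∑ x ∈ Finset.univ.filter (fun x : Fin (2 * t) → Fin 10 × Fin 10 => Near δ₀ x),
        (cnt A2 (fun h : HE (2 * t) => x h.1) : ℝ) +
      ∑ x ∈ Finset.univ.filter (fun x : Fin (2 * t) → Fin 10 × Fin 10 =>
          Near δ' (fun v => (x v).1) ∧ Near δ' (fun v => (x v).2) ∧ ¬ Near δ₀ x),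
        (cnt A2 (fun h : HE (2 * t) => x h.1) : ℝ) := by
    rw [← Finset.sum_filter_add_sum_filter_not (Finset.univ.filter
      (fun x : Fin (2 * t) → Fin 10 × Fin 10 =>
        Near δ (fun v => (x v).1) ∧ Near δ (fun v => (x v).2))) (fun x => Near δ₀ x)]
    refine add_le_add ?_ ?_
    · refine Finset.sum_le_sum_of_subset_of_nonneg ?_ (fun _ _ _ => Nat.cast_nonneg _)
      intro x hx
      simp only [Finset.mem_filter, Finset.mem_univ, true_and] at hx ⊢
      exact hx.2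
    · refine Finset.sum_le_sum_of_subset_of_nonneg ?_ (fun _ _ _ => Nat.cast_nonneg _)
      intro x hx
      simp only [Finset.mem_filter, Finset.mem_univ, true_and] at hx ⊢
      exact ⟨fun a => (hx.1.1 a).trans hδδ', fun a => (hx.1.2 a).trans hδδ', hx.2⟩
  calc _ ≤ _ := hsplit
    _ ≤ (K2c + ε / 2) * (dfac (6 * t) * (B t) ^ 2) + (ε / 2) * (dfac (6 * t) * (B t) ^ 2) :=
        add_le_add h1.le h2.le
    _ = (K2c + ε) * (dfac (6 * t) * (B t) ^ 2) := by ring

end Pool.Agent.PET
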