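import Pool.Agent.PET.SimpX
import Pool.Agent.PET.Fiber
import Pool.Agent.PET.GirthX
/-!
# Trans : configurations without short cycles versus cubic graphs of large girth

`NoShort g f`, i.e. `(∀ j, 1 ≤ j → j < g → XC j f = 0)`, iff `Simp f` and `g ≤ egirth (Gr f)` (`simp_iff`, `girth_iff`, `g ≥ 3`).  Sum `fiber` over the cubic graphs `G` with
`g ≤ egirth G` and `Q G` (`cubic_of_simp`).
-/
set_option autoImplicit false
open scoped BigOperators Classical
open Filter MeasureTheory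
noncomputable section
namespace Pool.Agent.PET

theorem Trans_iff {n : ℕ} (g : ℕ) (hg : 3 ≤ g) (f : HE n → HE n) (hf : IsPM f) :
    NoShort g f ↔ (Simp f ∧ (g : ℕ∞) ≤ (Gr f).egirth) := by
  constructor
  · intro h
    have hs : Simp f := (simp_iff f hf).2 ⟨h 1 le_rfl (by omega), h 2 (by omega) (by omega)⟩
    exact ⟨hs, (girth_iff f hf hs g hg).1 fun j hj hjg => h j (by omega) hjg⟩
  · rintro ⟨hs, hge⟩ j hj hjg
    rcases Nat.lt_or_ge j 3 with h3 | h3
    · have h12 := (simp_iff f hf).1 hs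
      have : j = 1 ∨ j = 2 := by omega
      rcases this with rfl | rfl
      · exact h12.1
      · exact h12.2
    · exact (girth_iff f hf hs g hg).2 hge j h3 hjg

theorem trans (n g : ℕ) (hg : 3 ≤ g) (Q : SimpleGraph (Fin n) → Prop) :
    ((PMs (HE n)).filter (fun f => NoShort g f ∧ Q (Gr f))).card
      = 6 ^ n * {G : SimpleGraph (Fin n) | IsCubic G ∧ (g : ℕ∞) ≤ G.egirth ∧ Q G}.ncard := by
  set T : Finset (SimpleGraph (Fin n)) :=
    Finset.univ.filter (fun G => IsCubic G ∧ (g : ℕ∞) ≤ G.egirth ∧ Q G) with hT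
  have hnc : {G : SimpleGraph (Fin n) | IsCubic G ∧ (g : ℕ∞) ≤ G.egirth ∧ Q G}.ncard = T.card := by
    rw [← Set.ncard_coe_finset T]
    congr 1
    ext G
    simp [hT]
  rw [hnc]
  rw [Finset.card_eq_sum_card_fiberwise (f := Gr) (t := T)]
  · rw [Finset.sum_congr rfl (g := fun _ => 6 ^ n)]
    · simp [mul_comm]
    · intro G hG
      have hG' := (Finset.mem_filter.1 hG).2
      rw [← fiber G hG'.1, Finset.filter_filter]
      congr 1
      ext f
      simp only [Finset.mem_filter]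
      constructor
      · rintro ⟨hf, ⟨h1, h2⟩, h3⟩
        exact ⟨hf, ((Trans_iff g hg f ((mem_PMs f).1 hf)).1 h1).1, h3⟩
      · rintro ⟨hf, h1, h3⟩
        refine ⟨hf, ⟨(Trans_iff g hg f ((mem_PMs f).1 hf)).2 ⟨h1, ?_⟩, ?_⟩, h3⟩
        · rw [h3]; exact hG'.2.1
        · rw [h3]; exact hG'.2.2
  · intro f hf
    rw [Finset.mem_coe, Finset.mem_filter] at hf
    obtain ⟨hf, h1, h2⟩ := hf
    have hpm := (mem_PMs f).1 hf
    have h3 := (Trans_iff g hg f hpm).1 h1
    rw [Finset.mem_coe, hT, Finset.mem_filter]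
    exact ⟨Finset.mem_univ _, cubic_of_simp f hpm h3.1, h3.2, h2⟩

end Pool.Agent.PET
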