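import Pool.Agent.PET.H12Z
import Pool.Agent.PET.H12P
import Pool.Agent.PET.Second
import Pool.Agent.PET.CycPoi
import Pool.Agent.PET.Cond
import Pool.Agent.PET.Const
import Pool.Agent.PET.HomZ
import Pool.Agent.PET.Trans
/-!
# Main : assembly
-/
set_option autoImplicit false
open scoped BigOperators Classical
open Filter MeasureTheory
noncomputable section
namespace Pool.Agent.PET

theorem card_HE (t : ℕ) : Fintype.card (HE (2 * t)) = 6 * t := by
  simp [HE]; ring

theorem even_HE (t : ℕ) : Even (Fintype.card (HE (2 * t))) := by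
  rw [card_HE]; exact ⟨3 * t, by ring⟩

theorem aa_pos (j : ℕ) (hj : 1 ≤ j) : 0 < aa j := by
  unfold aa
  have : (0 : ℝ) < j := by exact_mod_cast hj
  positivity

theorem B_pos (t : ℕ) : 0 < B t := by unfold B; positivity

theorem sum_PMs_eq {t : ℕ} (F : (HE (2 * t) → HE (2 * t)) → ℝ) :
    ∑ f ∈ PMs (HE (2 * t)), F f = ∑ f, if f ∈ PMs (HE (2 * t)) then F f else 0 := by
  rw [Finset.sum_ite_mem, Finset.univ_inter]

/-- key estimate: configurations without short cycles and without balanced homomorphism are rare -/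
theorem rare (g : ℕ) (hg : 4 ≤ g) : ∃ δ : ℝ, 0 < δ ∧ ∀ ε : ℝ, 0 < ε → ∀ᶠ t : ℕ in atTop,
    (((PMs (HE (2 * t))).filter (fun f => NoShort g f ∧ NoZ δ f)).card : ℝ)
      ≤ ε * dfac (6 * t) := by
  obtain ⟨δ₁, hδ₁, h1⟩ := H12Z
  obtain ⟨δ₂, hδ₂, h2⟩ := second
  refine ⟨min δ₁ δ₂, lt_min hδ₁ hδ₂, ?_⟩
  set δ := min δ₁ δ₂ with hδdef
  have hδ : 0 < δ := lt_min hδ₁ hδ₂
  obtain ⟨hH1, hH2⟩ := h1 δ hδ (min_le_left _ _)
  have hsec := h2 δ hδ (min_le_right _ _)
  intro ε hε
  have hwP : ∀ t f, 0 ≤ wP t f := fun t f => by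
    unfold wP; have := dfac_pos (6 * t); positivity
  have hwZ : ∀ t f, 0 ≤ wZ δ t f := fun t f => by
    unfold wZ; have := dfac_pos (6 * t); have := B_pos t; positivity
  have hP1 : ∀ t : ℕ, ∑ f, (if f ∈ PMs (HE (2 * t)) then wP t f else 0) = 1 := by
    intro t
    rw [← sum_PMs_eq]
    simp only [wP, Finset.sum_const, nsmul_eq_mul]
    rw [card_PMs (even_HE t), card_HE]
    have := dfac_pos (6 * t)
    field_simp
  have key := cond (fun t => HE (2 * t) → HE (2 * t))
    (fun t f => if f ∈ PMs (HE (2 * t)) then wP t f else 0)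
    (fun t f => (Zf δ f : ℝ) / B t) (fun t f j => XC j f)
    (by
      intro t f
      show (0 : ℝ) ≤ if f ∈ PMs (HE (2 * t)) then wP t f else 0
      split_ifs
      · exact hwP t f
      · exact le_rfl)
    (Eventually.of_forall hP1)
    (by
      intro t f
      show (0 : ℝ) ≤ (Zf δ f : ℝ) / B t
      have := B_pos t; positivity)
    aa (fun j => tau j - 1) (fun j hj => aa_pos j hj)
    (by intro j hj; have := tau_ge j hj; linarith) K1c K1c_pos
    (by
      intro k x
      have h := cycPoi wP hwP 1 (fun _ => 1) H1P H2P k x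
      simp only [mul_one, one_mul] at h
      refine h.congr ?_
      intro t
      rw [sum_PMs_eq]
      refine Finset.sum_congr rfl fun f _ => ?_
      split_ifs <;> rfl)
    (by
      intro k x
      have h := cycPoi (wZ δ) hwZ K1c tau hH1 hH2 k x
      have e : ∀ j : ℕ, 1 + (tau j - 1) = tau j := fun j => by ring
      simp only [e]
      refine h.congr ?_
      intro t
      rw [sum_PMs_eq]
      refine Finset.sum_congr rfl fun f _ => ?_
      have hb := B_pos t
      have hd := dfac_pos (6 * t)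
      have e2 : wP t f * ((Zf δ f : ℝ) / B t) = wZ δ t f := by
        unfold wP wZ; field_simp
      split_ifs
      · exact e2.symm
      · rfl
      · simp
      · rfl)
    summable1
    (by
      intro ε' hε'
      filter_upwards [hsec ε' hε'] with t ht
      rw [← K2c_eq]
      refine le_trans (le_of_eq ?_) ht
      rw [sum_PMs_eq]
      refine Finset.sum_congr rfl fun f _ => ?_
      split_ifs
      · rfl
      · simp)
    g (by omega)
    (by intro j hj; have := tau_pos j (le_trans hg hj); linarith)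
    (summable2 g hg) ε hε
  filter_upwards [key] with t ht
  have hd := dfac_pos (6 * t)
  have hb := B_pos t
  have e1 : ∑ f : HE (2 * t) → HE (2 * t),
      (if (∀ j, 1 ≤ j → j < g → XC j f = 0) ∧ (Zf δ f : ℝ) / B t = 0 then
        (if f ∈ PMs (HE (2 * t)) then wP t f else 0) else 0)
      = (((PMs (HE (2 * t))).filter
        (fun f => NoShort g f ∧ NoZ δ f)).card : ℝ) / dfac (6 * t) := by
    rw [Finset.card_filter]
    push_cast
    rw [Finset.sum_div, sum_PMs_eq]
    refine Finset.sum_congr rfl fun f _ => ?_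
    have e3 : ((Zf δ f : ℝ) / B t = 0) ↔ Zf δ f = 0 := by
      rw [div_eq_zero_iff]
      constructor
      · rintro (h | h)
        · exact_mod_cast h
        · exact absurd h hb.ne'
      · intro h; left; exact_mod_cast h
    by_cases h1 : f ∈ PMs (HE (2 * t)) <;>
      by_cases h2 : NoShort g f ∧ NoZ δ f
    · rw [if_pos ⟨h2.1, e3.mpr h2.2⟩, if_pos h1, if_pos h1, if_pos h2]; rfl
    · rw [if_neg (fun h => h2 ⟨h.1, e3.mp h.2⟩), if_pos h1, if_neg h2]; simp
    · rw [if_pos ⟨h2.1, e3.mpr h2.2⟩, if_neg h1, if_neg h1]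
    · rw [if_neg (fun h => h2 ⟨h.1, e3.mp h.2⟩), if_neg h1]
  have ht' := ht
  rw [e1, div_le_iff₀ hd] at ht'
  exact ht'

/-- a positive proportion of the configurations has no short cycles -/
theorem lower (g : ℕ) (hg : 4 ≤ g) : ∃ c : ℝ, 0 < c ∧ ∀ᶠ t : ℕ in atTop,
    c * dfac (6 * t) ≤ (((PMs (HE (2 * t))).filter
      (NoShort g)).card : ℝ) := by
  have hwP : ∀ t f, 0 ≤ wP t f := fun t f => by
    unfold wP; have := dfac_pos (6 * t); positivity
  have h := cycPoi wP hwP 1 (fun _ => 1) H1P H2P (g - 1) (fun _ => 0)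
  simp only [mul_one, one_mul, pow_zero, Nat.factorial_zero, Nat.cast_one, div_one] at h
  set L : ℝ := ∏ j : Fin (g - 1), Real.exp (-aa (j.1 + 1)) with hL
  have hLpos : 0 < L := Finset.prod_pos fun _ _ => Real.exp_pos _
  refine ⟨L / 2, by positivity, ?_⟩
  have h2 := h.eventually (lt_mem_nhds (show L / 2 < L by linarith))
  filter_upwards [h2] with t ht
  have hd := dfac_pos (6 * t)
  have e1 : ∑ f ∈ PMs (HE (2 * t)), (if (∀ j : Fin (g - 1), XC (j.1 + 1) f = 0) then wP t f else 0)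
      = (((PMs (HE (2 * t))).filter
      (NoShort g)).card : ℝ) / dfac (6 * t) := by
    rw [Finset.card_filter]
    push_cast
    rw [Finset.sum_div]
    refine Finset.sum_congr rfl fun f _ => ?_
    have e3 : (∀ j : Fin (g - 1), XC (j.1 + 1) f = 0) ↔ NoShort g f := by
      constructor
      · intro h j hj hjg
        have := h ⟨j - 1, by omega⟩
        simpa [Nat.sub_add_cancel hj] using this
      · intro h j
        exact h (j.1 + 1) (by omega) (by have := j.2; omega)
    by_cases h2 : NoShort g f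
    · rw [if_pos (e3.mpr h2), if_pos h2]; rfl
    · rw [if_neg (fun h => h2 (e3.mp h)), if_neg h2]; simp
  have ht' : L / 2 < ∑ f ∈ PMs (HE (2 * t)),
      (if (∀ j : Fin (g - 1), XC (j.1 + 1) f = 0) then wP t f else 0) := ht
  rw [e1, lt_div_iff₀ hd] at ht'
  exact ht'.le

theorem main (g : ℕ) (hg : 4 ≤ g) (ε : ℝ) (hε : 0 < ε) :
    ∃ n₀ : ℕ, ∀ n : ℕ, n₀ ≤ n → Even n →
      0 < {G : SimpleGraph (Fin n) | IsCubic G ∧ (g : ℕ∞) ≤ G.egirth}.ncard ∧
      (1 - ε) * ({G : SimpleGraph (Fin n) | IsCubic G ∧ (g : ℕ∞) ≤ G.egirth}.ncard : ℝ)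
        ≤ ({G : SimpleGraph (Fin n) | IsCubic G ∧ (g : ℕ∞) ≤ G.egirth ∧
              Nonempty (G →g petersen)}.ncard : ℝ) := by
  obtain ⟨δ, hδ, hrare⟩ := rare g hg
  obtain ⟨c, hc, hlow⟩ := lower g hg
  obtain ⟨t₀, ht₀⟩ := eventually_atTop.mp ((hrare (ε * c) (by positivity)).and hlow)
  refine ⟨2 * t₀, fun n hn hev => ?_⟩
  obtain ⟨t, rfl⟩ : ∃ t, n = 2 * t := by obtain ⟨t, ht⟩ := hev; exact ⟨t, by omega⟩
  obtain ⟨h1, h2⟩ := ht₀ t (by omega)
  have hd := dfac_pos (6 * t)
  have g3 : 3 ≤ g := by omega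
  -- all
  have eAll := trans (2 * t) g g3 (fun _ => True)
  have eNo := trans (2 * t) g g3 NoHom
  simp only [and_true] at eAll
  set A := {G : SimpleGraph (Fin (2 * t)) | IsCubic G ∧ (g : ℕ∞) ≤ G.egirth} with hA
  set Hh := {G : SimpleGraph (Fin (2 * t)) | IsCubic G ∧ (g : ℕ∞) ≤ G.egirth ∧
      Nonempty (G →g petersen)} with hH
  set Nn := {G : SimpleGraph (Fin (2 * t)) | IsCubic G ∧ (g : ℕ∞) ≤ G.egirth ∧
      NoHom G} with hN
  have hsplit : A.ncard = Hh.ncard + Nn.ncard := by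
    rw [← Set.ncard_union_eq (by
      rw [Set.disjoint_left]
      intro G h h'
      exact h'.2.2 h.2.2) (Set.toFinite _) (Set.toFinite _)]
    congr 1
    ext G
    simp only [hA, hH, hN, Set.mem_union, Set.mem_ofPred_eq]
    by_cases hh : Nonempty (G →g petersen) <;> simp [hh, NoHom]
  have hNle : (6 ^ (2 * t) * Nn.ncard : ℕ) ≤ ((PMs (HE (2 * t))).filter
      (fun f => NoShort g f ∧ NoZ δ f)).card := by
    rw [← eNo]
    refine Finset.card_le_card ?_
    intro f hf
    rw [Finset.mem_filter] at hf ⊢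
    refine ⟨hf.1, hf.2.1, ?_⟩
    by_contra hne
    exact hf.2.2 (hom_of_Zf δ f (Nat.pos_of_ne_zero hne))
  have hN' : (6 : ℝ) ^ (2 * t) * (Nn.ncard : ℝ) ≤ ε * c * dfac (6 * t) := by
    refine le_trans ?_ h1
    exact_mod_cast hNle
  have hA' : c * dfac (6 * t) ≤ (6 : ℝ) ^ (2 * t) * (A.ncard : ℝ) := by
    refine le_trans h2 (le_of_eq ?_)
    rw [eAll]; push_cast; ring
  have h6 : (0 : ℝ) < 6 ^ (2 * t) := by positivity
  constructor
  · by_contra h0
    have h0' : A.ncard = 0 := by omega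
    rw [h0'] at hA'
    have : 0 < c * dfac (6 * t) := by positivity
    simp at hA'
    linarith
  · have hs : (A.ncard : ℝ) = Hh.ncard + Nn.ncard := by exact_mod_cast hsplit
    have h7 : (6 : ℝ) ^ (2 * t) * (Nn.ncard : ℝ) ≤ (6 : ℝ) ^ (2 * t) * (ε * A.ncard) := by
      calc (6 : ℝ) ^ (2 * t) * (Nn.ncard : ℝ) ≤ ε * c * dfac (6 * t) := hN'
        _ = ε * (c * dfac (6 * t)) := by ring
        _ ≤ ε * ((6 : ℝ) ^ (2 * t) * (A.ncard : ℝ)) := by
            exact mul_le_mul_of_nonneg_left hA' hε.le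
        _ = _ := by ring
    have h8 := le_of_mul_le_mul_left h7 h6
    linarith

end Pool.Agent.PET
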