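import Pool.Agent.PET.GSq
/-!
# NearB : cubic bound in a cone around the direction `i0`

`cub`: put `t = 2 Re z + |z|²`, `|1+z|² = 1 + t`, `|1+z| ≥ 1/2` so `1 + t ≥ 1/4`.  Taylor:
`(1+t)^{3/2} ≤ 1 + (3/2) t + (3/8) t² + (1/2)|t|³` (the third derivative of `(1+t)^{3/2}` is `-(3/8)(1+t)^{-3/2}`, i.e.
for `t ≥ 0` the remainder is `≤ 0`, for `-3/4 ≤ t < 0` it is `≤ (1/16) 8 |t|³`).  `|t| ≤ 5/2 |z|`, so
`(1/2)|t|³ ≤ 8 |z|³`, `(3/8) t² ≤ (3/2)(Re z)² + (3/2)|z|³ + (3/8)|z|⁴ ≤ (3/2)(Re z)² + 2 |z|³`.  (Any other proof is fine.)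

`nearB`: for `k0 = k i0 > 0` write `G k x = k0 (1 + z_x)`, `z_x = G k' x / k0` where `k'` is `k` with the `i0`
coordinate set to `0` (`G_add`, `G_smul`).  By `norm_G_le` `|z_x| ≤ C √(rr k)/k0 ≤ C η ≤ 1/2`.
Sum `cub` over `x`:  `∑ Re z_x = 0` (`sum_G`), `∑ |z|² = N ∑_{i≠i0} |lam_i| k_i² / k0²`,
`∑ (Re z)² = N ∑_{i≠i0} max(lam_i,0) k_i²/k0²`, so
`(1/N)∑ [(3/2)|z|² + (3/2)(Re z)²] = (3/2) ∑_{i≠i0} (|lam_i| + max(lam_i,0)) k_i²/k0² ≤ (4/3) rr k / k0²`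
(`lam ≥ 0`: `2 lam ≤ 8/9`; `lam < 0`: `|lam| ≤ 2/3 ≤ 8/9`), and `10 |z|³ ≤ 10 C η |z|²` contributes
`≤ 10 C η rr k/k0²`, `≤ (29/20 - 4/3) rr k/k0²` for `η` small.  Finally `1 + y ≤ exp y`.
-/
set_option autoImplicit false
open scoped BigOperators Classical
open Filter MeasureTheory
noncomputable section
namespace Pool.Agent.PET

variable {X I : Type} [Fintype X] [Fintype I]

theorem cub (z : ℂ) (hz : ‖z‖ ≤ 1 / 2) :
    ‖1 + z‖ ^ 3 ≤ 1 + 3 * z.re + (3 / 2) * ‖z‖ ^ 2 + (3 / 2) * z.re ^ 2 + 10 * ‖z‖ ^ 3 := by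
  obtain ⟨r, hr⟩ : ∃ r : ℝ, r = ‖z‖ := ⟨_, rfl⟩
  obtain ⟨a, ha⟩ : ∃ a : ℝ, a = z.re := ⟨_, rfl⟩
  obtain ⟨u, hu⟩ : ∃ u : ℝ, u = ‖1 + z‖ - 1 := ⟨_, rfl⟩
  have hr0 : 0 ≤ r := hr ▸ norm_nonneg z
  have h1 : |u| ≤ r := by
    rw [hu, hr]
    have := abs_norm_sub_norm_le (1 + z) 1
    simpa using this
  have h2 : |a| ≤ r := by rw [ha, hr]; exact Complex.abs_re_le_norm z
  have h3 : ‖1 + z‖ ^ 2 = 1 + 2 * a + r ^ 2 := by
    rw [hr, ha, ← Complex.normSq_eq_norm_sq, ← Complex.normSq_eq_norm_sq, Complex.normSq_apply,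
      Complex.normSq_apply]
    simp only [Complex.add_re, Complex.one_re, Complex.add_im, Complex.one_im]
    ring
  have hs : ‖1 + z‖ = 1 + u := by rw [hu]; ring
  rw [← hr] at hz ⊢
  rw [← ha]
  rw [hs] at h3 ⊢
  have h4 : u = a + (r ^ 2 - u ^ 2) / 2 := by linear_combination h3 / 2
  have hu1 := abs_le.mp h1
  have ha1 := abs_le.mp h2
  have hu2 : u ^ 2 ≤ r ^ 2 := by nlinarith
  have h5 : |u| ≤ |a| + r ^ 2 / 2 := by
    have h6 : |u| = |a + (r ^ 2 - u ^ 2) / 2| := congrArg abs h4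
    have h7 : |(r ^ 2 - u ^ 2) / 2| ≤ r ^ 2 / 2 := by
      rw [abs_le]
      constructor <;> nlinarith [sq_nonneg u]
    rw [h6]
    exact (abs_add_le _ _).trans (by linarith)
  have h6 : u ^ 2 ≤ a ^ 2 + r ^ 3 + r ^ 4 / 4 := by
    have h7 : u ^ 2 ≤ (|a| + r ^ 2 / 2) ^ 2 := by
      rw [← sq_abs u]
      exact pow_le_pow_left₀ (abs_nonneg u) h5 2
    have h8 : (|a| + r ^ 2 / 2) ^ 2 = a ^ 2 + |a| * r ^ 2 + r ^ 4 / 4 := by
      rw [add_sq, sq_abs]; ring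
    have h9 : |a| * r ^ 2 ≤ r ^ 3 := by
      calc |a| * r ^ 2 ≤ r * r ^ 2 := mul_le_mul_of_nonneg_right h2 (by positivity)
        _ = r ^ 3 := by ring
    linarith
  have h7 : r ^ 4 ≤ r ^ 3 := by
    calc r ^ 4 = r * r ^ 3 := by ring
      _ ≤ 1 * r ^ 3 := mul_le_mul_of_nonneg_right (by linarith) (by positivity)
      _ = r ^ 3 := by ring
  have h8 : u ^ 3 ≤ r ^ 3 := by
    calc u ^ 3 ≤ |u| ^ 3 := by
          rw [← abs_pow]; exact le_abs_self _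
      _ ≤ r ^ 3 := pow_le_pow_left₀ (abs_nonneg u) h1 3
  have h9 : (0:ℝ) ≤ r ^ 3 := by positivity
  have h10 : (1 + u) ^ 3 = 1 + 3 * a + (3 / 2) * r ^ 2 + (3 / 2) * u ^ 2 + u ^ 3 := by
    linear_combination (3 / 2) * h3
  rw [h10]
  linarith

theorem nearB (S : Spec X I) [Nonempty X] :
    ∃ η : ℝ, 0 < η ∧ ∀ k : I → ℝ, 0 < k S.i0 → S.rr k ≤ η ^ 2 * (k S.i0) ^ 2 →
      ∑ x, ‖S.G k x‖ ^ 3 ≤ (Fintype.card X : ℝ) * (k S.i0) ^ 3
        * Real.exp ((29 / 20) * (S.rr k / (k S.i0) ^ 2)) := by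
  obtain ⟨C, hC, hCb⟩ := norm_G_le S
  refine ⟨1 / (100 * C), by positivity, ?_⟩
  intro k hk0 hrr
  obtain ⟨k0, hk⟩ : ∃ k0 : ℝ, k0 = k S.i0 := ⟨_, rfl⟩
  rw [← hk] at hk0 hrr ⊢
  obtain ⟨k', hk'⟩ : ∃ k' : I → ℝ, k' = fun i => if i = S.i0 then 0 else k i := ⟨_, rfl⟩
  have hk'0 : k' S.i0 = 0 := by rw [hk']; simp
  have hk'i : ∀ i, i ≠ S.i0 → k' i = k i := by
    intro i hi; rw [hk']; simp [hi]
  have hG : ∀ x, S.G k x = (k0 : ℂ) + S.G k' x := by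
    intro x
    have h1 := G_kk S (k0 ^ 2) k' x
    rw [Real.sqrt_sq hk0.le] at h1
    rw [← h1]
    congr 1
    funext i
    unfold Spec.kk
    by_cases hi : i = S.i0
    · simp only [hi, if_true, hk'0, zero_add]
      rw [Real.sqrt_sq hk0.le, hk]
    · simp only [hi, if_false]; rw [hk'i i hi]
  have hrr0 : 0 ≤ S.rr k := Finset.sum_nonneg fun i _ => sq_nonneg _
  have hrr' : ∑ i, k' i ^ 2 = S.rr k := by
    rw [sum_sq_split S k', hk'0]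
    have : S.rr k' = S.rr k := by
      unfold Spec.rr
      refine Finset.sum_congr rfl fun i hi => ?_
      rw [hk'i i (Finset.ne_of_mem_erase hi)]
    rw [this]; ring
  -- the general weighted sums
  have hw : ∀ w : I → ℝ, ∀ M : ℝ, (∀ i, i ≠ S.i0 → w i ≤ M) → ∑ i, w i * k' i ^ 2 ≤ M * S.rr k := by
    intro w M hM
    rw [← hrr', Finset.mul_sum]
    refine Finset.sum_le_sum fun i _ => ?_
    by_cases hi : i = S.i0
    · rw [hi, hk'0]; simp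
    · exact mul_le_mul_of_nonneg_right (hM i hi) (sq_nonneg _)
  obtain ⟨q, hq⟩ : ∃ q : ℝ, q = S.rr k / k0 ^ 2 := ⟨_, rfl⟩
  have hq0 : 0 ≤ q := by rw [hq]; positivity
  obtain ⟨N, hN⟩ : ∃ N : ℝ, N = (Fintype.card X : ℝ) := ⟨_, rfl⟩
  have hN0 : 0 ≤ N := by rw [hN]; exact Nat.cast_nonneg _
  rw [← hq, ← hN]
  obtain ⟨z, hz⟩ : ∃ z : X → ℂ, z = fun x => S.G k' x / (k0 : ℂ) := ⟨_, rfl⟩
  have hzn : ∀ x, ‖z x‖ = ‖S.G k' x‖ / k0 := by
    intro x; rw [hz]; simp only [norm_div, Complex.norm_real, Real.norm_of_nonneg hk0.le]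
  have hsmall : ∀ x, ‖z x‖ ≤ 1 / 100 := by
    intro x
    rw [hzn x, div_le_iff₀ hk0]
    have h1 := hCb k' x
    rw [hrr'] at h1
    have h2 : Real.sqrt (S.rr k) ≤ (1 / (100 * C)) * k0 := by
      rw [← Real.sqrt_sq (by positivity : (0:ℝ) ≤ (1 / (100 * C)) * k0)]
      apply Real.sqrt_le_sqrt
      rw [mul_pow]; exact hrr
    calc ‖S.G k' x‖ ≤ C * Real.sqrt (S.rr k) := h1
      _ ≤ C * ((1 / (100 * C)) * k0) := by gcongr
      _ = 1 / 100 * k0 := by field_simp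
  have hre : ∑ x, (z x).re = 0 := by
    have h1 := sum_G S k'
    rw [hk'0] at h1
    have h2 : ∑ x, z x = 0 := by
      rw [hz]
      simp only
      rw [← Finset.sum_div, h1]
      simp
    rw [← Complex.re_sum, h2, Complex.zero_re]
  have hn2 : ∑ x, ‖z x‖ ^ 2 = N * (∑ i, |S.lam i| * k' i ^ 2) / k0 ^ 2 := by
    rw [hN, ← sum_normsq S k', Finset.sum_div]
    refine Finset.sum_congr rfl fun x _ => ?_
    rw [hzn x, div_pow]
  have hre2 : ∑ x, (z x).re ^ 2 = N * (∑ i, max (S.lam i) 0 * k' i ^ 2) / k0 ^ 2 := by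
    rw [hN, ← sum_resq S k', Finset.sum_div]
    refine Finset.sum_congr rfl fun x _ => ?_
    rw [hz]
    simp only
    rw [Complex.div_ofReal_re, div_pow]
  have hA : ∑ x, ‖z x‖ ^ 2 ≤ N * (2 / 3) * q := by
    rw [hn2, hq]
    have := hw (fun i => |S.lam i|) (2 / 3) (fun i hi => S.labs i hi)
    have h2 : (∑ i, |S.lam i| * k' i ^ 2) / k0 ^ 2 ≤ (2 / 3) * S.rr k / k0 ^ 2 := by gcongr
    calc N * (∑ i, |S.lam i| * k' i ^ 2) / k0 ^ 2 = N * ((∑ i, |S.lam i| * k' i ^ 2) / k0 ^ 2) := by ring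
      _ ≤ N * ((2 / 3) * S.rr k / k0 ^ 2) := by gcongr
      _ = _ := by ring
  have hB : ∑ x, ‖z x‖ ^ 2 + ∑ x, (z x).re ^ 2 ≤ N * (8 / 9) * q := by
    rw [hn2, hre2, hq]
    have := hw (fun i => |S.lam i| + max (S.lam i) 0) (8 / 9) (fun i hi => by
      have h1 := S.labs i hi
      have h2 := S.lle i hi
      rcases le_or_gt 0 (S.lam i) with h | h
      · rw [abs_of_nonneg h, max_eq_left h]; linarith
      · rw [max_eq_right h.le]; linarith)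
    have h3 : ∑ i, |S.lam i| * k' i ^ 2 + ∑ i, max (S.lam i) 0 * k' i ^ 2 ≤ (8 / 9) * S.rr k := by
      rw [← Finset.sum_add_distrib]
      refine le_trans (le_of_eq (Finset.sum_congr rfl fun i _ => ?_)) this
      ring
    have h2 : (∑ i, |S.lam i| * k' i ^ 2 + ∑ i, max (S.lam i) 0 * k' i ^ 2) / k0 ^ 2 ≤
        (8 / 9) * S.rr k / k0 ^ 2 := by gcongr
    calc N * (∑ i, |S.lam i| * k' i ^ 2) / k0 ^ 2 + N * (∑ i, max (S.lam i) 0 * k' i ^ 2) / k0 ^ 2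
        = N * ((∑ i, |S.lam i| * k' i ^ 2 + ∑ i, max (S.lam i) 0 * k' i ^ 2) / k0 ^ 2) := by ring
      _ ≤ N * ((8 / 9) * S.rr k / k0 ^ 2) := by gcongr
      _ = _ := by ring
  have hcub : ∑ x, ‖1 + z x‖ ^ 3 ≤ N * (1 + 29 / 20 * q) := by
    calc ∑ x, ‖1 + z x‖ ^ 3
        ≤ ∑ x, (1 + 3 * (z x).re + (3 / 2) * ‖z x‖ ^ 2 + (3 / 2) * (z x).re ^ 2 +
            (1 / 10) * ‖z x‖ ^ 2) := by
          refine Finset.sum_le_sum fun x _ => ?_
          have h1 := cub (z x) ((hsmall x).trans (by norm_num))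
          have h2 : 10 * ‖z x‖ ^ 3 ≤ (1 / 10) * ‖z x‖ ^ 2 := by
            have h3 := hsmall x
            have h4 := norm_nonneg (z x)
            calc 10 * ‖z x‖ ^ 3 = 10 * ‖z x‖ * ‖z x‖ ^ 2 := by ring
              _ ≤ 10 * (1 / 100) * ‖z x‖ ^ 2 := by gcongr
              _ = _ := by ring
          linarith
      _ = N + 3 * ∑ x, (z x).re + (3 / 2) * (∑ x, ‖z x‖ ^ 2 + ∑ x, (z x).re ^ 2) +
            (1 / 10) * ∑ x, ‖z x‖ ^ 2 := by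
          simp only [Finset.sum_add_distrib, ← Finset.mul_sum]
          rw [Finset.sum_const, Finset.card_univ, nsmul_eq_mul, mul_one, hN]
          ring
      _ ≤ N + 3 * 0 + (3 / 2) * (N * (8 / 9) * q) + (1 / 10) * (N * (2 / 3) * q) := by
          rw [hre]
          gcongr
      _ ≤ N * (1 + 29 / 20 * q) := by
          have : 0 ≤ N * q := mul_nonneg hN0 hq0
          nlinarith
  calc ∑ x, ‖S.G k x‖ ^ 3 = k0 ^ 3 * ∑ x, ‖1 + z x‖ ^ 3 := by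
        rw [Finset.mul_sum]
        refine Finset.sum_congr rfl fun x _ => ?_
        have h1 : S.G k x = (k0 : ℂ) * (1 + z x) := by
          rw [hG x, hz]
          have : (k0 : ℂ) ≠ 0 := by exact_mod_cast hk0.ne'
          simp only
          field_simp
        rw [h1, norm_mul, mul_pow, Complex.norm_real, Real.norm_of_nonneg hk0.le]
    _ ≤ k0 ^ 3 * (N * (1 + 29 / 20 * q)) := by gcongr
    _ ≤ k0 ^ 3 * (N * Real.exp (29 / 20 * q)) := by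
        gcongr
        have := Real.add_one_le_exp (29 / 20 * q)
        linarith
    _ = _ := by ring

end Pool.Agent.PET
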