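import Pool.Agent.PET.Defs
/-!
# PDefs : functions on the ten vertices of the Petersen graph
-/
set_option autoImplicit false
open scoped BigOperators
noncomputable section
namespace Pool.Agent.PET

/-- average over the ten vertices -/
def Av (f : Fin 10 → ℝ) : ℝ := (∑ x, f x) / 10

/-- adjacency operator of the Petersen graph -/
def Ad (f : Fin 10 → ℝ) (x : Fin 10) : ℝ := ∑ y ∈ Finset.univ.filter (fun y => padj x y), f y

/-- projection onto the eigenspace `1` of `Ad` -/
def P1 (f : Fin 10 → ℝ) (x : Fin 10) : ℝ := (4 * f x + 2 * Ad f x - ∑ y, f y) / 6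

/-- projection onto the eigenspace `-2` of `Ad` -/
def P2 (f : Fin 10 → ℝ) (x : Fin 10) : ℝ := (f x - Ad f x) / 3 + (∑ y, f y) / 15

/-- `⟨F, (T ⊗ T) F⟩` with `T = Ad / 3`, all averages normalised -/
def quad (F : Fin 10 → Fin 10 → ℝ) : ℝ :=
  (∑ a, ∑ b, ∑ a' ∈ Finset.univ.filter (fun a' => padj a a'),
    ∑ b' ∈ Finset.univ.filter (fun b' => padj b b'), F a b * F a' b') / 900

end Pool.Agent.PET
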