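import Pool.Agent.PET.Defs
/-!
# Poi1 : one variable factorial moments determine the Poisson limit

Bonferroni: for natural numbers `X, x, R`
`1[X = x] ≤ ∑_{s=0}^{2R} (-1)^s C(x+s, x) C(X, x+s)` and `≥` with `2R+1` terms instead of `2R`.
-/
set_option autoImplicit false
open scoped BigOperators Classical
open Filter MeasureTheory
noncomputable section
namespace Pool.Agent.PET

/-- the truncated inclusion-exclusion sum -/
def Poi1_P (x M N : ℕ) : ℝ :=
  ∑ s ∈ Finset.range (M + 1), (-1 : ℝ) ^ s * ((x + s).choose x : ℝ) * (N.choose (x + s) : ℝ)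

theorem Poi1_P_lt {x M N : ℕ} (h : N < x) : Poi1_P x M N = 0 := by
  unfold Poi1_P
  apply Finset.sum_eq_zero
  intro s _
  rw [Nat.choose_eq_zero_of_lt (by omega : N < x + s)]
  simp

theorem Poi1_P_eq (x M N : ℕ) :
    Poi1_P x M N = (N.choose x : ℝ) *
      ∑ s ∈ Finset.range (M + 1), (-1 : ℝ) ^ s * ((N - x).choose s : ℝ) := by
  unfold Poi1_P
  rw [Finset.mul_sum]
  apply Finset.sum_congr rfl
  intro s _
  have h := Nat.choose_mul (n := N) (k := x + s) (s := x) (by omega)
  rw [Nat.add_sub_cancel_left] at h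
  have h' : (N.choose (x + s) : ℝ) * ((x + s).choose x : ℝ) =
      (N.choose x : ℝ) * ((N - x).choose s : ℝ) := by exact_mod_cast h
  calc (-1 : ℝ) ^ s * ((x + s).choose x : ℝ) * (N.choose (x + s) : ℝ)
      = (-1 : ℝ) ^ s * ((N.choose (x + s) : ℝ) * ((x + s).choose x : ℝ)) := by ring
    _ = _ := by rw [h']; ring

theorem Poi1_alt {n M : ℕ} (hn : n ≠ 0) :
    ∑ s ∈ Finset.range (M + 1), (-1 : ℝ) ^ s * (n.choose s : ℝ) =
      (-1 : ℝ) ^ M * ((n - 1).choose M : ℝ) := by
  obtain ⟨k, rfl⟩ : ∃ k, n = k + 1 := ⟨n - 1, by omega⟩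
  have h := Int.alternating_sum_range_choose_eq_choose (n := k) (m := M)
  have h' := congrArg (Int.cast : ℤ → ℝ) h
  push_cast at h'
  rw [Nat.add_sub_cancel]
  exact h'

theorem Poi1_bonf (x M N : ℕ) :
    (Even M → (if N = x then (1 : ℝ) else 0) ≤ Poi1_P x M N) ∧
    (Odd M → Poi1_P x M N ≤ (if N = x then (1 : ℝ) else 0)) := by
  rcases lt_trichotomy N x with h | h | h
  · rw [Poi1_P_lt h, if_neg h.ne]
    exact ⟨fun _ => le_rfl, fun _ => le_rfl⟩
  · subst h
    have h1 : Poi1_P N M N = 1 := by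
      rw [Poi1_P_eq, Nat.choose_self, Nat.sub_self, Finset.sum_range_succ']
      simp
    rw [h1, if_pos rfl]
    exact ⟨fun _ => le_rfl, fun _ => le_rfl⟩
  · rw [Poi1_P_eq, if_neg h.ne', Poi1_alt (by omega : N - x ≠ 0)]
    constructor
    · intro hM
      rw [hM.neg_one_pow]
      positivity
    · intro hM
      rw [hM.neg_one_pow]
      have : (0 : ℝ) ≤ (N.choose x : ℝ) * ((N - x - 1).choose M : ℝ) := by positivity
      linarith

/-- the limits of the integrals -/
def Poi1_A (b : ℝ) (x M : ℕ) : ℝ :=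
  b ^ x / (Nat.factorial x : ℝ) * ∑ s ∈ Finset.range (M + 1), (-b) ^ s / (Nat.factorial s : ℝ)

theorem Poi1_term (b : ℝ) (x s : ℕ) :
    ((x + s).choose x : ℝ) * (b ^ (x + s) / (Nat.factorial (x + s) : ℝ)) =
      b ^ x / (Nat.factorial x : ℝ) * (b ^ s / (Nat.factorial s : ℝ)) := by
  have h1 : ((x + s).choose x : ℝ) * (Nat.factorial x : ℝ) * (Nat.factorial s : ℝ) =
      (Nat.factorial (x + s) : ℝ) := by
    have := Nat.choose_mul_factorial_mul_factorial (show x ≤ x + s by omega)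
    rw [Nat.add_sub_cancel_left] at this
    exact_mod_cast this
  have hx : (Nat.factorial x : ℝ) ≠ 0 := by positivity
  have hs : (Nat.factorial s : ℝ) ≠ 0 := by positivity
  have hxs : (Nat.factorial (x + s) : ℝ) ≠ 0 := by positivity
  rw [← mul_div_assoc, div_mul_div_comm, div_eq_div_iff hxs (mul_ne_zero hx hs), pow_add, ← h1]
  ring

theorem Poi1_lim_A (K b : ℝ) (x : ℕ) :
    Tendsto (fun M => K * Poi1_A b x M) atTop
      (nhds (K * (Real.exp (-b) * b ^ x / (Nat.factorial x : ℝ)))) := by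
  have h1 : HasSum (fun s : ℕ => (-b) ^ s / (Nat.factorial s : ℝ)) (Real.exp (-b)) := by
    have := NormedSpace.expSeries_div_hasSum_exp (-b)
    rwa [← Real.exp_eq_exp_ℝ] at this
  have h2 := (h1.tendsto_sum_nat).comp (tendsto_add_atTop_nat 1)
  have h3 := (h2.const_mul (b ^ x / (Nat.factorial x : ℝ))).const_mul K
  have e : K * (Real.exp (-b) * b ^ x / (Nat.factorial x : ℝ)) =
      K * (b ^ x / (Nat.factorial x : ℝ) * Real.exp (-b)) := by ring
  rw [e]
  exact h3

theorem poisson_one (Ω : ℕ → Type) [∀ t, Fintype (Ω t)] (w : ∀ t, Ω t → ℝ)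
    (hw : ∀ t ω, 0 ≤ w t ω) (X : ∀ t, Ω t → ℕ) (K b : ℝ)
    (h : ∀ m : ℕ, Tendsto (fun t => ∑ ω, w t ω * ((X t ω).descFactorial m : ℝ)) atTop (nhds (K * b ^ m)))
    (x : ℕ) :
    Tendsto (fun t => ∑ ω, if X t ω = x then w t ω else 0) atTop
      (nhds (K * (Real.exp (-b) * b ^ x / (Nat.factorial x : ℝ)))) := by
  -- the limits of the truncated sums
  have hU : ∀ M : ℕ, Tendsto (fun t => ∑ ω, w t ω * Poi1_P x M (X t ω)) atTop
      (nhds (K * Poi1_A b x M)) := by
    intro M
    have h1 : ∀ t, ∑ ω, w t ω * Poi1_P x M (X t ω) =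
        ∑ s ∈ Finset.range (M + 1), ((-1 : ℝ) ^ s * ((x + s).choose x : ℝ) /
          (Nat.factorial (x + s) : ℝ)) * ∑ ω, w t ω * ((X t ω).descFactorial (x + s) : ℝ) := by
      intro t
      unfold Poi1_P
      simp_rw [Finset.mul_sum]
      rw [Finset.sum_comm]
      apply Finset.sum_congr rfl
      intro s _
      apply Finset.sum_congr rfl
      intro ω _
      rw [Nat.descFactorial_eq_factorial_mul_choose, Nat.cast_mul]
      have hxs : (Nat.factorial (x + s) : ℝ) ≠ 0 := by positivity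
      field_simp
    simp_rw [h1]
    have h2 : K * Poi1_A b x M = ∑ s ∈ Finset.range (M + 1),
        ((-1 : ℝ) ^ s * ((x + s).choose x : ℝ) / (Nat.factorial (x + s) : ℝ)) *
          (K * b ^ (x + s)) := by
      unfold Poi1_A
      rw [Finset.mul_sum, Finset.mul_sum]
      apply Finset.sum_congr rfl
      intro s _
      have h3 := Poi1_term b x s
      calc K * (b ^ x / (Nat.factorial x : ℝ) * ((-b) ^ s / (Nat.factorial s : ℝ)))
          = K * (-1) ^ s * (b ^ x / (Nat.factorial x : ℝ) * (b ^ s / (Nat.factorial s : ℝ))) := by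
            rw [neg_pow b s]; ring
        _ = _ := by rw [← h3]; ring
    rw [h2]
    apply tendsto_finset_sum
    intro s _
    exact (h (x + s)).const_mul _
  have hlo : ∀ R t, ∑ ω, w t ω * Poi1_P x (2 * R + 1) (X t ω) ≤
      ∑ ω, if X t ω = x then w t ω else 0 := by
    intro R t
    apply Finset.sum_le_sum
    intro ω _
    have h1 := (Poi1_bonf x (2 * R + 1) (X t ω)).2 (odd_two_mul_add_one R)
    have h2 := mul_le_mul_of_nonneg_left h1 (hw t ω)
    refine h2.trans (le_of_eq ?_)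
    split_ifs <;> simp
  have hup : ∀ R t, (∑ ω, if X t ω = x then w t ω else 0) ≤
      ∑ ω, w t ω * Poi1_P x (2 * R) (X t ω) := by
    intro R t
    apply Finset.sum_le_sum
    intro ω _
    have h1 := (Poi1_bonf x (2 * R) (X t ω)).1 (even_two_mul R)
    have h2 := mul_le_mul_of_nonneg_left h1 (hw t ω)
    refine (le_of_eq ?_).trans h2
    split_ifs <;> simp
  have hA := Poi1_lim_A K b x
  have hA1 : Tendsto (fun R : ℕ => K * Poi1_A b x (2 * R + 1)) atTop
      (nhds (K * (Real.exp (-b) * b ^ x / (Nat.factorial x : ℝ)))) :=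
    hA.comp (tendsto_atTop_mono (fun R => by show R ≤ 2 * R + 1; omega) tendsto_id)
  have hA2 : Tendsto (fun R : ℕ => K * Poi1_A b x (2 * R)) atTop
      (nhds (K * (Real.exp (-b) * b ^ x / (Nat.factorial x : ℝ)))) :=
    hA.comp (tendsto_atTop_mono (fun R => by show R ≤ 2 * R; omega) tendsto_id)
  rw [tendsto_order]
  constructor
  · intro a ha
    obtain ⟨R, hR⟩ := ((tendsto_order.1 hA1).1 a ha).exists
    filter_upwards [(tendsto_order.1 (hU (2 * R + 1))).1 a hR] with t ht
    exact lt_of_lt_of_le ht (hlo R t)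
  · intro a ha
    obtain ⟨R, hR⟩ := ((tendsto_order.1 hA2).2 a ha).exists
    filter_upwards [(tendsto_order.1 (hU (2 * R))).2 a hR] with t ht
    exact lt_of_le_of_lt (hup R t) ht

end Pool.Agent.PET
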