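import Pool.Agent.PET.Defs
/-!
# PoiSum : product exponential series

`∑_{x ∈ ℕ^k} ∏_j b_j^{x_j}/x_j! = ∏_j e^{b_j}` with absolute convergence: induction on `k` (`Fin.consEquiv`/`Fin.prod_univ_succ`, `HasSum.mul` for summable norms) from
`Real.hasSum_exp`-type statement (`NormedSpace.expSeries_div_hasSum_exp`, `Real.exp_eq_exp_ℝ`).
-/
set_option autoImplicit false
open scoped BigOperators Classical
open Filter MeasureTheory
noncomputable section
namespace Pool.Agent.PET

theorem PoiSum_one (b : ℝ) : HasSum (fun n : ℕ => b ^ n / (Nat.factorial n : ℝ)) (Real.exp b) := by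
  rw [Real.exp_eq_exp_ℝ]
  exact NormedSpace.expSeries_div_hasSum_exp b

theorem poiSum (k : ℕ) (b : Fin k → ℝ) :
    HasSum (fun x : Fin k → ℕ => ∏ j, (b j ^ x j / (Nat.factorial (x j) : ℝ))) (∏ j, Real.exp (b j)) := by
  induction k with
  | zero =>
    have h := hasSum_unique (fun x : Fin 0 → ℕ => ∏ j, (b j ^ x j / (Nat.factorial (x j) : ℝ)))
    simp only [Finset.univ_eq_empty, Finset.prod_empty] at h ⊢
    exact h
  | succ k ih =>
    rw [← (Fin.consEquiv (fun _ => ℕ)).hasSum_iff]
    have h0 := PoiSum_one (b 0)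
    have h1 := ih (fun j => b j.succ)
    have hn0 : Summable (fun n : ℕ => ‖b 0 ^ n / (Nat.factorial n : ℝ)‖) := by
      refine (PoiSum_one |b 0|).summable.congr (fun n => ?_)
      rw [norm_div, norm_pow, Real.norm_eq_abs, Real.norm_natCast]
    have hn1 : Summable (fun x : Fin k → ℕ =>
        ‖∏ j, (b j.succ ^ x j / (Nat.factorial (x j) : ℝ))‖) := by
      refine (ih (fun j => |b j.succ|)).summable.congr (fun x => ?_)
      rw [norm_prod]
      refine Finset.prod_congr rfl (fun j _ => ?_)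
      rw [norm_div, norm_pow, Real.norm_eq_abs, Real.norm_natCast]
    have h2 := h0.mul h1 (summable_mul_of_summable_norm hn0 hn1)
    rw [Fin.prod_univ_succ]
    have h3 : ((fun x : Fin (k + 1) → ℕ => ∏ j, (b j ^ x j / (Nat.factorial (x j) : ℝ))) ∘
        (Fin.consEquiv (fun _ => ℕ))) = fun x : ℕ × (Fin k → ℕ) =>
          b 0 ^ x.1 / (Nat.factorial x.1 : ℝ) *
            ∏ j : Fin k, (b j.succ ^ x.2 j / (Nat.factorial (x.2 j) : ℝ)) := by
      funext ⟨n, x⟩
      simp only [Function.comp, Fin.consEquiv, Equiv.coe_fn_mk, Fin.prod_univ_succ, Fin.cons_zero,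
        Fin.cons_succ]
    rw [h3]
    exact h2

end Pool.Agent.PET
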