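import Pool.Agent.PET.CDefs
/-!
# SimpX : no 1-cycles and no 2-cycles = simple configuration

`f` a perfect matching of `HE n`.
* A loop `f (v,i) = (v,j)` (`i ≠ j`, since `f` has no fixed point; wlog the smaller of `i,j` is the incoming one: `f` is an involution) is the
  canonical 1-cycle `(v, min, max)`; conversely a canonical 1-cycle present in `f` is a loop.
* Without loops: two different half-edges `h ≠ h'` at `u` whose partners are at the same vertex `v ≠ u` give a canonical 2-cycle: root =
  `min(u,v)`, orientation chosen such that `in < out` at the root; conversely a canonical 2-cycle gives such `h, h'`.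
-/
set_option autoImplicit false
open scoped BigOperators Classical
open Filter MeasureTheory
noncomputable section
namespace Pool.Agent.PET

theorem SimpX_XC {j n : ℕ} (f : HE n → HE n) :
    XC j f = 0 ↔ ∀ c : Cyc j n, Canon c → Real' f c → False := by
  unfold XC
  rw [Finset.card_eq_zero, Finset.filter_eq_empty_iff]
  constructor
  · intro h c h1 h2
    exact h (Finset.mem_univ c) ⟨h1, h2⟩
  · intro h c _ h1
    exact h c h1.1 h1.2

theorem SimpX_loop {n : ℕ} (f : HE n → HE n) (h0 : XC 1 f = 0) (u : Fin n) (i j : Fin 3) (hij : i < j)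
    (h : f (u, j) = (u, i)) : False := by
  rw [SimpX_XC] at h0
  refine h0 (fun _ => (u, i, j)) ⟨⟨?_, ?_⟩, ?_, ?_⟩ ?_
  · intro s t _
    exact Subsingleton.elim s t
  · intro t
    exact hij.ne
  · intro s t _
    exact le_refl _
  · intro s _
    exact hij
  · intro t
    exact h

theorem SimpX_double {n : ℕ} (f : HE n → HE n) (hf : IsPM f) (h0 : XC 2 f = 0) (u v : Fin n) (huv : u < v)
    (i i' k k' : Fin 3) (hii : i < i') (h : f (u, i) = (v, k)) (h' : f (u, i') = (v, k')) : False := by
  have hkk : k' ≠ k := by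
    intro e
    rw [e, ← h] at h'
    have h1 := congrArg f h'
    rw [hf.1, hf.1] at h1
    exact hii.ne (congrArg Prod.snd h1).symm
  have h2 : f (v, k) = (u, i) := by rw [← h, hf.1]
  rw [SimpX_XC] at h0
  have key : ∀ t : Fin 2, t = 0 ∨ t = 1 := by decide
  refine h0 ![(u, i, i'), (v, k', k)] ⟨⟨?_, ?_⟩, ?_, ?_⟩ ?_
  · intro s t hst
    rcases key s with rfl | rfl <;> rcases key t with rfl | rfl
    · rfl
    · exact absurd hst huv.ne
    · exact absurd hst huv.ne'
    · rfl
  · intro t
    rcases key t with rfl | rfl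
    · exact hii.ne
    · exact hkk
  · intro s t hs
    rcases key s with rfl | rfl
    · rcases key t with rfl | rfl
      · exact le_refl _
      · exact huv.le
    · exact absurd hs (by decide)
  · intro s hs
    rcases key s with rfl | rfl
    · exact hii
    · exact absurd hs (by decide)
  · intro t
    rcases key t with rfl | rfl
    · exact h'
    · exact h2

theorem SimpX_double' {n : ℕ} (f : HE n → HE n) (hf : IsPM f) (h0 : XC 2 f = 0) (u v : Fin n) (huv : u < v)
    (i i' k k' : Fin 3) (hii : i ≠ i') (h : f (u, i) = (v, k)) (h' : f (u, i') = (v, k')) : False := by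
  rcases lt_or_gt_of_ne hii with h1 | h1
  · exact SimpX_double f hf h0 u v huv i i' k k' h1 h h'
  · exact SimpX_double f hf h0 u v huv i' i k' k h1 h' h

theorem simp_iff {n : ℕ} (f : HE n → HE n) (hf : IsPM f) : Simp f ↔ (XC 1 f = 0 ∧ XC 2 f = 0) := by
  constructor
  · intro hs
    refine ⟨?_, ?_⟩
    · rw [SimpX_XC]
      intro c hc hr
      have h1 := hr 0
      have h2 := (hs ((c 0).1, (c 0).2.2)).1
      apply h2
      rw [h1]
      show (c (nxt 0)).1 = (c 0).1
      rw [Subsingleton.elim (nxt (0 : Fin 1)) 0]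
    · rw [SimpX_XC]
      intro c hc hr
      have h1 : f ((c 0).1, (c 0).2.2) = ((c 1).1, (c 1).2.1) := hr 0
      have h2 : f ((c 1).1, (c 1).2.2) = ((c 0).1, (c 0).2.1) := hr 1
      have h3 : f ((c 0).1, (c 0).2.1) = ((c 1).1, (c 1).2.2) := by rw [← h2, hf.1]
      refine (hs ((c 0).1, (c 0).2.2)).2 ((c 0).1, (c 0).2.1) rfl ?_ ?_
      · intro e
        exact hc.1.2 0 (congrArg Prod.snd e)
      · rw [h1, h3]
  · rintro ⟨hx1, hx2⟩
    have hl : ∀ u i, (f (u, i)).1 ≠ u := by
      intro u i h
      have h1 : f (u, i) = (u, (f (u, i)).2) := Prod.ext h rfl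
      have h2 : (f (u, i)).2 ≠ i := by
        intro e
        apply hf.2 (u, i)
        exact Prod.ext h e
      rcases lt_or_gt_of_ne h2 with h3 | h3
      · exact SimpX_loop f hx1 u _ _ h3 h1
      · refine SimpX_loop f hx1 u _ _ h3 ?_
        rw [← h1, hf.1]
    rintro ⟨u, i⟩
    refine ⟨hl u i, ?_⟩
    rintro ⟨u', i'⟩ h1 h2 h3
    have h1' : u' = u := h1
    subst h1'
    have hii : i ≠ i' := by
      intro e
      exact h2 (by rw [e])
    have e1 : f (u', i) = ((f (u', i)).1, (f (u', i)).2) := rfl
    have e2 : f (u', i') = ((f (u', i)).1, (f (u', i')).2) := Prod.ext h3 rfl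
    rcases lt_or_gt_of_ne (hl u' i) with h4 | h4
    · have hkk : (f (u', i)).2 ≠ (f (u', i')).2 := by
        intro e
        have h5 : f (u', i) = f (u', i') := by rw [e2, ← e]
        have h6 := congrArg f h5
        rw [hf.1, hf.1] at h6
        exact hii (congrArg Prod.snd h6)
      refine SimpX_double' f hf hx2 _ u' h4 (f (u', i)).2 (f (u', i')).2 i i' hkk ?_ ?_
      · rw [← e1, hf.1]
      · rw [← e2, hf.1]
    · exact SimpX_double' f hf hx2 u' _ h4 i i' _ _ hii e1 e2

end Pool.Agent.PET
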