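import Pool.Agent.PET.Wick
import Pool.Agent.PET.CDefs
/-!
# Split : weighted number of configurations containing given pairs

`n = 2t`, `e` pairs `a i, b i` (all `2e` half-edges distinct), `w : Fin u → Fin n` injective whose range contains all vertices touched
by the pairs (`2e ≤ 3u`).
`∑_{f ∈ PMs, f a = b} Zf δ f = ∑_{σ Near δ} #{f : Compat, f a = b} = ∑_{σ Near δ} [∀ i, padj (σ (a i).1) (σ (b i).1)] cnt padj (rest)`
(`cnt_ext`), the rest `R = {h // h ∉ range a ∧ h ∉ range b}` has `6t - 2e` elements, and by `wick` (`S.rho = 3/10`)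
`cnt = (3/10)^{3t-e} ∫ ∏_{h ∈ R} G (σ h.1)`.
Split `σ` into `c = σ ∘ w : Fin u → Fin 10` and the colours `x : Fin (n-u) → Fin 10` of the other vertices (choose an equivalence
`{v // v ∉ range w} ≃ Fin (n - u)`); all three half-edges of the other vertices are in `R`, so
`∏_{h ∈ R} G(σ h.1) = ∏_{h ∈ R, h.1 ∈ range w} G(c _) * ∏_v (G (x v))³`; there are `d = 3u - 2e` half-edges of the first kind; enumerate
them: `ρ : Fin d → Fin u` (the index of the vertex).  `Near δ σ` iff `x ∈ Nc δ u c (n-u)` (`cntX σ a = cntX x a + cntX c a`, `n = (n-u)+u`).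
Exchange the finite sum and the integral (`integ`).
-/
set_option autoImplicit false
open scoped BigOperators Classical
open Filter MeasureTheory
noncomputable section
namespace Pool.Agent.PET

theorem Split_card {H : Type} [Fintype H] {e : ℕ} (a b : Fin e → H)
    (hinj : Function.Injective (Sum.elim a b)) :
    Fintype.card {h : H // h ∉ Set.range a ∧ h ∉ Set.range b} = Fintype.card H - 2 * e ∧
      2 * e ≤ Fintype.card H := by
  have h1 : Fintype.card {h : H // h ∉ Set.range a ∧ h ∉ Set.range b} =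
      (Finset.univ \ Finset.univ.image (Sum.elim a b)).card := by
    rw [Fintype.card_subtype]
    congr 1
    ext h
    simp
  have h2 : (Finset.univ.image (Sum.elim a b)).card = 2 * e := by
    rw [Finset.card_image_of_injective _ hinj]
    simp
    ring
  constructor
  · rw [h1, Finset.card_sdiff_of_subset (Finset.subset_univ _), h2, Finset.card_univ]
  · rw [← h2]
    exact Finset.card_le_univ _

theorem Split_equiv {n u : ℕ} (w : Fin u → Fin n) (hw : Function.Injective w) :
    ∃ Ψ : Fin (n - u) ⊕ Fin u ≃ Fin n, ∀ p, Ψ (Sum.inr p) = w p := by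
  have hc : Fintype.card ((Set.range w)ᶜ : Set (Fin n)) = n - u := by
    rw [Fintype.card_compl_set, Set.card_range_of_injective hw]
    simp
  let ψ0 : Fin (n - u) ≃ ((Set.range w)ᶜ : Set (Fin n)) := (Fintype.equivFinOfCardEq hc).symm
  refine ⟨(Equiv.sumComm _ _).trans ((Equiv.sumCongr (Equiv.ofInjective w hw) ψ0).trans
    (Equiv.Set.sumCompl (Set.range w))), fun p => ?_⟩
  simp

theorem Split_prod {n m u e : ℕ} (a b : Fin e → HE n) (w : Fin u → Fin n)
    (Ψ : Fin m ⊕ Fin u ≃ Fin n) (hΨ : ∀ p, Ψ (Sum.inr p) = w p)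
    (ha : ∀ i, (a i).1 ∈ Set.range w) (hb : ∀ i, (b i).1 ∈ Set.range w)
    (g : HE n → ℂ) :
    ∏ h : {h : HE n // h ∉ Set.range a ∧ h ∉ Set.range b}, g h.1
      = (∏ p : {p : Fin u × Fin 3 // (w p.1, p.2) ∉ Set.range a ∧ (w p.1, p.2) ∉ Set.range b},
          g (w p.1.1, p.1.2)) * ∏ v : Fin m, ∏ i : Fin 3, g (Ψ (Sum.inl v), i) := by
  have h1 : ∏ h : {h : HE n // h ∉ Set.range a ∧ h ∉ Set.range b}, g h.1 =
      ∏ h : HE n, if (h ∉ Set.range a ∧ h ∉ Set.range b) then g h else 1 := by
    rw [← Finset.prod_filter]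
    exact (Finset.prod_subtype (Finset.univ.filter (fun h : HE n => h ∉ Set.range a ∧ h ∉ Set.range b))
      (fun h => by simp) g).symm
  have h2 : ∏ p : {p : Fin u × Fin 3 // (w p.1, p.2) ∉ Set.range a ∧ (w p.1, p.2) ∉ Set.range b},
      g (w p.1.1, p.1.2) = ∏ p : Fin u × Fin 3,
        if ((w p.1, p.2) ∉ Set.range a ∧ (w p.1, p.2) ∉ Set.range b) then g (w p.1, p.2) else 1 := by
    rw [← Finset.prod_filter]
    exact (Finset.prod_subtype (Finset.univ.filter (fun p : Fin u × Fin 3 =>
      (w p.1, p.2) ∉ Set.range a ∧ (w p.1, p.2) ∉ Set.range b))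
      (fun h => by simp) (fun p : Fin u × Fin 3 => g (w p.1, p.2))).symm
  have hnot : ∀ (v : Fin m) (i : Fin 3), (Ψ (Sum.inl v), i) ∉ Set.range a ∧
      (Ψ (Sum.inl v), i) ∉ Set.range b := by
    intro v i
    have hnr : Ψ (Sum.inl v) ∉ Set.range w := by
      rintro ⟨p, hp⟩
      rw [← hΨ p] at hp
      exact absurd (Ψ.injective hp) (by simp)
    constructor
    · rintro ⟨j, hj⟩
      apply hnr
      have := ha j
      rw [hj] at this
      exact this
    · rintro ⟨j, hj⟩
      apply hnr
      have := hb j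
      rw [hj] at this
      exact this
  rw [h1, h2, Fintype.prod_prod_type, ← Equiv.prod_comp Ψ, Fintype.prod_sum_type, mul_comm,
    Fintype.prod_prod_type]
  congr 1
  · refine Finset.prod_congr rfl (fun p _ => ?_)
    refine Finset.prod_congr rfl (fun i _ => ?_)
    rw [hΨ]
  · refine Finset.prod_congr rfl (fun v _ => ?_)
    refine Finset.prod_congr rfl (fun i _ => ?_)
    rw [if_pos (hnot v i)]

theorem Split_cntX {n m u : ℕ} (Ψ : Fin m ⊕ Fin u ≃ Fin n) (σ : Fin n → Fin 10) (y : Fin 10) :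
    cntX σ y = cntX (fun v => σ (Ψ (Sum.inl v))) y + cntX (fun p => σ (Ψ (Sum.inr p))) y := by
  unfold cntX
  rw [Finset.card_filter, Finset.card_filter, Finset.card_filter, ← Equiv.sum_comp Ψ,
    Fintype.sum_sum_type]

theorem Split_near {n m u : ℕ} (hn : n = m + u) (Ψ : Fin m ⊕ Fin u ≃ Fin n) (δ : ℝ)
    (x : Fin m → Fin 10) (c : Fin u → Fin 10) :
    Near δ (fun v => Sum.elim x c (Ψ.symm v)) ↔ x ∈ Nc δ u c m := by
  unfold Near Nc
  simp only [Set.mem_ofPred_eq]
  refine forall_congr' (fun y => ?_)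
  rw [Split_cntX Ψ]
  simp [hn]

theorem Split_card' {α : Type} (i1 i2 : Fintype α) : @Fintype.card α i1 = @Fintype.card α i2 := by
  rw [Subsingleton.elim i1 i2]

theorem Split_fc {α : Type} (s : Finset α) (P : α → Prop) (i1 i2 : DecidablePred P) :
    (@Finset.filter α P i1 s).card = (@Finset.filter α P i2 s).card := by
  rw [Subsingleton.elim i1 i2]

theorem Split_cnt {H X : Type} (i1 i2 : Fintype H) (A : X → X → Prop) (x : H → X) :
    @cnt H X i1 A x = @cnt H X i2 A x := by
  rw [Subsingleton.elim i1 i2]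

theorem split (S : Spec (Fin 10) (Fin 10)) (hA : S.A = padj) (hr : S.rho = 3 / 10) (δ : ℝ) (t e u : ℕ)
    (a b : Fin e → HE (2 * t)) (hinj : Function.Injective (Sum.elim a b))
    (w : Fin u → Fin (2 * t)) (hw : Function.Injective w)
    (ha : ∀ i, (a i).1 ∈ Set.range w) (hb : ∀ i, (b i).1 ∈ Set.range w) :
    2 * e ≤ 3 * u ∧ u ≤ 2 * t ∧ e ≤ 3 * t ∧ ∃ ρ : Fin (3 * u - 2 * e) → Fin u,
      ((∑ f ∈ (PMs (HE (2 * t))).filter (fun f => ∀ i, f (a i) = b i), (Zf δ f : ℝ) : ℝ) : ℂ)
        = ∑ c : Fin u → Fin 10,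
            if (∀ i, ∀ p q, (a i).1 = w p → (b i).1 = w q → padj (c p) (c q)) then
              ((3 / 10 : ℝ) : ℂ) ^ (3 * t - e) * Jint S δ u c (fun i => c (ρ i)) (2 * t - u)
            else 0 := by
  have hut : u ≤ 2 * t := by
    have := Fintype.card_le_of_injective w hw
    simpa using this
  -- pull back the pairs
  have hra : ∀ i, ∃ p : Fin u × Fin 3, (w p.1, p.2) = a i := by
    intro i
    obtain ⟨p, hp⟩ := ha i
    exact ⟨(p, (a i).2), by simp [hp]⟩
  have hrb : ∀ i, ∃ p : Fin u × Fin 3, (w p.1, p.2) = b i := by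
    intro i
    obtain ⟨p, hp⟩ := hb i
    exact ⟨(p, (b i).2), by simp [hp]⟩
  choose a' ha' using hra
  choose b' hb' using hrb
  let W : Fin u × Fin 3 → HE (2 * t) := fun p => (w p.1, p.2)
  have hW : Function.Injective W := by
    rintro ⟨p, i⟩ ⟨q, j⟩ h
    simp only [W, Prod.mk.injEq] at h
    exact Prod.ext (hw h.1) h.2
  have hinj' : Function.Injective (Sum.elim a' b') := by
    have : W ∘ (Sum.elim a' b') = Sum.elim a b := by
      funext s
      rcases s with i | i
      · exact ha' i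
      · exact hb' i
    rw [← this] at hinj
    exact Function.Injective.of_comp hinj
  have hcD := Split_card a' b' hinj'
  have hcR := Split_card a b hinj
  rw [Fintype.card_prod, Fintype.card_fin, Fintype.card_fin] at hcD hcR
  have heu : 2 * e ≤ 3 * u := by have := hcD.2; omega
  have het : e ≤ 3 * t := by omega
  refine ⟨heu, hut, het, ?_⟩
  have hmem : ∀ p : Fin u × Fin 3, ((w p.1, p.2) ∉ Set.range a ∧ (w p.1, p.2) ∉ Set.range b) ↔
      (p ∉ Set.range a' ∧ p ∉ Set.range b') := by
    intro p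
    have h1 : (w p.1, p.2) ∈ Set.range a ↔ p ∈ Set.range a' := by
      constructor
      · rintro ⟨i, hi⟩
        exact ⟨i, hW (by show (w (a' i).1, (a' i).2) = (w p.1, p.2); rw [ha' i, hi])⟩
      · rintro ⟨i, hi⟩
        exact ⟨i, by rw [← ha' i, hi]⟩
    have h2 : (w p.1, p.2) ∈ Set.range b ↔ p ∈ Set.range b' := by
      constructor
      · rintro ⟨i, hi⟩
        exact ⟨i, hW (by show (w (b' i).1, (b' i).2) = (w p.1, p.2); rw [hb' i, hi])⟩
      · rintro ⟨i, hi⟩
        exact ⟨i, by rw [← hb' i, hi]⟩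
    rw [h1, h2]
  let D : Type := {p : Fin u × Fin 3 // (w p.1, p.2) ∉ Set.range a ∧ (w p.1, p.2) ∉ Set.range b}
  have hD : Fintype.card D = 3 * u - 2 * e := by
    have h1 : Fintype.card D = Fintype.card {p : Fin u × Fin 3 // p ∉ Set.range a' ∧ p ∉ Set.range b'} :=
      Fintype.card_congr (Equiv.subtypeEquivRight hmem)
    have h2 : Fintype.card {p : Fin u × Fin 3 // p ∉ Set.range a' ∧ p ∉ Set.range b'} = u * 3 - 2 * e := by
      exact (Split_card' _ _).trans hcD.1
    rw [h1, h2]
    omega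
  let η : Fin (3 * u - 2 * e) ≃ D := (Fintype.equivFinOfCardEq hD).symm
  refine ⟨fun i => (η i).1.1, ?_⟩
  obtain ⟨Ψ, hΨ⟩ := Split_equiv w hw
  have hn : 2 * t = (2 * t - u) + u := by omega
  -- the product over the rest
  have hprod : ∀ (k : Fin 10 → ℝ) (x : Fin (2 * t - u) → Fin 10) (c : Fin u → Fin 10),
      ∏ h : {h : HE (2 * t) // h ∉ Set.range a ∧ h ∉ Set.range b},
        S.G k (Sum.elim x c (Ψ.symm h.1.1)) =
      (∏ i : Fin (3 * u - 2 * e), S.G k (c (η i).1.1)) * ∏ v, (S.G k (x v)) ^ 3 := by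
    intro k x c
    rw [Split_prod a b w Ψ hΨ ha hb (fun h => S.G k (Sum.elim x c (Ψ.symm h.1)))]
    congr 1
    · rw [Equiv.prod_comp η (fun p : D => S.G k (c p.1.1))]
      refine Finset.prod_congr rfl (fun p _ => ?_)
      show S.G k (Sum.elim x c (Ψ.symm (w p.1.1))) = S.G k (c p.1.1)
      rw [← hΨ, Equiv.symm_apply_apply, Sum.elim_inr]
    · refine Finset.prod_congr rfl (fun v _ => ?_)
      simp
  -- number of matchings for each colouring
  have hcnt : ∀ σ : Fin (2 * t) → Fin 10,
      ((((PMs (HE (2 * t))).filter (fun f => Compat padj (fun h : HE (2 * t) => σ h.1) f ∧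
        ∀ i, f (a i) = b i)).card : ℕ) : ℂ) =
      if (∀ i, padj (σ (a i).1) (σ (b i).1)) then ((3 / 10 : ℝ) : ℂ) ^ (3 * t - e) *
        ∫ k, ∏ h : {h : HE (2 * t) // h ∉ Set.range a ∧ h ∉ Set.range b}, S.G k (σ h.1.1) ∂(gam (Fin 10))
      else 0 := by
    intro σ
    have hsym : ∀ p q, padj p q → padj q p := by
      have := A_symm S
      rwa [hA] at this
    have h0 : ((PMs (HE (2 * t))).filter (fun f => Compat padj (fun h : HE (2 * t) => σ h.1) f ∧
        ∀ i, f (a i) = b i)).card = if (∀ i, padj (σ (a i).1) (σ (b i).1)) then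
          cnt padj (fun h : {h : HE (2 * t) // h ∉ Set.range a ∧ h ∉ Set.range b} => σ h.1.1) else 0 := by
      have h00 := cnt_ext padj hsym (fun h : HE (2 * t) => σ h.1) a b hinj
      refine (Split_fc _ _ _ _).trans (h00.trans ?_)
      by_cases hall : ∀ i, padj (σ (a i).1) (σ (b i).1)
      · rw [if_pos hall, if_pos hall]
        exact Split_cnt _ _ _ _
      · rw [if_neg hall, if_neg hall]
    rw [h0]
    split_ifs with h
    · have h1 := wick S (fun h : {h : HE (2 * t) // h ∉ Set.range a ∧ h ∉ Set.range b} => σ h.1.1)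
        (3 * t - e) (by
          have h2 : Fintype.card {h : HE (2 * t) // h ∉ Set.range a ∧ h ∉ Set.range b} =
              2 * t * 3 - 2 * e := by
            exact (Split_card' _ _).trans hcR.1
          rw [h2]
          omega)
      rw [hA, hr] at h1
      exact h1
    · simp
  -- rewrite the left-hand side
  have step1 : ((∑ f ∈ (PMs (HE (2 * t))).filter (fun f => ∀ i, f (a i) = b i), (Zf δ f : ℝ) : ℝ) : ℂ)
      = ∑ σ : Fin (2 * t) → Fin 10, if Near δ σ then
        ((((PMs (HE (2 * t))).filter (fun f => Compat padj (fun h : HE (2 * t) => σ h.1) f ∧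
        ∀ i, f (a i) = b i)).card : ℕ) : ℂ) else 0 := by
    have h1 : (∑ f ∈ (PMs (HE (2 * t))).filter (fun f => ∀ i, f (a i) = b i), Zf δ f)
        = ∑ σ : Fin (2 * t) → Fin 10, if Near δ σ then
        ((PMs (HE (2 * t))).filter (fun f => Compat padj (fun h : HE (2 * t) => σ h.1) f ∧
        ∀ i, f (a i) = b i)).card else 0 := by
      have h2 : ∀ f : HE (2 * t) → HE (2 * t), Zf δ f = ∑ σ : Fin (2 * t) → Fin 10,
          if Near δ σ then (if Compat padj (fun h : HE (2 * t) => σ h.1) f then 1 else 0) else 0 := by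
        intro f
        unfold Zf
        rw [Finset.card_filter]
        refine Finset.sum_congr rfl (fun σ _ => ?_)
        by_cases h3 : Near δ σ
        · simp [h3]
        · simp [h3]
      simp_rw [h2]
      rw [Finset.sum_comm]
      refine Finset.sum_congr rfl (fun σ _ => ?_)
      split_ifs with h3
      · rw [← Finset.card_filter, Finset.filter_filter]
        congr 1
        ext f
        simp [and_comm]
      · simp
    have h4 : (∑ f ∈ (PMs (HE (2 * t))).filter (fun f => ∀ i, f (a i) = b i), (Zf δ f : ℝ) : ℝ) =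
        ((∑ f ∈ (PMs (HE (2 * t))).filter (fun f => ∀ i, f (a i) = b i), Zf δ f : ℕ) : ℝ) := by
      push_cast
      rfl
    rw [h4, h1]
    push_cast
    refine Finset.sum_congr rfl (fun σ _ => ?_)
    split_ifs <;> simp
  rw [step1]
  -- change of variables
  let E : ((Fin (2 * t - u) → Fin 10) × (Fin u → Fin 10)) ≃ (Fin (2 * t) → Fin 10) :=
    ((Equiv.sumArrowEquivProdArrow (Fin (2 * t - u)) (Fin u) (Fin 10)).symm).trans
      (Equiv.arrowCongr Ψ (Equiv.refl _))
  have hE : ∀ x c v, E (x, c) v = Sum.elim x c (Ψ.symm v) := by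
    intro x c v
    rfl
  rw [← Equiv.sum_comp E, Fintype.sum_prod_type_right]
  refine Finset.sum_congr rfl (fun c _ => ?_)
  have hcond : ∀ x : Fin (2 * t - u) → Fin 10, (∀ i, padj (E (x, c) (a i).1) (E (x, c) (b i).1)) ↔
      (∀ i, ∀ p q, (a i).1 = w p → (b i).1 = w q → padj (c p) (c q)) := by
    intro x
    refine forall_congr' (fun i => ?_)
    simp only [hE]
    constructor
    · intro h p q hp hq
      rw [hp, hq, ← hΨ, ← hΨ, Equiv.symm_apply_apply, Equiv.symm_apply_apply] at h
      exact h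
    · intro h
      obtain ⟨p, hp⟩ := ha i
      obtain ⟨q, hq⟩ := hb i
      rw [← hp, ← hq, ← hΨ, ← hΨ, Equiv.symm_apply_apply, Equiv.symm_apply_apply]
      exact h p q hp.symm hq.symm
  have hNear : ∀ x : Fin (2 * t - u) → Fin 10, Near δ (E (x, c)) ↔ x ∈ Nc δ u c (2 * t - u) := by
    intro x
    have h1 := Split_near hn Ψ δ x c
    exact h1
  split_ifs with hc
  · -- the main case
    have h1 : ∀ x : Fin (2 * t - u) → Fin 10,
        (if Near δ (E (x, c)) then
          ((((PMs (HE (2 * t))).filter (fun f => Compat padj (fun h : HE (2 * t) => E (x, c) h.1) f ∧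
          ∀ i, f (a i) = b i)).card : ℕ) : ℂ) else 0) =
        if x ∈ Nc δ u c (2 * t - u) then ((3 / 10 : ℝ) : ℂ) ^ (3 * t - e) *
          ∫ k, (∏ i : Fin (3 * u - 2 * e), S.G k (c (η i).1.1)) * ∏ v, (S.G k (x v)) ^ 3 ∂(gam (Fin 10))
        else 0 := by
      intro x
      rw [hcnt, if_pos ((hcond x).2 hc)]
      simp only [hNear x]
      split_ifs with h2
      · congr 1
        apply integral_congr_ae
        filter_upwards with k
        exact hprod k x c
      · rfl
    rw [Finset.sum_congr rfl (fun x _ => h1 x), ← Finset.sum_filter, ← Finset.mul_sum]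
    congr 1
    unfold Jint Spec.F
    rw [← integral_finsetSum]
    · apply integral_congr_ae
      filter_upwards with k
      rw [← Finset.mul_sum]
    · intro x _
      have h2 := integ S (Finset.univ : Finset {h : HE (2 * t) // h ∉ Set.range a ∧ h ∉ Set.range b})
        (fun h => Sum.elim x c (Ψ.symm h.1.1))
      refine h2.congr ?_
      filter_upwards with k
      exact hprod k x c
  · apply Finset.sum_eq_zero
    intro x _
    rw [hcnt, if_neg (fun h => hc ((hcond x).1 h))]
    simp

end Pool.Agent.PET
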