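import Pool.Agent.PET.Defs
/-!
# Stein : Gaussian integration by parts for the field `G`

`gam I` is the product of standard Gaussians on `I → ℝ`, `G k x = ∑_i s_i phi_i(x) k_i`, `s_i ^ 2 = lam_i`.

Integrability (`integ`): a product of finitely many `G k (x h)` is a polynomial in the coordinates `k_i`; all
polynomials are integrable w.r.t. the product Gaussian (a monomial is a product of one-variable functions
`k_i ^ n_i`, use `Integrable.fintype_prod`; one variable moments are finite, e.g. `memLp_id_gaussianReal` /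
`integrable_pow` results).

Stein identity: for each coordinate `i` and each polynomial `P`:  `∫ k_i P(k) = ∫ ∂_i P(k)`.
One variable: `∫ t^(n+1) dγ = n ∫ t^(n-1) dγ` (integration by parts with density `e^{-t²/2}/√(2π)`,
or from the known moments); monomials by Fubini (`integral_fintype_prod_eq_prod`); then linearity.
Hence `∫ G(x0) P = ∑_i s_i phi_i(x0) ∫ ∂_i P`, and for `P = ∏_{h∈s} G(x h)`,
`∂_i P = ∑_{h∈s} s_i phi_i(x h) ∏_{s \ h} G`, giving `∑_h (∑_i lam_i phi_i(x0) phi_i(x h)) ∫ ∏_{s \ h} G`.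
(Alternative: prove it by multilinearity: both sides are linear in the coefficient vectors of each `G (x h)`,
so it suffices to treat products of coordinates.)
-/
set_option autoImplicit false
open scoped BigOperators Classical
open Filter MeasureTheory
noncomputable section
namespace Pool.Agent.PET

variable {X I : Type} [Fintype X] [Fintype I]

theorem s_sq (S : Spec X I) (i : I) : S.s i * S.s i = ((S.lam i : ℝ) : ℂ) := by
  unfold Spec.s
  split_ifs with h
  · rw [← Complex.ofReal_mul, Real.mul_self_sqrt h]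
  · have h1 : 0 ≤ -S.lam i := by linarith [not_le.mp h]
    have h2 : (Complex.I * ((Real.sqrt (-S.lam i) : ℝ) : ℂ)) *
        (Complex.I * ((Real.sqrt (-S.lam i) : ℝ) : ℂ)) =
        (Complex.I * Complex.I) * (((Real.sqrt (-S.lam i) * Real.sqrt (-S.lam i) : ℝ)) : ℂ) := by
      push_cast
      ring
    rw [h2, Real.mul_self_sqrt h1, Complex.I_mul_I]
    push_cast
    ring

theorem Stein_int1 (n : ℕ) :
    Integrable (fun t : ℝ => (t : ℂ) ^ n) (ProbabilityTheory.gaussianReal 0 1) := by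
  rcases Nat.eq_zero_or_pos n with hn | hn
  · subst hn
    simp
  · have h1 : MemLp (id : ℝ → ℝ) ((n : ℕ) : ENNReal) (ProbabilityTheory.gaussianReal 0 1) := by
      have h2 := ProbabilityTheory.memLp_id_gaussianReal (μ := 0) (v := 1) (n : NNReal)
      simpa using h2
    have h3 := h1.integrable_norm_pow (by omega)
    refine h3.mono' ?_ (ae_of_all _ (fun t => ?_))
    · exact (Complex.continuous_ofReal.pow n).aestronglyMeasurable
    · rw [norm_pow, Complex.norm_real, id]

/-- moments of the standard Gaussian -/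
def Stein_M (n : ℕ) : ℂ := ∫ t : ℝ, (t : ℂ) ^ n ∂(ProbabilityTheory.gaussianReal 0 1)

theorem Stein_int2 (n : ℕ) : Integrable (fun t : ℝ =>
    ((ProbabilityTheory.gaussianPDFReal 0 1 t : ℝ) : ℂ) * (t : ℂ) ^ n) := by
  have h1 := Stein_int1 n
  rw [ProbabilityTheory.gaussianReal_of_var_ne_zero 0 one_ne_zero,
    integrable_withDensity_iff_integrable_smul' (ProbabilityTheory.measurable_gaussianPDF 0 1)
      (ae_of_all _ (fun x => ProbabilityTheory.gaussianPDF_lt_top))] at h1
  refine h1.congr (ae_of_all _ (fun t => ?_))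
  show (ProbabilityTheory.gaussianPDF 0 1 t).toReal • (t : ℂ) ^ n = _
  rw [ProbabilityTheory.toReal_gaussianPDF, Complex.real_smul]

theorem Stein_M_eq (n : ℕ) : Stein_M n = ∫ t : ℝ,
    ((ProbabilityTheory.gaussianPDFReal 0 1 t : ℝ) : ℂ) * (t : ℂ) ^ n := by
  unfold Stein_M
  rw [ProbabilityTheory.integral_gaussianReal_eq_integral_smul one_ne_zero]
  refine integral_congr_ae (ae_of_all _ (fun t => ?_))
  show ProbabilityTheory.gaussianPDFReal 0 1 t • (t : ℂ) ^ n = _
  rw [Complex.real_smul]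

theorem Stein_pdf (t : ℝ) : HasDerivAt (fun t : ℝ =>
    ((ProbabilityTheory.gaussianPDFReal 0 1 t : ℝ) : ℂ))
    (-((ProbabilityTheory.gaussianPDFReal 0 1 t : ℝ) : ℂ) * (t : ℂ)) t := by
  have hp : ∀ x : ℝ, ProbabilityTheory.gaussianPDFReal 0 1 x =
      (Real.sqrt (2 * Real.pi))⁻¹ * Real.exp (-x ^ 2 / 2) := by
    intro x
    simp [ProbabilityTheory.gaussianPDFReal]
  have h1 : HasDerivAt (fun x : ℝ => ProbabilityTheory.gaussianPDFReal 0 1 x)
      (-(ProbabilityTheory.gaussianPDFReal 0 1 t) * t) t := by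
    have h2 : HasDerivAt (fun x : ℝ => -x ^ 2 / 2) (-t) t := by
      have h3 := ((hasDerivAt_pow 2 t).neg).div_const 2
      have h4 : -(((2 : ℕ) : ℝ) * t ^ (2 - 1)) / 2 = -t := by
        norm_num
        ring
      rw [h4] at h3
      exact h3
    have h5 := (h2.exp).const_mul (Real.sqrt (2 * Real.pi))⁻¹
    have h6 : (fun x : ℝ => ProbabilityTheory.gaussianPDFReal 0 1 x) =
        fun x => (Real.sqrt (2 * Real.pi))⁻¹ * Real.exp (-x ^ 2 / 2) := funext hp
    rw [h6, hp t]
    refine h5.congr_deriv ?_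
    ring
  have h7 := h1.ofReal_comp
  refine h7.congr_deriv ?_
  push_cast
  ring

theorem Stein_M_succ (n : ℕ) : Stein_M (n + 1) = n * Stein_M (n - 1) := by
  have hu : ∀ x : ℝ, HasDerivAt (fun t : ℝ => (t : ℂ) ^ n) ((n : ℂ) * (x : ℂ) ^ (n - 1)) x := by
    intro x
    have h1 := (hasDerivAt_pow n (x : ℂ)).comp_ofReal
    exact h1
  have h := integral_mul_deriv_eq_deriv_mul_of_integrable (A := ℂ)
    (u := fun t : ℝ => (t : ℂ) ^ n)
    (v := fun t : ℝ => ((ProbabilityTheory.gaussianPDFReal 0 1 t : ℝ) : ℂ))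
    (u' := fun x : ℝ => (n : ℂ) * (x : ℂ) ^ (n - 1))
    (v' := fun t : ℝ => -((ProbabilityTheory.gaussianPDFReal 0 1 t : ℝ) : ℂ) * (t : ℂ))
    (fun x _ => hu x) (fun x _ => Stein_pdf x) ?_ ?_ ?_
  · rw [Stein_M_eq, Stein_M_eq]
    have e1 : ∫ t : ℝ, ((ProbabilityTheory.gaussianPDFReal 0 1 t : ℝ) : ℂ) * (t : ℂ) ^ (n + 1) =
        -∫ t : ℝ, (t : ℂ) ^ n *
          (-((ProbabilityTheory.gaussianPDFReal 0 1 t : ℝ) : ℂ) * (t : ℂ)) := by
      rw [← integral_neg]
      refine integral_congr_ae (ae_of_all _ (fun t => ?_))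
      show _ = -((t : ℂ) ^ n * (-((ProbabilityTheory.gaussianPDFReal 0 1 t : ℝ) : ℂ) * (t : ℂ)))
      ring
    rw [e1, h, neg_neg, ← integral_const_mul]
    refine integral_congr_ae (ae_of_all _ (fun t => ?_))
    show (n : ℂ) * (t : ℂ) ^ (n - 1) * ((ProbabilityTheory.gaussianPDFReal 0 1 t : ℝ) : ℂ) =
      (n : ℂ) * (((ProbabilityTheory.gaussianPDFReal 0 1 t : ℝ) : ℂ) * (t : ℂ) ^ (n - 1))
    ring
  · refine (Stein_int2 (n + 1)).neg.congr (ae_of_all _ (fun t => ?_))
    show -(((ProbabilityTheory.gaussianPDFReal 0 1 t : ℝ) : ℂ) * (t : ℂ) ^ (n + 1)) =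
      (t : ℂ) ^ n * (-((ProbabilityTheory.gaussianPDFReal 0 1 t : ℝ) : ℂ) * (t : ℂ))
    ring
  · refine ((Stein_int2 (n - 1)).const_mul (n : ℂ)).congr (ae_of_all _ (fun t => ?_))
    show (n : ℂ) * (((ProbabilityTheory.gaussianPDFReal 0 1 t : ℝ) : ℂ) * (t : ℂ) ^ (n - 1)) =
      (n : ℂ) * (t : ℂ) ^ (n - 1) * ((ProbabilityTheory.gaussianPDFReal 0 1 t : ℝ) : ℂ)
    ring
  · refine (Stein_int2 n).congr (ae_of_all _ (fun t => ?_))
    show ((ProbabilityTheory.gaussianPDFReal 0 1 t : ℝ) : ℂ) * (t : ℂ) ^ n =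
      (t : ℂ) ^ n * ((ProbabilityTheory.gaussianPDFReal 0 1 t : ℝ) : ℂ)
    ring

/-- evaluation of a polynomial at a real point -/
def Stein_ev (k : I → ℝ) (p : MvPolynomial I ℂ) : ℂ := MvPolynomial.eval (fun i => (k i : ℂ)) p

theorem Stein_ev_mon (k : I → ℝ) (u : I →₀ ℕ) (a : ℂ) :
    Stein_ev k (MvPolynomial.monomial u a) = a * ∏ i, (k i : ℂ) ^ (u i) := by
  unfold Stein_ev
  rw [MvPolynomial.eval_monomial, Finsupp.prod_fintype]
  intro i
  exact pow_zero _

theorem Stein_mon_int (u : I → ℕ) :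
    Integrable (fun k : I → ℝ => ∏ i, (k i : ℂ) ^ (u i)) (gam I) :=
  Integrable.fintype_prod (f := fun (i : I) (t : ℝ) => (t : ℂ) ^ (u i))
    (fun i => Stein_int1 (u i))

theorem Stein_mon_val (u : I → ℕ) :
    ∫ k : I → ℝ, ∏ i, (k i : ℂ) ^ (u i) ∂(gam I) = ∏ i, Stein_M (u i) :=
  integral_fintype_prod_eq_prod (fun (i : I) (t : ℝ) => (t : ℂ) ^ (u i))

theorem Stein_ev_int (p : MvPolynomial I ℂ) :
    Integrable (fun k : I → ℝ => Stein_ev k p) (gam I) := by
  refine MvPolynomial.induction_on' p ?_ ?_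
  · intro u a
    simp only [Stein_ev_mon]
    exact (Stein_mon_int u).const_mul a
  · intro p q hp hq
    have h1 : (fun k : I → ℝ => Stein_ev k (p + q)) =
        fun k => Stein_ev k p + Stein_ev k q := by
      funext k
      exact map_add _ _ _
    rw [h1]
    exact hp.add hq

omit [Fintype I] in
theorem Stein_ev_mul (k : I → ℝ) (i : I) (p : MvPolynomial I ℂ) :
    (k i : ℂ) * Stein_ev k p = Stein_ev k (MvPolynomial.X i * p) := by
  unfold Stein_ev
  rw [map_mul, MvPolynomial.eval_X]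

theorem Stein_ev_stein (i : I) (p : MvPolynomial I ℂ) :
    ∫ k, (k i : ℂ) * Stein_ev k p ∂(gam I) =
      ∫ k, Stein_ev k (MvPolynomial.pderiv i p) ∂(gam I) := by
  refine MvPolynomial.induction_on' p ?_ ?_
  · intro u a
    rw [MvPolynomial.pderiv_monomial]
    simp only [Stein_ev_mon]
    have e1 : ∀ k : I → ℝ, (k i : ℂ) * (a * ∏ j, (k j : ℂ) ^ (u j)) =
        a * ∏ j, (k j : ℂ) ^ ((u + Finsupp.single i 1 : I →₀ ℕ) j) := by
      intro k
      have e2 : ∀ j, (k j : ℂ) ^ ((u + Finsupp.single i 1 : I →₀ ℕ) j) =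
          (k j : ℂ) ^ (u j) * (if j = i then (k i : ℂ) else 1) := by
        intro j
        rw [Finsupp.add_apply]
        split_ifs with hj
        · subst hj
          rw [Finsupp.single_eq_same, pow_succ]
        · rw [Finsupp.single_eq_of_ne hj, add_zero, mul_one]
      rw [Finset.prod_congr rfl (fun j _ => e2 j), Finset.prod_mul_distrib,
        Finset.prod_ite_eq' Finset.univ i, if_pos (Finset.mem_univ i)]
      ring
    simp only [e1]
    rw [integral_const_mul, integral_const_mul, Stein_mon_val, Stein_mon_val, mul_assoc]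
    congr 1
    rw [← Finset.mul_prod_erase Finset.univ _ (Finset.mem_univ i),
      ← Finset.mul_prod_erase Finset.univ (fun j => Stein_M ((u - Finsupp.single i 1 : I →₀ ℕ) j))
        (Finset.mem_univ i), ← mul_assoc]
    congr 1
    · rw [Finsupp.add_apply, Finsupp.single_eq_same, Stein_M_succ, Finsupp.tsub_apply,
        Finsupp.single_eq_same]
    · refine Finset.prod_congr rfl (fun j hj => ?_)
      have hji : j ≠ i := Finset.ne_of_mem_erase hj
      rw [Finsupp.add_apply, Finsupp.single_eq_of_ne hji, Finsupp.tsub_apply,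
        Finsupp.single_eq_of_ne hji, add_zero, tsub_zero]
  · intro p q hp hq
    have e1 : ∀ k : I → ℝ, (k i : ℂ) * Stein_ev k (p + q) =
        (k i : ℂ) * Stein_ev k p + (k i : ℂ) * Stein_ev k q := by
      intro k
      unfold Stein_ev
      rw [map_add, mul_add]
    have e2 : ∀ k : I → ℝ, Stein_ev k (MvPolynomial.pderiv i (p + q)) =
        Stein_ev k (MvPolynomial.pderiv i p) + Stein_ev k (MvPolynomial.pderiv i q) := by
      intro k
      unfold Stein_ev
      rw [map_add, map_add]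
    simp only [e1, e2]
    have i1 : Integrable (fun k : I → ℝ => (k i : ℂ) * Stein_ev k p) (gam I) := by
      simp only [Stein_ev_mul]
      exact Stein_ev_int _
    have i2 : Integrable (fun k : I → ℝ => (k i : ℂ) * Stein_ev k q) (gam I) := by
      simp only [Stein_ev_mul]
      exact Stein_ev_int _
    rw [integral_add i1 i2, integral_add (Stein_ev_int _) (Stein_ev_int _), hp, hq]

/-- the linear form `G (x)` as a polynomial -/
def Stein_L (S : Spec X I) (x : X) : MvPolynomial I ℂ :=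
  ∑ i, MvPolynomial.C (S.s i * (S.phi i x : ℂ)) * MvPolynomial.X i

theorem Stein_L_ev (S : Spec X I) (x : X) (k : I → ℝ) : Stein_ev k (Stein_L S x) = S.G k x := by
  unfold Stein_ev Stein_L Spec.G
  rw [map_sum]
  refine Finset.sum_congr rfl (fun i _ => ?_)
  rw [map_mul, MvPolynomial.eval_C, MvPolynomial.eval_X]

theorem Stein_L_deriv (S : Spec X I) (x : X) (i : I) :
    MvPolynomial.pderiv i (Stein_L S x) = MvPolynomial.C (S.s i * (S.phi i x : ℂ)) := by
  unfold Stein_L
  rw [map_sum, Finset.sum_eq_single i]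
  · rw [MvPolynomial.pderiv_C_mul, MvPolynomial.pderiv_X_self, mul_one]
  · intro j _ hj
    rw [MvPolynomial.pderiv_C_mul, MvPolynomial.pderiv_X_of_ne hj, mul_zero]
  · intro h
    exact absurd (Finset.mem_univ i) h

theorem Stein_prod_ev (S : Spec X I) {H : Type} (s : Finset H) (x : H → X) (k : I → ℝ) :
    Stein_ev k (∏ h ∈ s, Stein_L S (x h)) = ∏ h ∈ s, S.G k (x h) := by
  have h1 : Stein_ev k (∏ h ∈ s, Stein_L S (x h)) = ∏ h ∈ s, Stein_ev k (Stein_L S (x h)) := by
    unfold Stein_ev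
    rw [map_prod]
  rw [h1]
  exact Finset.prod_congr rfl (fun h _ => Stein_L_ev S (x h) k)

omit [Fintype I] in
theorem Stein_prod_deriv {H : Type} (s : Finset H) (f : H → MvPolynomial I ℂ) (i : I) :
    MvPolynomial.pderiv i (∏ h ∈ s, f h) =
      ∑ h ∈ s, (∏ h' ∈ s.erase h, f h') * MvPolynomial.pderiv i (f h) := by
  induction s using Finset.induction_on with
  | empty => simp
  | insert a s ha ih =>
    rw [Finset.prod_insert ha, MvPolynomial.pderiv_mul, ih, Finset.sum_insert ha,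
      Finset.erase_insert ha, Finset.mul_sum]
    rw [mul_comm (MvPolynomial.pderiv i (f a))]
    congr 1
    refine Finset.sum_congr rfl (fun h hh => ?_)
    have hne : a ≠ h := by
      rintro rfl
      exact ha hh
    rw [Finset.erase_insert_of_ne hne, Finset.prod_insert (by
      intro h1
      exact ha (Finset.mem_of_mem_erase h1))]
    ring

theorem integ (S : Spec X I) {H : Type} (s : Finset H) (x : H → X) :
    Integrable (fun k : I → ℝ => ∏ h ∈ s, S.G k (x h)) (gam I) := by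
  simp only [← Stein_prod_ev]
  exact Stein_ev_int _

theorem stein (S : Spec X I) {H : Type} (s : Finset H) (x : H → X) (x0 : X) :
    ∫ k, S.G k x0 * ∏ h ∈ s, S.G k (x h) ∂(gam I)
      = ∑ h ∈ s, ((∑ i, S.lam i * S.phi i x0 * S.phi i (x h) : ℝ) : ℂ)
          * ∫ k, ∏ h' ∈ s.erase h, S.G k (x h') ∂(gam I) := by
  have e1 : ∀ k : I → ℝ, S.G k x0 * ∏ h ∈ s, S.G k (x h) =
      ∑ i, (S.s i * (S.phi i x0 : ℂ)) * ((k i : ℂ) *
        Stein_ev k (∏ h ∈ s, Stein_L S (x h))) := by
    intro k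
    rw [Stein_prod_ev, Spec.G, Finset.sum_mul]
    refine Finset.sum_congr rfl (fun i _ => ?_)
    ring
  simp only [e1]
  rw [integral_finsetSum]
  swap
  · intro i _
    simp only [Stein_ev_mul]
    exact (Stein_ev_int _).const_mul _
  have e2 : ∀ i : I, ∫ k, (S.s i * (S.phi i x0 : ℂ)) * ((k i : ℂ) *
      Stein_ev k (∏ h ∈ s, Stein_L S (x h))) ∂(gam I) =
      ∑ h ∈ s, (S.s i * (S.phi i x0 : ℂ)) * ((S.s i * (S.phi i (x h) : ℂ)) *
        ∫ k, ∏ h' ∈ s.erase h, S.G k (x h') ∂(gam I)) := by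
    intro i
    rw [integral_const_mul, Stein_ev_stein, Stein_prod_deriv]
    have e3 : ∀ k : I → ℝ, Stein_ev k (∑ h ∈ s, (∏ h' ∈ s.erase h, Stein_L S (x h')) *
        MvPolynomial.pderiv i (Stein_L S (x h))) =
        ∑ h ∈ s, (S.s i * (S.phi i (x h) : ℂ)) * ∏ h' ∈ s.erase h, S.G k (x h') := by
      intro k
      have e4 : Stein_ev k (∑ h ∈ s, (∏ h' ∈ s.erase h, Stein_L S (x h')) *
        MvPolynomial.pderiv i (Stein_L S (x h))) = ∑ h ∈ s, Stein_ev k
          ((∏ h' ∈ s.erase h, Stein_L S (x h')) * MvPolynomial.pderiv i (Stein_L S (x h))) := by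
        unfold Stein_ev
        rw [map_sum]
      rw [e4]
      refine Finset.sum_congr rfl (fun h _ => ?_)
      rw [Stein_L_deriv]
      have e5 : Stein_ev k ((∏ h' ∈ s.erase h, Stein_L S (x h')) *
          MvPolynomial.C (S.s i * (S.phi i (x h) : ℂ))) =
          Stein_ev k (∏ h' ∈ s.erase h, Stein_L S (x h')) *
            (S.s i * (S.phi i (x h) : ℂ)) := by
        unfold Stein_ev
        rw [map_mul, MvPolynomial.eval_C]
      rw [e5, Stein_prod_ev]
      ring
    simp only [e3]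
    rw [integral_finsetSum _ (fun h _ => (integ S (s.erase h) x).const_mul _), Finset.mul_sum]
    refine Finset.sum_congr rfl (fun h _ => ?_)
    rw [integral_const_mul]
  rw [Finset.sum_congr rfl (fun i _ => e2 i), Finset.sum_comm]
  refine Finset.sum_congr rfl (fun h _ => ?_)
  push_cast
  rw [Finset.sum_mul]
  refine Finset.sum_congr rfl (fun i _ => ?_)
  have e6 := s_sq S i
  calc S.s i * (S.phi i x0 : ℂ) * (S.s i * (S.phi i (x h) : ℂ) *
        ∫ k, ∏ h' ∈ s.erase h, S.G k (x h') ∂(gam I))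
      = (S.s i * S.s i) * (S.phi i x0 : ℂ) * (S.phi i (x h) : ℂ) *
        ∫ k, ∏ h' ∈ s.erase h, S.G k (x h') ∂(gam I) := by ring
    _ = _ := by rw [e6]

end Pool.Agent.PET
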