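import Pool.Agent.PET.CDefs
/-!
# Walks : closed walks in the Petersen graph
-/
set_option autoImplicit false
open scoped BigOperators Classical
open Filter MeasureTheory
noncomputable section
namespace Pool.Agent.PET

/-- integer adjacency matrix -/
def Walks_M : Matrix (Fin 10) (Fin 10) ℤ := fun x y => if padj x y then 1 else 0

theorem Walks_M3 : Walks_M ^ 3 = (2 : ℤ) • Walks_M ^ 2 + (5 : ℤ) • Walks_M - (6 : ℤ) • (1 : Matrix (Fin 10) (Fin 10) ℤ) := by
  have h : ∀ x y : Fin 10,
      (∑ z, (∑ w, (if padj x w then (1 : ℤ) else 0) * (if padj w z then 1 else 0)) * (if padj z y then 1 else 0))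
      = 2 * (∑ w, (if padj x w then (1 : ℤ) else 0) * (if padj w y then 1 else 0))
        + 5 * (if padj x y then 1 else 0) - 6 * (if x = y then 1 else 0) := by
    decide
  ext x y
  have := h x y
  simp only [pow_succ, pow_zero, one_mul, Matrix.mul_apply, Matrix.sub_apply, Matrix.add_apply,
    Matrix.smul_apply, Matrix.one_apply, smul_eq_mul, Walks_M]
  exact this

theorem Walks_rec (j : ℕ) : Matrix.trace (Walks_M ^ (j + 3))
    = 2 * Matrix.trace (Walks_M ^ (j + 2)) + 5 * Matrix.trace (Walks_M ^ (j + 1))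
      - 6 * Matrix.trace (Walks_M ^ j) := by
  have e : Walks_M ^ (j + 3) = (2 : ℤ) • Walks_M ^ (j + 2) + (5 : ℤ) • Walks_M ^ (j + 1) - (6 : ℤ) • Walks_M ^ j := by
    rw [pow_add, Walks_M3, mul_sub, mul_add, mul_smul_comm, mul_smul_comm, mul_smul_comm, mul_one,
      ← pow_add, ← pow_succ]
  rw [e, Matrix.trace_sub, Matrix.trace_add, Matrix.trace_smul, Matrix.trace_smul, Matrix.trace_smul]
  simp

theorem Walks_t0 : Matrix.trace (Walks_M ^ 0) = 10 := by
  simp

theorem Walks_t1 : Matrix.trace (Walks_M ^ 1) = 0 := by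
  have h : ∀ x : Fin 10, (if padj x x then (1 : ℤ) else 0) = 0 := by decide
  simp only [pow_one, Matrix.trace, Matrix.diag, Walks_M, h, Finset.sum_const_zero]

theorem Walks_t2 : Matrix.trace (Walks_M ^ 2) = 30 := by
  have h : ∑ x : Fin 10, ∑ w, (if padj x w then (1 : ℤ) else 0) * (if padj w x then 1 else 0) = 30 := by decide
  simpa [Matrix.trace, Matrix.diag, pow_succ, Matrix.mul_apply, Walks_M] using h

theorem Walks_tr (j : ℕ) : Matrix.trace (Walks_M ^ j) = 3 ^ j + 5 + 4 * (-2) ^ j := by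
  induction j using Nat.strong_induction_on with
  | _ j ih =>
    match j with
    | 0 => rw [Walks_t0]; norm_num
    | 1 => rw [Walks_t1]; norm_num
    | 2 => rw [Walks_t2]; norm_num
    | (k + 3) =>
      rw [Walks_rec, ih (k + 2) (by omega), ih (k + 1) (by omega), ih k (by omega)]
      ring

/-- number of walks `c` from `x` with `j` steps ending at `y` as a sum over functions `Fin (j+1) → Fin 10` -/
theorem Walks_path (j : ℕ) (x y : Fin 10) :
    (Walks_M ^ (j + 1)) x y
      = ∑ c : Fin j → Fin 10, (∏ t : Fin (j + 1),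
          Walks_M ((Fin.cons x c : Fin (j + 1) → Fin 10) t) ((Fin.snoc c y : Fin (j + 1) → Fin 10) t)) := by
  induction j generalizing x with
  | zero =>
    simp [Fin.snoc]
  | succ j ih =>
    rw [pow_succ', Matrix.mul_apply]
    rw [← (Fin.consEquiv (fun _ : Fin (j + 1) => Fin 10)).sum_comp, Fintype.sum_prod_type]
    refine Finset.sum_congr rfl fun z _ => ?_
    rw [ih z, Finset.mul_sum]
    refine Finset.sum_congr rfl fun c _ => ?_
    rw [Fin.prod_univ_succ (n := j + 1)]
    have e0 : (Fin.snoc ((Fin.consEquiv (fun _ : Fin (j + 1) => Fin 10)) (z, c)) y : Fin (j + 2) → Fin 10) 0 = z := by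
      have : (0 : Fin (j + 2)) = Fin.castSucc (0 : Fin (j + 1)) := rfl
      rw [this, Fin.snoc_castSucc]
      simp [Fin.consEquiv]
    have hc : (Fin.consEquiv (fun _ : Fin (j + 1) => Fin 10)) (z, c) = (Fin.cons z c : Fin (j + 1) → Fin 10) := rfl
    rw [hc] at e0 ⊢
    have e1 : ∀ t : Fin (j + 1), (Fin.snoc (Fin.cons z c : Fin (j + 1) → Fin 10) y : Fin (j + 2) → Fin 10) t.succ
        = (Fin.snoc c y : Fin (j + 1) → Fin 10) t := by
      intro t
      refine Fin.lastCases ?_ (fun s => ?_) t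
      · rw [Fin.snoc_last, Fin.succ_last, Fin.snoc_last]
      · rw [Fin.snoc_castSucc, Fin.succ_castSucc, Fin.snoc_castSucc, Fin.cons_succ]
    simp only [Fin.cons_succ, Fin.cons_zero, e0, e1]

theorem walks (j : ℕ) (hj : 1 ≤ j) :
    ((Finset.univ.filter (fun c : Fin j → Fin 10 => ∀ t, padj (c t) (c (nxt t)))).card : ℝ)
      = 3 ^ j * tau j := by
  obtain ⟨k, rfl⟩ : ∃ k, j = k + 1 := ⟨j - 1, by omega⟩
  have h1 : ((Finset.univ.filter (fun c : Fin (k + 1) → Fin 10 => ∀ t, padj (c t) (c (nxt t)))).card : ℤ)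
      = Matrix.trace (Walks_M ^ (k + 1)) := by
    have e1 : ((Finset.univ.filter (fun c : Fin (k + 1) → Fin 10 => ∀ t, padj (c t) (c (nxt t)))).card : ℤ)
        = ∑ c : Fin (k + 1) → Fin 10, ∏ t, Walks_M (c t) (c (nxt t)) := by
      rw [Finset.card_filter]
      push_cast
      refine Finset.sum_congr rfl fun c _ => ?_
      by_cases h : ∀ t, padj (c t) (c (nxt t))
      · rw [if_pos h]
        symm
        apply Finset.prod_eq_one
        intro t _
        simp [Walks_M, h t]
      · rw [if_neg h]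
        push Not at h
        obtain ⟨t, ht⟩ := h
        symm
        apply Finset.prod_eq_zero (Finset.mem_univ t)
        simp [Walks_M, ht]
    rw [e1]
    rw [← (Fin.consEquiv (fun _ : Fin (k + 1) => Fin 10)).sum_comp, Fintype.sum_prod_type]
    simp only [Matrix.trace, Matrix.diag]
    refine Finset.sum_congr rfl fun x _ => ?_
    rw [Walks_path]
    refine Finset.sum_congr rfl fun c _ => ?_
    refine Finset.prod_congr rfl fun t _ => ?_
    congr 1
    have hc : (Fin.consEquiv (fun _ : Fin (k + 1) => Fin 10)) (x, c) = (Fin.cons x c : Fin (k + 1) → Fin 10) := rfl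
    rw [hc]
    refine Fin.lastCases ?_ (fun s => ?_) t
    · rw [Fin.snoc_last]
      have : (nxt (Fin.last k) : Fin (k + 1)) = 0 := by
        apply Fin.ext; simp [nxt]
      rw [this]; simp
    · rw [Fin.snoc_castSucc]
      have : (nxt (Fin.castSucc s) : Fin (k + 1)) = Fin.succ s := by
        apply Fin.ext
        simp only [nxt, Fin.val_castSucc, Fin.val_succ]
        exact Nat.mod_eq_of_lt (by omega)
      rw [this, Fin.cons_succ]
  have h2 : ((Finset.univ.filter (fun c : Fin (k + 1) → Fin 10 => ∀ t, padj (c t) (c (nxt t)))).card : ℝ)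
      = ((3 ^ (k + 1) + 5 + 4 * (-2) ^ (k + 1) : ℤ) : ℝ) := by
    rw [← Walks_tr, ← h1]; push_cast; rfl
  rw [h2]
  push_cast
  unfold tau
  have h3 : (3 : ℝ) ^ (k + 1) ≠ 0 := by positivity
  rw [div_pow]
  field_simp

theorem Walks_scaled (j : ℕ) : (3 : ℝ) ^ j * tau j = 3 ^ j + 5 + 4 * (-2) ^ j := by
  unfold tau
  have h3 : (3 : ℝ) ^ j ≠ 0 := by positivity
  rw [div_pow]
  field_simp

theorem tau_ge (j : ℕ) (hj : 1 ≤ j) : 0 ≤ tau j := by
  have h := walks j hj
  have h3 : (0 : ℝ) < 3 ^ j := by positivity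
  have : (0 : ℝ) ≤ 3 ^ j * tau j := by rw [← h]; positivity
  exact nonneg_of_mul_nonneg_right (by linarith) h3

theorem tau_pos (j : ℕ) (hj : 4 ≤ j) : 0 < tau j := by
  have h3 : (0 : ℝ) < 3 ^ j := by positivity
  have key : (0 : ℝ) < 3 ^ j * tau j := by
    rw [Walks_scaled]
    have hb : ∀ k : ℕ, (4 : ℝ) * 2 ^ (k + 4) ≤ 3 ^ (k + 4) := by
      intro k
      induction k with
      | zero => norm_num
      | succ k ih =>
        have : (0 : ℝ) < 2 ^ (k + 4) := by positivity
        have e2 : (2 : ℝ) ^ (k + 1 + 4) = 2 * 2 ^ (k + 4) := by ring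
        have e3 : (3 : ℝ) ^ (k + 1 + 4) = 3 * 3 ^ (k + 4) := by ring
        rw [e2, e3]
        have : (0 : ℝ) < 3 ^ (k + 4) := by positivity
        linarith
    obtain ⟨k, rfl⟩ : ∃ k, j = k + 4 := ⟨j - 4, by omega⟩
    have h4 := hb k
    have h5 : -(2 : ℝ) ^ (k + 4) ≤ (-2) ^ (k + 4) := by
      have : |(-2 : ℝ) ^ (k + 4)| = 2 ^ (k + 4) := by rw [abs_pow]; norm_num
      rw [← this]; exact neg_abs_le _
    linarith
  exact (mul_pos_iff_of_pos_left h3).mp key

end Pool.Agent.PET
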